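import Pool.Agent.H88.CN.Defs
import Pool.Agent.H35.CA.TrfB

/-!
# CN-AA1: support functions

`H35/CA/TrfB.lean` contains `trfb_le`, `trfb_att`, `trfb_bd`, `trfb_supp_add`, `trfb_H1`
(support functions of nonempty compact sets are sublinear and continuous).  Positivity: a ball of
radius `r > 0` around `0` is contained in `K`, so `supp K u ≥ ⟨(r/2) u/‖u‖, u⟩ > 0`.
`sup_img`: `⟨M x, u⟩ = ⟨x, M† u⟩` (`ContinuousLinearMap.adjoint_inner_right`), images of images.
-/

namespace Pool.Agent.H88.CN

open MeasureTheory Metric Set Pool.Agent.H35.CA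

variable {n : ℕ}

theorem sup_SL {K : Set (E n)} (hK : IsCompact K) (h0 : (0 : E n) ∈ interior K) :
    SL (supp K) ∧ P1 (supp K) := by
  have hne : K.Nonempty := ⟨0, interior_subset h0⟩
  have hH := trfb_H1 hK hne
  have hpos : ∀ x : E n, x ≠ 0 → 0 < supp K x := by
    intro u hu
    obtain ⟨r, hr, hb⟩ := Metric.isOpen_iff.1 isOpen_interior 0 h0
    have hn : 0 < ‖u‖ := norm_pos_iff.2 hu
    have hx : (r / 2 * ‖u‖⁻¹) • u ∈ K := by
      apply interior_subset
      apply hb
      rw [mem_ball_zero_iff, norm_smul, Real.norm_of_nonneg (by positivity), mul_assoc,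
        inv_mul_cancel₀ hn.ne', mul_one]
      linarith
    have h1 := trfb_le hK hx u
    rw [inner_smul_left, real_inner_self_eq_norm_sq] at h1
    refine lt_of_lt_of_le ?_ h1
    simp only [conj_trivial]
    positivity
  exact ⟨⟨hH.hom, fun x y => trfb_supp_add hK hne x y, hpos⟩, ⟨hH.hom, hH.cont, hpos⟩⟩

theorem sup_img (M : E n →L[ℝ] E n) (K : Set (E n)) (u : E n) :
    supp ((fun x => M x) '' K) u = supp K (ContinuousLinearMap.adjoint M u) := by
  unfold supp
  rw [image_image]
  simp only [ContinuousLinearMap.adjoint_inner_right]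

theorem sup_single (z u : E n) : supp ({z} : Set (E n)) u = inner ℝ z u := by
  unfold supp
  rw [image_singleton, csSup_singleton]

end Pool.Agent.H88.CN
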