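import Pool.Agent.H88.CN.Defs

/-!
# CN-AA2: determinants and inverses near the identity

`det_der`: Mathlib has `Matrix.det_one_add_smul`
(`det (1 + r • M) = 1 + trace M * r + (...) * r ^ 2`); transfer to linear maps with
`LinearMap.toMatrix` for the standard basis (`LinearMap.det_toMatrix`, `LinearMap.trace_eq_...`).
`inv_exp`: for `|s| ≤ s0 = 1/(2 (‖B‖ + 1))` the operator `1 - s B` is invertible (Neumann series;
or: it is injective because `‖s B x‖ ≤ ‖x‖/2`, hence bijective in finite dimension).  Let `N` be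
its inverse: `‖N x‖ ≤ 2 ‖x‖`, `N - 1 = s B N`, so `‖N - 1‖ ≤ 2 ‖B‖ |s|`, and
`N - 1 - s B = s B (N - 1)` has norm at most `2 ‖B‖² s²`; the trace is a continuous linear
functional on the finite dimensional space of operators, `|trace A| ≤ T ‖A‖` for some `T`
(`LinearMap.continuous_of_finiteDimensional` ... `ContinuousLinearMap.le_opNorm`).
-/

namespace Pool.Agent.H88.CN

open MeasureTheory Metric Set Pool.Agent.H35.CA

variable {n : ℕ}

/-- The trace of an operator. -/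
noncomputable def tr (M : E n →L[ℝ] E n) : ℝ := LinearMap.trace ℝ (E n) (M : E n →ₗ[ℝ] E n)

theorem tr_one : tr (1 : E n →L[ℝ] E n) = n := by
  have h1 : ((1 : E n →L[ℝ] E n) : E n →ₗ[ℝ] E n) = 1 := rfl
  rw [tr, h1, LinearMap.trace_one, finrank_euclideanSpace_fin]

theorem tr_lin (A B : E n →L[ℝ] E n) (s : ℝ) : tr (A + s • B) = tr A + s * tr B := by
  have h1 : ((A + s • B : E n →L[ℝ] E n) : E n →ₗ[ℝ] E n) =
      (A : E n →ₗ[ℝ] E n) + s • (B : E n →ₗ[ℝ] E n) := rfl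
  rw [tr, tr, tr, h1, map_add, map_smul, smul_eq_mul]

theorem aa2_tr_sum (A : E n →L[ℝ] E n) :
    tr A = ∑ i, inner ℝ (EuclideanSpace.basisFun (Fin n) ℝ i)
      (A (EuclideanSpace.basisFun (Fin n) ℝ i)) := by
  rw [tr, LinearMap.trace_eq_sum_inner _ (EuclideanSpace.basisFun (Fin n) ℝ)]
  rfl

theorem aa2_tr_le (A : E n →L[ℝ] E n) : |tr A| ≤ n * ‖A‖ := by
  rw [aa2_tr_sum]
  refine (Finset.abs_sum_le_sum_abs _ _).trans ?_
  calc ∑ i : Fin n, abs (inner ℝ (EuclideanSpace.basisFun (Fin n) ℝ i)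
        (A (EuclideanSpace.basisFun (Fin n) ℝ i)))
      ≤ ∑ _i : Fin n, ‖A‖ := by
        refine Finset.sum_le_sum ?_
        intro i _
        have h1 : ‖EuclideanSpace.basisFun (Fin n) ℝ i‖ = 1 :=
          (EuclideanSpace.basisFun (Fin n) ℝ).norm_eq_one i
        calc abs (inner ℝ (EuclideanSpace.basisFun (Fin n) ℝ i)
              (A (EuclideanSpace.basisFun (Fin n) ℝ i)))
            ≤ ‖EuclideanSpace.basisFun (Fin n) ℝ i‖ *
              ‖A (EuclideanSpace.basisFun (Fin n) ℝ i)‖ := abs_real_inner_le_norm _ _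
          _ ≤ ‖EuclideanSpace.basisFun (Fin n) ℝ i‖ *
              (‖A‖ * ‖EuclideanSpace.basisFun (Fin n) ℝ i‖) :=
              mul_le_mul_of_nonneg_left (A.le_opNorm _) (norm_nonneg _)
          _ = ‖A‖ := by rw [h1]; ring
    _ = n * ‖A‖ := by
        rw [Finset.sum_const, Finset.card_univ, Fintype.card_fin, nsmul_eq_mul]

theorem tr_adj (A : E n →L[ℝ] E n) : tr (ContinuousLinearMap.adjoint A) = tr A := by
  rw [aa2_tr_sum, aa2_tr_sum]
  refine Finset.sum_congr rfl ?_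
  intro i _
  rw [ContinuousLinearMap.adjoint_inner_right, real_inner_comm]

theorem aa2_det (M : E n →L[ℝ] E n) : ∃ P : Polynomial ℝ, ∀ s : ℝ,
    ((1 : E n →L[ℝ] E n) + s • M).det = 1 + tr M * s + P.eval s * s ^ 2 := by
  let b := (EuclideanSpace.basisFun (Fin n) ℝ).toBasis
  let A := LinearMap.toMatrix b b (M : E n →ₗ[ℝ] E n)
  refine ⟨(Matrix.det (1 + (Polynomial.X : Polynomial ℝ) • A.map Polynomial.C)).divX.divX, ?_⟩
  intro s
  have h1 : (((1 : E n →L[ℝ] E n) + s • M : E n →L[ℝ] E n) : E n →ₗ[ℝ] E n) =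
      LinearMap.id + s • (M : E n →ₗ[ℝ] E n) := rfl
  have h2 : LinearMap.toMatrix b b (LinearMap.id + s • (M : E n →ₗ[ℝ] E n)) = 1 + s • A := by
    rw [map_add, map_smul, LinearMap.toMatrix_id]
  have h3 : tr M = Matrix.trace A := by
    rw [tr, LinearMap.trace_eq_matrix_trace ℝ b]
  rw [ContinuousLinearMap.det, h1, ← LinearMap.det_toMatrix b, h2, Matrix.det_one_add_smul, h3]

theorem det_der (M : E n →L[ℝ] E n) :
    HasDerivAt (fun s : ℝ => |((1 : E n →L[ℝ] E n) + s • M).det|) (tr M) 0 := by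
  obtain ⟨P, hP⟩ := aa2_det M
  have h1 : HasDerivAt (fun s : ℝ => 1 + tr M * s + P.eval s * s ^ 2) (tr M) 0 := by
    have h2 := ((hasDerivAt_const (0 : ℝ) (1 : ℝ)).add
      ((hasDerivAt_id (0 : ℝ)).const_mul (tr M))).add
      ((P.hasDerivAt 0).mul (hasDerivAt_pow 2 (0 : ℝ)))
    refine (h2.congr_deriv ?_).congr_of_eventuallyEq ?_
    · simp
    · exact Filter.Eventually.of_forall fun s => rfl
  have h3 : (fun s : ℝ => |((1 : E n →L[ℝ] E n) + s • M).det|) =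
      (fun x : ℝ => |x|) ∘ fun s : ℝ => 1 + tr M * s + P.eval s * s ^ 2 := by
    funext s
    rw [Function.comp_apply, hP s]
  rw [h3]
  have h4 : HasDerivAt (fun x : ℝ => |x|) 1 (1 + tr M * 0 + P.eval 0 * 0 ^ 2) := by
    refine hasDerivAt_abs_pos ?_
    norm_num
  have h5 := HasDerivAt.comp (0 : ℝ) h4 h1
  rw [one_mul] at h5
  exact h5

theorem inv_exp (B : E n →L[ℝ] E n) : ∃ C s0 : ℝ, 0 < s0 ∧ 0 < C ∧ ∀ s : ℝ, |s| ≤ s0 →
    ∃ N : E n ≃L[ℝ] E n, (∀ x, N (x - s • B x) = x) ∧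
      ‖(N : E n →L[ℝ] E n) - 1‖ ≤ C * |s| ∧
      |tr (N : E n →L[ℝ] E n) - n - s * tr B| ≤ C * s ^ 2 := by
  obtain ⟨β, hβ⟩ : ∃ β : ℝ, β = ‖B‖ := ⟨_, rfl⟩
  have hβ0 : 0 ≤ β := by rw [hβ]; exact norm_nonneg _
  have hn0 : (0 : ℝ) ≤ n := Nat.cast_nonneg n
  refine ⟨2 * β + 2 * n * β ^ 2 + 1, 1 / (2 * (β + 1)), by positivity, by positivity, ?_⟩
  intro s hs
  have hs1 : |s| * β ≤ 1 / 2 := by
    have h1 : |s| * (2 * (β + 1)) ≤ 1 := by
      rw [le_div_iff₀ (by positivity)] at hs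
      exact hs
    nlinarith [abs_nonneg s]
  have hsB : ‖s • B‖ ≤ 1 / 2 := by
    rw [norm_smul, Real.norm_eq_abs, ← hβ]
    exact hs1
  have hlt : ‖s • B‖ < 1 := lt_of_le_of_lt hsB (by norm_num)
  let u : (E n →L[ℝ] E n)ˣ := Units.oneSub (s • B) hlt
  have hu : (u : E n →L[ℝ] E n) = 1 - s • B := rfl
  obtain ⟨K, hK⟩ : ∃ K : E n →L[ℝ] E n, K = ((u⁻¹ : (E n →L[ℝ] E n)ˣ) : E n →L[ℝ] E n) := ⟨_, rfl⟩
  have hK1 : K * (1 - s • B) = 1 := by
    rw [hK, ← hu, Units.inv_mul]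
  have hK2 : (1 - s • B) * K = 1 := by
    rw [hK, ← hu, Units.mul_inv]
  have hN : ((ContinuousLinearEquiv.ofUnit u⁻¹ : E n ≃L[ℝ] E n) : E n →L[ℝ] E n) = K := by
    rw [hK]
    rfl
  have e1 : K - 1 = (s • B) * K := by
    have h1 : K - (s • B) * K = 1 := by
      rw [sub_mul, one_mul] at hK2
      exact hK2
    rw [← h1]
    abel
  have hone : ‖(1 : E n →L[ℝ] E n)‖ ≤ 1 := ContinuousLinearMap.norm_id_le
  have hKn : ‖K‖ ≤ 2 := by
    have h1 : ‖K‖ ≤ ‖(1 : E n →L[ℝ] E n)‖ + ‖K - 1‖ := by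
      have h2 := norm_add_le (1 : E n →L[ℝ] E n) (K - 1)
      rw [add_sub_cancel] at h2
      exact h2
    have h3 : ‖K - 1‖ ≤ 1 / 2 * ‖K‖ := by
      rw [e1]
      exact (norm_mul_le _ _).trans (mul_le_mul_of_nonneg_right hsB (norm_nonneg _))
    linarith
  have hK3 : ‖K - 1‖ ≤ 2 * β * |s| := by
    rw [e1]
    calc ‖(s • B) * K‖ ≤ ‖s • B‖ * ‖K‖ := norm_mul_le _ _
      _ ≤ (|s| * β) * 2 := by
          rw [norm_smul, Real.norm_eq_abs, ← hβ]
          exact mul_le_mul_of_nonneg_left hKn (by positivity)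
      _ = 2 * β * |s| := by ring
  refine ⟨ContinuousLinearEquiv.ofUnit u⁻¹, ?_, ?_, ?_⟩
  · intro x
    have h1 : (ContinuousLinearEquiv.ofUnit u⁻¹ : E n ≃L[ℝ] E n) (x - s • B x) =
        (K * (1 - s • B)) x := by
      rw [hK]
      rfl
    rw [h1, hK1]
    rfl
  · rw [hN]
    refine hK3.trans (mul_le_mul_of_nonneg_right ?_ (abs_nonneg s))
    have : 0 ≤ 2 * (n : ℝ) * β ^ 2 := by positivity
    linarith
  · rw [hN]
    have h1 : tr K - n - s * tr B = tr (K - 1 - s • B) := by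
      have h2 : K = (K - 1 - s • B) + (1 : ℝ) • (1 + s • B) := by
        rw [one_smul]
        abel
      have h3 : tr K = tr (K - 1 - s • B) + 1 * tr (1 + s • B) := by
        rw [← tr_lin, ← h2]
      rw [h3, tr_lin 1 B s, tr_one]
      ring
    have h4 : K - 1 - s • B = (s • B) * (K - 1) := by
      rw [mul_sub, ← e1, mul_one]
    rw [h1, h4]
    calc |tr ((s • B) * (K - 1))| ≤ n * ‖(s • B) * (K - 1)‖ := aa2_tr_le _
      _ ≤ n * (‖s • B‖ * ‖K - 1‖) := mul_le_mul_of_nonneg_left (norm_mul_le _ _) hn0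
      _ ≤ n * ((|s| * β) * (2 * β * |s|)) := by
          rw [norm_smul, Real.norm_eq_abs, ← hβ]
          exact mul_le_mul_of_nonneg_left (mul_le_mul_of_nonneg_left hK3 (by positivity)) hn0
      _ = (2 * n * β ^ 2) * s ^ 2 := by
          rw [← sq_abs s]
          ring
      _ ≤ (2 * β + 2 * n * β ^ 2 + 1) * s ^ 2 := by
          refine mul_le_mul_of_nonneg_right ?_ (sq_nonneg s)
          linarith

end Pool.Agent.H88.CN
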