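import Pool.Agent.H88.CN.AA1
import Pool.Agent.H88.CN.AA2
import Pool.Agent.H35.CA.SphA

/-!
# CN-AA3: three consequences of the equation

Let `K` be a solution for `f = F|_S`, `h = supp K`, `V = vol K > 0`.  `IsSolution.var` says: for
every nonempty compact convex `L`, `s ↦ vol (K + s L)` has at `0` the right derivative
`∫_S h_L f h^(-n-1) dσ = n om(n) ∫ h_L F h^(-n-1) dmu` (`toSphere_int`, in `H35/CA/SphA.lean`).
`K + 0 • L = K`.
`st_vol`: take `L = K`: `K + s K = (1 + s) K` for `s ≥ 0` (`Convex.add_smul`), so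
`vol (K + s K) = (1 + s)^n V` with derivative `n V` at `0`; by uniqueness of the right derivative
(`HasDerivWithinAt` on `Ici 0`, `uniqueDiffWithinAt`) `n V = n om ∫ F h^(-n)`
(`h h^(-n-1) = h^(-n)` as `h > 0` off the origin; `mu n` is carried by the unit sphere, `mu_ae`).
`st_star`: take `L = M K` (compact, convex).  For `s ≥ 0`, `K + s M K ⊇ (1 + s M) K`, so
`vol (K + s M K) ≥ |det (1 + s M)| V` (`Measure.addHaar_image_continuousLinearMap`), with equality
at `s = 0`.  Comparing the right derivatives at `0` (`det_der`):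
`n om ∫ h_{MK} F h^(-n-1) dmu ≥ tr M V`, and `h_{MK} u = h (M† u)` (`sup_img`); insert
`V = om ∫ F h^(-n)` and divide by `om > 0`.
`st_cen`: take `L = {z}`: `vol (K + s {z}) = V` is constant, so the derivative is `0`.
-/

namespace Pool.Agent.H88.CN

open MeasureTheory Metric Set Pool.Agent.H35.CA
open scoped Pointwise

variable {n : ℕ}

private theorem aa3_var (hn : 1 ≤ n) {F : E n → ℝ} {K : Set (E n)}
    (hK : IsSolution (fun u : sphere (0 : E n) 1 => F u) K) {L : Set (E n)} (h1 : IsCompact L)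
    (h2 : Convex ℝ L) (h3 : L.Nonempty) :
    HasDerivWithinAt (fun s : ℝ => (volume (K + s • L)).toReal)
      ((n : ℝ) * om n * ∫ x, supp L x * (F x * (supp K x ^ (n + 1))⁻¹) ∂(mu n)) (Ici 0) 0 := by
  rw [← toSphere_int hn (fun x => supp L x * (F x * (supp K x ^ (n + 1))⁻¹))]
  exact hK.var L h1 h2 h3

private theorem aa3_uniq {f g : ℝ → ℝ} {a b : ℝ} (hf : HasDerivWithinAt f a (Ici 0) 0)
    (hg : HasDerivAt g b 0) (h : ∀ s : ℝ, 0 ≤ s → f s = g s) : a = b := by
  have h1 : HasDerivWithinAt f b (Ici 0) 0 :=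
    (hg.hasDerivWithinAt (s := Ici 0)).congr (fun s hs => h s hs) (h 0 le_rfl)
  exact (uniqueDiffOn_Ici (0 : ℝ) 0 self_mem_Ici).eq_deriv _ hf h1

private theorem aa3_mono {f g : ℝ → ℝ} {a b : ℝ} (hf : HasDerivWithinAt f a (Ici 0) 0)
    (hg : HasDerivAt g b 0) (h : ∀ s : ℝ, 0 ≤ s → g s ≤ f s) (h0 : f 0 = g 0) : b ≤ a := by
  have h1 : HasDerivWithinAt (fun s => f s - g s) (a - b) (Ici 0) 0 :=
    hf.sub (hg.hasDerivWithinAt (s := Ici 0))
  rw [hasDerivWithinAt_iff_tendsto_slope] at h1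
  have hne : (nhdsWithin (0 : ℝ) (Ici 0 \ {0})).NeBot := by
    rw [Ici_sdiff_left]
    exact nhdsGT_neBot 0
  have h2 : 0 ≤ a - b := by
    refine ge_of_tendsto h1 ?_
    filter_upwards [self_mem_nhdsWithin] with s hs
    have hs0 : 0 ≤ s := hs.1
    rw [slope_def_field]
    refine div_nonneg ?_ (by linarith)
    have := h s hs0
    linarith
  linarith

private theorem aa3_V (hn : 1 ≤ n) {F : E n → ℝ} {K : Set (E n)}
    (hK : IsSolution (fun u : sphere (0 : E n) 1 => F u) K) :
    ∫ x, supp K x * (F x * (supp K x ^ (n + 1))⁻¹) ∂(mu n) =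
      ∫ x, F x * (supp K x ^ n)⁻¹ ∂(mu n) := by
  refine integral_congr_ae ?_
  filter_upwards [mu_ae hn] with x hx
  have hx0 : x ≠ 0 := by
    intro h
    rw [h, norm_zero] at hx
    exact zero_ne_one hx
  have h1 := (sup_SL hK.compact hK.zero_mem).1.pos x hx0
  field_simp
  ring

theorem st_vol (hn : 1 ≤ n) {F : E n → ℝ} (hF : H0 F) {K : Set (E n)}
    (hK : IsSolution (fun u : sphere (0 : E n) 1 => F u) K) :
    (volume K).toReal = om n * ∫ x, F x * (supp K x ^ n)⁻¹ ∂(mu n) := by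
  have hne : K.Nonempty := ⟨0, interior_subset hK.zero_mem⟩
  have h1 := aa3_var hn hK hK.compact hK.convex hne
  rw [aa3_V hn hK] at h1
  have h2 : ∀ s : ℝ, 0 ≤ s → (volume (K + s • K)).toReal = (1 + s) ^ n * (volume K).toReal := by
    intro s hs
    have h3 : K + s • K = (1 + s) • K := by
      rw [hK.convex.add_smul zero_le_one hs, one_smul]
    rw [h3, Measure.addHaar_smul, ENNReal.toReal_mul, ENNReal.toReal_ofReal (abs_nonneg _),
      finrank_euclideanSpace_fin, abs_of_nonneg (by positivity)]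
  have h4 : HasDerivAt (fun s : ℝ => (1 + s) ^ n * (volume K).toReal)
      ((n : ℝ) * (volume K).toReal) 0 := by
    have h5 : HasDerivAt (fun s : ℝ => (1 + s) ^ n) ((n : ℝ) * (1 + 0) ^ (n - 1) * 1) 0 :=
      ((hasDerivAt_id (0 : ℝ)).const_add 1).pow n
    have h6 := h5.mul_const (volume K).toReal
    simpa using h6
  have h7 := aa3_uniq h1 h4 h2
  have hn0 : (n : ℝ) ≠ 0 := by exact_mod_cast (by omega : n ≠ 0)
  have h8 : (n : ℝ) * (volume K).toReal =
      n * (om n * ∫ x, F x * (supp K x ^ n)⁻¹ ∂(mu n)) := by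
    rw [← h7]; ring
  exact mul_left_cancel₀ hn0 h8

theorem st_star (hn : 1 ≤ n) {F : E n → ℝ} (hF : H0 F) {K : Set (E n)}
    (hK : IsSolution (fun u : sphere (0 : E n) 1 => F u) K) (M : E n →L[ℝ] E n) :
    tr M * ∫ x, F x * (supp K x ^ n)⁻¹ ∂(mu n) ≤
      n * ∫ x, supp K (ContinuousLinearMap.adjoint M x) * (F x * (supp K x ^ (n + 1))⁻¹)
        ∂(mu n) := by
  have hne : K.Nonempty := ⟨0, interior_subset hK.zero_mem⟩
  have hLc : IsCompact ((fun x => M x) '' K) := hK.compact.image M.continuous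
  have hLv : Convex ℝ ((fun x => M x) '' K) := hK.convex.linear_image (M : E n →ₗ[ℝ] E n)
  have hLn : ((fun x => M x) '' K).Nonempty := hne.image _
  have h1 := aa3_var hn hK hLc hLv hLn
  have h2 := (det_der M).mul_const (volume K).toReal
  have h3 := aa3_mono h1 h2 ?_ ?_
  · have h4 : ∀ x, supp ((fun x => M x) '' K) x = supp K (ContinuousLinearMap.adjoint M x) :=
      fun x => sup_img M K x
    simp only [h4] at h3
    rw [st_vol hn hF hK] at h3
    have h5 : om n * (tr M * ∫ x, F x * (supp K x ^ n)⁻¹ ∂(mu n)) ≤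
        om n * (n * ∫ x, supp K (ContinuousLinearMap.adjoint M x) *
          (F x * (supp K x ^ (n + 1))⁻¹) ∂(mu n)) := by
      calc om n * (tr M * ∫ x, F x * (supp K x ^ n)⁻¹ ∂(mu n)) =
          tr M * (om n * ∫ x, F x * (supp K x ^ n)⁻¹ ∂(mu n)) := by ring
        _ ≤ _ := h3
        _ = _ := by ring
    exact le_of_mul_le_mul_left h5 (om_pos n)
  · intro s hs
    have h4 : ((1 : E n →L[ℝ] E n) + s • M) '' K ⊆ K + s • ((fun x => M x) '' K) := by
      rintro _ ⟨x, hx, rfl⟩
      refine Set.add_mem_add hx (Set.smul_mem_smul_set ⟨x, hx, rfl⟩)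
    have h5 : IsCompact (K + s • ((fun x => M x) '' K)) := hK.compact.add (hLc.smul s)
    have h6 := ENNReal.toReal_mono h5.measure_ne_top (measure_mono (μ := volume) h4)
    rw [Measure.addHaar_image_continuousLinearMap, ENNReal.toReal_mul,
      ENNReal.toReal_ofReal (abs_nonneg _)] at h6
    exact h6
  · have h4 : (0 : ℝ) • ((fun x => M x) '' K) = {0} := zero_smul_set hLn
    show (volume (K + (0 : ℝ) • ((fun x => M x) '' K))).toReal = _
    rw [h4]
    simp [ContinuousLinearMap.det]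

theorem st_cen (hn : 1 ≤ n) {F : E n → ℝ} (hF : H0 F) {K : Set (E n)}
    (hK : IsSolution (fun u : sphere (0 : E n) 1 => F u) K) (z : E n) :
    ∫ x, inner ℝ z x * (F x * (supp K x ^ (n + 1))⁻¹) ∂(mu n) = 0 := by
  have h1 := aa3_var hn hK (isCompact_singleton (x := z)) (convex_singleton z)
    (singleton_nonempty z)
  have h2 : ∀ s : ℝ, 0 ≤ s → (volume (K + s • ({z} : Set (E n)))).toReal = (volume K).toReal := by
    intro s _
    rw [smul_set_singleton, add_singleton, image_add_right, measure_preimage_add_right]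
  have h3 := aa3_uniq h1 (hasDerivAt_const (0 : ℝ) (volume K).toReal) h2
  have hn0 : (n : ℝ) ≠ 0 := by exact_mod_cast (by omega : n ≠ 0)
  have h4 : ∀ x, supp ({z} : Set (E n)) x = inner ℝ z x := fun x => sup_single z x
  simp only [h4] at h3
  rcases mul_eq_zero.1 h3 with h | h
  · exact absurd h (mul_ne_zero hn0 (om_pos n).ne')
  · exact h

end Pool.Agent.H88.CN
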