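import Pool.Agent.H88.CN.Defs
import Pool.Agent.H35.CA.SphA

/-!
# CN-AA4: a second order upper bound

Proof.  `mu n` is a probability measure carried by the unit sphere (`mu_prob`, `mu_ae`).  On the
unit sphere `0 < c1 ≤ h ≤ c2` (`P1`, compactness) and `h` is Lipschitz: `h x - h y ≤ h (x - y)
≤ c2 ‖x - y‖`.  For `‖M - 1‖ ≤ s0` with `c2 s0 ≤ c1/2`, and `‖x‖ = 1`, `a = h (M x)`, `b = h x`:
`|a - b| ≤ c2 ‖M - 1‖`, so `a ≥ c1/2`.  For `a, b ≥ c1/2`, both at most `2 c2`: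
`a^(-n) ≤ b^(-n) - n b^(-n-1) (a - b) + C (a - b)²` (Taylor's formula for `t ↦ t^(-n)`, whose
second derivative is bounded on `[c1/2, 2 c2]`; or an elementary identity).  Multiply by
`F x ≥ 0`, which is bounded on the sphere (`sphA_bdd`), and integrate; all integrands are
continuous on the sphere, hence bounded there, and measurable.  Note
`b^(-n-1) (a - b) = a b^(-n-1) - b^(-n)`.
-/

namespace Pool.Agent.H88.CN

open MeasureTheory Metric Set Pool.Agent.H35.CA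

variable {n : ℕ}

private theorem aa4_pow (n : ℕ) {A B D : ℝ} (hD : 1 ≤ D) (hA : 0 ≤ A) (hB : 0 ≤ B) (hAD : A ≤ D)
    (hBD : B ≤ D) :
    A ^ n - B ^ n - n * B ^ (n - 1) * (A - B) ≤ (n : ℝ) ^ 2 * D ^ n * (A - B) ^ 2 := by
  induction n with
  | zero => simp
  | succ n ih =>
    have e1 : A ^ (n + 1) - B ^ (n + 1) - ((n + 1 : ℕ) : ℝ) * B ^ (n + 1 - 1) * (A - B) =
        A * (A ^ n - B ^ n - n * B ^ (n - 1) * (A - B)) + n * B ^ (n - 1) * (A - B) ^ 2 := by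
      rcases Nat.eq_zero_or_pos n with h | h
      · subst h; simp
      · obtain ⟨m, rfl⟩ : ∃ m, n = m + 1 := ⟨n - 1, by omega⟩
        have e2 : m + 1 + 1 - 1 = m + 1 := rfl
        have e3 : m + 1 - 1 = m := rfl
        rw [e2, e3]
        push_cast
        ring
    rw [e1]
    have h0 : 0 ≤ (A - B) ^ 2 := sq_nonneg _
    have h1 : A * (A ^ n - B ^ n - n * B ^ (n - 1) * (A - B)) ≤
        D * ((n : ℝ) ^ 2 * D ^ n * (A - B) ^ 2) :=
      (mul_le_mul_of_nonneg_left ih hA).trans (mul_le_mul_of_nonneg_right hAD (by positivity))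
    have h2 : B ^ (n - 1) ≤ D ^ (n + 1) :=
      (pow_le_pow_left₀ hB hBD _).trans (pow_le_pow_right₀ hD (by omega))
    have h3 : (n : ℝ) * B ^ (n - 1) * (A - B) ^ 2 ≤ n * D ^ (n + 1) * (A - B) ^ 2 :=
      mul_le_mul_of_nonneg_right (mul_le_mul_of_nonneg_left h2 (Nat.cast_nonneg n)) h0
    have h4 : 0 ≤ D ^ (n + 1) * (A - B) ^ 2 := by positivity
    have hn0 : (0 : ℝ) ≤ n := Nat.cast_nonneg n
    calc A * (A ^ n - B ^ n - n * B ^ (n - 1) * (A - B)) + n * B ^ (n - 1) * (A - B) ^ 2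
        ≤ D * ((n : ℝ) ^ 2 * D ^ n * (A - B) ^ 2) + n * D ^ (n + 1) * (A - B) ^ 2 :=
          add_le_add h1 h3
      _ = ((n : ℝ) ^ 2 + n) * (D ^ (n + 1) * (A - B) ^ 2) := by ring
      _ ≤ ((n : ℝ) + 1) ^ 2 * (D ^ (n + 1) * (A - B) ^ 2) :=
          mul_le_mul_of_nonneg_right (by nlinarith) h4
      _ = ((n + 1 : ℕ) : ℝ) ^ 2 * D ^ (n + 1) * (A - B) ^ 2 := by push_cast; ring

private theorem aa4_tay (hn : 1 ≤ n) {δ : ℝ} (hδ : 0 < δ) : ∃ C : ℝ, 0 ≤ C ∧ ∀ a b : ℝ,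
    δ ≤ a → δ ≤ b → (a ^ n)⁻¹ ≤ (b ^ n)⁻¹ - n * (a * (b ^ (n + 1))⁻¹ - (b ^ n)⁻¹) +
      C * (a - b) ^ 2 := by
  obtain ⟨D, hD1, hDδ⟩ : ∃ D : ℝ, 1 ≤ D ∧ δ⁻¹ ≤ D := ⟨max 1 δ⁻¹, le_max_left _ _, le_max_right _ _⟩
  have hD0 : 0 ≤ D := by linarith
  refine ⟨(n : ℝ) * D ^ (n + 2) + (n : ℝ) ^ 2 * D ^ n * D ^ 4, by positivity, ?_⟩
  intro a b ha hb
  have ha0 : 0 < a := hδ.trans_le ha
  have hb0 : 0 < b := hδ.trans_le hb
  have hA0 : 0 ≤ a⁻¹ := by positivity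
  have hB0 : 0 ≤ b⁻¹ := by positivity
  have hAD : a⁻¹ ≤ D := (inv_anti₀ hδ ha).trans hDδ
  have hBD : b⁻¹ ≤ D := (inv_anti₀ hδ hb).trans hDδ
  have h1 := aa4_pow n hD1 hA0 hB0 hAD hBD
  have hn1 : (b⁻¹) ^ (n - 1) * (b⁻¹) ^ 2 = (b⁻¹) ^ (n + 1) := by
    rw [← pow_add]; congr 1; omega
  have e1 : a⁻¹ - b⁻¹ = -(b⁻¹) ^ 2 * (a - b) + a⁻¹ * (b⁻¹) ^ 2 * (a - b) ^ 2 := by
    field_simp
    ring
  have e2 : (a⁻¹ - b⁻¹) ^ 2 = (a⁻¹) ^ 2 * (b⁻¹) ^ 2 * (a - b) ^ 2 := by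
    field_simp
    ring
  have e3 : (n : ℝ) * (b⁻¹) ^ (n - 1) * (a⁻¹ - b⁻¹) =
      -(n * (b⁻¹) ^ (n + 1) * (a - b)) + n * (a⁻¹ * (b⁻¹) ^ (n + 1)) * (a - b) ^ 2 := by
    rw [e1, ← hn1]; ring
  rw [e2, e3] at h1
  have e4 : a * (b ^ (n + 1))⁻¹ - (b ^ n)⁻¹ = (b⁻¹) ^ (n + 1) * (a - b) := by
    rw [← inv_pow, ← inv_pow]
    have : (b⁻¹) ^ n = (b⁻¹) ^ (n + 1) * b := by
      rw [pow_succ, mul_assoc, inv_mul_cancel₀ hb0.ne', mul_one]
    rw [this]; ring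
  rw [e4, ← inv_pow a, ← inv_pow b]
  have h0 : 0 ≤ (a - b) ^ 2 := sq_nonneg _
  have h2 : (n : ℝ) * (a⁻¹ * (b⁻¹) ^ (n + 1)) * (a - b) ^ 2 ≤ n * D ^ (n + 2) * (a - b) ^ 2 := by
    refine mul_le_mul_of_nonneg_right (mul_le_mul_of_nonneg_left ?_ (Nat.cast_nonneg n)) h0
    calc a⁻¹ * (b⁻¹) ^ (n + 1) ≤ D * D ^ (n + 1) :=
          mul_le_mul hAD (pow_le_pow_left₀ hB0 hBD _) (by positivity) hD0
      _ = D ^ (n + 2) := by ring
  have h3 : (n : ℝ) ^ 2 * D ^ n * ((a⁻¹) ^ 2 * (b⁻¹) ^ 2 * (a - b) ^ 2) ≤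
      (n : ℝ) ^ 2 * D ^ n * D ^ 4 * (a - b) ^ 2 := by
    have h4 : (a⁻¹) ^ 2 * (b⁻¹) ^ 2 ≤ D ^ 4 := by
      calc (a⁻¹) ^ 2 * (b⁻¹) ^ 2 ≤ D ^ 2 * D ^ 2 :=
            mul_le_mul (pow_le_pow_left₀ hA0 hAD _) (pow_le_pow_left₀ hB0 hBD _) (by positivity)
              (by positivity)
        _ = D ^ 4 := by ring
    calc (n : ℝ) ^ 2 * D ^ n * ((a⁻¹) ^ 2 * (b⁻¹) ^ 2 * (a - b) ^ 2) =
          ((n : ℝ) ^ 2 * D ^ n * (a - b) ^ 2) * ((a⁻¹) ^ 2 * (b⁻¹) ^ 2) := by ring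
      _ ≤ ((n : ℝ) ^ 2 * D ^ n * (a - b) ^ 2) * D ^ 4 :=
          mul_le_mul_of_nonneg_left h4 (by positivity)
      _ = _ := by ring
  nlinarith

private theorem aa4_aesm (hn : 1 ≤ n) {F : E n → ℝ} (hF : H0 F) :
    AEStronglyMeasurable F (mu n) := by
  have h := hF.cont.aestronglyMeasurable (μ := mu n) (measurableSet_singleton (0 : E n)).compl
  have h1 : (mu n).restrict {0}ᶜ = mu n := by
    refine Measure.restrict_eq_self_of_ae_mem ?_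
    filter_upwards [mu_ae hn] with x hx h
    rw [mem_singleton_iff] at h
    rw [h, norm_zero] at hx
    exact zero_ne_one hx
  rwa [h1] at h

theorem ex4 (hn : 1 ≤ n) {F h : E n → ℝ} (hF : H0 F) (hF0 : ∀ x, x ≠ 0 → 0 ≤ F x)
    (hh : SL h) (hP : P1 h) :
    ∃ C s0 : ℝ, 0 < s0 ∧ 0 < C ∧ ∀ M : E n →L[ℝ] E n, ‖M - 1‖ ≤ s0 →
      ∫ x, F x * (h (M x) ^ n)⁻¹ ∂(mu n) ≤ ∫ x, F x * (h x ^ n)⁻¹ ∂(mu n)
        - n * (∫ x, h (M x) * (F x * (h x ^ (n + 1))⁻¹) ∂(mu n)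
          - ∫ x, F x * (h x ^ n)⁻¹ ∂(mu n)) + C * ‖M - 1‖ ^ 2 := by
  have hprob := mu_prob hn
  obtain ⟨c1, hc1, hlow⟩ := sphA_lower hn hP
  obtain ⟨CF, hCF⟩ := sphA_bdd hn hF
  obtain ⟨c2, hc2⟩ : ∃ c2 : ℝ, ∀ x : E n, h x ≤ c2 * ‖x‖ := by
    obtain ⟨C, hC⟩ := (isCompact_sphere (0 : E n) 1).exists_bound_of_continuousOn
      (hP.cont.continuousOn (s := sphere (0 : E n) 1))
    refine ⟨C, fun x => ?_⟩
    by_cases hx : x = 0
    · have := hP.hom 0 le_rfl 0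
      rw [zero_smul, zero_mul] at this
      rw [hx, norm_zero, mul_zero, this]
    · have h2 := hC (un x) (by simpa using sphA_un_norm hx)
      unfold un at h2
      rw [hP.hom _ (inv_nonneg.mpr (norm_nonneg x)), Real.norm_eq_abs] at h2
      have h3 := (le_abs_self _).trans h2
      rw [inv_mul_eq_div, div_le_iff₀ (norm_pos_iff.mpr hx)] at h3
      exact h3
  have hCF0 : 0 ≤ CF := by
    obtain ⟨x, hx⟩ : ∃ x : E n, x ≠ 0 := by
      have : Nonempty (Fin n) := ⟨⟨0, hn⟩⟩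
      exact exists_ne 0
    exact (abs_nonneg _).trans (hCF x hx)
  have hc12 : 0 < c2 := by
    obtain ⟨x, hx⟩ : ∃ x : E n, x ≠ 0 := by
      have : Nonempty (Fin n) := ⟨⟨0, hn⟩⟩
      exact exists_ne 0
    have h1 := (hP.pos x hx).trans_le (hc2 x)
    exact pos_of_mul_pos_left h1 (norm_nonneg x)
  have hδ : 0 < c1 / 2 := by positivity
  obtain ⟨C0, hC0, htay⟩ := aa4_tay hn hδ
  refine ⟨CF * C0 * c2 ^ 2 + 1, min (c1 / (2 * c2)) 1, lt_min (by positivity) one_pos,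
    by positivity, ?_⟩
  intro M hM
  have hM1 : ‖M - 1‖ ≤ c1 / (2 * c2) := hM.trans (min_le_left _ _)
  have hM2 : ‖M - 1‖ ≤ 1 := hM.trans (min_le_right _ _)
  have hM3 : c2 * ‖M - 1‖ ≤ c1 / 2 := by
    calc c2 * ‖M - 1‖ ≤ c2 * (c1 / (2 * c2)) := mul_le_mul_of_nonneg_left hM1 hc12.le
      _ = c1 / 2 := by field_simp
  have hpt : ∀ x : E n, ‖x‖ = 1 → |h (M x) - h x| ≤ c2 * ‖M - 1‖ ∧ c1 / 2 ≤ h (M x) ∧
      c1 / 2 ≤ h x ∧ h (M x) ≤ 2 * c2 := by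
    intro x hx
    have h1 : ‖M x - x‖ ≤ ‖M - 1‖ := by
      have := (M - 1).le_opNorm x
      rw [hx, mul_one] at this
      exact this
    have h2 : h (M x) ≤ h x + c2 * ‖M - 1‖ := by
      calc h (M x) = h (x + (M x - x)) := by rw [add_sub_cancel]
        _ ≤ h x + h (M x - x) := hh.sub _ _
        _ ≤ h x + c2 * ‖M x - x‖ := by linarith [hc2 (M x - x)]
        _ ≤ h x + c2 * ‖M - 1‖ := by
          have := mul_le_mul_of_nonneg_left h1 hc12.le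
          linarith
    have h3 : h x ≤ h (M x) + c2 * ‖M - 1‖ := by
      calc h x = h (M x + (x - M x)) := by rw [add_sub_cancel]
        _ ≤ h (M x) + h (x - M x) := hh.sub _ _
        _ ≤ h (M x) + c2 * ‖x - M x‖ := by linarith [hc2 (x - M x)]
        _ ≤ h (M x) + c2 * ‖M - 1‖ := by
          rw [norm_sub_rev x]
          have := mul_le_mul_of_nonneg_left h1 hc12.le
          linarith
    have h4 : c1 ≤ h x := by
      have := hlow x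
      rwa [hx, mul_one] at this
    have h5 : h x ≤ c2 := by
      have := hc2 x
      rwa [hx, mul_one] at this
    refine ⟨abs_le.2 ⟨by linarith, by linarith⟩, by linarith, by linarith, ?_⟩
    have : c2 * ‖M - 1‖ ≤ c2 * 1 := mul_le_mul_of_nonneg_left hM2 hc12.le
    linarith
  have hmF := aa4_aesm hn hF
  have hmh : Measurable h := hP.cont.measurable
  have hmM : Measurable fun x => h (M x) := (hP.cont.comp M.continuous).measurable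
  have hFb : ∀ x : E n, ‖x‖ = 1 → |F x| ≤ CF := by
    intro x hx
    refine hCF x fun h0 => ?_
    rw [h0, norm_zero] at hx
    exact zero_ne_one hx
  have i1 : Integrable (fun x => F x * (h (M x) ^ n)⁻¹) (mu n) := by
    refine Integrable.of_bound (hmF.mul ((hmM.pow_const n).inv).aestronglyMeasurable)
      (CF * ((c1 / 2) ^ n)⁻¹) ?_
    filter_upwards [mu_ae hn] with x hx
    obtain ⟨_, h2, _, _⟩ := hpt x hx
    have h3 : 0 < h (M x) := hδ.trans_le h2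
    rw [Real.norm_eq_abs, abs_mul, abs_of_nonneg (by positivity : 0 ≤ (h (M x) ^ n)⁻¹)]
    exact mul_le_mul (hFb x hx) (inv_anti₀ (by positivity) (pow_le_pow_left₀ hδ.le h2 n))
      (by positivity) hCF0
  have i2 : Integrable (fun x => F x * (h x ^ n)⁻¹) (mu n) := by
    refine Integrable.of_bound (hmF.mul ((hmh.pow_const n).inv).aestronglyMeasurable)
      (CF * ((c1 / 2) ^ n)⁻¹) ?_
    filter_upwards [mu_ae hn] with x hx
    obtain ⟨_, _, h2, _⟩ := hpt x hx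
    have h3 : 0 < h x := hδ.trans_le h2
    rw [Real.norm_eq_abs, abs_mul, abs_of_nonneg (by positivity : 0 ≤ (h x ^ n)⁻¹)]
    exact mul_le_mul (hFb x hx) (inv_anti₀ (by positivity) (pow_le_pow_left₀ hδ.le h2 n))
      (by positivity) hCF0
  have i3 : Integrable (fun x => h (M x) * (F x * (h x ^ (n + 1))⁻¹)) (mu n) := by
    refine Integrable.of_bound (hmM.aestronglyMeasurable.mul
      (hmF.mul ((hmh.pow_const (n + 1)).inv).aestronglyMeasurable))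
      ((2 * c2) * (CF * ((c1 / 2) ^ (n + 1))⁻¹)) ?_
    filter_upwards [mu_ae hn] with x hx
    obtain ⟨_, h1, h2, h4⟩ := hpt x hx
    have h3 : 0 < h x := hδ.trans_le h2
    have h5 : 0 < h (M x) := hδ.trans_le h1
    rw [Real.norm_eq_abs, abs_mul, abs_mul, abs_of_pos h5,
      abs_of_nonneg (by positivity : 0 ≤ (h x ^ (n + 1))⁻¹)]
    refine mul_le_mul h4 ?_ (by positivity) (by positivity)
    exact mul_le_mul (hFb x hx) (inv_anti₀ (by positivity) (pow_le_pow_left₀ hδ.le h2 (n + 1)))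
      (by positivity) hCF0
  have hrhs : ∫ x, F x * (h x ^ n)⁻¹ ∂(mu n)
        - n * (∫ x, h (M x) * (F x * (h x ^ (n + 1))⁻¹) ∂(mu n)
          - ∫ x, F x * (h x ^ n)⁻¹ ∂(mu n)) + CF * C0 * c2 ^ 2 * ‖M - 1‖ ^ 2 =
      ∫ x, (F x * (h x ^ n)⁻¹ - n * (h (M x) * (F x * (h x ^ (n + 1))⁻¹) - F x * (h x ^ n)⁻¹) +
        CF * C0 * c2 ^ 2 * ‖M - 1‖ ^ 2) ∂(mu n) := by
    have j1 : Integrable (fun x => h (M x) * (F x * (h x ^ (n + 1))⁻¹) - F x * (h x ^ n)⁻¹)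
        (mu n) := i3.sub i2
    have j2 : Integrable (fun x => (n : ℝ) *
        (h (M x) * (F x * (h x ^ (n + 1))⁻¹) - F x * (h x ^ n)⁻¹)) (mu n) := j1.const_mul _
    have j3 : Integrable (fun x => F x * (h x ^ n)⁻¹ - (n : ℝ) *
        (h (M x) * (F x * (h x ^ (n + 1))⁻¹) - F x * (h x ^ n)⁻¹)) (mu n) := i2.sub j2
    rw [integral_add j3 (integrable_const _), integral_sub i2 j2, integral_const_mul,
      integral_sub i3 i2, integral_const, probReal_univ, one_smul]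
  have hmain : ∫ x, F x * (h (M x) ^ n)⁻¹ ∂(mu n) ≤ ∫ x, F x * (h x ^ n)⁻¹ ∂(mu n)
        - n * (∫ x, h (M x) * (F x * (h x ^ (n + 1))⁻¹) ∂(mu n)
          - ∫ x, F x * (h x ^ n)⁻¹ ∂(mu n)) + CF * C0 * c2 ^ 2 * ‖M - 1‖ ^ 2 := by
    rw [hrhs]
    refine integral_mono_ae i1 ((i2.sub ((i3.sub i2).const_mul _)).add (integrable_const _)) ?_
    filter_upwards [mu_ae hn] with x hx
    obtain ⟨h0, h1, h2, _⟩ := hpt x hx
    have h3 := htay (h (M x)) (h x) h1 h2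
    have hF0x : 0 ≤ F x := by
      refine hF0 x fun h0 => ?_
      rw [h0, norm_zero] at hx
      exact zero_ne_one hx
    have hFx : F x ≤ CF := (le_abs_self _).trans (hFb x hx)
    have h4 := mul_le_mul_of_nonneg_left h3 hF0x
    have h5 : (h (M x) - h x) ^ 2 ≤ (c2 * ‖M - 1‖) ^ 2 := by
      rw [← sq_abs]
      exact pow_le_pow_left₀ (abs_nonneg _) h0 2
    have h6 : F x * (C0 * (h (M x) - h x) ^ 2) ≤ CF * (C0 * (c2 * ‖M - 1‖) ^ 2) :=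
      mul_le_mul hFx (mul_le_mul_of_nonneg_left h5 hC0) (by positivity) hCF0
    show F x * (h (M x) ^ n)⁻¹ ≤ F x * (h x ^ n)⁻¹ -
      n * (h (M x) * (F x * (h x ^ (n + 1))⁻¹) - F x * (h x ^ n)⁻¹) +
        CF * C0 * c2 ^ 2 * ‖M - 1‖ ^ 2
    calc F x * (h (M x) ^ n)⁻¹ ≤ F x * ((h x ^ n)⁻¹ -
          n * (h (M x) * (h x ^ (n + 1))⁻¹ - (h x ^ n)⁻¹) + C0 * (h (M x) - h x) ^ 2) := h4
      _ = F x * (h x ^ n)⁻¹ -
        n * (h (M x) * (F x * (h x ^ (n + 1))⁻¹) - F x * (h x ^ n)⁻¹) +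
          F x * (C0 * (h (M x) - h x) ^ 2) := by ring
      _ ≤ F x * (h x ^ n)⁻¹ -
        n * (h (M x) * (F x * (h x ^ (n + 1))⁻¹) - F x * (h x ^ n)⁻¹) +
          CF * (C0 * (c2 * ‖M - 1‖) ^ 2) := by linarith
      _ = _ := by ring
  refine hmain.trans ?_
  have : 0 ≤ ‖M - 1‖ ^ 2 := by positivity
  nlinarith

end Pool.Agent.H88.CN
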