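import Pool.Agent.H88.CN.Defs
import Pool.Agent.H35.CA.SphA

/-!
# CN-AA5: differentiation under the integral

Proof.  `mu n` is a probability measure carried by the unit sphere.  For `‖x‖ = 1` and
`|s| < s0 = 1/(2(‖B‖+1))` the point `x - s B x` has norm between `1/2` and `3/2`; on this annulus
`fderiv ℝ F` is continuous, hence bounded, by `A` say, and `s ↦ F (x - s B x)` has derivative
`- fderiv ℝ F (x - s B x) (B x)`, bounded by `A ‖B‖`.  `(h x ^ n)⁻¹` is bounded on the sphere.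
Apply `hasDerivAt_integral_of_dominated_loc_of_deriv_le` (measurability: continuity on the
sphere, or restrict to the sphere; `F` is continuous off the origin so it is measurable).
-/

namespace Pool.Agent.H88.CN

open MeasureTheory Metric Set Pool.Agent.H35.CA

variable {n : ℕ}

theorem aa5_restrict (hn : 1 ≤ n) : (mu n).restrict (sphere (0 : E n) 1) = mu n := by
  refine Measure.restrict_eq_self_of_ae_mem ?_
  filter_upwards [mu_ae hn] with x hx
  simpa using hx

theorem aa5_aesm (hn : 1 ≤ n) {G : E n → ℝ} (hG : ContinuousOn G (sphere (0 : E n) 1)) :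
    AEStronglyMeasurable G (mu n) := by
  have h := hG.aestronglyMeasurable (μ := mu n) isClosed_sphere.measurableSet
  rwa [aa5_restrict hn] at h

theorem aa5_int (hn : 1 ≤ n) {G : E n → ℝ} (hG : ContinuousOn G (sphere (0 : E n) 1)) :
    Integrable G (mu n) := by
  have := mu_prob hn
  have h : IntegrableOn G (sphere (0 : E n) 1) (mu n) :=
    hG.integrableOn_compact (isCompact_sphere _ _)
  unfold IntegrableOn at h
  rwa [aa5_restrict hn] at h

theorem aa5_norm {B : E n →L[ℝ] E n} {x : E n} (hx : ‖x‖ = 1) {s : ℝ}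
    (hs : |s| < 1 / (2 * (‖B‖ + 1))) :
    1 / 2 ≤ ‖x - s • B x‖ ∧ ‖x - s • B x‖ ≤ 3 / 2 := by
  have hB := norm_nonneg B
  have h1 : ‖s • B x‖ ≤ 1 / 2 := by
    rw [norm_smul, Real.norm_eq_abs]
    have h2 : ‖B x‖ ≤ ‖B‖ := by
      have := B.le_opNorm x
      rwa [hx, mul_one] at this
    have h3 : |s| * ‖B x‖ ≤ 1 / (2 * (‖B‖ + 1)) * (‖B‖ + 1) :=
      mul_le_mul hs.le (by linarith) (norm_nonneg _) (by positivity)
    refine h3.trans (le_of_eq ?_)
    field_simp
  constructor
  · have := norm_sub_norm_le x (s • B x)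
    linarith
  · have := norm_sub_le x (s • B x)
    linarith

theorem aa5_ne {B : E n →L[ℝ] E n} {x : E n} (hx : ‖x‖ = 1) {s : ℝ}
    (hs : |s| < 1 / (2 * (‖B‖ + 1))) : x - s • B x ≠ 0 := by
  intro h
  have := (aa5_norm hx hs).1
  rw [h, norm_zero] at this
  linarith

theorem aa5_inv {h : E n → ℝ} (hP : P1 h) :
    ContinuousOn (fun x => (h x ^ n)⁻¹) (sphere (0 : E n) 1) := by
  refine ContinuousOn.inv₀ (hP.cont.pow n).continuousOn ?_
  intro x hx
  have hx1 : ‖x‖ = 1 := by simpa using hx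
  have hx0 : x ≠ 0 := fun h0 => by rw [h0, norm_zero] at hx1; exact zero_ne_one hx1
  exact pow_ne_zero _ (hP.pos x hx0).ne'

theorem der5 (hn : 1 ≤ n) {F h : E n → ℝ} (hF : Sm 1 F) (hP : P1 h) (B : E n →L[ℝ] E n) :
    HasDerivAt (fun s : ℝ => ∫ x, F (x - s • B x) * (h x ^ n)⁻¹ ∂(mu n))
      (-∫ x, fderiv ℝ F x (B x) * (h x ^ n)⁻¹ ∂(mu n)) 0 := by
  have hprob := mu_prob hn
  have hop : IsOpen ({0}ᶜ : Set (E n)) := isOpen_compl_singleton
  have hFc : ContinuousOn F {0}ᶜ := hF.smooth.continuousOn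
  have hdc : ContinuousOn (fderiv ℝ F) {0}ᶜ :=
    hF.smooth.continuousOn_fderiv_of_isOpen hop (by norm_num)
  have hdiff : ∀ y : E n, y ≠ 0 → HasFDerivAt F (fderiv ℝ F y) y := by
    intro y hy
    have h1 : DifferentiableOn ℝ F {0}ᶜ := hF.smooth.differentiableOn (by norm_num)
    exact (h1.differentiableAt (hop.mem_nhds hy)).hasFDerivAt
  set K : Set (E n) := closedBall 0 (3 / 2) ∩ {y | 1 / 2 ≤ ‖y‖} with hK
  have hKc : IsCompact K :=
    (isCompact_closedBall _ _).inter_right (isClosed_le continuous_const continuous_norm)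
  have hK0 : K ⊆ {0}ᶜ := by
    intro y hy h0
    rw [mem_singleton_iff] at h0
    have h2 : (1 / 2 : ℝ) ≤ ‖y‖ := hy.2
    rw [h0, norm_zero] at h2
    linarith
  obtain ⟨A, hA⟩ := hKc.exists_bound_of_continuousOn (hdc.mono hK0)
  obtain ⟨m, hm, hml⟩ := sphA_lower hn hP
  set s0 : ℝ := 1 / (2 * (‖B‖ + 1)) with hs0
  have hB := norm_nonneg B
  have hs0p : 0 < s0 := by rw [hs0]; positivity
  have hlin : ∀ s : ℝ, Continuous fun x : E n => x - s • B x := by
    intro s
    fun_prop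
  have hFs : ∀ s : ℝ, |s| < s0 →
      ContinuousOn (fun x => F (x - s • B x) * (h x ^ n)⁻¹) (sphere (0 : E n) 1) := by
    intro s hs
    refine ContinuousOn.mul ?_ (aa5_inv hP)
    refine hFc.comp (hlin s).continuousOn ?_
    intro x hx
    exact aa5_ne (by simpa using hx) hs
  have hball : ball (0 : ℝ) s0 ∈ nhds (0 : ℝ) := ball_mem_nhds 0 hs0p
  have hmem : ∀ s ∈ ball (0 : ℝ) s0, |s| < s0 := by
    intro s hs
    simpa using hs
  have key := hasDerivAt_integral_of_dominated_loc_of_deriv_le (μ := mu n) (𝕜 := ℝ)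
    (F := fun (s : ℝ) (x : E n) => F (x - s • B x) * (h x ^ n)⁻¹)
    (F' := fun (s : ℝ) (x : E n) => -(fderiv ℝ F (x - s • B x) (B x)) * (h x ^ n)⁻¹)
    (x₀ := (0 : ℝ)) (s := ball (0 : ℝ) s0) (bound := fun _ => A * ‖B‖ * (m ^ n)⁻¹)
    hball ?_ ?_ ?_ ?_ (integrable_const _) ?_
  · have h2 := key.2
    have e : (∫ x, -(fderiv ℝ F (x - (0 : ℝ) • B x) (B x)) * (h x ^ n)⁻¹ ∂(mu n)) =
        -∫ x, fderiv ℝ F x (B x) * (h x ^ n)⁻¹ ∂(mu n) := by
      rw [← integral_neg]
      refine integral_congr_ae (Filter.Eventually.of_forall fun x => ?_)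
      simp only [zero_smul, sub_zero, neg_mul]
    rw [← e]
    exact h2
  · filter_upwards [hball] with s hs
    exact aa5_aesm hn (hFs s (hmem s hs))
  · exact aa5_int hn (hFs 0 (by rw [abs_zero]; exact hs0p))
  · refine aa5_aesm hn ?_
    refine ContinuousOn.mul ?_ (aa5_inv hP)
    refine ContinuousOn.neg ?_
    refine ContinuousOn.clm_apply ?_ B.continuous.continuousOn
    refine hdc.comp (hlin 0).continuousOn ?_
    intro x hx
    exact aa5_ne (s := 0) (B := B) (by simpa using hx) (by rw [abs_zero]; exact hs0p)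
  · filter_upwards [mu_ae hn] with x hx s hs
    have h1 := aa5_norm (B := B) hx (hmem s hs)
    have hyK : x - s • B x ∈ K := ⟨by simpa using h1.2, h1.1⟩
    have h2 := hA _ hyK
    have h3 : ‖B x‖ ≤ ‖B‖ := by
      have := B.le_opNorm x
      rwa [hx, mul_one] at this
    have h4 : ‖fderiv ℝ F (x - s • B x) (B x)‖ ≤ A * ‖B‖ :=
      ((fderiv ℝ F (x - s • B x)).le_opNorm (B x)).trans
        (mul_le_mul h2 h3 (norm_nonneg _) ((norm_nonneg _).trans h2))
    have h5 : m ≤ h x := by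
      have := hml x
      rwa [hx, mul_one] at this
    have h6 : ‖(h x ^ n)⁻¹‖ ≤ (m ^ n)⁻¹ := by
      rw [Real.norm_of_nonneg (inv_nonneg.mpr (pow_nonneg (hm.le.trans h5) n))]
      exact inv_anti₀ (pow_pos hm n) (pow_le_pow_left₀ hm.le h5 n)
    rw [norm_mul, norm_neg]
    exact mul_le_mul h4 h6 (norm_nonneg _) ((norm_nonneg _).trans h4)
  · filter_upwards [mu_ae hn] with x hx s hs
    have h1 := aa5_ne (B := B) hx (hmem s hs)
    have h2 : HasDerivAt (fun s : ℝ => x - s • B x) (-(B x)) s := by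
      have h3 := ((hasDerivAt_id s).smul_const (B x)).const_sub x
      rw [one_smul] at h3
      exact h3
    have h4 := (hdiff _ h1).comp_hasDerivAt s h2
    rw [map_neg] at h4
    exact h4.mul_const _

theorem sm_h0 {F : E n → ℝ} (hF : Sm 1 F) : H0 F :=
  ⟨hF.hom, hF.smooth.continuousOn⟩

end Pool.Agent.H88.CN
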