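import Pool.Agent.H88.CN.AA2
import Pool.Agent.H88.CN.AA4
import Pool.Agent.H88.CN.AA5

/-!
# CN-AA6: the Kazdan-Warner type identities (Chou-Wang)

Proof.  `I0 = ∫ F h^(-n) dmu`.  Let `N = N_s` be the inverse of `1 - s B` (`inv_exp`), `|s| ≤ s0`.
(1) `ex4` with `M = N` and `hstar` with `M = N†` (`adjoint (adjoint N) = N`, `tr_adj`):
`∫ h (N x) F h^(-n-1) ≥ (tr N / n) I0`, so (`n ≥ 1`)
`Ψ(s) := ∫ F x h(N_s x)^(-n) dmu ≤ I0 - n ((tr N/n) I0 - I0) + C ‖N - 1‖²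
= (1 - (tr N - n)) I0 + C ‖N-1‖² ≤ (1 - s tr B) I0 + C' s²` (`I0 ≥ 0` and `inv_exp`).
(2) `lin_cov` (in `H35/CA/SphA.lean`) with `A = N` and the function `x ↦ F (x - s B x)`, which is
`H0` for `|s| ≤ s0` (`x - s B x ≠ 0`): `F (N x - s B (N x)) = F x` (`N` is also a right inverse),
so `Ψ(s) = |det N|⁻¹ Φ(s)`, `Φ(s) = ∫ F (x - s B x) h(x)^(-n) dmu`, and
`|det N|⁻¹ = |det (1 - s B)|`.
(3) So `g(s) := |det (1 - s B)| Φ(s) - (1 - s tr B) I0 ≤ C' s²` for `|s| ≤ s0`, `g(0) = 0`, and `g`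
is differentiable at `0` with `g'(0) = - tr B I0 - ∫ fderiv F x (B x) h^(-n) + tr B I0`
(`det_der` with `-B`, `der5`).  Hence `g'(0) = 0` (`g(s) ≤ C' s²` for both signs of `s`).
-/

namespace Pool.Agent.H88.CN

open MeasureTheory Metric Set Pool.Agent.H35.CA

variable {n : ℕ}

theorem aa6_max {g : ℝ → ℝ} {D C s0 : ℝ} (hg : HasDerivAt g D 0) (h0 : g 0 = 0) (hs0 : 0 < s0)
    (hb : ∀ s : ℝ, |s| ≤ s0 → g s ≤ C * s ^ 2) : D = 0 := by
  have h1 : HasDerivAt (fun s : ℝ => g s - C * s ^ 2) (D - C * (((2 : ℕ) : ℝ) * 0 ^ (2 - 1) * 1)) 0 :=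
    hg.sub ((HasDerivAt.pow (hasDerivAt_id (0 : ℝ)) 2).const_mul C)
  have h2 : IsLocalMax (fun s : ℝ => g s - C * s ^ 2) 0 := by
    have h3 : Metric.closedBall (0 : ℝ) s0 ∈ nhds (0 : ℝ) := Metric.closedBall_mem_nhds _ hs0
    filter_upwards [h3] with s hs
    rw [mem_closedBall_zero_iff, Real.norm_eq_abs] at hs
    have h4 := hb s hs
    rw [h0]
    linarith
  have h5 := h2.hasDerivAt_eq_zero h1
  simpa using h5

theorem aa6_tr_neg (B : E n →L[ℝ] E n) : tr (-B) = -tr B := by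
  unfold tr
  rw [← map_neg]
  rfl

theorem aa6_det {B : E n →L[ℝ] E n} {s : ℝ} {N : E n ≃L[ℝ] E n} (hN : ∀ x, N (x - s • B x) = x) :
    |(N : E n →L[ℝ] E n).det|⁻¹ = |((1 : E n →L[ℝ] E n) + s • (-B)).det| := by
  have h1 : (N : E n →L[ℝ] E n).comp ((1 : E n →L[ℝ] E n) + s • (-B)) = 1 := by
    ext1 x
    have h2 : ((1 : E n →L[ℝ] E n) + s • (-B)) x = x - s • B x := by
      simp [sub_eq_add_neg]
    change N (((1 : E n →L[ℝ] E n) + s • (-B)) x) = x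
    rw [h2, hN]
  have h3 : (N : E n →L[ℝ] E n).det * ((1 : E n →L[ℝ] E n) + s • (-B)).det = 1 := by
    have h4 := congrArg (fun A : E n →L[ℝ] E n => A.det) h1
    have h5 : ((N : E n →L[ℝ] E n).comp ((1 : E n →L[ℝ] E n) + s • (-B))).det =
        (N : E n →L[ℝ] E n).det * ((1 : E n →L[ℝ] E n) + s • (-B)).det := by
      unfold ContinuousLinearMap.det
      exact LinearMap.det_comp _ _
    have h6 : (1 : E n →L[ℝ] E n).det = 1 := by
      unfold ContinuousLinearMap.det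
      exact LinearMap.det_id
    simp only at h4
    rw [h5, h6] at h4
    exact h4
  have h7 := congrArg abs h3
  rw [abs_mul, abs_one] at h7
  exact inv_eq_of_mul_eq_one_right h7

theorem kw_sph (hn : 1 ≤ n) {F h : E n → ℝ} (hF : Sm 1 F) (hF0 : ∀ x, x ≠ 0 → 0 ≤ F x)
    (hh : SL h) (hP : P1 h)
    (hstar : ∀ M : E n →L[ℝ] E n, tr M * ∫ x, F x * (h x ^ n)⁻¹ ∂(mu n) ≤
      n * ∫ x, h (ContinuousLinearMap.adjoint M x) * (F x * (h x ^ (n + 1))⁻¹) ∂(mu n))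
    (B : E n →L[ℝ] E n) : ∫ x, fderiv ℝ F x (B x) * (h x ^ n)⁻¹ ∂(mu n) = 0 := by
  have hH := sm_h0 hF
  obtain ⟨C1, s1, hs1, hC1, h1⟩ := inv_exp B
  obtain ⟨C2, s2, hs2, hC2, h2⟩ := ex4 hn hH hF0 hh hP
  obtain ⟨I0, hI0⟩ : ∃ I0, I0 = ∫ x, F x * (h x ^ n)⁻¹ ∂(mu n) := ⟨_, rfl⟩
  have hI0n : 0 ≤ I0 := by
    rw [hI0]
    apply integral_nonneg_of_ae
    filter_upwards [mu_ae hn] with x hx
    have hx0 : x ≠ 0 := by
      rintro rfl
      rw [norm_zero] at hx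
      exact zero_ne_one hx
    have := hF0 x hx0
    have := hP.pos x hx0
    positivity
  have hd := det_der (-B)
  have hd5 := der5 hn hF hP B
  have h10 : |((1 : E n →L[ℝ] E n) + (0 : ℝ) • (-B)).det| = 1 := by
    have h6 : (1 : E n →L[ℝ] E n).det = 1 := by
      unfold ContinuousLinearMap.det
      exact LinearMap.det_id
    have h7 : (1 : E n →L[ℝ] E n) + (0 : ℝ) • (-B) = 1 := by
      ext1 x
      simp
    rw [h7, h6, abs_one]
  have h11 : ∫ x, F (x - (0 : ℝ) • B x) * (h x ^ n)⁻¹ ∂(mu n) = I0 := by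
    rw [hI0]
    simp only [zero_smul, sub_zero]
  have hlin : HasDerivAt (fun s : ℝ => (1 - s * tr B) * I0) (-(tr B) * I0) 0 := by
    have e1 : HasDerivAt (fun s : ℝ => s * tr B) (1 * tr B) 0 :=
      (hasDerivAt_id (0 : ℝ)).mul_const _
    have e2 := (e1.const_sub 1).mul_const I0
    rwa [one_mul] at e2
  have hg := (hd.mul hd5).sub hlin
  obtain ⟨s3, hs3, hs31, hs32⟩ : ∃ s3 : ℝ, 0 < s3 ∧ s3 ≤ s1 ∧ C1 * s3 ≤ s2 := by
    refine ⟨min s1 (s2 / C1), lt_min hs1 (div_pos hs2 hC1), min_le_left _ _, ?_⟩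
    calc C1 * min s1 (s2 / C1) ≤ C1 * (s2 / C1) :=
          mul_le_mul_of_nonneg_left (min_le_right _ _) hC1.le
      _ = s2 := by field_simp
  have key := aa6_max (C := I0 * C1 + C2 * C1 ^ 2) hg (by
    change |((1 : E n →L[ℝ] E n) + (0 : ℝ) • (-B)).det| *
      (∫ x, F (x - (0 : ℝ) • B x) * (h x ^ n)⁻¹ ∂(mu n)) - (1 - 0 * tr B) * I0 = 0
    rw [h10, h11]
    ring) hs3 (by
    intro s hs
    change |((1 : E n →L[ℝ] E n) + s • (-B)).det| *
      (∫ x, F (x - s • B x) * (h x ^ n)⁻¹ ∂(mu n)) - (1 - s * tr B) * I0 ≤ _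
    obtain ⟨N, hN, hN1, hN2⟩ := h1 s (hs.trans hs31)
    have hN3 : ‖(N : E n →L[ℝ] E n) - 1‖ ≤ s2 :=
      hN1.trans ((mul_le_mul_of_nonneg_left hs hC1.le).trans hs32)
    have k1 := h2 (N : E n →L[ℝ] E n) hN3
    have k2 := hstar (ContinuousLinearMap.adjoint (N : E n →L[ℝ] E n))
    rw [ContinuousLinearMap.adjoint_adjoint, tr_adj] at k2
    have hinv : ∀ x, N x - s • B (N x) = x := fun x => N.injective (hN (N x))
    have hG : H0 (fun x => F (x - s • B x)) := by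
      refine ⟨fun t ht x => ?_, ?_⟩
      · have e : t • x - s • B (t • x) = t • (x - s • B x) := by
          rw [map_smul, smul_sub, smul_comm]
        rw [e, hH.hom t ht]
      · refine hH.cont.comp (continuous_id.sub (B.continuous.const_smul s)).continuousOn ?_
        intro x hx hx0
        rw [mem_singleton_iff] at hx0
        apply hx
        have e := hN x
        rw [mem_singleton_iff]
        have hx0' : x - s • B x = 0 := hx0
        rw [hx0', map_zero] at e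
        exact e.symm
    have k3 := lin_cov hn N hG hP
    rw [aa6_det hN] at k3
    have k4 : ∫ x, F (N x - s • B (N x)) * (h (N x) ^ n)⁻¹ ∂(mu n) =
        ∫ x, F x * (h ((N : E n →L[ℝ] E n) x) ^ n)⁻¹ ∂(mu n) := by
      apply integral_congr_ae
      filter_upwards with x
      rw [hinv]
      rfl
    rw [k4] at k3
    rw [← k3]
    rw [← hI0] at k1 k2
    have k5 : C2 * ‖(N : E n →L[ℝ] E n) - 1‖ ^ 2 ≤ C2 * (C1 ^ 2 * s ^ 2) := by
      apply mul_le_mul_of_nonneg_left _ hC2.le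
      calc ‖(N : E n →L[ℝ] E n) - 1‖ ^ 2 ≤ (C1 * |s|) ^ 2 :=
            pow_le_pow_left₀ (norm_nonneg _) hN1 2
        _ = C1 ^ 2 * s ^ 2 := by rw [mul_pow, sq_abs]
    have k6 := (abs_le.1 hN2).1
    have k7 : (n - tr (N : E n →L[ℝ] E n)) * I0 ≤ (-(s * tr B) + C1 * s ^ 2) * I0 := by
      apply mul_le_mul_of_nonneg_right _ hI0n
      linarith
    nlinarith [k1, k2, k5, k7])
  rw [h10, h11, aa6_tr_neg] at key
  linarith

end Pool.Agent.H88.CN
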