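import Pool.Agent.H88.CN.INT
import Pool.Agent.H35.CA.SphA

/-!
# CN-AA8: integrals over the sphere in linear coordinates

Let `n = m + 1`, `Ψ x = Φ x * g(x)^(-n)` (homogeneous of degree `-n`, continuous off `0`),
`A x = (T⁻¹ x).2 : E m` (linear), `f x = Ψ x` if `1 ≤ ‖A x‖ ≤ 2` and `0` otherwise.
(1) Polar coordinates (see the proof of `polar` in `H35/CA/SphA.lean`, which uses
`Measure.measurePreserving_homeomorphUnitSphereProd`): for `u` on the sphere with `A u ≠ 0`
`∫_0^∞ f (r u) r^(n-1) dr = Ψ u ∫_{1/‖A u‖}^{2/‖A u‖} dr/r = (log 2) Ψ u`.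
The set `{u : A u = 0}` is null on the sphere (the kernel of `A` is a proper subspace of `E n`
because `m ≥ 1`; `Measure.addHaar_submodule`, `mu_null_of_cone` and `toSphere`/`sphA_map`).  So
`∫ f dx = log 2 ∫_S Ψ dσ = log 2 * n * om n * ∫ Ψ dmu` (`toSphere_int`); `f` is integrable: first
the same computation for `|Φ|` with `lintegral` (Tonelli), `Ψ` is bounded on the sphere.
(2) `T` maps the Haar measure `volume` of `ℝ × E m` to a Haar measure of `E n`, hence to
`k1 • volume` with `0 < k1 < ∞` (`LinearEquiv/ContinuousLinearEquiv.isAddHaarMeasure_map`,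
`isAddHaarMeasure_eq_smul`), so `∫ f dx = k1⁻¹ ∫ f (T p) dp = k1⁻¹ ∫ Ψ (T p) ∂(nu m)`
(`f (T p) = 1[1 ≤ ‖p.2‖ ≤ 2] Ψ (T p)`; `nu m` is the restriction of the product measure to
`univ ×ˢ Rg m`, `volume = volume.prod volume` on `ℝ × E m`).
-/

namespace Pool.Agent.H88.CN

open MeasureTheory Metric Set Pool.Agent.H35.CA

variable {m : ℕ}

theorem aa8_ioiPow (m : ℕ) (H : ℝ → ℝ) :
    ∫ r : Ioi (0 : ℝ), H r ∂(Measure.volumeIoiPow m) = ∫ r in Ioi (0 : ℝ), r ^ m * H r := by
  unfold Measure.volumeIoiPow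
  rw [integral_withDensity_eq_integral_toReal_smul
    (by fun_prop) (Filter.Eventually.of_forall fun _ => ENNReal.ofReal_lt_top)]
  rw [← integral_subtype_comap measurableSet_Ioi (fun r => r ^ m * H r)]
  refine integral_congr_ae (Filter.Eventually.of_forall fun r => ?_)
  have hr : (0 : ℝ) < r := r.2
  change (ENNReal.ofReal ((r : ℝ) ^ m)).toReal • H r = (r : ℝ) ^ m * H r
  rw [ENNReal.toReal_ofReal (by positivity), smul_eq_mul]

theorem aa8_ioiPow_int (m : ℕ) (H : ℝ → ℝ) (h : IntegrableOn (fun r => r ^ m * H r) (Ioi 0)) :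
    Integrable (fun r : Ioi (0 : ℝ) => H r) (Measure.volumeIoiPow m) := by
  unfold Measure.volumeIoiPow
  rw [integrable_withDensity_iff_integrable_smul' (by fun_prop)
    (Filter.Eventually.of_forall fun _ => ENNReal.ofReal_lt_top)]
  rw [integrableOn_iff_comap_subtypeVal measurableSet_Ioi] at h
  refine h.congr (Filter.Eventually.of_forall fun r => ?_)
  have hr : (0 : ℝ) < r := r.2
  change (r : ℝ) ^ m * H r = (ENNReal.ofReal ((r : ℝ) ^ m)).toReal • H r
  rw [ENNReal.toReal_ofReal (by positivity), smul_eq_mul]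

/-- The radial part of the function `f`. -/
noncomputable def aa8W (m : ℕ) (a v : ℝ) (r : ℝ) : ℝ :=
  (Icc (1 / a) (2 / a)).indicator (fun r => v * (r ^ (m + 1))⁻¹) r

theorem aa8_W_eq (m : ℕ) (a : ℝ) (v : ℝ) {r : ℝ} (hr : 0 < r) :
    r ^ m * aa8W m a v r = (Icc (1 / a) (2 / a)).indicator (fun r => v * r⁻¹) r := by
  unfold aa8W
  by_cases h : r ∈ Icc (1 / a) (2 / a)
  · rw [indicator_of_mem h, indicator_of_mem h, pow_succ]
    field_simp
  · rw [indicator_of_notMem h, indicator_of_notMem h, mul_zero]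

theorem aa8_Icc {a : ℝ} (ha : 0 < a) : Icc (1 / a) (2 / a) ⊆ Ioi (0 : ℝ) := by
  intro r hr
  exact (div_pos one_pos ha).trans_le hr.1

theorem aa8_W_intOn (m : ℕ) {a : ℝ} (ha : 0 < a) (v : ℝ) :
    IntegrableOn (fun r => r ^ m * aa8W m a v r) (Ioi 0) := by
  have h1 : IntegrableOn (fun r : ℝ => v * r⁻¹) (Icc (1 / a) (2 / a)) := by
    refine ContinuousOn.integrableOn_compact isCompact_Icc ?_
    refine continuousOn_const.mul (continuousOn_inv₀.mono ?_)
    intro r hr
    exact (aa8_Icc ha hr).ne'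
  have h2 : IntegrableOn ((Icc (1 / a) (2 / a)).indicator (fun r : ℝ => v * r⁻¹)) (Ioi 0) :=
    ((integrable_indicator_iff measurableSet_Icc).mpr h1).integrableOn
  refine h2.congr_fun (fun r hr => ?_) measurableSet_Ioi
  exact (aa8_W_eq m a v hr).symm

theorem aa8_W_int (m : ℕ) {a : ℝ} (ha : 0 < a) (v : ℝ) :
    ∫ r : Ioi (0 : ℝ), aa8W m a v r ∂(Measure.volumeIoiPow m) = Real.log 2 * v := by
  have hab : 1 / a ≤ 2 / a := by
    gcongr
    norm_num
  rw [aa8_ioiPow, setIntegral_congr_fun measurableSet_Ioi (fun r hr => aa8_W_eq m a v hr),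
    setIntegral_indicator measurableSet_Icc, inter_eq_right.mpr (aa8_Icc ha),
    integral_Icc_eq_integral_Ioc, ← intervalIntegral.integral_of_le hab,
    intervalIntegral.integral_const_mul, integral_inv_of_pos (by positivity) (by positivity)]
  have : 2 / a / (1 / a) = 2 := by
    field_simp
  rw [this, mul_comm]

theorem aa8_ae_mu (hm : 1 ≤ m) (T : (ℝ × E m) ≃L[ℝ] E (m + 1)) :
    ∀ᵐ x ∂(mu (m + 1)), (T.symm x).2 ≠ 0 := by
  have hc : Continuous (fun x : E (m + 1) => (T.symm x).2) :=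
    continuous_snd.comp T.symm.continuous
  refine mu_null_of_cone (by omega) (fun x => (T.symm x).2 ≠ 0) ?_ ?_ ?_
  · exact (isOpen_compl_singleton.preimage hc).measurableSet
  · intro t _ x h h'
    apply h
    rw [map_smul, Prod.smul_snd, h', smul_zero]
  · have : Nonempty (Fin m) := ⟨⟨0, hm⟩⟩
    obtain ⟨y, hy⟩ := exists_ne (0 : E m)
    set K : Submodule ℝ (E (m + 1)) := LinearMap.ker ((LinearMap.snd ℝ ℝ (E m)).comp
      (T.symm.toLinearEquiv : E (m + 1) →ₗ[ℝ] ℝ × E m)) with hKd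
    have hmem : ∀ x, x ∈ K ↔ (T.symm x).2 = 0 := fun x => LinearMap.mem_ker
    have hK : K ≠ ⊤ := by
      intro h
      have h1 : T (0, y) ∈ K := by
        rw [h]
        exact Submodule.mem_top
      rw [hmem, T.symm_apply_apply] at h1
      exact hy h1
    have h2 := Measure.addHaar_submodule (volume : Measure (E (m + 1))) K hK
    rw [ae_iff]
    refine measure_mono_null (fun x hx => ?_) h2
    change x ∈ K
    rw [hmem]
    by_contra h3
    exact hx h3

theorem aa8_ae (hm : 1 ≤ m) (T : (ℝ × E m) ≃L[ℝ] E (m + 1)) :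
    ∀ᵐ u : sphere (0 : E (m + 1)) 1 ∂((volume : Measure (E (m + 1))).toSphere),
      (T.symm (u : E (m + 1))).2 ≠ 0 := by
  have h1 : MeasurableEmbedding (Subtype.val : sphere (0 : E (m + 1)) 1 → E (m + 1)) :=
    MeasurableEmbedding.subtype_coe isClosed_sphere.measurableSet
  rw [← h1.ae_map_iff (p := fun x : E (m + 1) => (T.symm x).2 ≠ 0), sphA_map (by omega)]
  exact Measure.ae_smul_measure (aa8_ae_mu hm T) _

theorem aa8_psi_cont {Φ g : E (m + 1) → ℝ} (hΦ : H0 Φ) (hg : P1 g) :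
    ContinuousOn (fun x => Φ x * (g x ^ (m + 1))⁻¹) {0}ᶜ := by
  refine hΦ.cont.mul ((hg.cont.continuousOn.pow _).inv₀ ?_)
  intro x hx
  exact (pow_pos (hg.pos x hx) _).ne'

theorem aa8_polar (hm : 1 ≤ m) (T : (ℝ × E m) ≃L[ℝ] E (m + 1)) {Φ g : E (m + 1) → ℝ}
    (hΦ : H0 Φ) (hg : P1 g) :
    ∫ x, {x : E (m + 1) | (T.symm x).2 ∈ Rg m}.indicator (fun x => Φ x * (g x ^ (m + 1))⁻¹) x =
      Real.log 2 * (((m + 1 : ℕ) : ℝ) * om (m + 1) *
        ∫ x, Φ x * (g x ^ (m + 1))⁻¹ ∂(mu (m + 1))) := by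
  have hn : 1 ≤ m + 1 := by omega
  set Ψ : E (m + 1) → ℝ := fun x => Φ x * (g x ^ (m + 1))⁻¹ with hΨ
  set R : Set (E (m + 1)) := {x : E (m + 1) | (T.symm x).2 ∈ Rg m} with hR
  have hnt : Nontrivial (E (m + 1)) := inferInstance
  have hc : Continuous (fun x : E (m + 1) => (T.symm x).2) :=
    continuous_snd.comp T.symm.continuous
  have hRm : MeasurableSet R := hc.measurable (rg_meas m).1
  have hmp := (volume : Measure (E (m + 1))).measurePreserving_homeomorphUnitSphereProd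
  have hemb : MeasurableEmbedding (homeomorphUnitSphereProd (E (m + 1))) :=
    (homeomorphUnitSphereProd (E (m + 1))).measurableEmbedding
  set f : E (m + 1) → ℝ := R.indicator Ψ with hf
  have hfm : AEStronglyMeasurable f (volume : Measure (E (m + 1))) := by
    refine AEStronglyMeasurable.indicator ?_ hRm
    have h := (aa8_psi_cont hΦ hg).aestronglyMeasurable (μ := (volume : Measure (E (m + 1))))
      (measurableSet_singleton (0 : E (m + 1))).compl
    rwa [restrict_compl_singleton] at h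
  set G : sphere (0 : E (m + 1)) 1 × Ioi (0 : ℝ) → ℝ :=
    fun q => f ((q.2 : ℝ) • (q.1 : E (m + 1))) with hG
  have hGf : ∀ x : ({(0)}ᶜ : Set (E (m + 1))), G (homeomorphUnitSphereProd (E (m + 1)) x) = f x := by
    intro x
    change f _ = f _
    congr 1
    rw [homeomorphUnitSphereProd_apply_snd_coe, homeomorphUnitSphereProd_apply_fst_coe, smul_smul,
      mul_inv_cancel₀ (norm_ne_zero_iff.mpr x.2), one_smul]
  have hGm : AEStronglyMeasurable G ((volume : Measure (E (m + 1))).toSphere.prod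
      (Measure.volumeIoiPow (Module.finrank ℝ (E (m + 1)) - 1))) := by
    rw [← hmp.aestronglyMeasurable_comp_iff hemb]
    have h1 : G ∘ (homeomorphUnitSphereProd (E (m + 1))) =
        f ∘ (Subtype.val : ({(0)}ᶜ : Set (E (m + 1))) → E (m + 1)) := funext hGf
    rw [h1]
    have h2 : MeasurableEmbedding (Subtype.val : ({(0)}ᶜ : Set (E (m + 1))) → E (m + 1)) :=
      MeasurableEmbedding.subtype_coe (measurableSet_singleton (0 : E (m + 1))).compl
    rw [← h2.aestronglyMeasurable_map_iff, map_comap_subtype_coe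
      (measurableSet_singleton (0 : E (m + 1))).compl]
    exact hfm.restrict
  have hGW : ∀ u : sphere (0 : E (m + 1)) 1, (T.symm (u : E (m + 1))).2 ≠ 0 →
      ∀ r : Ioi (0 : ℝ), G (u, r) = aa8W m ‖(T.symm (u : E (m + 1))).2‖ (Ψ u) r := by
    intro u hu r
    have hr : (0 : ℝ) < r := r.2
    have ha : 0 < ‖(T.symm (u : E (m + 1))).2‖ := norm_pos_iff.mpr hu
    have hiff : (r : ℝ) • (u : E (m + 1)) ∈ R ↔
        (r : ℝ) ∈ Icc (1 / ‖(T.symm (u : E (m + 1))).2‖) (2 / ‖(T.symm (u : E (m + 1))).2‖) := by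
      change (1 ≤ ‖(T.symm ((r : ℝ) • (u : E (m + 1)))).2‖ ∧
        ‖(T.symm ((r : ℝ) • (u : E (m + 1)))).2‖ ≤ 2) ↔ _
      rw [map_smul, Prod.smul_snd, norm_smul, Real.norm_of_nonneg hr.le, mem_Icc,
        div_le_iff₀ ha, le_div_iff₀ ha]
    change f _ = _
    unfold aa8W
    by_cases h : (r : ℝ) • (u : E (m + 1)) ∈ R
    · rw [hf, indicator_of_mem h, indicator_of_mem (hiff.mp h), hΨ]
      change Φ ((r : ℝ) • (u : E (m + 1))) * (g ((r : ℝ) • (u : E (m + 1))) ^ (m + 1))⁻¹ =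
        Φ u * (g u ^ (m + 1))⁻¹ * ((r : ℝ) ^ (m + 1))⁻¹
      rw [hΦ.hom _ hr, hg.hom _ hr.le, mul_pow, mul_inv]
      ring
    · rw [hf, indicator_of_notMem h, indicator_of_notMem (fun h' => h (hiff.mpr h'))]
  have hfin : Module.finrank ℝ (E (m + 1)) - 1 = m := by
    rw [finrank_euclideanSpace_fin]
    rfl
  rw [hfin] at hGm hmp
  have hΨs : Integrable (fun u : sphere (0 : E (m + 1)) 1 => Ψ u)
      (volume : Measure (E (m + 1))).toSphere := by
    have h1 : Continuous (fun u : sphere (0 : E (m + 1)) 1 => Ψ u) := by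
      rw [← continuousOn_univ]
      refine (aa8_psi_cont hΦ hg).comp continuous_subtype_val.continuousOn ?_
      intro u _ h
      have h1 : ‖(u : E (m + 1))‖ = 1 := by simp
      rw [mem_singleton_iff] at h
      rw [h, norm_zero] at h1
      exact zero_ne_one h1
    exact h1.integrable_of_hasCompactSupport (HasCompactSupport.of_compactSpace _)
  have hGi : Integrable G ((volume : Measure (E (m + 1))).toSphere.prod
      (Measure.volumeIoiPow m)) := by
    rw [integrable_prod_iff hGm]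
    constructor
    · filter_upwards [aa8_ae hm T] with u hu
      have h1 : (fun r : Ioi (0 : ℝ) => G (u, r)) =
          fun r : Ioi (0 : ℝ) => aa8W m ‖(T.symm (u : E (m + 1))).2‖ (Ψ u) r :=
        funext (hGW u hu)
      rw [h1]
      exact aa8_ioiPow_int m _ (aa8_W_intOn m (norm_pos_iff.mpr hu) _)
    · refine (hΨs.norm.const_mul (Real.log 2)).congr ?_
      filter_upwards [aa8_ae hm T] with u hu
      have h1 : (fun r : Ioi (0 : ℝ) => ‖G (u, r)‖) =
          fun r : Ioi (0 : ℝ) => aa8W m ‖(T.symm (u : E (m + 1))).2‖ ‖Ψ u‖ r := by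
        funext r
        have hr : (0 : ℝ) < r := r.2
        rw [hGW u hu]
        unfold aa8W
        by_cases h : (r : ℝ) ∈ Icc (1 / ‖(T.symm (u : E (m + 1))).2‖)
            (2 / ‖(T.symm (u : E (m + 1))).2‖)
        · rw [indicator_of_mem h, indicator_of_mem h, norm_mul, Real.norm_of_nonneg
            (r := ((r : ℝ) ^ (m + 1))⁻¹) (by positivity)]
        · rw [indicator_of_notMem h, indicator_of_notMem h, norm_zero]
      rw [h1, aa8_W_int m (norm_pos_iff.mpr hu)]
  have e2 : ∫ x, f x = ∫ x : ({(0)}ᶜ : Set (E (m + 1))), f x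
      ∂((volume : Measure (E (m + 1))).comap (↑)) := by
    rw [integral_subtype_comap (measurableSet_singleton _).compl fun x => f x,
      restrict_compl_singleton]
  have e3 : ∫ x : ({(0)}ᶜ : Set (E (m + 1))), f x ∂((volume : Measure (E (m + 1))).comap (↑)) =
      ∫ q, G q ∂((volume : Measure (E (m + 1))).toSphere.prod (Measure.volumeIoiPow m)) := by
    rw [← hmp.integral_comp hemb]
    exact integral_congr_ae (Filter.Eventually.of_forall fun x => (hGf x).symm)
  have e4 : ∀ᵐ u : sphere (0 : E (m + 1)) 1 ∂((volume : Measure (E (m + 1))).toSphere),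
      ∫ r, G (u, r) ∂(Measure.volumeIoiPow m) = Real.log 2 * Ψ u := by
    filter_upwards [aa8_ae hm T] with u hu
    have h1 : (fun r : Ioi (0 : ℝ) => G (u, r)) =
        fun r : Ioi (0 : ℝ) => aa8W m ‖(T.symm (u : E (m + 1))).2‖ (Ψ u) r :=
      funext (hGW u hu)
    rw [h1, aa8_W_int m (norm_pos_iff.mpr hu)]
  change ∫ x, f x = _
  rw [e2, e3, integral_prod _ hGi, integral_congr_ae e4, integral_const_mul, toSphere_int hn Ψ]

theorem aa8_nu (m : ℕ) : nu m =
    (volume : Measure (ℝ × E m)).restrict ((fun p : ℝ × E m => p.2) ⁻¹' (Rg m)) := by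
  unfold nu
  have h1 : (volume : Measure (ℝ × E m)) = (volume : Measure ℝ).prod (volume : Measure (E m)) := rfl
  have h2 : (fun p : ℝ × E m => p.2) ⁻¹' (Rg m) = (univ : Set ℝ) ×ˢ Rg m := by
    ext p
    simp
  rw [h1, h2, ← Measure.prod_restrict, Measure.restrict_univ]

theorem lift (hm : 1 ≤ m) (T : (ℝ × E m) ≃L[ℝ] E (m + 1)) : ∃ k : ℝ, 0 < k ∧
    ∀ Φ g : E (m + 1) → ℝ, H0 Φ → P1 g →
    ∫ x, Φ x * (g x ^ (m + 1))⁻¹ ∂(mu (m + 1)) =
      k * ∫ p, Φ (T p) * (g (T p) ^ (m + 1))⁻¹ ∂(nu m) := by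
  have hV : (volume : Measure (ℝ × E m)).IsAddHaarMeasure :=
    Measure.prod.instIsAddHaarMeasure (volume : Measure ℝ) (volume : Measure (E m))
  have hH : (Measure.map T (volume : Measure (ℝ × E m))).IsAddHaarMeasure :=
    T.isAddHaarMeasure_map _
  have hc := Measure.isAddLeftInvariant_eq_smul (Measure.map T (volume : Measure (ℝ × E m)))
    (volume : Measure (E (m + 1)))
  set c : NNReal := Measure.addHaarScalarFactor (Measure.map T (volume : Measure (ℝ × E m)))
    (volume : Measure (E (m + 1))) with hcd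
  have hc0 : 0 < c := Measure.addHaarScalarFactor_pos_of_isAddHaarMeasure _ _
  have hc0' : (0 : ℝ) < (c : ℝ) := by exact_mod_cast hc0
  have hl : 0 < Real.log 2 := Real.log_pos one_lt_two
  have hom := om_pos (m + 1)
  have hD : 0 < (c : ℝ) * (Real.log 2 * (((m + 1 : ℕ) : ℝ) * om (m + 1))) := by positivity
  refine ⟨((c : ℝ) * (Real.log 2 * (((m + 1 : ℕ) : ℝ) * om (m + 1))))⁻¹, by positivity, ?_⟩
  intro Φ g hΦ hg
  have h1 := aa8_polar hm T hΦ hg
  set Ψ : E (m + 1) → ℝ := fun x => Φ x * (g x ^ (m + 1))⁻¹ with hΨ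
  set f : E (m + 1) → ℝ := {x : E (m + 1) | (T.symm x).2 ∈ Rg m}.indicator Ψ with hf
  have h2 : ∫ p, f (T p) = (c : ℝ) * ∫ x, f x := by
    have h5 : MeasurableEmbedding (T : ℝ × E m → E (m + 1)) := T.toHomeomorph.measurableEmbedding
    rw [← h5.integral_map (μ := (volume : Measure (ℝ × E m))) f, hc, integral_smul_nnreal_measure]
    rfl
  have h3 : ∫ p, f (T p) = ∫ p, Ψ (T p) ∂(nu m) := by
    have hR : MeasurableSet ((fun p : ℝ × E m => p.2) ⁻¹' (Rg m)) :=
      measurable_snd (rg_meas m).1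
    rw [aa8_nu, ← integral_indicator hR]
    refine integral_congr_ae (Filter.Eventually.of_forall fun p => ?_)
    by_cases h : p.2 ∈ Rg m
    · rw [indicator_of_mem (show p ∈ (fun p : ℝ × E m => p.2) ⁻¹' (Rg m) from h)]
      change f (T p) = _
      rw [hf, indicator_of_mem]
      change (T.symm (T p)).2 ∈ Rg m
      rwa [T.symm_apply_apply]
    · rw [indicator_of_notMem (show p ∉ (fun p : ℝ × E m => p.2) ⁻¹' (Rg m) from h)]
      change f (T p) = _
      rw [hf, indicator_of_notMem]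
      change ¬ ((T.symm (T p)).2 ∈ Rg m)
      rwa [T.symm_apply_apply]
  change ∫ x, Ψ x ∂(mu (m + 1)) = _ * ∫ p, Ψ (T p) ∂(nu m)
  rw [← h3, h2, h1]
  field_simp

end Pool.Agent.H88.CN
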