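import Pool.Agent.H88.CN.AA3

/-!
# CN-BB1: the origin is well inside the polar body

Proof.  Let `h = supp K` (`SL`, `P1` by `sup_SL`), `Q = {x | h x ≤ 1}` (convex, compact with
nonempty interior; `0 < vol Q < ∞`, `vol_sub`).  Let `x ≠ 0`, `a = h x > 0`, `p ∈ K` with
`⟨p, -x⟩ = h (-x) =: b` (`trfb_att`), `ℓ y = ⟨p, y⟩ ≤ h y` (`trfb_le`), `x1 = a⁻¹ x`: `h x1 = 1`,
`ℓ x1 = - b / a =: - β`.  Claim `β ≤ 3 * 2^n * (Λ/λ)`; this is the assertion.
If `β ≤ 3` this is clear.  Let `β > 3`.  Weighted centroid: by `st_cen` (`z = p`) and `polar` for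
the `H0` function `F ℓ / h` (`F ℓ / h * h^(-n) = ℓ F h^(-n-1)` off the origin; the value at `0`
is irrelevant): `∫_Q F ℓ / h dy = 0`.  On `Q ∩ {ℓ > 0}`: `ℓ/h ≤ 1`, so
`∫_{Q, ℓ > 0} F ℓ/h ≤ Λ vol Q`.  On `Q ∩ {ℓ < 0}`: `|ℓ|/h ≥ |ℓ|` (`h ≤ 1`), so
`λ ∫_{Q, ℓ < 0} |ℓ| ≤ ∫_{Q, ℓ < 0} F |ℓ|/h = ∫_{Q, ℓ > 0} F ℓ/h ≤ Λ vol Q`.
The set `Q' = {(1/2)(y + x1) : y ∈ Q} ⊆ Q` has volume `2^(-n) vol Q`
(`Measure.addHaar_smul`, translation invariance), and on it `ℓ = (ℓ y - β)/2 ≤ (1 - β)/2 ≤ -β/3`.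
So `λ (β/3) 2^(-n) vol Q ≤ Λ vol Q`, i.e. `β ≤ 3 * 2^n Λ/λ`.
(For `x = 0` both sides are `0`.)
-/

namespace Pool.Agent.H88.CN

open MeasureTheory Metric Set Pool.Agent.H35.CA

variable {n : ℕ}

private theorem bb1_H0 {F h : E n → ℝ} (hF : H0 F) (hh : P1 h) (p : E n) :
    H0 (fun y => F y * (inner ℝ p y / h y)) := by
  refine ⟨fun t ht x => ?_, ?_⟩
  · show F (t • x) * (inner ℝ p (t • x) / h (t • x)) = F x * (inner ℝ p x / h x)
    rw [hF.hom t ht, hh.hom t ht.le, inner_smul_right, mul_div_mul_left _ _ ht.ne']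
  · refine hF.cont.mul (ContinuousOn.div ?_ hh.cont.continuousOn ?_)
    · exact (continuous_const.inner continuous_id).continuousOn
    · intro x hx
      exact (hh.pos x hx).ne'

private theorem bb1_zero (hn : 1 ≤ n) {F : E n → ℝ} (hF : H0 F) {K : Set (E n)}
    (hK : IsSolution (fun u : sphere (0 : E n) 1 => F u) K) (hh : P1 (supp K)) (p : E n) :
    ∫ y in {x | supp K x ≤ 1}, F y * (inner ℝ p y / supp K y) = 0 := by
  have h1 := (polar hn (bb1_H0 hF hh p) hh).2
  have h2 := st_cen hn hF hK p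
  have h3 : ∫ x, F x * (inner ℝ p x / supp K x) * (supp K x ^ n)⁻¹ ∂(mu n) = 0 := by
    rw [← h2]
    refine integral_congr_ae (Filter.Eventually.of_forall fun x => ?_)
    show F x * (inner ℝ p x / supp K x) * (supp K x ^ n)⁻¹ =
      inner ℝ p x * (F x * (supp K x ^ (n + 1))⁻¹)
    rw [pow_succ, mul_inv, div_eq_mul_inv]
    ring
  rw [h1, h3, mul_zero]

private theorem bb1_key (hn : 1 ≤ n) {F : E n → ℝ} (hF : H0 F) {lam Lam : ℝ} (h0 : 0 < lam)
    (hb : ∀ x, x ≠ 0 → lam ≤ F x ∧ F x ≤ Lam) (hL : 0 ≤ Lam) {h : E n → ℝ} (hS : SL h) (hh : P1 h)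
    (p x1 : E n) (β : ℝ) (hβ : 3 < β) (hle : ∀ y, inner ℝ p y ≤ h y) (hx1 : h x1 = 1)
    (hpx : inner ℝ p x1 = - β)
    (hz : ∫ y in {x | h x ≤ 1}, F y * (inner ℝ p y / h y) = 0) :
    β ≤ 3 * 2 ^ n * (Lam / lam) := by
  have hh0 : h 0 = 0 := by
    have := hh.hom 0 le_rfl 0
    rwa [zero_smul, zero_mul] at this
  set Q : Set (E n) := {x | h x ≤ 1} with hQ
  set Q' : Set (E n) := {y | h ((2 : ℝ) • y - x1) ≤ 1} with hQ'
  have hQm : MeasurableSet Q := sphA_meas hh
  have hQ'm : MeasurableSet Q' :=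
    (isClosed_le (hh.cont.comp (by fun_prop)) continuous_const).measurableSet
  have hQtop : volume Q ≠ ⊤ := sphA_sub_ne_top hn hh
  have hQpos : 0 < (volume Q).toReal := by
    refine ENNReal.toReal_pos ?_ hQtop
    have hopen : IsOpen {x : E n | h x < 1} := isOpen_lt hh.cont continuous_const
    have hne : ({x : E n | h x < 1}).Nonempty := ⟨0, by
      show h 0 < 1
      rw [hh0]
      exact one_pos⟩
    have h1 : 0 < volume {x : E n | h x < 1} := hopen.measure_pos volume hne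
    exact (h1.trans_le (measure_mono fun y (hy : h y < 1) => le_of_lt hy)).ne'
  have hsub : Q' ⊆ Q := by
    intro y hy
    have hy' : h ((2 : ℝ) • y - x1) ≤ 1 := hy
    show h y ≤ 1
    have e1 : y = (1 / 2 : ℝ) • (((2 : ℝ) • y - x1) + x1) := by
      rw [sub_add_cancel, smul_smul]
      norm_num
    rw [e1, hh.hom _ (by norm_num)]
    have := hS.sub ((2 : ℝ) • y - x1) x1
    linarith
  have himg : Q' = AffineMap.homothety x1 (1 / 2 : ℝ) '' Q := by
    ext y
    constructor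
    · intro hy
      refine ⟨(2 : ℝ) • y - x1, hy, ?_⟩
      rw [AffineMap.homothety_apply, vsub_eq_sub, vadd_eq_add]
      have : (2 : ℝ) • y - x1 - x1 = (2 : ℝ) • (y - x1) := by
        rw [smul_sub, two_smul ℝ x1]
        abel
      rw [this, smul_smul]
      norm_num
    · rintro ⟨q, hq, rfl⟩
      show h ((2 : ℝ) • (AffineMap.homothety x1 (1 / 2 : ℝ) q) - x1) ≤ 1
      have e2 : (2 : ℝ) • (AffineMap.homothety x1 (1 / 2 : ℝ) q) - x1 = q := by
        rw [AffineMap.homothety_apply, vsub_eq_sub, vadd_eq_add, smul_add, smul_smul, two_smul ℝ x1]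
        norm_num
      rw [e2]
      exact hq
  have hvol : (volume Q').toReal = (1 / 2 : ℝ) ^ n * (volume Q).toReal := by
    rw [himg, Measure.addHaar_image_homothety, ENNReal.toReal_mul, finrank_euclideanSpace_fin,
      ENNReal.toReal_ofReal (abs_nonneg _), abs_of_nonneg (by positivity)]
  have hlin : ∀ y ∈ Q', inner ℝ p y ≤ - β / 3 := by
    intro y hy
    have hy' : h ((2 : ℝ) • y - x1) ≤ 1 := hy
    have h1 := hle ((2 : ℝ) • y - x1)
    rw [inner_sub_right, inner_smul_right, hpx] at h1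
    linarith
  have hc0 : 0 ≤ Lam + lam * β / 3 := by positivity
  have hbound : ∀ y ∈ Q, y ≠ 0 → F y * (inner ℝ p y / h y) ≤
      Lam - Q'.indicator (fun _ => Lam + lam * β / 3) y := by
    intro y hy hy0
    have hhy : 0 < h y := hh.pos y hy0
    have hy1 : h y ≤ 1 := hy
    obtain ⟨hF1, hF2⟩ := hb y hy0
    have hFy : 0 < F y := h0.trans_le hF1
    by_cases hyQ : y ∈ Q'
    · rw [indicator_of_mem hyQ]
      have hl := hlin y hyQ
      have hneg : inner ℝ p y < 0 := by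
        refine hl.trans_lt ?_
        linarith
      have h2 : inner ℝ p y / h y ≤ inner ℝ p y := by
        rw [div_le_iff₀ hhy]
        nlinarith
      have h3 : inner ℝ p y / h y ≤ - β / 3 := h2.trans hl
      have h4 : F y * (inner ℝ p y / h y) ≤ lam * (inner ℝ p y / h y) := by
        have : inner ℝ p y / h y ≤ 0 := h2.trans hneg.le
        nlinarith
      have h5 : lam * (inner ℝ p y / h y) ≤ lam * (- β / 3) := mul_le_mul_of_nonneg_left h3 h0.le
      have h6 : lam * (- β / 3) = Lam - (Lam + lam * β / 3) := by ring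
      rw [← h6]
      exact h4.trans h5
    · rw [indicator_of_notMem hyQ, sub_zero]
      have h2 : inner ℝ p y / h y ≤ 1 := by
        rw [div_le_iff₀ hhy, one_mul]
        exact hle y
      have h3 : F y * (inner ℝ p y / h y) ≤ F y * 1 := mul_le_mul_of_nonneg_left h2 hFy.le
      rw [mul_one] at h3
      exact h3.trans hF2
  have hint1 : IntegrableOn (fun y => F y * (inner ℝ p y / h y)) Q :=
    (polar hn (bb1_H0 hF hh p) hh).1
  have hint2 : IntegrableOn (fun _ : E n => Lam) Q := integrableOn_const hQtop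
  have hint3 : IntegrableOn (Q'.indicator (fun _ : E n => Lam + lam * β / 3)) Q := by
    have h1 : IntegrableOn (fun _ : E n => Lam + lam * β / 3) Q := integrableOn_const hQtop
    exact h1.indicator hQ'm
  have hmono : ∫ y in Q, F y * (inner ℝ p y / h y) ≤
      ∫ y in Q, (Lam - Q'.indicator (fun _ => Lam + lam * β / 3) y) := by
    refine integral_mono_ae hint1 (hint2.sub hint3) ?_
    filter_upwards [ae_restrict_mem hQm, ae_restrict_of_ae (sphA_ae_ne hn)] with y hy hy0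
    exact hbound y hy hy0
  have hcomp : ∫ y in Q, (Lam - Q'.indicator (fun _ => Lam + lam * β / 3) y) =
      (volume Q).toReal * Lam - (volume Q').toReal * (Lam + lam * β / 3) := by
    rw [integral_sub hint2 hint3, setIntegral_const, setIntegral_indicator hQ'm,
      inter_eq_right.mpr hsub, setIntegral_const]
    simp [Measure.real]
  rw [hz, hcomp, hvol] at hmono
  have h7 : (1 / 2 : ℝ) ^ n * (Lam + lam * β / 3) ≤ Lam := by
    by_contra hcon
    rw [not_le] at hcon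
    have := mul_lt_mul_of_pos_left hcon hQpos
    linarith
  have h8 : (1 / 2 : ℝ) ^ n = (2 ^ n)⁻¹ := by
    rw [one_div, inv_pow]
  have h2n : (0 : ℝ) < 2 ^ n := by positivity
  rw [h8, inv_mul_le_iff₀ h2n] at h7
  have h9 : lam * β ≤ 3 * (2 ^ n * Lam) := by linarith
  have h10 : 3 * 2 ^ n * (Lam / lam) = 3 * (2 ^ n * Lam) / lam := by ring
  rw [h10, le_div_iff₀ h0]
  linarith

theorem back (hn : 1 ≤ n) {F : E n → ℝ} (hF : H0 F) {lam Lam : ℝ} (h0 : 0 < lam)
    (hb : ∀ x, x ≠ 0 → lam ≤ F x ∧ F x ≤ Lam) {K : Set (E n)}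
    (hK : IsSolution (fun u : sphere (0 : E n) 1 => F u) K) (x : E n) :
    supp K (-x) ≤ 3 * 2 ^ n * (Lam / lam) * supp K x := by
  obtain ⟨hS, hh⟩ := sup_SL hK.compact hK.zero_mem
  have hh0 : supp K 0 = 0 := by
    have := hh.hom 0 le_rfl 0
    rwa [zero_smul, zero_mul] at this
  by_cases hx : x = 0
  · rw [hx, neg_zero, hh0, mul_zero]
  · have ha : 0 < supp K x := hh.pos x hx
    obtain ⟨hx1, hx2⟩ := hb x hx
    have hlL : lam ≤ Lam := hx1.trans hx2
    have hL : 0 ≤ Lam := h0.le.trans hlL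
    have hq1 : 1 ≤ Lam / lam := by
      rw [le_div_iff₀ h0, one_mul]
      exact hlL
    have h2n : (1 : ℝ) ≤ 2 ^ n := one_le_pow₀ (by norm_num)
    have hne : K.Nonempty := ⟨0, interior_subset hK.zero_mem⟩
    obtain ⟨p, hp, hpb⟩ := trfb_att hK.compact hne (-x)
    have hmain : supp K (-x) / supp K x ≤ 3 * 2 ^ n * (Lam / lam) := by
      by_cases hβ : supp K (-x) / supp K x ≤ 3
      · refine hβ.trans ?_
        nlinarith
      · rw [not_le] at hβ
        refine bb1_key hn hF h0 hb hL hS hh p ((supp K x)⁻¹ • x) _ hβ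
          (fun y => trfb_le hK.compact hp y) ?_ ?_ (bb1_zero hn hF hK hh p)
        · rw [hh.hom _ (inv_nonneg.mpr ha.le), inv_mul_cancel₀ ha.ne']
        · rw [inner_smul_right]
          rw [inner_neg_right] at hpb
          rw [← hpb]
          field_simp
    rwa [div_le_iff₀ ha] at hmain

end Pool.Agent.H88.CN
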