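import Pool.Agent.H88.CN.Defs

/-!
# CN-BB2: an Auerbach type basis

Proof.  `Q = {x | h x ≤ 1}` is compact (`h` is continuous and positive off `0`; `SL` in finite
dimension gives continuity, but `P1 h` is assumed).  Choose `(x_1, ..., x_n) ∈ Q^n` maximising
`|det (x_1, ..., x_n)|` (compactness, `IsCompact.exists_isMaxOn`, determinant of the matrix with
columns `x_j`); the maximum is positive since `Q` contains small multiples of the standard basis.
So `x_1, ..., x_n` is a basis; let `T y = ∑ y_j x_j`.  If `h (T y) ≤ 1` then `T y ∈ Q` and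
replacing `x_j` by `T y` multiplies the determinant by `y_j`, so `|y_j| ≤ 1` for all `j`, hence
`‖y‖ ≤ √n`.  By homogeneity `‖y‖ ≤ √n h (T y)` for all `y`.
Upper bound: `h (T y) ≤ ∑ h (y_j x_j) ≤ ∑ |y_j| max (h x_j) (h (-x_j)) ≤ C ∑ |y_j| ≤ C √n ‖y‖`.
-/

namespace Pool.Agent.H88.CN

open MeasureTheory Metric Set Pool.Agent.H35.CA

variable {n : ℕ}

/-- the unit ball of a positive function is compact -/
private theorem bb2_compact {h : E n → ℝ} (hP : P1 h) : IsCompact {x | h x ≤ 1} := by
  have hcl : IsClosed {x | h x ≤ 1} := isClosed_le hP.cont continuous_const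
  have hbd : ∃ R : ℝ, ∀ x ∈ {x | h x ≤ 1}, ‖x‖ ≤ R := by
    by_cases hne : (sphere (0 : E n) 1).Nonempty
    · obtain ⟨p, hp, hmin⟩ := (isCompact_sphere (0 : E n) 1).exists_isMinOn hne
        hP.cont.continuousOn
      have hp1 : ‖p‖ = 1 := by simpa using hp
      have hc : 0 < h p := hP.pos p (by
        intro h0
        rw [h0, norm_zero] at hp1
        exact zero_ne_one hp1)
      refine ⟨(h p)⁻¹, fun x hx => ?_⟩
      by_cases hx0 : x = 0
      · rw [hx0, norm_zero]
        positivity
      have hn : 0 < ‖x‖ := norm_pos_iff.2 hx0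
      have h1 : h p ≤ h (‖x‖⁻¹ • x) := hmin (by
        rw [mem_sphere_zero_iff_norm, norm_smul, norm_inv, norm_norm, inv_mul_cancel₀ hn.ne'])
      rw [hP.hom _ (by positivity)] at h1
      have h2 : h x ≤ 1 := hx
      rw [← one_div, le_div_iff₀ hc]
      have h3 : ‖x‖ * h p ≤ ‖x‖ * (‖x‖⁻¹ * h x) := mul_le_mul_of_nonneg_left h1 hn.le
      rw [← mul_assoc, mul_inv_cancel₀ hn.ne', one_mul] at h3
      linarith
    · refine ⟨0, fun x _ => ?_⟩
      by_contra hx
      have hn : 0 < ‖x‖ := not_le.1 hx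
      exact hne ⟨‖x‖⁻¹ • x, by
        rw [mem_sphere_zero_iff_norm, norm_smul, norm_inv, norm_norm, inv_mul_cancel₀ hn.ne']⟩
  obtain ⟨R, hR⟩ := hbd
  exact (isCompact_closedBall (0 : E n) R).of_isClosed_subset hcl fun x hx => by
    rw [mem_closedBall_zero_iff]
    exact hR x hx

private theorem bb2_sum {h : E n → ℝ} (hh : SL h) {C : ℝ} (hC : 1 ≤ C)
    (hb : ∀ x, h (-x) ≤ C * h x) (v : Fin n → E n) (hv : ∀ j, h (v j) ≤ 1) (y : Fin n → ℝ) :
    h (∑ j, y j • v j) ≤ C * ∑ j, |y j| := by
  have h0 : h 0 = 0 := by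
    have := hh.hom 0 le_rfl 0
    simpa using this
  have h1 : h (∑ j, y j • v j) ≤ ∑ j, h (y j • v j) :=
    Finset.le_sum_of_subadditive h h0.le hh.sub _ _
  refine h1.trans ?_
  rw [Finset.mul_sum]
  refine Finset.sum_le_sum fun j _ => ?_
  rcases le_total 0 (y j) with h2 | h2
  · rw [hh.hom _ h2, abs_of_nonneg h2]
    have := mul_le_mul_of_nonneg_left (hv j) h2
    nlinarith
  · have h3 : y j • v j = (-y j) • (-v j) := by rw [smul_neg, neg_smul, neg_neg]
    rw [h3, hh.hom _ (by linarith), abs_of_nonpos h2]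
    have h4 : h (-v j) ≤ C := by
      have h5 := hb (v j)
      have h6 := mul_le_mul_of_nonneg_left (hv j) (by linarith : (0:ℝ) ≤ C)
      linarith
    have := mul_le_mul_of_nonneg_left h4 (by linarith : 0 ≤ -y j)
    linarith

private theorem bb2_update (B : Module.Basis (Fin n) ℝ (E n)) (j : Fin n) (x : E n) :
    B.det (Function.update B j x) = B.repr x j := by
  rw [Module.Basis.det_apply, Module.Basis.toMatrix_update, Module.Basis.toMatrix_self,
    ← Matrix.cramer_apply, Matrix.cramer_one]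
  rfl

theorem auer {h : E n → ℝ} (hh : SL h) (hP : P1 h) {C : ℝ} (hC : 1 ≤ C)
    (hb : ∀ x, h (-x) ≤ C * h x) :
    ∃ T : E n ≃L[ℝ] E n, ∀ y : E n, ‖y‖ ≤ Real.sqrt n * h (T y) ∧
      Real.sqrt n * h (T y) ≤ n * C * ‖y‖ := by
  classical
  set b : Module.Basis (Fin n) ℝ (E n) := (EuclideanSpace.basisFun (Fin n) ℝ).toBasis with hbdef
  set Q : Set (E n) := {x | h x ≤ 1} with hQ
  have hQc : IsCompact Q := bb2_compact hP
  have h0 : h 0 = 0 := by
    have := hh.hom 0 le_rfl 0
    simpa using this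
  have hpi : IsCompact (Set.pi (univ : Set (Fin n)) fun _ => Q) := isCompact_univ_pi fun _ => hQc
  have hne : (Set.pi (univ : Set (Fin n)) fun _ => Q).Nonempty := by
    refine ⟨fun _ => 0, fun _ _ => ?_⟩
    show h 0 ≤ 1
    rw [h0]
    exact zero_le_one
  have hcont : Continuous fun v : Fin n → E n => |b.det v| := by
    have h1 : (fun v : Fin n → E n => b.det v) = fun v => (Matrix.of fun i j => v j i).det := by
      funext v
      rw [Module.Basis.det_apply]
      congr 1
    have h2 : Continuous fun v : Fin n → E n => b.det v := by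
      rw [h1]
      refine Continuous.matrix_det ?_
      refine continuous_matrix fun i j => ?_
      simp only [Matrix.of_apply]
      fun_prop
    exact h2.abs
  obtain ⟨v, hv, hmax⟩ := hpi.exists_isMaxOn hne hcont.continuousOn
  have hvQ : ∀ j, h (v j) ≤ 1 := fun j => hv j (mem_univ j)
  -- positivity
  have hpos : 0 < |b.det v| := by
    set r : ℝ := (1 + ∑ j, |h (b j)|)⁻¹ with hr
    have hS : 0 ≤ ∑ j, |h (b j)| := Finset.sum_nonneg fun _ _ => abs_nonneg _
    have hr0 : 0 < r := by positivity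
    have hw : (fun j => r • b j) ∈ Set.pi (univ : Set (Fin n)) fun _ => Q := by
      intro j _
      show h (r • b j) ≤ 1
      rw [hh.hom _ hr0.le, hr, inv_mul_le_iff₀ (by positivity), mul_one]
      have h1 : |h (b j)| ≤ ∑ j, |h (b j)| :=
        Finset.single_le_sum (f := fun j => |h (b j)|) (fun _ _ => abs_nonneg _)
          (Finset.mem_univ j)
      linarith [le_abs_self (h (b j))]
    have h1 : |b.det fun j => r • b j| ≤ |b.det v| := hmax hw
    refine lt_of_lt_of_le ?_ h1
    have h2 : (b.det fun j => r • b j) = (∏ _j : Fin n, r) • b.det b :=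
      b.det.map_smul_univ (fun _ => r) b
    rw [h2, Module.Basis.det_self, smul_eq_mul, mul_one]
    exact abs_pos.2 (Finset.prod_pos fun _ _ => hr0).ne'
  have hunit : IsUnit (b.det v) := isUnit_iff_ne_zero.2 (abs_pos.1 hpos)
  obtain ⟨hli, hsp⟩ := (Module.Basis.is_basis_iff_det b).2 hunit
  set B : Module.Basis (Fin n) ℝ (E n) := Module.Basis.mk hli hsp.ge with hB
  have hBv : ∀ j, B j = v j := fun j => by rw [hB, Module.Basis.mk_apply]
  have hBv' : (B : Fin n → E n) = v := funext hBv
  set T0 : E n ≃ₗ[ℝ] E n := b.equiv B (Equiv.refl _) with hT0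
  have hT : ∀ y : E n, T0 y = ∑ j, y j • v j := by
    intro y
    conv_lhs => rw [← b.sum_repr y]
    rw [map_sum]
    refine Finset.sum_congr rfl fun j _ => ?_
    rw [map_smul, hT0, Module.Basis.equiv_apply, Equiv.refl_apply, hBv, hbdef]
    simp
  have hrepr : ∀ (y : E n) (j : Fin n), B.repr (T0 y) j = y j := by
    intro y j
    rw [hT, map_sum]
    simp only [map_smul, ← hBv, Module.Basis.repr_self, Finsupp.coe_finsetSum,
      Finset.sum_apply, Finsupp.coe_smul, Pi.smul_apply, smul_eq_mul]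
    rw [Finset.sum_eq_single j]
    · rw [Finsupp.single_eq_same, mul_one]
    · intro k _ hk
      rw [Finsupp.single_eq_of_ne (Ne.symm hk), mul_zero]
    · intro hj
      exact absurd (Finset.mem_univ j) hj
  have hcoord : ∀ y : E n, h (T0 y) ≤ 1 → ∀ j, |y j| ≤ 1 := by
    intro y hy j
    have h1 : Function.update v j (T0 y) ∈ Set.pi (univ : Set (Fin n)) fun _ => Q := by
      intro k _
      by_cases hk : k = j
      · subst hk
        rw [Function.update_self]
        exact hy
      · rw [Function.update_of_ne hk]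
        exact hvQ k
    have h2 : |b.det (Function.update v j (T0 y))| ≤ |b.det v| := hmax h1
    have h3 : b.det (Function.update v j (T0 y)) = b.det v * y j := by
      have h4 := b.det.eq_smul_basis_det B
      have h5 : b.det (Function.update v j (T0 y)) =
          (b.det B • B.det) (Function.update v j (T0 y)) := by rw [← h4]
      rw [h5, AlternatingMap.smul_apply, smul_eq_mul, hBv']
      congr 1
      rw [← hBv', bb2_update, hrepr]
    rw [h3, abs_mul] at h2
    have h6 : |b.det v| * |y j| ≤ |b.det v| * 1 := by rw [mul_one]; exact h2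
    exact le_of_mul_le_mul_left h6 hpos
  have hnorm1 : ∀ y : E n, h (T0 y) ≤ 1 → ‖y‖ ≤ Real.sqrt n := by
    intro y hy
    rw [EuclideanSpace.norm_eq]
    refine Real.sqrt_le_sqrt ?_
    have h1 : ∑ j, ‖y j‖ ^ 2 ≤ ∑ _j : Fin n, (1:ℝ) := by
      refine Finset.sum_le_sum fun j _ => ?_
      rw [Real.norm_eq_abs]
      have h2 := hcoord y hy j
      have h3 := abs_nonneg (y j)
      nlinarith
    simpa using h1
  refine ⟨T0.toContinuousLinearEquiv, fun y => ⟨?_, ?_⟩⟩
  · show ‖y‖ ≤ Real.sqrt n * h (T0 y)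
    by_cases hy : y = 0
    · rw [hy, map_zero, h0, norm_zero, mul_zero]
    have hs : 0 < h (T0 y) := hh.pos _ (by
      intro h1
      exact hy (T0.map_eq_zero_iff.1 h1))
    have h1 := hnorm1 ((h (T0 y))⁻¹ • y) (by
      rw [map_smul, hh.hom _ (by positivity), inv_mul_cancel₀ hs.ne'])
    rw [norm_smul, norm_inv, Real.norm_of_nonneg hs.le, inv_mul_le_iff₀ hs] at h1
    linarith
  · show Real.sqrt n * h (T0 y) ≤ n * C * ‖y‖
    have h1 := bb2_sum hh hC hb v hvQ (fun j => y j)
    rw [← hT] at h1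
    have h2 : ∑ j, |y j| ≤ Real.sqrt n * ‖y‖ := by
      have h3 := Finset.sum_mul_sq_le_sq_mul_sq Finset.univ (fun _ : Fin n => (1:ℝ))
        (fun j => |y j|)
      simp only [one_mul, one_pow, sq_abs, Finset.sum_const, Finset.card_univ, Fintype.card_fin,
        nsmul_eq_mul, mul_one] at h3
      rw [EuclideanSpace.norm_eq, ← Real.sqrt_mul (by positivity)]
      refine Real.le_sqrt_of_sq_le ?_
      simpa only [Real.norm_eq_abs, sq_abs] using h3
    have h4 : Real.sqrt n * Real.sqrt n = n := Real.mul_self_sqrt (by positivity)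
    have h5 : C * ∑ j, |y j| ≤ C * (Real.sqrt n * ‖y‖) :=
      mul_le_mul_of_nonneg_left h2 (by linarith)
    calc Real.sqrt n * h (T0 y) ≤ Real.sqrt n * (C * (Real.sqrt n * ‖y‖)) :=
          mul_le_mul_of_nonneg_left (h1.trans h5) (Real.sqrt_nonneg _)
      _ = (Real.sqrt n * Real.sqrt n) * C * ‖y‖ := by ring
      _ = n * C * ‖y‖ := by rw [h4]

end Pool.Agent.H88.CN
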