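import Pool.Agent.H88.CN.Defs

/-!
# CN-BB3: the longest axis of an ellipsoid

Proof.  Let `a` be a unit vector maximising `‖T a‖` over the unit sphere, `s = ‖T a‖ = ‖T‖ > 0`,
`w = s⁻¹ T a`.  If `y ⊥ a` then `T y ⊥ T a`: for all real `r`,
`‖T (a + r y)‖² ≤ s² ‖a + r y‖² = s² (1 + r² ‖y‖²)`, i.e.
`2 r ⟨T a, T y⟩ ≤ r² (s² ‖y‖² - ‖T y‖²)`, which forces `⟨T a, T y⟩ = 0`.
The orthogonal complement of `a` has dimension `m`; let `j : E m → E (m + 1)` be a linear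
isometry onto it (e.g. from `stdOrthonormalBasis` of `(ℝ ∙ a)ᗮ`, `finrank = m`), and
`ι t y = t a + j y`, `‖ι t y‖² = t² + ‖y‖²`.  Put `D = s⁻¹ T ∘ j`; then `T (ι t y) = s (t w + D y)`,
`⟨w, D y⟩ = 0`, `D` is injective, `‖D y‖ ≤ s⁻¹ ‖T‖ ‖y‖ ≤ ‖y‖`.
-/

namespace Pool.Agent.H88.CN

open MeasureTheory Metric Set Pool.Agent.H35.CA

variable {m : ℕ}

private theorem bb3_orth {F : Type*} [NormedAddCommGroup F] [InnerProductSpace ℝ F]
    (T : F →L[ℝ] F) {a y : F} (ha : ‖a‖ = 1) (hmax : ∀ x, ‖T x‖ ≤ ‖T a‖ * ‖x‖)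
    (hy : inner ℝ a y = 0) : inner ℝ (T a) (T y) = 0 := by
  set c : ℝ := inner ℝ (T a) (T y) with hc
  set K : ℝ := ‖T a‖ ^ 2 * ‖y‖ ^ 2 - ‖T y‖ ^ 2 with hK
  have hK0 : 0 ≤ K := by
    have h1 := hmax y
    have h2 : ‖T y‖ ^ 2 ≤ (‖T a‖ * ‖y‖) ^ 2 := pow_le_pow_left₀ (norm_nonneg _) h1 2
    rw [mul_pow] at h2
    linarith
  have key : ∀ r : ℝ, 2 * r * c ≤ r ^ 2 * K := by
    intro r
    have h1 := hmax (a + r • y)
    have h2 : ‖T (a + r • y)‖ ^ 2 ≤ (‖T a‖ * ‖a + r • y‖) ^ 2 :=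
      pow_le_pow_left₀ (norm_nonneg _) h1 2
    have h3 : ‖a + r • y‖ ^ 2 = 1 + r ^ 2 * ‖y‖ ^ 2 := by
      rw [norm_add_sq_real, inner_smul_right, hy, norm_smul, ha, mul_pow, Real.norm_eq_abs, sq_abs]
      ring
    have h4 : ‖T (a + r • y)‖ ^ 2 = ‖T a‖ ^ 2 + 2 * r * c + r ^ 2 * ‖T y‖ ^ 2 := by
      rw [map_add, map_smul, norm_add_sq_real, inner_smul_right, norm_smul, mul_pow,
        Real.norm_eq_abs, sq_abs, ← hc]
      ring
    rw [mul_pow, h3, h4] at h2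
    rw [hK]
    linarith
  by_contra hne
  have h5 := key (c / (K + 1))
  have h6 : 0 < K + 1 := by linarith
  have h7 : 0 < c ^ 2 := by positivity
  have h8 : 2 * (c / (K + 1)) * c = 2 * c ^ 2 / (K + 1) := by ring
  have h9 : (c / (K + 1)) ^ 2 * K = c ^ 2 * K / (K + 1) ^ 2 := by
    rw [div_pow]
    ring
  rw [h8, h9, div_le_div_iff₀ h6 (by positivity)] at h5
  nlinarith [mul_pos h7 h6, mul_nonneg h7.le hK0]

theorem frame (T : E (m + 1) ≃L[ℝ] E (m + 1)) : ∃ (w : E (m + 1)) (D : E m →L[ℝ] E (m + 1))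
    (s : ℝ) (ι : ℝ → E m → E (m + 1)), Fr w D ∧ 0 < s ∧ (∀ t y, ‖ι t y‖ ^ 2 = t ^ 2 + ‖y‖ ^ 2) ∧
    ∀ t y, T (ι t y) = s • (t • w + D y) := by
  have hcomp : IsCompact (sphere (0 : E (m + 1)) 1) := isCompact_sphere _ _
  have hne : (sphere (0 : E (m + 1)) 1).Nonempty :=
    ⟨EuclideanSpace.single 0 1, by simp⟩
  obtain ⟨a, ha, hmax⟩ := hcomp.exists_isMaxOn hne
    (T.continuous.norm.continuousOn (s := sphere (0 : E (m + 1)) 1))
  have ha1 : ‖a‖ = 1 := by simpa using ha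
  have ha0 : a ≠ 0 := by
    intro h
    rw [h, norm_zero] at ha1
    exact zero_ne_one ha1
  set s : ℝ := ‖T a‖ with hs
  have hs0 : 0 < s := by
    rw [hs, norm_pos_iff]
    intro h
    exact ha0 ((map_eq_zero_iff T T.injective).1 h)
  have hbound : ∀ x, ‖T x‖ ≤ s * ‖x‖ := by
    intro x
    rcases eq_or_ne x 0 with rfl | hx
    · simp
    · have hx0 : 0 < ‖x‖ := norm_pos_iff.2 hx
      have h1 : ‖x‖⁻¹ • x ∈ sphere (0 : E (m + 1)) 1 := by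
        rw [mem_sphere_zero_iff_norm, norm_smul, norm_inv, norm_norm, inv_mul_cancel₀ hx0.ne']
      have h2 : ‖T (‖x‖⁻¹ • x)‖ ≤ s := hmax h1
      rw [map_smul, norm_smul, norm_inv, norm_norm] at h2
      rw [inv_mul_le_iff₀ hx0] at h2
      linarith [mul_comm s ‖x‖]
  have : Fact (Module.finrank ℝ (E (m + 1)) = m + 1) := ⟨by simp⟩
  set b := OrthonormalBasis.fromOrthogonalSpanSingleton (𝕜 := ℝ) m ha0 with hb
  set j : E m →ₗᵢ[ℝ] E (m + 1) :=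
    (Submodule.subtypeₗᵢ (ℝ ∙ a)ᗮ).comp b.repr.symm.toLinearIsometry with hj
  have hja : ∀ y, inner ℝ a (j y) = 0 := by
    intro y
    exact Submodule.mem_orthogonal_singleton_iff_inner_right.1 (b.repr.symm y).2
  have hT : ∀ y, inner ℝ (T a) (T (j y)) = 0 := fun y =>
    bb3_orth (T : E (m + 1) →L[ℝ] E (m + 1)) ha1 hbound (hja y)
  refine ⟨s⁻¹ • T a, s⁻¹ • ((T : E (m + 1) →L[ℝ] E (m + 1)).comp j.toContinuousLinearMap), s,
    fun t y => t • a + j y, ⟨?_, ?_, ?_, ?_⟩, hs0, ?_, ?_⟩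
  · rw [norm_smul, norm_inv, Real.norm_eq_abs, abs_of_pos hs0, ← hs, inv_mul_cancel₀ hs0.ne']
  · intro y
    show inner ℝ (s⁻¹ • T a) (s⁻¹ • T (j y)) = 0
    rw [inner_smul_left, inner_smul_right, hT y]
    simp
  · intro y hy
    have h1 : s⁻¹ • T (j y) = 0 := hy
    rw [smul_eq_zero] at h1
    rcases h1 with h1 | h1
    · exact absurd h1 (inv_ne_zero hs0.ne')
    · have h2 := (map_eq_zero_iff T T.injective).1 h1
      have h3 : ‖j y‖ = 0 := by rw [h2, norm_zero]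
      rw [j.norm_map] at h3
      exact norm_eq_zero.1 h3
  · refine ContinuousLinearMap.opNorm_le_bound _ zero_le_one fun y => ?_
    show ‖s⁻¹ • T (j y)‖ ≤ 1 * ‖y‖
    rw [norm_smul, norm_inv, Real.norm_eq_abs, abs_of_pos hs0, inv_mul_le_iff₀ hs0]
    have h1 := hbound (j y)
    rw [j.norm_map] at h1
    linarith
  · intro t y
    show ‖t • a + j y‖ ^ 2 = t ^ 2 + ‖y‖ ^ 2
    rw [norm_add_sq_real, inner_smul_left, hja y, norm_smul, ha1, j.norm_map, Real.norm_eq_abs,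
      mul_one, sq_abs]
    simp
  · intro t y
    show T (t • a + j y) = s • (t • (s⁻¹ • T a) + s⁻¹ • T (j y))
    rw [map_add, map_smul, smul_add, smul_smul s s⁻¹, mul_inv_cancel₀ hs0.ne', one_smul,
      smul_comm t s⁻¹, smul_smul s s⁻¹, mul_inv_cancel₀ hs0.ne', one_smul]

end Pool.Agent.H88.CN
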