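import Pool.Agent.H88.CN.BB2
import Pool.Agent.H88.CN.BB3

/-!
# CN-BB4: the density in the normalised frame

Proof.  `n = m + 1`.  `T` from `auer`, then `w, D, s, ι` from `frame T`.  Put
`H t y = √n * s * h (t w + D y) = √n * h (T (ι t y))` (homogeneity, `s > 0`), and
`k = ((√n * s)^n)⁻¹`, so `q (t, y) = k (h (X w D (t, y))^n)⁻¹ = (H t y ^ n)⁻¹`.
By `auer`, with `r = ‖ι t y‖ = √(t² + ‖y‖²)`: `r ≤ H t y ≤ n C r`.  For `y ∈ Rg m`:
* `H ≥ r ≥ ‖y‖ ≥ 1`, `H ≥ |t|`, `n ≥ 2` (as `m ≥ 1`): `q ≤ 1` and `q t² ≤ t² / H² ≤ 1`, so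
  `q (1 + t²) ≤ 2`;
* `|t| ≤ 2`, `‖y‖ ≤ 2`: `H ≤ n C √8 ≤ 3 n C`, so `q ≥ ((3 n C)^n)⁻¹`;
* Lipschitz in `t`: `H t y ≤ H t' y + √n s h ((t - t') w) ≤ H t' y + n C |t - t'|` (sublinearity;
  `√n s h ((t - t') w) = H (t - t') 0 ≤ n C |t - t'|`), and `|a^(-n) - b^(-n)| ≤ n |a - b|` for
  `a, b ≥ 1`; so `L = n² C`;
* continuity: `h` is continuous and positive off `0`, `X w D (t, y) ≠ 0` for `y ∈ Rg m`.
-/

namespace Pool.Agent.H88.CN

open MeasureTheory Metric Set Pool.Agent.H35.CA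

variable {m : ℕ}

private theorem bb4_inv_lip (N : ℕ) {a b : ℝ} (ha : 1 ≤ a) (hb : 1 ≤ b) :
    |(a ^ N)⁻¹ - (b ^ N)⁻¹| ≤ N * |a - b| := by
  have key : ∀ x y : ℝ, 0 < x → x ≤ 1 → 0 < y → y ≤ 1 → |x ^ N - y ^ N| ≤ N * |x - y| := by
    intro x y hx hx1 hy hy1
    induction N with
    | zero => simp
    | succ N ih =>
      have h1 : x ^ (N + 1) - y ^ (N + 1) = x * (x ^ N - y ^ N) + (x - y) * y ^ N := by ring
      rw [h1]
      have h2 : |x * (x ^ N - y ^ N)| ≤ N * |x - y| := by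
        rw [abs_mul, abs_of_pos hx]
        have h3 : x * |x ^ N - y ^ N| ≤ 1 * |x ^ N - y ^ N| :=
          mul_le_mul_of_nonneg_right hx1 (abs_nonneg _)
        linarith
      have h4 : |(x - y) * y ^ N| ≤ |x - y| := by
        rw [abs_mul, abs_of_pos (pow_pos hy N)]
        have h5 : y ^ N ≤ 1 := pow_le_one₀ hy.le hy1
        have h6 : |x - y| * y ^ N ≤ |x - y| * 1 := mul_le_mul_of_nonneg_left h5 (abs_nonneg _)
        linarith
      have h7 := abs_add_le (x * (x ^ N - y ^ N)) ((x - y) * y ^ N)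
      push_cast
      linarith
  have ha0 : 0 < a := by linarith
  have hb0 : 0 < b := by linarith
  have h1 := key a⁻¹ b⁻¹ (inv_pos.2 ha0) (inv_le_one_of_one_le₀ ha) (inv_pos.2 hb0)
    (inv_le_one_of_one_le₀ hb)
  rw [inv_pow, inv_pow] at h1
  refine h1.trans ?_
  apply mul_le_mul_of_nonneg_left _ (Nat.cast_nonneg N)
  have h2 : a⁻¹ - b⁻¹ = (b - a) / (a * b) := by field_simp
  rw [h2, abs_div, abs_of_pos (mul_pos ha0 hb0), abs_sub_comm]
  apply div_le_self (abs_nonneg _)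
  nlinarith

theorem dens (hm : 1 ≤ m) {h : E (m + 1) → ℝ} (hh : SL h) (hP : P1 h) {C : ℝ} (hC : 1 ≤ C)
    (hb : ∀ x, h (-x) ≤ C * h x) :
    ∃ (w : E (m + 1)) (D : E m →L[ℝ] E (m + 1)) (k : ℝ), Fr w D ∧ 0 < k ∧
    Dn (((3 * (m + 1) * C) ^ (m + 1))⁻¹) ((m + 1) ^ 2 * C)
      (fun p : ℝ × E m => k * (h (X w D p) ^ (m + 1))⁻¹) := by
  obtain ⟨T, hT⟩ := auer hh hP hC hb
  obtain ⟨w, D, s, ι, hF, hs, hι, hTι⟩ := frame T
  obtain ⟨κ, hκ⟩ : ∃ κ, κ = Real.sqrt ((m + 1 : ℕ) : ℝ) * s := ⟨_, rfl⟩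
  have hsq : 0 < Real.sqrt ((m + 1 : ℕ) : ℝ) := Real.sqrt_pos.2 (by positivity)
  have hκ0 : 0 < κ := by
    rw [hκ]
    exact mul_pos hsq hs
  have hH : ∀ (t : ℝ) (y : E m), κ * h (t • w + D y) = Real.sqrt ((m + 1 : ℕ) : ℝ) * h (T (ι t y)) := by
    intro t y
    rw [hTι, hh.hom s hs.le, hκ]
    ring
  have hlow : ∀ (t : ℝ) (y : E m), ‖ι t y‖ ≤ κ * h (t • w + D y) := by
    intro t y
    rw [hH]
    exact (hT _).1
  have hup : ∀ (t : ℝ) (y : E m), κ * h (t • w + D y) ≤ (m + 1) * C * ‖ι t y‖ := by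
    intro t y
    rw [hH]
    have h1 := (hT (ι t y)).2
    push_cast at h1 ⊢
    exact h1
  have hn1 : ∀ t : ℝ, ∀ y ∈ Rg m, 1 + t ^ 2 ≤ ‖ι t y‖ ^ 2 := by
    intro t y hy
    rw [hι]
    have h1 : (1 : ℝ) ≤ ‖y‖ := hy.1
    nlinarith
  have hHsq : ∀ t : ℝ, ∀ y ∈ Rg m, 1 + t ^ 2 ≤ (κ * h (t • w + D y)) ^ 2 := by
    intro t y hy
    have h1 := hn1 t y hy
    have h2 : ‖ι t y‖ ^ 2 ≤ (κ * h (t • w + D y)) ^ 2 :=
      pow_le_pow_left₀ (norm_nonneg _) (hlow t y) 2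
    linarith
  have hH1 : ∀ t : ℝ, ∀ y ∈ Rg m, 1 ≤ κ * h (t • w + D y) := by
    intro t y hy
    have h1 := hn1 t y hy
    have h2 := hlow t y
    have h3 : (1 : ℝ) ≤ ‖ι t y‖ := by
      by_contra hcon
      push Not at hcon
      have h4 := norm_nonneg (ι t y)
      nlinarith [sq_nonneg t]
    linarith
  have hq : ∀ (t : ℝ) (y : E m), (κ ^ (m + 1))⁻¹ * (h (X w D (t, y)) ^ (m + 1))⁻¹ =
      ((κ * h (t • w + D y)) ^ (m + 1))⁻¹ := by
    intro t y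
    show (κ ^ (m + 1))⁻¹ * (h (t • w + D y) ^ (m + 1))⁻¹ = _
    rw [mul_pow, mul_inv]
  have hlip : ∀ (t t' : ℝ) (y : E m), κ * h (t • w + D y) ≤ κ * h (t' • w + D y) + (m + 1) * C * |t - t'| := by
    intro t t' y
    have h1 : t • w + D y = (t - t') • w + (t' • w + D y) := by
      rw [sub_smul]
      abel
    have h2 : h (t • w + D y) ≤ h ((t - t') • w) + h (t' • w + D y) := by
      rw [h1]
      exact hh.sub _ _
    have h3 := hup (t - t') 0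
    rw [map_zero, add_zero] at h3
    have h4 : ‖ι (t - t') 0‖ = |t - t'| := by
      have h5 := hι (t - t') 0
      rw [norm_zero] at h5
      have h6 : ‖ι (t - t') 0‖ ^ 2 = |t - t'| ^ 2 := by
        rw [sq_abs, h5]
        ring
      exact (pow_left_inj₀ (norm_nonneg _) (abs_nonneg _) two_ne_zero).1 h6
    rw [h4] at h3
    have h7 := mul_le_mul_of_nonneg_left h2 hκ0.le
    rw [mul_add] at h7
    linarith
  refine ⟨w, D, (κ ^ (m + 1))⁻¹, hF, inv_pos.2 (pow_pos hκ0 _), ?_, ?_, ?_, ?_, ?_⟩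
  · -- continuity
    apply ContinuousOn.mul continuousOn_const
    apply ContinuousOn.inv₀
    · apply Continuous.continuousOn
      apply Continuous.pow
      apply hP.cont.comp
      unfold X
      exact (continuous_fst.smul continuous_const).add (D.continuous.comp continuous_snd)
    · rintro ⟨t, y⟩ ⟨-, hy⟩
      have h1 := hH1 t y hy
      have h2 : 0 < h (X w D (t, y)) := by
        have h3 : 0 < κ * h (t • w + D y) := by linarith
        exact (mul_pos_iff_of_pos_left hκ0).1 h3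
      exact (pow_pos h2 _).ne'
  · intro t y hy
    show 0 ≤ (κ ^ (m + 1))⁻¹ * (h (X w D (t, y)) ^ (m + 1))⁻¹
    rw [hq]
    have h1 := hH1 t y hy
    positivity
  · intro t y hy
    show (κ ^ (m + 1))⁻¹ * (h (X w D (t, y)) ^ (m + 1))⁻¹ * (1 + t ^ 2) ≤ 2
    rw [hq]
    have h1 := hH1 t y hy
    have h2 := hHsq t y hy
    have h3 : (κ * h (t • w + D y)) ^ 2 ≤ (κ * h (t • w + D y)) ^ (m + 1) :=
      pow_le_pow_right₀ h1 (by omega)
    have h4 : 0 < (κ * h (t • w + D y)) ^ (m + 1) := pow_pos (by linarith) _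
    rw [inv_mul_le_iff₀ h4]
    linarith
  · intro t ht y hy
    show ((3 * ((m : ℝ) + 1) * C) ^ (m + 1))⁻¹ ≤ (κ ^ (m + 1))⁻¹ * (h (X w D (t, y)) ^ (m + 1))⁻¹
    rw [hq]
    have h1 := hH1 t y hy
    have h2 := hup t y
    have h3 : ‖ι t y‖ ≤ 3 := by
      have h4 := hι t y
      have h5 : ‖y‖ ≤ 2 := hy.2
      have h6 : t ^ 2 ≤ 4 := by
        rw [← sq_abs]
        nlinarith [abs_nonneg t]
      by_contra hcon
      push Not at hcon
      nlinarith [norm_nonneg y]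
    have h7 : κ * h (t • w + D y) ≤ 3 * ((m : ℝ) + 1) * C := by
      have h8 : ((m : ℝ) + 1) * C * ‖ι t y‖ ≤ ((m : ℝ) + 1) * C * 3 :=
        mul_le_mul_of_nonneg_left h3 (by positivity)
      linarith
    apply inv_anti₀ (pow_pos (by linarith) _)
    exact pow_le_pow_left₀ (by linarith) h7 _
  · intro t t' y hy
    show |(κ ^ (m + 1))⁻¹ * (h (X w D (t, y)) ^ (m + 1))⁻¹ -
      (κ ^ (m + 1))⁻¹ * (h (X w D (t', y)) ^ (m + 1))⁻¹| ≤ ((m : ℝ) + 1) ^ 2 * C * |t - t'|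
    rw [hq, hq]
    have h1 := bb4_inv_lip (m + 1) (hH1 t y hy) (hH1 t' y hy)
    have h2 : |κ * h (t • w + D y) - κ * h (t' • w + D y)| ≤ (m + 1) * C * |t - t'| := by
      rw [abs_le]
      have h3 := hlip t t' y
      have h4 := hlip t' t y
      rw [abs_sub_comm] at h4
      constructor <;> linarith
    have h5 : (((m + 1 : ℕ) : ℝ)) * |κ * h (t • w + D y) - κ * h (t' • w + D y)| ≤
        ((m : ℝ) + 1) * ((m + 1) * C * |t - t'|) := by
      push_cast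
      exact mul_le_mul_of_nonneg_left h2 (by positivity)
    calc _ ≤ _ := h1
      _ ≤ _ := h5
      _ = _ := by ring

end Pool.Agent.H88.CN
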