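import Pool.Agent.H35.CA.Defs

/-!
# Project CN (MP_622023_gt): definitions

Stability of the Chou-Wang obstruction in the class of functions of Hölder class `C^(1,α)`.
Everything lives on `E n = EuclideanSpace ℝ (Fin n)` (see `Pool/Agent/H35/CA/Defs.lean` for
`E`, `un x = x / ‖x‖`, `mu n`, `om n`, `H0`, `P1`, `SL`, `supp`, `IsSolution`).
-/

namespace Pool.Agent.H88.CN

open MeasureTheory Metric Set Pool.Agent.H35.CA

variable {n m : ℕ}

/-- A function on the sphere of class `C^k`, given by its extension which is homogeneous of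
degree 0 (the value at the origin is irrelevant). -/
structure Sm (k : ℕ) (F : E n → ℝ) : Prop where
  hom : ∀ t : ℝ, 0 < t → ∀ x, F (t • x) = F x
  smooth : ContDiffOn ℝ k F {0}ᶜ

/-- The symmetric operator with eigenbasis `b` and eigenvalues `μ`. -/
noncomputable def Lop (b : OrthonormalBasis (Fin n) ℝ (E n)) (μ : Fin n → ℝ) : E n →L[ℝ] E n :=
  ∑ i, μ i • (innerSL ℝ (b i)).smulRight (b i)

/-- The vector field `u ↦ L u - ⟨L u, u⟩ u` (tangential for `‖u‖ = 1`). -/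
noncomputable def xi (L : E n →L[ℝ] E n) (u : E n) : E n := L u - (inner ℝ (L u) u : ℝ) • u

/-- The orthogonal projection along the unit vector `w`: `x ↦ x - ⟨w, x⟩ w`. -/
noncomputable def Pj (w : E n) : E n →L[ℝ] E n :=
  ContinuousLinearMap.id ℝ (E n) - (innerSL ℝ w).smulRight w

/-- The operator `P (L - μ i) P`, where `P = Pj w` and `L = Lop b μ`. -/
noncomputable def Bop (b : OrthonormalBasis (Fin n) ℝ (E n)) (μ : Fin n → ℝ) (i : Fin n)
    (w : E n) : E n →L[ℝ] E n :=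
  (Pj w).comp ((Lop b μ - μ i • ContinuousLinearMap.id ℝ (E n)).comp (Pj w))

/-- The distance of `w` from `p` or `-p`. -/
noncomputable def dd (p w : E n) : ℝ := min ‖w - p‖ ‖w + p‖

/-- The annulus `1 ≤ ‖y‖ ≤ 2`. -/
def Rg (m : ℕ) : Set (E m) := {y | 1 ≤ ‖y‖ ∧ ‖y‖ ≤ 2}

/-- Lebesgue measure of `ℝ × Rg m`. -/
noncomputable def nu (m : ℕ) : Measure (ℝ × E m) :=
  (volume : Measure ℝ).prod ((volume : Measure (E m)).restrict (Rg m))

/-- The point `t w + D y`. -/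
noncomputable def X (w : E (m + 1)) (D : E m →L[ℝ] E (m + 1)) (p : ℝ × E m) : E (m + 1) :=
  p.1 • w + D p.2

/-- A frame: a unit vector `w` and an injective linear map `D` of norm at most 1 into the
orthogonal complement of `w`. -/
structure Fr (w : E (m + 1)) (D : E m →L[ℝ] E (m + 1)) : Prop where
  nw : ‖w‖ = 1
  orth : ∀ y, inner ℝ w (D y) = 0
  inj : ∀ y, D y = 0 → y = 0
  nD : ‖D‖ ≤ 1

/-- The properties of the density `q` which are used. -/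
structure Dn (c L : ℝ) (q : ℝ × E m → ℝ) : Prop where
  cont : ContinuousOn q (univ ×ˢ Rg m)
  nonneg : ∀ t, ∀ y ∈ Rg m, 0 ≤ q (t, y)
  upper : ∀ t, ∀ y ∈ Rg m, q (t, y) * (1 + t ^ 2) ≤ 2
  lower : ∀ t, |t| ≤ 2 → ∀ y ∈ Rg m, c ≤ q (t, y)
  lip : ∀ t s, ∀ y ∈ Rg m, |q (t, y) - q (s, y)| ≤ L * |t - s|

/-- The Kazdan-Warner type identities for the vector field `V` on the sphere, in the
coordinates of the frame. -/
def KW (V : E (m + 1) → E (m + 1)) (w : E (m + 1)) (D : E m →L[ℝ] E (m + 1))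
    (q : ℝ × E m → ℝ) : Prop :=
  ∀ B : E (m + 1) →L[ℝ] E (m + 1),
    ∫ p, inner ℝ (V (un (X w D p))) (B (un (X w D p))) * q p ∂(nu m) = 0

/-- The nondegenerate obstruction, for the spherical gradient `V` of the unperturbed function. -/
structure Ob (b : OrthonormalBasis (Fin n) ℝ (E n)) (μ : Fin n → ℝ) (c M κ d : ℝ)
    (V : E n → E n) : Prop where
  cpos : 0 < c
  mpos : 0 < M
  kpos : 0 < κ
  kle : κ ≤ 1 / 2
  dpos : 0 < d
  dle : d ≤ 1 / 2
  obs : ∀ u, ‖u‖ = 1 → c * ‖xi (Lop b μ) u‖ ^ 2 ≤ inner ℝ (V u) (xi (Lop b μ) u)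
  tan : ∀ u, ‖u‖ = 1 → inner ℝ (V u) u = 0
  bd : ∀ u, ‖u‖ = 1 → ‖V u‖ ≤ M
  lip : ∀ u v, ‖u‖ = 1 → ‖v‖ = 1 → ‖V u - V v‖ ≤ M * ‖u - v‖
  crit : ∀ i, V (b i) = 0 ∧ V (-b i) = 0
  mono : ∀ i w u, ‖w‖ = 1 → ‖u‖ = 1 → dd (b i) w ≤ d → 0 < inner ℝ u w → ‖Pj w u‖ ≤ κ →
    0 ≤ inner ℝ (V u - V w) (Bop b μ i w u)

/-- A small tangential vector field of Hölder class `α`. -/
structure Pt (ε α : ℝ) (G : E n → E n) : Prop where
  tan : ∀ u, ‖u‖ = 1 → inner ℝ (G u) u = 0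
  bd : ∀ u, ‖u‖ = 1 → ‖G u‖ ≤ ε
  hol : ∀ u v, ‖u‖ = 1 → ‖v‖ = 1 → ‖G u - G v‖ ≤ ε * ‖u - v‖ ^ α

/-- The first moment `∫ ⟨p, D y⟩ q (0, y) dy` over the annulus. -/
noncomputable def am (D : E m →L[ℝ] E (m + 1)) (q : ℝ × E m → ℝ) (p : E (m + 1)) : ℝ :=
  ∫ y in Rg m, inner ℝ p (D y) * q (0, y)

/-- The integral `∫ ⟨p, D y⟩ / |X| q`. -/
noncomputable def Yi (w : E (m + 1)) (D : E m →L[ℝ] E (m + 1)) (q : ℝ × E m → ℝ)
    (p : E (m + 1)) : ℝ :=
  ∫ z, inner ℝ p (D z.2) / ‖X w D z‖ * q z ∂(nu m)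

/-- The sign of `t`, equal to `-1` for `t ≤ 0`. -/
noncomputable def sg (t : ℝ) : ℝ := if 0 < t then 1 else -1

theorem inner_grad (F : E n → ℝ) (x v : E n) :
    inner ℝ (gradient F x) v = fderiv ℝ F x v := by
  unfold gradient
  rw [InnerProductSpace.toDual_symm_apply]

end Pool.Agent.H88.CN
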