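import Pool.Agent.H88.CN.Defs

/-!
# CN-GE: geometry of the frame coordinates

Notation: `ρ = ‖D y‖`, `X = X w D (t, y) = t w + D y`, `x = un X = X / ‖X‖`.
All statements are elementary.
`ge_norm`: Pythagoras with `‖w‖ = 1`, `⟨w, D y⟩ = 0`.  `ge_pos`: `ρ > 0` because `D` is injective
and `y ≠ 0`.  `ge_inner`: `⟨x, w⟩ = t / ‖X‖`.  `ge_pj`: `Pj w X = D y`, so `Pj w x = ‖X‖⁻¹ D y`.
`ge_dist`: for a unit vector `x`, `‖x - s w‖² = 2 - 2 s ⟨x, w⟩` (`s = ±1`) and, when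
`s ⟨x, w⟩ ≥ 0`, `1 - s ⟨x, w⟩ ≤ 1 - ⟨x, w⟩² = ‖Pj w x‖²`; so `‖x - s w‖ ≤ √2 ‖Pj w x‖`.
`ge_tan`: for `V ⊥ x`, `⟨V, w⟩ = ⟨V, w - ⟨w, x⟩ x⟩` and
`‖w - ⟨w, x⟩ x‖² = 1 - ⟨w, x⟩² = ‖Pj w x‖²` (Cauchy-Schwarz).
`ge_cont`: `un` is continuous off `0` and `X ≠ 0` for `y ≠ 0`.
-/

namespace Pool.Agent.H88.CN

open MeasureTheory Metric Set Pool.Agent.H35.CA

variable {n m : ℕ}

theorem ge_rho_le {w : E (m + 1)} {D : E m →L[ℝ] E (m + 1)} (h : Fr w D) {y : E m}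
    (hy : y ∈ Rg m) : 0 < ‖D y‖ ∧ ‖D y‖ ≤ 2 * ‖D‖ ∧ ‖D y‖ ≤ 2 ∧ 0 < ‖D‖ := by
  have hy0 : y ≠ 0 := by
    rintro rfl
    have h1 := hy.1
    rw [norm_zero] at h1
    linarith
  have hD : D y ≠ 0 := fun hD => hy0 (h.inj y hD)
  have h1 : 0 < ‖D y‖ := norm_pos_iff.2 hD
  have h2 : ‖D y‖ ≤ 2 * ‖D‖ := by
    calc ‖D y‖ ≤ ‖D‖ * ‖y‖ := D.le_opNorm y
      _ ≤ ‖D‖ * 2 := mul_le_mul_of_nonneg_left hy.2 (norm_nonneg _)
      _ = 2 * ‖D‖ := mul_comm _ _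
  have h3 := h.nD
  refine ⟨h1, h2, by linarith, by linarith⟩

theorem ge_norm {w : E (m + 1)} {D : E m →L[ℝ] E (m + 1)} (h : Fr w D) (t : ℝ) (y : E m) :
    ‖X w D (t, y)‖ ^ 2 = t ^ 2 + ‖D y‖ ^ 2 ∧
      ‖X w D (t, y)‖ = Real.sqrt (t ^ 2 + ‖D y‖ ^ 2) := by
  have h1 : ‖X w D (t, y)‖ ^ 2 = t ^ 2 + ‖D y‖ ^ 2 := by
    rw [X, norm_add_sq_real, real_inner_smul_left, h.orth y, norm_smul, h.nw, mul_one,
      Real.norm_eq_abs, sq_abs]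
    ring
  refine ⟨h1, ?_⟩
  rw [← h1, Real.sqrt_sq (norm_nonneg _)]

theorem ge_pos {w : E (m + 1)} {D : E m →L[ℝ] E (m + 1)} (h : Fr w D) (t : ℝ) {y : E m}
    (hy : y ∈ Rg m) : 0 < ‖X w D (t, y)‖ ∧ X w D (t, y) ≠ 0 ∧ ‖un (X w D (t, y))‖ = 1 := by
  have h1 := (ge_norm h t y).1
  have h2 := (ge_rho_le h hy).1
  have h3 : ‖X w D (t, y)‖ ≠ 0 := by
    intro h0
    rw [h0] at h1
    have : 0 < ‖D y‖ ^ 2 := pow_pos h2 2
    nlinarith [sq_nonneg t]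
  have h4 : 0 < ‖X w D (t, y)‖ := lt_of_le_of_ne (norm_nonneg _) (Ne.symm h3)
  refine ⟨h4, norm_pos_iff.1 h4, ?_⟩
  rw [un, norm_smul, norm_inv, norm_norm, inv_mul_cancel₀ h3]

theorem ge_inner {w : E (m + 1)} {D : E m →L[ℝ] E (m + 1)} (h : Fr w D) (t : ℝ) (y : E m) :
    inner ℝ (un (X w D (t, y))) w = t / ‖X w D (t, y)‖ := by
  rw [un, real_inner_smul_left]
  have h1 : inner ℝ (X w D (t, y)) w = t := by
    rw [X, inner_add_left, real_inner_smul_left, real_inner_self_eq_norm_sq, h.nw,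
      real_inner_comm, h.orth y]
    ring
  rw [h1, div_eq_inv_mul]

theorem ge_pj_apply (w x : E n) : Pj w x = x - (inner ℝ w x : ℝ) • w := by
  simp [Pj]

theorem ge_pj {w : E (m + 1)} {D : E m →L[ℝ] E (m + 1)} (h : Fr w D) (t : ℝ) (y : E m) :
    Pj w (un (X w D (t, y))) = ‖X w D (t, y)‖⁻¹ • D y ∧
      ‖Pj w (un (X w D (t, y)))‖ = ‖D y‖ / ‖X w D (t, y)‖ := by
  have h1 : Pj w (X w D (t, y)) = D y := by
    rw [ge_pj_apply]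
    have h2 : inner ℝ w (X w D (t, y)) = t := by
      rw [X, inner_add_right, real_inner_smul_right, real_inner_self_eq_norm_sq, h.nw, h.orth y]
      ring
    rw [h2, X]
    exact add_sub_cancel_left _ _
  have h3 : Pj w (un (X w D (t, y))) = ‖X w D (t, y)‖⁻¹ • D y := by
    rw [un, map_smul, h1]
  refine ⟨h3, ?_⟩
  rw [h3, norm_smul, norm_inv, norm_norm, div_eq_inv_mul]

theorem ge_pj_sq {w x : E n} (hw : ‖w‖ = 1) (hx : ‖x‖ = 1) :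
    ‖Pj w x‖ ^ 2 = 1 - (inner ℝ x w : ℝ) ^ 2 ∧ ‖Pj w x‖ ≤ 1 := by
  have h1 : ‖Pj w x‖ ^ 2 = 1 - (inner ℝ x w : ℝ) ^ 2 := by
    rw [ge_pj_apply, norm_sub_sq_real, norm_smul, hw, hx, real_inner_smul_right,
      real_inner_comm w x, mul_one, Real.norm_eq_abs, sq_abs]
    ring
  refine ⟨h1, ?_⟩
  have h2 : ‖Pj w x‖ ^ 2 ≤ 1 ^ 2 := by
    rw [h1]
    nlinarith [sq_nonneg (inner ℝ x w : ℝ)]
  exact (sq_le_sq₀ (norm_nonneg _) zero_le_one).1 h2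

/-- Distance to `w` when the inner product is nonnegative. -/
theorem ge_dist {w x : E n} (hw : ‖w‖ = 1) (hx : ‖x‖ = 1) (h : 0 ≤ inner ℝ x w) :
    ‖x - w‖ ≤ 2 * ‖Pj w x‖ := by
  have h1 := (ge_pj_sq hw hx).1
  have h2 : ‖x - w‖ ^ 2 = 2 - 2 * inner ℝ x w := by
    rw [norm_sub_sq_real, hw, hx]
    ring
  have h3 : (inner ℝ x w : ℝ) ≤ 1 := by
    have := real_inner_le_norm x w
    rw [hw, hx, mul_one] at this
    exact this
  have h4 : ‖x - w‖ ^ 2 ≤ (2 * ‖Pj w x‖) ^ 2 := by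
    rw [mul_pow, h1, h2]
    nlinarith [mul_nonneg h (sub_nonneg.2 h3)]
  exact (sq_le_sq₀ (norm_nonneg _) (by positivity)).1 h4

theorem ge_dist_sg {w : E (m + 1)} {D : E m →L[ℝ] E (m + 1)} (h : Fr w D) (t : ℝ) {y : E m}
    (hy : y ∈ Rg m) :
    ‖un (X w D (t, y)) - sg t • w‖ ≤ 2 * (‖D y‖ / ‖X w D (t, y)‖) := by
  obtain ⟨h1, h2, h3⟩ := ge_pos h t hy
  have h4 := ge_inner h t y
  rw [← (ge_pj h t y).2]
  unfold sg
  by_cases ht : 0 < t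
  · rw [if_pos ht, one_smul]
    refine ge_dist h.nw h3 ?_
    rw [h4]
    exact (div_pos ht h1).le
  · rw [if_neg ht, neg_one_smul]
    have h5 : Pj w (un (X w D (t, y))) = Pj (-w) (un (X w D (t, y))) := by
      rw [ge_pj_apply, ge_pj_apply, inner_neg_left, smul_neg, neg_smul, neg_neg]
    rw [h5]
    refine ge_dist (by rw [norm_neg]; exact h.nw) h3 ?_
    rw [inner_neg_right, h4, neg_nonneg]
    exact div_nonpos_of_nonpos_of_nonneg (not_lt.1 ht) h1.le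

/-- For `t ≠ 0` the inner product with `sg t • w` is positive. -/
theorem ge_sg_pos {w : E (m + 1)} {D : E m →L[ℝ] E (m + 1)} (h : Fr w D) {t : ℝ} (ht : t ≠ 0)
    {y : E m} (hy : y ∈ Rg m) : 0 < inner ℝ (un (X w D (t, y))) (sg t • w) := by
  obtain ⟨h1, h2, h3⟩ := ge_pos h t hy
  have h4 := ge_inner h t y
  rw [real_inner_smul_right, h4]
  unfold sg
  rcases lt_or_gt_of_ne ht with ht' | ht'
  · rw [if_neg (not_lt.2 ht'.le), neg_one_mul, neg_pos]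
    exact div_neg_of_neg_of_pos ht' h1
  · rw [if_pos ht', one_mul]
    exact div_pos ht' h1

theorem ge_tan {w x v : E n} (hw : ‖w‖ = 1) (hx : ‖x‖ = 1) (hv : inner ℝ v x = 0) :
    |inner ℝ v w| ≤ ‖v‖ * ‖Pj w x‖ := by
  have h1 := (ge_pj_sq hw hx).1
  have h2 := (ge_pj_sq hx hw).1
  have h3 : ‖Pj x w‖ = ‖Pj w x‖ := by
    have h4 : ‖Pj x w‖ ^ 2 = ‖Pj w x‖ ^ 2 := by
      rw [h1, h2, real_inner_comm]
    exact (sq_eq_sq₀ (norm_nonneg _) (norm_nonneg _)).1 h4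
  have h5 : (inner ℝ v w : ℝ) = inner ℝ v (Pj x w) := by
    rw [ge_pj_apply, inner_sub_right, real_inner_smul_right, hv, mul_zero, sub_zero]
  rw [h5, ← h3]
  exact abs_real_inner_le_norm v _

theorem ge_cont {w : E (m + 1)} {D : E m →L[ℝ] E (m + 1)} (h : Fr w D) :
    ContinuousOn (fun p => un (X w D p)) (univ ×ˢ Rg m) ∧
      ContinuousOn (fun p => ‖X w D p‖⁻¹) (univ ×ˢ Rg m) := by
  have hX : Continuous (fun p : ℝ × E m => X w D p) := by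
    unfold X
    exact (continuous_fst.smul continuous_const).add (D.continuous.comp continuous_snd)
  have hinv : ContinuousOn (fun p => ‖X w D p‖⁻¹) (univ ×ˢ Rg m) := by
    refine ContinuousOn.inv₀ hX.norm.continuousOn ?_
    rintro ⟨t, y⟩ hp
    exact (ge_pos h t hp.2).1.ne'
  exact ⟨hinv.smul hX.continuousOn, hinv⟩

end Pool.Agent.H88.CN
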