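import Pool.Agent.H88.CN.GE

/-!
# CN-S4A: the derivative along a line parallel to `w`

Notation `X = X w D (t, y) = t w + D y ≠ 0`, `φ t = ⟨gradient F (un X), w⟩ / ‖X‖`.
Proof.  `F` is homogeneous of degree 0 and `C¹` off the origin, so its gradient is homogeneous of
degree `-1`: `gradient F (un X) = ‖X‖ • gradient F X` (differentiate `F (s x) = F x`).
So `φ t = ⟨gradient F X, w⟩ = d/dt F (t w + D y)` (`inner_grad`, chain rule), and `φ` is
continuous (`fderiv ℝ F` is continuous off the origin).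
For `t → ∞`: `F (t w + D y) = F (w + t⁻¹ D y) → F w`; for `t → -∞`:
`F (t w + D y) = F (-w + |t|⁻¹ D y) → F (-w)`.  `integral_of_hasDerivAt_of_tendsto` gives
`∫ φ = F w - F (-w)`.
-/

namespace Pool.Agent.H88.CN

open MeasureTheory Metric Set Pool.Agent.H35.CA

variable {n m : ℕ}

theorem s4a_diff {F : E n → ℝ} (hF : Sm 1 F) {x : E n} (hx : x ≠ 0) :
    DifferentiableAt ℝ F x :=
  (hF.smooth.contDiffAt (isOpen_compl_singleton.mem_nhds hx)).differentiableAt (by simp)

theorem s4a_fderiv {F : E n → ℝ} (hF : Sm 1 F) {x : E n} (hx : x ≠ 0) {t : ℝ} (ht : 0 < t) :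
    fderiv ℝ F (t • x) = t⁻¹ • fderiv ℝ F x := by
  have htx : t • x ≠ 0 := smul_ne_zero ht.ne' hx
  have h1 : HasFDerivAt F (fderiv ℝ F (t • x)) (t • x) := (s4a_diff hF htx).hasFDerivAt
  have h2 : HasFDerivAt (fun y : E n => t • y) (t • ContinuousLinearMap.id ℝ (E n)) x :=
    (hasFDerivAt_id x).const_smul t
  have h3 : HasFDerivAt (fun y : E n => F (t • y))
      ((fderiv ℝ F (t • x)).comp (t • ContinuousLinearMap.id ℝ (E n))) x :=
    HasFDerivAt.comp x h1 h2
  have h4 : (fun y : E n => F (t • y)) = F := funext fun y => hF.hom t ht y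
  rw [h4] at h3
  have h5 := h3.fderiv
  rw [h5]
  ext v
  simp only [FunLike.coe_smul, Pi.smul_apply, ContinuousLinearMap.comp_apply,
    ContinuousLinearMap.id_apply, map_smul, smul_eq_mul]
  rw [← mul_assoc, inv_mul_cancel₀ ht.ne', one_mul]

/-- The gradient of a function which is homogeneous of degree 0 is homogeneous of degree -1. -/
theorem grad_hom {F : E n → ℝ} (hF : Sm 1 F) {x : E n} (hx : x ≠ 0) :
    gradient F (un x) = ‖x‖ • gradient F x ∧
      ∀ t : ℝ, 0 < t → gradient F (t • x) = t⁻¹ • gradient F x := by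
  have key : ∀ t : ℝ, 0 < t → gradient F (t • x) = t⁻¹ • gradient F x := by
    intro t ht
    unfold gradient
    rw [s4a_fderiv hF hx ht]
    exact map_smul _ _ _
  refine ⟨?_, key⟩
  have hn : 0 < ‖x‖ := norm_pos_iff.2 hx
  have h1 := key ‖x‖⁻¹ (inv_pos.2 hn)
  rw [inv_inv] at h1
  exact h1

/-- The gradient is tangential. -/
theorem grad_tan {F : E n → ℝ} (hF : Sm 1 F) {x : E n} (hx : x ≠ 0) :
    inner ℝ (gradient F x) x = 0 := by
  rw [inner_grad]
  have h1 : HasFDerivAt F (fderiv ℝ F x) ((1 : ℝ) • x) := by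
    rw [one_smul]
    exact (s4a_diff hF hx).hasFDerivAt
  have h2 : HasDerivAt (fun t : ℝ => t • x) ((1 : ℝ) • x) 1 := (hasDerivAt_id (1 : ℝ)).smul_const x
  have h3 : HasDerivAt (fun t : ℝ => F (t • x)) (fderiv ℝ F x ((1 : ℝ) • x)) 1 :=
    HasFDerivAt.comp_hasDerivAt (1 : ℝ) h1 h2
  have h4 : (fun t : ℝ => F (t • x)) =ᶠ[nhds 1] fun _ => F x := by
    filter_upwards [lt_mem_nhds (zero_lt_one : (0 : ℝ) < 1)] with t ht
    exact hF.hom t ht x
  have h5 : HasDerivAt (fun _ : ℝ => F x) (fderiv ℝ F x ((1 : ℝ) • x)) 1 :=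
    h3.congr_of_eventuallyEq h4.symm
  have h6 := h5.unique (hasDerivAt_const (1 : ℝ) (F x))
  rw [one_smul] at h6
  exact h6

theorem grad_cont {F : E n → ℝ} (hF : Sm 1 F) : ContinuousOn (gradient F) {0}ᶜ := by
  have h1 : ContinuousOn (fderiv ℝ F) {0}ᶜ :=
    hF.smooth.continuousOn_fderiv_of_isOpen isOpen_compl_singleton (by simp)
  exact (InnerProductSpace.toDual ℝ (E n)).symm.continuous.comp_continuousOn h1

theorem s4a_contX (w : E (m + 1)) (D : E m →L[ℝ] E (m + 1)) (y : E m) :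
    Continuous (fun t : ℝ => X w D (t, y)) := by
  unfold X
  fun_prop

theorem s4a_eq {F : E (m + 1) → ℝ} (hF : Sm 1 F) {w : E (m + 1)} {D : E m →L[ℝ] E (m + 1)}
    (h : Fr w D) {y : E m} (hy : y ∈ Rg m) :
    (fun t : ℝ => inner ℝ (gradient F (un (X w D (t, y)))) w / ‖X w D (t, y)‖) =
      fun t : ℝ => inner ℝ (gradient F (X w D (t, y))) w := by
  funext t
  obtain ⟨h1, h2, -⟩ := ge_pos h t hy
  rw [(grad_hom hF h2).1, real_inner_smul_left]
  exact mul_div_cancel_left₀ _ h1.ne'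

theorem s4a_lim {F : E n → ℝ} (hF : Sm 1 F) {w : E n} (hw : w ≠ 0) (z : E n) :
    Filter.Tendsto (fun t : ℝ => F (t • w + z)) Filter.atTop (nhds (F w)) := by
  have h1 : Filter.Tendsto (fun t : ℝ => w + t⁻¹ • z) Filter.atTop (nhds w) := by
    have h2 : Filter.Tendsto (fun t : ℝ => w + t⁻¹ • z) Filter.atTop
        (nhds (w + (0 : ℝ) • z)) :=
      tendsto_const_nhds.add (tendsto_inv_atTop_zero.smul_const z)
    rwa [zero_smul, add_zero] at h2
  have h3 : Filter.Tendsto (fun t : ℝ => F (w + t⁻¹ • z)) Filter.atTop (nhds (F w)) :=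
    ((s4a_diff hF hw).continuousAt.tendsto).comp h1
  refine h3.congr' ?_
  filter_upwards [Filter.eventually_gt_atTop (0 : ℝ)] with t ht
  rw [← hF.hom t ht (w + t⁻¹ • z), smul_add, smul_smul, mul_inv_cancel₀ ht.ne', one_smul]

theorem s4a {F : E (m + 1) → ℝ} (hF : Sm 1 F) {w : E (m + 1)} {D : E m →L[ℝ] E (m + 1)}
    (h : Fr w D) {y : E m} (hy : y ∈ Rg m) :
    Continuous (fun t : ℝ => inner ℝ (gradient F (un (X w D (t, y)))) w / ‖X w D (t, y)‖) ∧
    (Integrable (fun t : ℝ => inner ℝ (gradient F (un (X w D (t, y)))) w / ‖X w D (t, y)‖) →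
      ∫ t : ℝ, inner ℝ (gradient F (un (X w D (t, y)))) w / ‖X w D (t, y)‖ = F w - F (-w)) := by
  rw [s4a_eq hF h hy]
  have hw : w ≠ 0 := by
    rintro rfl
    have := h.nw
    rw [norm_zero] at this
    exact zero_ne_one this
  refine ⟨?_, fun hint => ?_⟩
  · have h1 : Continuous (fun t : ℝ => gradient F (X w D (t, y))) :=
      (grad_cont hF).comp_continuous (s4a_contX w D y) fun t => (ge_pos h t hy).2.1
    exact h1.inner continuous_const
  · refine MeasureTheory.integral_of_hasDerivAt_of_tendsto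
      (f := fun t : ℝ => F (X w D (t, y))) ?_ hint ?_ ?_
    · intro t
      rw [inner_grad]
      have h1 : HasFDerivAt F (fderiv ℝ F (X w D (t, y))) (X w D (t, y)) :=
        (s4a_diff hF (ge_pos h t hy).2.1).hasFDerivAt
      have h2 : HasDerivAt (fun t : ℝ => X w D (t, y)) ((1 : ℝ) • w) t :=
        ((hasDerivAt_id t).smul_const w).add_const (D y)
      rw [one_smul] at h2
      exact HasFDerivAt.comp_hasDerivAt t h1 h2
    · have h1 := (s4a_lim hF (neg_ne_zero.2 hw) (D y)).comp Filter.tendsto_neg_atBot_atTop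
      refine h1.congr fun t => ?_
      simp [X]
    · exact s4a_lim hF hw (D y)

end Pool.Agent.H88.CN
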