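import Pool.Agent.H88.CN.AA8
import Pool.Agent.H88.CN.S4A
import Pool.Agent.H88.CN.AA5

/-!
# CN-GG1: the identities in the frame coordinates

Proof.  The map `T : ℝ × E m → E (m + 1)`, `(t, y) ↦ t w + D y` is linear and injective
(`⟨w, D y⟩ = 0`, `D` injective), and both spaces have dimension `m + 1`, so it is a continuous
linear equivalence (`LinearEquiv.ofInjectiveEndo`-like: `LinearMap.linearEquivOfInjective`,
`toContinuousLinearEquiv`); `T p = X w D p`.
For `B` let `Φ x = fderiv ℝ F x (B x)`; it is `H0`: `fderiv ℝ F` is homogeneous of degree `-1`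
(`grad_hom`, `inner_grad`) and continuous off the origin.  `lift` gives
`0 = k' ∫ Φ (X p) (h (X p)^(m+1))⁻¹ ∂nu`, and almost everywhere (`p.2 ∈ Rg m`, so `X p ≠ 0`)
`Φ (X p) = Φ (un (X p)) = ⟨gradient F (un X), B (un X)⟩`.  Multiply by `k`.
-/

namespace Pool.Agent.H88.CN

open MeasureTheory Metric Set Pool.Agent.H35.CA

variable {m : ℕ}

/-- the linear equivalence of the frame -/
theorem gg1_T {w : E (m + 1)} {D : E m →L[ℝ] E (m + 1)} (hfr : Fr w D) :
    ∃ T : (ℝ × E m) ≃L[ℝ] E (m + 1), ∀ p, T p = X w D p := by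
  let T0 : (ℝ × E m) →ₗ[ℝ] E (m + 1) :=
    (LinearMap.toSpanSingleton ℝ (E (m + 1)) w).comp (LinearMap.fst ℝ ℝ (E m)) +
      (D : E m →ₗ[ℝ] E (m + 1)).comp (LinearMap.snd ℝ ℝ (E m))
  have hT0 : ∀ p, T0 p = X w D p := fun p => rfl
  have hinj : Function.Injective T0 := by
    rw [injective_iff_map_eq_zero]
    intro p hp
    rw [hT0] at hp
    unfold X at hp
    have h1 := congrArg (fun v => (inner ℝ w v : ℝ)) hp
    simp only [inner_add_right, real_inner_smul_right, real_inner_self_eq_norm_sq, hfr.nw,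
      hfr.orth, inner_zero_right] at h1
    have h2 : p.1 = 0 := by linarith
    rw [h2, zero_smul, zero_add] at hp
    exact Prod.ext h2 (hfr.inj _ hp)
  have hrank : Module.finrank ℝ (ℝ × E m) = Module.finrank ℝ (E (m + 1)) := by
    rw [Module.finrank_prod, Module.finrank_self, finrank_euclideanSpace_fin,
      finrank_euclideanSpace_fin, add_comm]
  refine ⟨(LinearMap.linearEquivOfInjective T0 hinj hrank).toContinuousLinearEquiv, fun p => ?_⟩
  exact LinearMap.linearEquivOfInjective_apply hinj hrank p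

theorem gg1_H0 {F : E (m + 1) → ℝ} (hF : Sm 1 F) (B : E (m + 1) →L[ℝ] E (m + 1)) :
    H0 (fun x => fderiv ℝ F x (B x)) := by
  refine ⟨fun t ht x => ?_, ?_⟩
  · by_cases hx : x = 0
    · rw [hx, smul_zero]
    · rw [← inner_grad, ← inner_grad, (grad_hom hF hx).2 t ht, map_smul, real_inner_smul_left,
        real_inner_smul_right, ← mul_assoc, inv_mul_cancel₀ ht.ne', one_mul]
  · have h1 : ContinuousOn (fun x => (inner ℝ (gradient F x) (B x) : ℝ)) {0}ᶜ :=
      (grad_cont hF).inner B.continuous.continuousOn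
    refine h1.congr fun x _ => ?_
    exact (inner_grad F x (B x)).symm

theorem gg1 (hm : 1 ≤ m) {F h : E (m + 1) → ℝ} (hF : Sm 1 F) (hP : P1 h)
    (hkw : ∀ B : E (m + 1) →L[ℝ] E (m + 1),
      ∫ x, fderiv ℝ F x (B x) * (h x ^ (m + 1))⁻¹ ∂(mu (m + 1)) = 0)
    {w : E (m + 1)} {D : E m →L[ℝ] E (m + 1)} (hfr : Fr w D) (k : ℝ) :
    KW (gradient F) w D (fun p : ℝ × E m => k * (h (X w D p) ^ (m + 1))⁻¹) := by
  intro B
  obtain ⟨T, hT⟩ := gg1_T hfr
  obtain ⟨k', hk', hlift⟩ := lift hm T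
  have hΦ := gg1_H0 hF B
  have h1 := hlift _ h hΦ hP
  rw [hkw B] at h1
  have h2 : ∫ p, fderiv ℝ F (T p) (B (T p)) * (h (T p) ^ (m + 1))⁻¹ ∂(nu m) = 0 := by
    rcases mul_eq_zero.1 h1.symm with h3 | h3
    · exact absurd h3 hk'.ne'
    · exact h3
  have h3 : ∫ p, inner ℝ (gradient F (un (X w D p))) (B (un (X w D p))) *
      (k * (h (X w D p) ^ (m + 1))⁻¹) ∂(nu m) =
      ∫ p, k * (fderiv ℝ F (T p) (B (T p)) * (h (T p) ^ (m + 1))⁻¹) ∂(nu m) := by
    apply integral_congr_ae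
    filter_upwards [int_ae m] with p hp
    obtain ⟨t, y⟩ := p
    have h4 := ge_pos hfr t hp.1
    have h5 : fderiv ℝ F (un (X w D (t, y))) (B (un (X w D (t, y)))) =
        fderiv ℝ F (X w D (t, y)) (B (X w D (t, y))) :=
      hΦ.hom (‖X w D (t, y)‖⁻¹) (inv_pos.2 h4.1) (X w D (t, y))
    rw [inner_grad, h5, hT]
    ring
  change ∫ p, inner ℝ (gradient F (un (X w D p))) (B (un (X w D p))) *
      (k * (h (X w D p) ^ (m + 1))⁻¹) ∂(nu m) = 0
  rw [h3, integral_const_mul, h2, mul_zero]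

end Pool.Agent.H88.CN
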