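import Pool.Agent.H88.CN.GG1
import Pool.Agent.H88.CN.BB1
import Pool.Agent.H88.CN.BB4
import Pool.Agent.H88.CN.AA6

/-!
# CN-GG2: solutions in normalised position (assembly)
-/

namespace Pool.Agent.H88.CN

open MeasureTheory Metric Set Pool.Agent.H35.CA

variable {m : ℕ}

theorem gg2 (hm : 1 ≤ m) {lam Lam : ℝ} (h0 : 0 < lam) (h1 : lam ≤ Lam) : ∃ c L : ℝ, 0 < c ∧
    ∀ F : E (m + 1) → ℝ, Sm 1 F → (∀ x, x ≠ 0 → lam ≤ F x ∧ F x ≤ Lam) →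
    ∀ K : Set (E (m + 1)), IsSolution (fun u : sphere (0 : E (m + 1)) 1 => F u) K →
    ∃ (w : E (m + 1)) (D : E m →L[ℝ] E (m + 1)) (q : ℝ × E m → ℝ), Fr w D ∧ Dn c L q ∧
      KW (gradient F) w D q := by
  have hC : (1 : ℝ) ≤ 3 * 2 ^ (m + 1) * (Lam / lam) := by
    have h2 : (1 : ℝ) ≤ Lam / lam := (one_le_div h0).2 h1
    have h3 : (1 : ℝ) ≤ 2 ^ (m + 1) := one_le_pow₀ (by norm_num)
    nlinarith
  have hC0 : (0 : ℝ) < 3 * 2 ^ (m + 1) * (Lam / lam) := lt_of_lt_of_le zero_lt_one hC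
  refine ⟨((3 * ((m : ℝ) + 1) * (3 * 2 ^ (m + 1) * (Lam / lam))) ^ (m + 1))⁻¹,
    ((m : ℝ) + 1) ^ 2 * (3 * 2 ^ (m + 1) * (Lam / lam)), ?_, fun F hF hb K hK => ?_⟩
  · have h3 : (0 : ℝ) < 3 * ((m : ℝ) + 1) * (3 * 2 ^ (m + 1) * (Lam / lam)) := by positivity
    positivity
  · have hH := sm_h0 hF
    obtain ⟨hS, hP⟩ := sup_SL hK.compact hK.zero_mem
    obtain ⟨w, D, k, h2, h3, h4⟩ := dens hm hS hP hC (back (by omega) hH h0 hb hK)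
    refine ⟨w, D, _, h2, h4, gg1 hm hF hP ?_ h2 k⟩
    exact kw_sph (by omega) hF (fun x hx => h0.le.trans (hb x hx).1) hS hP
      (st_star (by omega) hH hK)

end Pool.Agent.H88.CN
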