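import Pool.Agent.H88.CN.Defs

/-!
# CN-HH1: quadratic functions on the sphere

`Qf b μ a` is the extension, homogeneous of degree 0, of `u ↦ 1 + ⟨L u, u⟩ + ⟨a, u⟩`, `L = Lop b μ`.
Proofs.  `qf_sm`: sums and products of smooth functions and of `‖x‖⁻¹`, `x ≠ 0`
(`contDiffAt_norm`, `ContDiffOn.norm`).
`qf_grad`: the derivative of `x ↦ ⟨L x, x⟩ / ‖x‖²` at a unit vector `u` in direction `v` is
`2 ⟨L u, v⟩ - 2 ⟨L u, u⟩ ⟨u, v⟩ = ⟨2 xi L u, v⟩` (`L` symmetric; `L = Lop b μ` is a sum of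
rank one symmetric operators), that of `⟨a, x⟩ / ‖x‖` is `⟨a, v⟩ - ⟨a, u⟩ ⟨u, v⟩`.
Use `ext_inner_right`/`inner_grad`.
-/

namespace Pool.Agent.H88.CN

open MeasureTheory Metric Set Pool.Agent.H35.CA

variable {n : ℕ}

/-- The function `1 + ⟨L u, u⟩ + ⟨a, u⟩` on the sphere. -/
noncomputable def Qf (b : OrthonormalBasis (Fin n) ℝ (E n)) (μ : Fin n → ℝ) (a : E n)
    (x : E n) : ℝ :=
  1 + inner ℝ (Lop b μ x) x / ‖x‖ ^ 2 + inner ℝ a x / ‖x‖

private theorem hh1_lop (b : OrthonormalBasis (Fin n) ℝ (E n)) (μ : Fin n → ℝ) (x y : E n) :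
    inner ℝ (Lop b μ x) y = ∑ i, μ i * ((inner ℝ (b i) x : ℝ) * inner ℝ (b i) y) := by
  have h : Lop b μ x = ∑ i, μ i • ((inner ℝ (b i) x : ℝ) • b i) := by
    simp only [Lop, ContinuousLinearMap.sum_apply, ContinuousLinearMap.smul_apply,
      ContinuousLinearMap.smulRight_apply, innerSL_apply_apply]
  rw [h, sum_inner]
  refine Finset.sum_congr rfl fun i _ => ?_
  rw [real_inner_smul_left, real_inner_smul_left]

private theorem hh1_symm (b : OrthonormalBasis (Fin n) ℝ (E n)) (μ : Fin n → ℝ) (x y : E n) :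
    inner ℝ (Lop b μ x) y = (inner ℝ (Lop b μ y) x : ℝ) := by
  rw [hh1_lop, hh1_lop]
  refine Finset.sum_congr rfl fun i _ => ?_
  ring

theorem qf_sm (b : OrthonormalBasis (Fin n) ℝ (E n)) (μ : Fin n → ℝ) (a : E n) (k : ℕ) :
    Sm k (Qf b μ a) := by
  constructor
  · intro t ht x
    unfold Qf
    rw [map_smul, real_inner_smul_left, real_inner_smul_right, real_inner_smul_right, norm_smul,
      Real.norm_of_nonneg ht.le]
    rcases eq_or_ne x 0 with rfl | hx
    · simp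
    · have hn : ‖x‖ ≠ 0 := norm_ne_zero_iff.2 hx
      field_simp
  · unfold Qf
    have h0 : ∀ x ∈ ({0}ᶜ : Set (E n)), ‖x‖ ≠ 0 := fun x hx => norm_ne_zero_iff.2 hx
    have hnorm : ContDiffOn ℝ k (fun x : E n => ‖x‖) {0}ᶜ := by
      intro x hx
      exact (contDiffAt_norm ℝ hx).contDiffWithinAt
    have h1 : ContDiffOn ℝ k (fun x : E n => (inner ℝ (Lop b μ x) x : ℝ)) {0}ᶜ :=
      ((Lop b μ).contDiff.inner ℝ contDiff_id).contDiffOn
    have h2 : ContDiffOn ℝ k (fun x : E n => (inner ℝ a x : ℝ)) {0}ᶜ :=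
      (contDiff_const.inner ℝ contDiff_id).contDiffOn
    refine (contDiffOn_const.add (h1.div (hnorm.pow 2) ?_)).add (h2.div hnorm h0)
    intro x hx
    exact pow_ne_zero 2 (h0 x hx)

theorem qf_grad (b : OrthonormalBasis (Fin n) ℝ (E n)) (μ : Fin n → ℝ) (a : E n) {u : E n}
    (hu : ‖u‖ = 1) :
    gradient (Qf b μ a) u = (2 : ℝ) • xi (Lop b μ) u + (a - (inner ℝ a u : ℝ) • u) := by
  have hu0 : u ≠ 0 := by
    rintro rfl
    simp at hu
  have hdiff : DifferentiableAt ℝ (Qf b μ a) u := by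
    have h1 := ((qf_sm b μ a 1).smooth).contDiffAt (isOpen_compl_singleton.mem_nhds hu0)
    exact h1.differentiableAt (by norm_num)
  refine ext_inner_right ℝ fun v => ?_
  rw [inner_grad]
  -- one dimensional computation
  set s : ℝ := inner ℝ u v with hs
  have hline : HasDerivAt (fun t : ℝ => u + t • v) v 0 := by
    simpa using ((hasDerivAt_id (0 : ℝ)).smul_const v).const_add u
  have hd1 : HasDerivAt (fun t : ℝ => Qf b μ a (u + t • v)) (fderiv ℝ (Qf b μ a) u v) 0 := by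
    have h1 : HasFDerivAt (Qf b μ a) (fderiv ℝ (Qf b μ a) u) (u + (0 : ℝ) • v) := by
      rw [zero_smul, add_zero]
      exact hdiff.hasFDerivAt
    exact h1.comp_hasDerivAt (0 : ℝ) hline
  have huu : (inner ℝ u u : ℝ) = 1 := by
    rw [real_inner_self_eq_norm_sq, hu]
    norm_num
  have hnsq : ∀ t : ℝ, ‖u + t • v‖ ^ 2 = 1 + 2 * t * s + t ^ 2 * ‖v‖ ^ 2 := by
    intro t
    rw [← real_inner_self_eq_norm_sq, ← real_inner_self_eq_norm_sq, inner_add_left,
      inner_add_right, inner_add_right, real_inner_smul_left, real_inner_smul_left,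
      real_inner_smul_right, real_inner_smul_right, huu, real_inner_comm u v]
    ring
  have hn1 : ∀ t : ℝ, ‖u + t • v‖ = Real.sqrt (1 + 2 * t * s + t ^ 2 * ‖v‖ ^ 2) := by
    intro t
    rw [← hnsq, Real.sqrt_sq (norm_nonneg _)]
  have hL : ∀ t : ℝ, (inner ℝ (Lop b μ (u + t • v)) (u + t • v) : ℝ) =
      inner ℝ (Lop b μ u) u + 2 * t * inner ℝ (Lop b μ u) v + t ^ 2 * inner ℝ (Lop b μ v) v := by
    intro t
    rw [map_add, map_smul, inner_add_left, inner_add_right, inner_add_right,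
      real_inner_smul_left, real_inner_smul_left, real_inner_smul_right, real_inner_smul_right,
      hh1_symm b μ v u]
    ring
  have ha : ∀ t : ℝ, (inner ℝ a (u + t • v) : ℝ) = inner ℝ a u + t * inner ℝ a v := by
    intro t
    rw [inner_add_right, real_inner_smul_right]
  have hfun : (fun t : ℝ => Qf b μ a (u + t • v)) = fun t : ℝ =>
      1 + (inner ℝ (Lop b μ u) u + 2 * t * inner ℝ (Lop b μ u) v +
        t ^ 2 * inner ℝ (Lop b μ v) v) / (1 + 2 * t * s + t ^ 2 * ‖v‖ ^ 2) +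
      (inner ℝ a u + t * inner ℝ a v) / Real.sqrt (1 + 2 * t * s + t ^ 2 * ‖v‖ ^ 2) := by
    funext t
    unfold Qf
    rw [hL, ha, hnsq, hn1]
  have hq : HasDerivAt (fun t : ℝ => 1 + 2 * t * s + t ^ 2 * ‖v‖ ^ 2) (2 * s) 0 := by
    have h1 := (((hasDerivAt_id (0 : ℝ)).const_mul (2 : ℝ)).mul_const s).const_add (1 : ℝ)
    have h2 := ((hasDerivAt_id (0 : ℝ)).pow 2).mul_const (‖v‖ ^ 2)
    refine (h1.add h2).congr_deriv ?_
    simp
  have hnum : HasDerivAt (fun t : ℝ => (inner ℝ (Lop b μ u) u : ℝ) + 2 * t * inner ℝ (Lop b μ u) v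
      + t ^ 2 * inner ℝ (Lop b μ v) v) (2 * inner ℝ (Lop b μ u) v) 0 := by
    have h1 := (((hasDerivAt_id (0 : ℝ)).const_mul (2 : ℝ)).mul_const
      (inner ℝ (Lop b μ u) v : ℝ)).const_add (inner ℝ (Lop b μ u) u : ℝ)
    have h2 := ((hasDerivAt_id (0 : ℝ)).pow 2).mul_const (inner ℝ (Lop b μ v) v : ℝ)
    refine (h1.add h2).congr_deriv ?_
    simp
  have hlin : HasDerivAt (fun t : ℝ => (inner ℝ a u : ℝ) + t * inner ℝ a v) (inner ℝ a v) 0 := by
    simpa using ((hasDerivAt_id (0 : ℝ)).mul_const (inner ℝ a v : ℝ)).const_add (inner ℝ a u : ℝ)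
  have hsq : HasDerivAt (fun t : ℝ => Real.sqrt (1 + 2 * t * s + t ^ 2 * ‖v‖ ^ 2)) s 0 := by
    have h1 := hq.sqrt (by norm_num)
    refine h1.congr_deriv ?_
    norm_num
  have h3 := ((hnum.div hq (by norm_num)).const_add 1).add (hlin.div hsq (by norm_num))
  have hd2 : HasDerivAt (fun t : ℝ => Qf b μ a (u + t • v))
      (2 * inner ℝ (Lop b μ u) v - 2 * inner ℝ (Lop b μ u) u * s + (inner ℝ a v - inner ℝ a u * s))
      0 := by
    rw [hfun]
    refine h3.congr_deriv ?_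
    norm_num
    ring
  rw [hd1.unique hd2, xi, inner_add_left, real_inner_smul_left, inner_sub_left, inner_sub_left,
    real_inner_smul_left, real_inner_smul_left]
  ring

theorem qf_unit (b : OrthonormalBasis (Fin n) ℝ (E n)) (μ : Fin n → ℝ) (a : E n) {u : E n}
    (hu : ‖u‖ = 1) :
    Qf b μ a u = 1 + ∑ i, μ i * (inner ℝ (b i) u : ℝ) ^ 2 + inner ℝ a u := by
  unfold Qf
  rw [hu, hh1_lop]
  simp only [one_pow, div_one]
  congr 2
  refine Finset.sum_congr rfl fun i _ => ?_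
  ring

end Pool.Agent.H88.CN
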