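import Pool.Agent.H88.CN.Defs

/-!
# CN-OP: the operators `Lop`, `Pj`, `Bop` and the field `xi`

All statements are elementary linear algebra (expand in the orthonormal basis `b`:
`b.sum_repr`, `OrthonormalBasis.sum_inner_mul_inner`, `b.inner_eq_one`, ...).
`op_near`: with `A = L - μ i`, `P = Pj w`, `P A P x - A x = - ⟨w, A x⟩ w - ⟨w, x⟩ A w
+ ⟨w, x⟩ ⟨w, A w⟩ w`, `|⟨w, A x⟩| = |⟨A w, x⟩| ≤ ‖A w‖ ‖x‖`, and `‖A w‖ ≤ ‖A‖ dd (b i) w`
because `A (b i) = A (- b i) = 0`.  So the norm is at most `3 ‖A‖ dd ‖x‖`; take `C` larger than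
`3 ‖A‖` and `‖A‖` for all `i` (finitely many).
`xi_sq`: `‖L u - ⟨L u, u⟩ u‖² = ‖L u‖² - ⟨L u, u⟩²`.
`xi_lip`: `‖xi u‖ ≤ ‖L u‖ ≤ ‖L‖`, and
`xi u - xi v = L (u - v) - ⟨L u, u⟩ (u - v) - (⟨L u, u⟩ - ⟨L v, v⟩) v`, where
`|⟨L u, u⟩ - ⟨L v, v⟩| ≤ |⟨L (u - v), u⟩| + |⟨L v, u - v⟩| ≤ 2 ‖L‖ ‖u - v‖`; total `4 ‖L‖ ‖u - v‖`.
`xi_inner`: `⟨V, L u - s u⟩ = ⟨V, L u⟩ = ⟨V, xi u⟩` because `V ⊥ u`.
-/

namespace Pool.Agent.H88.CN

open MeasureTheory Metric Set Pool.Agent.H35.CA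

variable {n : ℕ}

theorem lop_apply (b : OrthonormalBasis (Fin n) ℝ (E n)) (μ : Fin n → ℝ) (x : E n) :
    Lop b μ x = ∑ i, (μ i * inner ℝ (b i) x) • b i := by
  unfold Lop
  rw [sum_apply]
  refine Finset.sum_congr rfl (fun i _ => ?_)
  rw [smul_apply, ContinuousLinearMap.smulRight_apply, innerSL_apply_apply,
    smul_smul]

theorem lop_basis (b : OrthonormalBasis (Fin n) ℝ (E n)) (μ : Fin n → ℝ) (i : Fin n) :
    Lop b μ (b i) = μ i • b i := by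
  rw [lop_apply]
  rw [Finset.sum_eq_single i]
  · rw [real_inner_self_eq_norm_sq, b.norm_eq_one]; simp
  · intro j _ hj
    rw [b.inner_eq_zero hj]; simp
  · intro h; exact absurd (Finset.mem_univ i) h

theorem lop_symm (b : OrthonormalBasis (Fin n) ℝ (E n)) (μ : Fin n → ℝ) (x y : E n) :
    inner ℝ (Lop b μ x) y = inner ℝ x (Lop b μ y) := by
  rw [lop_apply, lop_apply, sum_inner, inner_sum]
  refine Finset.sum_congr rfl (fun i _ => ?_)
  rw [real_inner_smul_left, real_inner_smul_right, real_inner_comm (b i) x]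
  ring

theorem pj_apply (w x : E n) : Pj w x = x - (inner ℝ w x : ℝ) • w := by
  unfold Pj
  rw [sub_apply, ContinuousLinearMap.smulRight_apply, innerSL_apply_apply]
  rfl

theorem pj_symm (w x y : E n) : inner ℝ (Pj w x) y = inner ℝ x (Pj w y) := by
  rw [pj_apply, pj_apply, inner_sub_left, inner_sub_right, real_inner_smul_left,
    real_inner_smul_right, real_inner_comm w x]
  ring

theorem pj_orth {w : E n} (hw : ‖w‖ = 1) (x : E n) : inner ℝ (Pj w x) w = 0 := by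
  rw [pj_apply, inner_sub_left, real_inner_smul_left, real_inner_self_eq_norm_sq, hw,
    real_inner_comm w x]
  ring

theorem pj_self {w : E n} (hw : ‖w‖ = 1) : Pj w w = 0 := by
  rw [pj_apply, real_inner_self_eq_norm_sq, hw]
  simp

theorem pj_fix {w x : E n} (h : inner ℝ w x = 0) : Pj w x = x := by
  rw [pj_apply, h]
  simp

theorem op_sub_sq (L x : E n) (t : ℝ) {w : E n} (hw : ‖w‖ = 1) (ht : inner ℝ L w = t) :
    ‖L - t • w‖ ^ 2 = ‖L‖ ^ 2 - t ^ 2 := by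
  rw [@norm_sub_sq ℝ, real_inner_smul_right, ht, norm_smul, hw, Real.norm_eq_abs, mul_one, sq_abs]
  simp only [RCLike.re_to_real]
  ring

theorem pj_norm {w : E n} (hw : ‖w‖ = 1) (x : E n) : ‖Pj w x‖ ≤ ‖x‖ := by
  have h1 : ‖Pj w x‖ ^ 2 = ‖x‖ ^ 2 - (inner ℝ w x : ℝ) ^ 2 := by
    rw [pj_apply]
    exact op_sub_sq x x _ hw (real_inner_comm _ _)
  have h2 : ‖Pj w x‖ ^ 2 ≤ ‖x‖ ^ 2 := by
    rw [h1]; nlinarith [sq_nonneg (inner ℝ w x : ℝ)]
  exact le_of_sq_le_sq' h2 (norm_nonneg _)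
where
  le_of_sq_le_sq' {a b : ℝ} (h : a ^ 2 ≤ b ^ 2) (hb : 0 ≤ b) : a ≤ b :=
    (abs_le_of_sq_le_sq' h hb).2

theorem pj_neg (w : E n) : Pj (-w) = Pj w := by
  ext1 x
  rw [pj_apply, pj_apply, inner_neg_left, neg_smul_neg]

theorem bop_apply (b : OrthonormalBasis (Fin n) ℝ (E n)) (μ : Fin n → ℝ) (i : Fin n)
    (w x : E n) : Bop b μ i w x = Pj w (Lop b μ (Pj w x) - μ i • Pj w x) := by
  rfl

theorem op_a_symm (b : OrthonormalBasis (Fin n) ℝ (E n)) (μ : Fin n → ℝ) (i : Fin n)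
    (x y : E n) : inner ℝ (Lop b μ x - μ i • x) y = inner ℝ x (Lop b μ y - μ i • y) := by
  rw [inner_sub_left, inner_sub_right, lop_symm, real_inner_smul_left, real_inner_smul_right]

theorem bop_symm (b : OrthonormalBasis (Fin n) ℝ (E n)) (μ : Fin n → ℝ) (i : Fin n)
    (w x y : E n) : inner ℝ (Bop b μ i w x) y = inner ℝ x (Bop b μ i w y) := by
  rw [bop_apply, bop_apply, pj_symm, op_a_symm, ← pj_symm]

theorem bop_neg (b : OrthonormalBasis (Fin n) ℝ (E n)) (μ : Fin n → ℝ) (i : Fin n)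
    (w : E n) : Bop b μ i (-w) = Bop b μ i w := by
  unfold Bop
  rw [pj_neg]

theorem bop_orth (b : OrthonormalBasis (Fin n) ℝ (E n)) (μ : Fin n → ℝ) (i : Fin n)
    {w : E n} (hw : ‖w‖ = 1) (x : E n) : inner ℝ (Bop b μ i w x) w = 0 := by
  rw [bop_apply]
  exact pj_orth hw _

theorem op_pj_pj {w : E n} (hw : ‖w‖ = 1) (x : E n) : Pj w (Pj w x) = Pj w x := by
  apply pj_fix
  rw [real_inner_comm]
  exact pj_orth hw x

theorem bop_pj (b : OrthonormalBasis (Fin n) ℝ (E n)) (μ : Fin n → ℝ) (i : Fin n)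
    {w : E n} (hw : ‖w‖ = 1) (x : E n) : Bop b μ i w (Pj w x) = Bop b μ i w x := by
  rw [bop_apply, bop_apply, op_pj_pj hw]

theorem dd_nonneg (p w : E n) : 0 ≤ dd p w := by
  unfold dd
  exact le_min (norm_nonneg _) (norm_nonneg _)

theorem dd_neg (p w : E n) : dd p (-w) = dd p w := by
  unfold dd
  have h1 : -w - p = -(w + p) := by abel
  have h2 : -w + p = -(w - p) := by abel
  rw [h1, h2, norm_neg, norm_neg, min_comm]

/-- Bounds which are uniform in `w`. -/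
theorem op_near (b : OrthonormalBasis (Fin n) ℝ (E n)) (μ : Fin n → ℝ) :
    ∃ C : ℝ, 1 ≤ C ∧ ∀ (i : Fin n) (w : E n), ‖w‖ = 1 → ∀ x : E n,
      ‖Bop b μ i w x‖ ≤ C * ‖Pj w x‖ ∧
      ‖Bop b μ i w x - (Lop b μ x - μ i • x)‖ ≤ C * dd (b i) w * ‖x‖ := by
  refine ⟨1 + ∑ j, 3 * ‖Lop b μ - μ j • ContinuousLinearMap.id ℝ (E n)‖, ?_, ?_⟩
  · have : 0 ≤ ∑ j, 3 * ‖Lop b μ - μ j • ContinuousLinearMap.id ℝ (E n)‖ :=
      Finset.sum_nonneg (fun j _ => by positivity)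
    linarith
  · intro i w hw x
    obtain ⟨A, hA⟩ : ∃ A, A = Lop b μ - μ i • ContinuousLinearMap.id ℝ (E n) := ⟨_, rfl⟩
    have hAx : ∀ y, A y = Lop b μ y - μ i • y := by
      intro y; rw [hA]; rfl
    have hC : 3 * ‖A‖ ≤ 1 + ∑ j, 3 * ‖Lop b μ - μ j • ContinuousLinearMap.id ℝ (E n)‖ := by
      have h1 : 3 * ‖Lop b μ - μ i • ContinuousLinearMap.id ℝ (E n)‖ ≤
          ∑ j, 3 * ‖Lop b μ - μ j • ContinuousLinearMap.id ℝ (E n)‖ :=
        Finset.single_le_sum (f := fun j => 3 * ‖Lop b μ - μ j • ContinuousLinearMap.id ℝ (E n)‖)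
          (fun j _ => by positivity) (Finset.mem_univ i)
      rw [hA]; linarith
    obtain ⟨C, hCd⟩ : ∃ C, C = 1 + ∑ j, 3 * ‖Lop b μ - μ j • ContinuousLinearMap.id ℝ (E n)‖ :=
      ⟨_, rfl⟩
    rw [← hCd] at hC ⊢
    have hA0 : 0 ≤ ‖A‖ := norm_nonneg _
    have hb : A (b i) = 0 := by rw [hAx, lop_basis]; simp
    have hAw : ‖A w‖ ≤ ‖A‖ * dd (b i) w := by
      unfold dd
      rcases min_choice ‖w - b i‖ ‖w + b i‖ with h | h
      · rw [h]
        have : A w = A (w - b i) := by rw [map_sub, hb, sub_zero]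
        rw [this]; exact A.le_opNorm _
      · rw [h]
        have : A w = A (w + b i) := by rw [map_add, hb, add_zero]
        rw [this]; exact A.le_opNorm _
    have hAs : ∀ y z, inner ℝ (A y) z = inner ℝ y (A z) := by
      intro y z; rw [hAx, hAx]; exact op_a_symm b μ i y z
    rw [bop_apply, ← hAx, ← hAx]
    constructor
    · calc ‖Pj w (A (Pj w x))‖ ≤ ‖A (Pj w x)‖ := pj_norm hw _
        _ ≤ ‖A‖ * ‖Pj w x‖ := A.le_opNorm _
        _ ≤ C * ‖Pj w x‖ := by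
          apply mul_le_mul_of_nonneg_right _ (norm_nonneg _)
          linarith
    · have e : Pj w (A (Pj w x)) - A x = (-(inner ℝ w x : ℝ)) • A w + (-(inner ℝ (A w) x : ℝ)) • w +
          ((inner ℝ w x : ℝ) * (inner ℝ w (A w) : ℝ)) • w := by
        rw [pj_apply w (A (Pj w x)), pj_apply w x, map_sub, map_smul, inner_sub_right,
          real_inner_smul_right, ← hAs w x]
        module
      rw [e]
      have n1 : |(inner ℝ w x : ℝ)| ≤ ‖x‖ := by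
        have := abs_real_inner_le_norm w x
        rwa [hw, one_mul] at this
      have n2 : |(inner ℝ (A w) x : ℝ)| ≤ ‖A w‖ * ‖x‖ := abs_real_inner_le_norm _ _
      have n3 : |(inner ℝ w (A w) : ℝ)| ≤ ‖A w‖ := by
        have := abs_real_inner_le_norm w (A w)
        rwa [hw, one_mul] at this
      have m1 : ‖(-(inner ℝ w x : ℝ)) • A w‖ ≤ ‖A w‖ * ‖x‖ := by
        rw [norm_smul, Real.norm_eq_abs, abs_neg, mul_comm]
        exact mul_le_mul_of_nonneg_left n1 (norm_nonneg _)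
      have m2 : ‖(-(inner ℝ (A w) x : ℝ)) • w‖ ≤ ‖A w‖ * ‖x‖ := by
        rw [norm_smul, Real.norm_eq_abs, abs_neg, hw, mul_one]
        exact n2
      have m3 : ‖((inner ℝ w x : ℝ) * (inner ℝ w (A w) : ℝ)) • w‖ ≤ ‖A w‖ * ‖x‖ := by
        rw [norm_smul, Real.norm_eq_abs, abs_mul, hw, mul_one, mul_comm]
        exact mul_le_mul n3 n1 (abs_nonneg _) (norm_nonneg _)
      have t1 := norm_add₃_le (a := (-(inner ℝ w x : ℝ)) • A w)
        (b := (-(inner ℝ (A w) x : ℝ)) • w)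
        (c := ((inner ℝ w x : ℝ) * (inner ℝ w (A w) : ℝ)) • w)
      have hd0 := dd_nonneg (b i) w
      have hx0 := norm_nonneg x
      calc _ ≤ 3 * (‖A w‖ * ‖x‖) := by linarith
        _ ≤ 3 * ((‖A‖ * dd (b i) w) * ‖x‖) := by
          have := mul_le_mul_of_nonneg_right hAw hx0
          linarith
        _ = (3 * ‖A‖) * dd (b i) w * ‖x‖ := by ring
        _ ≤ C * dd (b i) w * ‖x‖ := by
          apply mul_le_mul_of_nonneg_right _ hx0
          exact mul_le_mul_of_nonneg_right hC hd0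

theorem xi_sq (L : E n →L[ℝ] E n) {u : E n} (hu : ‖u‖ = 1) :
    ‖xi L u‖ ^ 2 = ‖L u‖ ^ 2 - (inner ℝ (L u) u : ℝ) ^ 2 ∧ ‖xi L u‖ ≤ ‖L‖ := by
  have h1 : ‖xi L u‖ ^ 2 = ‖L u‖ ^ 2 - (inner ℝ (L u) u : ℝ) ^ 2 := by
    unfold xi
    exact op_sub_sq (L u) u _ hu rfl
  refine ⟨h1, ?_⟩
  have h2 : ‖L u‖ ≤ ‖L‖ := by
    have := L.le_opNorm u
    rwa [hu, mul_one] at this
  have h3 : ‖xi L u‖ ^ 2 ≤ ‖L u‖ ^ 2 := by
    rw [h1]; nlinarith [sq_nonneg (inner ℝ (L u) u : ℝ)]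
  exact le_trans (abs_le_of_sq_le_sq' h3 (norm_nonneg _)).2 h2

theorem xi_lip (L : E n →L[ℝ] E n) {u v : E n} (hu : ‖u‖ = 1) (hv : ‖v‖ = 1) :
    ‖xi L u - xi L v‖ ≤ 4 * ‖L‖ * ‖u - v‖ := by
  obtain ⟨a, ha⟩ : ∃ a, a = (inner ℝ (L u) u : ℝ) := ⟨_, rfl⟩
  obtain ⟨c, hc⟩ : ∃ c, c = (inner ℝ (L v) v : ℝ) := ⟨_, rfl⟩
  have e : xi L u - xi L v = L (u - v) + (-a) • (u - v) + (-(a - c)) • v := by
    unfold xi
    rw [← ha, ← hc, map_sub]
    module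
  have hL0 : 0 ≤ ‖L‖ := norm_nonneg _
  have hd0 : 0 ≤ ‖u - v‖ := norm_nonneg _
  have hLu : ‖L u‖ ≤ ‖L‖ := by
    have := L.le_opNorm u
    rwa [hu, mul_one] at this
  have hLv : ‖L v‖ ≤ ‖L‖ := by
    have := L.le_opNorm v
    rwa [hv, mul_one] at this
  have hLd : ‖L (u - v)‖ ≤ ‖L‖ * ‖u - v‖ := L.le_opNorm _
  have n1 : |a| ≤ ‖L‖ := by
    have := abs_real_inner_le_norm (L u) u
    rw [hu, mul_one, ← ha] at this
    linarith
  have e2 : a - c = (inner ℝ (L (u - v)) u : ℝ) + (inner ℝ (L v) (u - v) : ℝ) := by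
    rw [map_sub, inner_sub_left, inner_sub_right, ha, hc]; ring
  have n2 : |a - c| ≤ 2 * ‖L‖ * ‖u - v‖ := by
    rw [e2]
    have t1 := abs_real_inner_le_norm (L (u - v)) u
    have t2 := abs_real_inner_le_norm (L v) (u - v)
    rw [hu, mul_one] at t1
    have t3 : ‖L v‖ * ‖u - v‖ ≤ ‖L‖ * ‖u - v‖ := mul_le_mul_of_nonneg_right hLv hd0
    have t4 := abs_add_le (inner ℝ (L (u - v)) u : ℝ) (inner ℝ (L v) (u - v) : ℝ)
    linarith
  rw [e]
  have m2 : ‖(-a) • (u - v)‖ ≤ ‖L‖ * ‖u - v‖ := by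
    rw [norm_smul, Real.norm_eq_abs, abs_neg]
    exact mul_le_mul_of_nonneg_right n1 hd0
  have m3 : ‖(-(a - c)) • v‖ ≤ 2 * ‖L‖ * ‖u - v‖ := by
    rw [norm_smul, Real.norm_eq_abs, abs_neg, hv, mul_one]
    exact n2
  have t1 := norm_add₃_le (a := L (u - v)) (b := (-a) • (u - v)) (c := (-(a - c)) • v)
  linarith

theorem xi_inner (L : E n →L[ℝ] E n) {u v : E n} (h : inner ℝ v u = 0) (s : ℝ) :
    inner ℝ v (L u - s • u) = inner ℝ v (xi L u) ∧ inner ℝ v (L u) = inner ℝ v (xi L u) := by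
  unfold xi
  constructor
  · rw [inner_sub_right, inner_sub_right, real_inner_smul_right, real_inner_smul_right, h]
    ring
  · rw [inner_sub_right, real_inner_smul_right, h]
    ring

end Pool.Agent.H88.CN
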