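import Pool.Agent.H88.CN.HH1
import Pool.Agent.H88.CN.OP

/-!
# CN-HH2: the sign criterion of Chou and Wang does not exclude `Qf`

Proof.  Suppose `ψ u = ⟨∇Q u, B u⟩ ≤ 0` for all unit vectors `u`.  By `qf_grad`
`ψ = Ev + Od`, `Ev u = 2 ⟨xi L u, B u⟩` (even), `Od u = ⟨a - ⟨a,u⟩ u, B u⟩` (odd), so
`Ev u ≤ - |Od u|` for all unit `u` (use `u` and `-u`).
Let `β_{kl} = ⟨b_k, B b_l⟩`, `i ≠ j`, `s` real, `x = b_i + s b_j`, `|x|² = 1 + s²`, `u = x / |x|`.
`Ev u = (2/|x|⁴) (⟨L x, B x⟩ |x|² - ⟨L x, x⟩ ⟨x, B x⟩)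
 = (2/|x|⁴) (μ_j - μ_i) s (β_{ji} + s (β_{jj} - β_{ii}) - s² β_{ij})`
(`L x = μ_i b_i + s μ_j b_j`).  As `Ev u ≤ 0` for all `s` (both signs, `s → 0`): `β_{ji} = 0`.
So `B` is diagonal in the basis `b`.  Then
`Od u = (1/|x|³) (⟨a, B x⟩ |x|² - ⟨a, x⟩ ⟨x, B x⟩) = (1/|x|³) s (β_{jj} - β_{ii}) (a_j - s a_i)`,
`a_k = ⟨a, b_k⟩`, and `|Od u| ≤ - Ev u = - (2/|x|⁴) (μ_j - μ_i) s² (β_{jj} - β_{ii})`.
Divide by `|s|` and let `s → 0`: `|β_{jj} - β_{ii}| |a_j| ≤ 0`, so `β_{jj} = β_{ii}`.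
Hence `B` is a multiple of the identity, a contradiction.
(For the limits it is convenient to use inequalities between polynomials in `s` for all real `s`
and to choose a suitable small `s`.)
-/

namespace Pool.Agent.H88.CN

open MeasureTheory Metric Set Pool.Agent.H35.CA

variable {n : ℕ}

theorem hh2_hom {b : OrthonormalBasis (Fin n) ℝ (E n)} {μ : Fin n → ℝ} {a : E n}
    (B : E n →L[ℝ] E n)
    (H : ∀ u : E n, ‖u‖ = 1 → inner ℝ (gradient (Qf b μ a) u) (B u) ≤ 0) (x : E n)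
    (hx : x ≠ 0) :
    2 * (inner ℝ (Lop b μ x) (B x) * ‖x‖ ^ 2 - inner ℝ (Lop b μ x) x * inner ℝ x (B x)) +
      ‖x‖ * (inner ℝ a (B x) * ‖x‖ ^ 2 - inner ℝ a x * inner ℝ x (B x)) ≤ 0 := by
  have hr : 0 < ‖x‖ := norm_pos_iff.mpr hx
  have hu : ‖(‖x‖⁻¹ • x)‖ = 1 := by
    rw [norm_smul, norm_inv, norm_norm, inv_mul_cancel₀ hr.ne']
  have h := H _ hu
  rw [qf_grad b μ a hu] at h
  have key : inner ℝ ((2 : ℝ) • xi (Lop b μ) (‖x‖⁻¹ • x) +
      (a - (inner ℝ a (‖x‖⁻¹ • x) : ℝ) • (‖x‖⁻¹ • x))) (B (‖x‖⁻¹ • x)) =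
      (2 * (inner ℝ (Lop b μ x) (B x) * ‖x‖ ^ 2 - inner ℝ (Lop b μ x) x * inner ℝ x (B x)) +
      ‖x‖ * (inner ℝ a (B x) * ‖x‖ ^ 2 - inner ℝ a x * inner ℝ x (B x))) / ‖x‖ ^ 4 := by
    unfold xi
    simp only [map_smul, inner_add_left, inner_sub_left, inner_smul_left, inner_smul_right,
      conj_trivial]
    field_simp
  rw [key] at h
  by_contra hc
  push Not at hc
  have := div_pos hc (pow_pos hr 4)
  linarith

theorem hh2_both {b : OrthonormalBasis (Fin n) ℝ (E n)} {μ : Fin n → ℝ} {a : E n}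
    (B : E n →L[ℝ] E n)
    (H : ∀ u : E n, ‖u‖ = 1 → inner ℝ (gradient (Qf b μ a) u) (B u) ≤ 0) (x : E n)
    (hx : x ≠ 0) :
    2 * (inner ℝ (Lop b μ x) (B x) * ‖x‖ ^ 2 - inner ℝ (Lop b μ x) x * inner ℝ x (B x)) +
      ‖x‖ * |inner ℝ a (B x) * ‖x‖ ^ 2 - inner ℝ a x * inner ℝ x (B x)| ≤ 0 := by
  have h1 := hh2_hom B H x hx
  have h2 := hh2_hom B H (-x) (neg_ne_zero.mpr hx)
  simp only [map_neg, inner_neg_left, inner_neg_right, norm_neg, neg_neg] at h2
  rcases abs_cases (inner ℝ a (B x) * ‖x‖ ^ 2 - inner ℝ a x * inner ℝ x (B x)) with h | h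
  · rw [h.1]; exact h1
  · rw [h.1]
    nlinarith [h2]

theorem hh2_poly (p q r : ℝ) (h : ∀ s : ℝ, s * (p + q * s + r * s ^ 2) ≤ 0) : p = 0 := by
  by_contra hp
  have hp2 : 0 < p ^ 2 := by positivity
  set K : ℝ := 2 * (1 + |q| + |r * p|) with hK
  have hKpos : 0 < K := by positivity
  set t : ℝ := 1 / K with ht
  have htpos : 0 < t := by positivity
  have ht1 : t ≤ 1 := by
    rw [ht, div_le_one hKpos]
    nlinarith [abs_nonneg q, abs_nonneg (r * p)]
  have h1 := h (t * p)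
  have h2 : t * p ^ 2 * (1 + q * t + r * p * t ^ 2) ≤ 0 := by
    have : t * p * (p + q * (t * p) + r * (t * p) ^ 2) =
        t * p ^ 2 * (1 + q * t + r * p * t ^ 2) := by ring
    linarith [this ▸ h1]
  have h3 : 0 < 1 + q * t + r * p * t ^ 2 := by
    have e1 : -(|q| * t) ≤ q * t := by nlinarith [neg_abs_le q]
    have e2 : -(|r * p| * t) ≤ r * p * t ^ 2 := by
      have : -(|r * p| * t ^ 2) ≤ r * p * t ^ 2 := by nlinarith [neg_abs_le (r * p), sq_nonneg t]
      nlinarith [abs_nonneg (r * p), mul_nonneg (abs_nonneg (r * p)) htpos.le]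
    have e3 : (1 + |q| + |r * p|) * t = 1 / 2 := by
      rw [ht, hK]
      field_simp
    nlinarith
  have h4 : 0 < t * p ^ 2 * (1 + q * t + r * p * t ^ 2) := by positivity
  linarith

theorem hh2_ev {b : OrthonormalBasis (Fin n) ℝ (E n)} {μ : Fin n → ℝ} {a : E n}
    (B : E n →L[ℝ] E n)
    (H : ∀ u : E n, ‖u‖ = 1 → inner ℝ (gradient (Qf b μ a) u) (B u) ≤ 0) {i j : Fin n}
    (hij : i ≠ j) (s : ℝ) :
    2 * ((μ j - μ i) * s * (inner ℝ (b j) (B (b i)) +
      s * (inner ℝ (b j) (B (b j)) - inner ℝ (b i) (B (b i))) -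
      s ^ 2 * inner ℝ (b i) (B (b j)))) +
      |(inner ℝ a (B (b i)) + s * inner ℝ a (B (b j))) * (1 + s ^ 2) -
        (inner ℝ a (b i) + s * inner ℝ a (b j)) * (inner ℝ (b i) (B (b i)) +
          s * (inner ℝ (b i) (B (b j)) + inner ℝ (b j) (B (b i))) +
          s ^ 2 * inner ℝ (b j) (B (b j)))| ≤ 0 := by
  have hii : inner ℝ (b i) (b i) = (1 : ℝ) := b.inner_eq_one i
  have hjj : inner ℝ (b j) (b j) = (1 : ℝ) := b.inner_eq_one j
  have hij0 : inner ℝ (b i) (b j) = (0 : ℝ) := b.inner_eq_zero hij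
  have hji0 : inner ℝ (b j) (b i) = (0 : ℝ) := b.inner_eq_zero hij.symm
  have hn : ‖b i + s • b j‖ ^ 2 = 1 + s ^ 2 := by
    rw [← real_inner_self_eq_norm_sq]
    simp only [inner_add_left, inner_add_right, inner_smul_left, inner_smul_right, conj_trivial,
      hii, hjj, hij0, hji0]
    ring
  have hx : b i + s • b j ≠ 0 := by
    intro h0
    rw [h0] at hn
    simp only [norm_zero] at hn
    nlinarith [sq_nonneg s]
  have hr : 1 ≤ ‖b i + s • b j‖ := by
    have h0 := norm_nonneg (b i + s • b j)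
    nlinarith [sq_nonneg s]
  have h := hh2_both B H (b i + s • b j) hx
  rw [hn] at h
  have hL : Lop b μ (b i + s • b j) = μ i • b i + (s * μ j) • b j := by
    rw [map_add, map_smul, lop_basis, lop_basis, smul_smul]
  have e1 : inner ℝ (Lop b μ (b i + s • b j)) (B (b i + s • b j)) =
      μ i * (inner ℝ (b i) (B (b i)) + s * inner ℝ (b i) (B (b j))) +
      s * μ j * (inner ℝ (b j) (B (b i)) + s * inner ℝ (b j) (B (b j))) := by
    rw [hL]
    simp only [map_add, map_smul, inner_add_left, inner_add_right, inner_smul_left,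
      inner_smul_right, conj_trivial]
    ring
  have e2 : inner ℝ (Lop b μ (b i + s • b j)) (b i + s • b j) = μ i + s ^ 2 * μ j := by
    rw [hL]
    simp only [inner_add_left, inner_add_right, inner_smul_left, inner_smul_right, conj_trivial,
      hii, hjj, hij0, hji0]
    ring
  have e3 : inner ℝ (b i + s • b j) (B (b i + s • b j)) = inner ℝ (b i) (B (b i)) +
          s * (inner ℝ (b i) (B (b j)) + inner ℝ (b j) (B (b i))) +
          s ^ 2 * inner ℝ (b j) (B (b j)) := by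
    simp only [map_add, map_smul, inner_add_left, inner_add_right, inner_smul_left,
      inner_smul_right, conj_trivial]
    ring
  have e4 : inner ℝ a (B (b i + s • b j)) = inner ℝ a (B (b i)) + s * inner ℝ a (B (b j)) := by
    simp only [map_add, map_smul, inner_add_right, inner_smul_right]
  have e5 : inner ℝ a (b i + s • b j) = inner ℝ a (b i) + s * inner ℝ a (b j) := by
    simp only [inner_add_right, inner_smul_right]
  rw [e1, e2, e3, e4, e5] at h
  set W : ℝ := |(inner ℝ a (B (b i)) + s * inner ℝ a (B (b j))) * (1 + s ^ 2) -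
        (inner ℝ a (b i) + s * inner ℝ a (b j)) * (inner ℝ (b i) (B (b i)) +
          s * (inner ℝ (b i) (B (b j)) + inner ℝ (b j) (B (b i))) +
          s ^ 2 * inner ℝ (b j) (B (b j)))| with hW
  have hW0 : 0 ≤ W := abs_nonneg _
  have hrW : W ≤ ‖b i + s • b j‖ * W := by nlinarith
  nlinarith [h, hrW]

theorem qf_cw {b : OrthonormalBasis (Fin n) ℝ (E n)} {μ : Fin n → ℝ} {a : E n}
    (hμ : Function.Injective μ) (ha : ∀ i, (inner ℝ a (b i) : ℝ) ≠ 0) (B : E n →L[ℝ] E n)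
    (hB : ∀ s : ℝ, B ≠ s • (1 : E n →L[ℝ] E n)) :
    ∃ u : E n, ‖u‖ = 1 ∧ 0 < inner ℝ (gradient (Qf b μ a) u) (B u) := by
  by_contra hc
  push Not at hc
  have H : ∀ u : E n, ‖u‖ = 1 → inner ℝ (gradient (Qf b μ a) u) (B u) ≤ 0 := hc
  have off : ∀ i j : Fin n, i ≠ j → inner ℝ (b j) (B (b i)) = (0 : ℝ) := by
    intro i j hij
    have h1 : (μ j - μ i) * inner ℝ (b j) (B (b i)) = 0 := by
      apply hh2_poly _ ((μ j - μ i) * (inner ℝ (b j) (B (b j)) - inner ℝ (b i) (B (b i))))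
        (-((μ j - μ i) * inner ℝ (b i) (B (b j))))
      intro s
      have h := hh2_ev B H hij s
      have h0 := abs_nonneg ((inner ℝ a (B (b i)) + s * inner ℝ a (B (b j))) * (1 + s ^ 2) -
        (inner ℝ a (b i) + s * inner ℝ a (b j)) * (inner ℝ (b i) (B (b i)) +
          s * (inner ℝ (b i) (B (b j)) + inner ℝ (b j) (B (b i))) +
          s ^ 2 * inner ℝ (b j) (B (b j))))
      nlinarith [h, h0]
    have h2 : μ j - μ i ≠ 0 := sub_ne_zero.mpr (fun h => hij (hμ h).symm)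
    exact (mul_eq_zero.mp h1).resolve_left h2
  have hBb : ∀ l : Fin n, B (b l) = (inner ℝ (b l) (B (b l)) : ℝ) • b l := by
    intro l
    calc B (b l) = ∑ k, b.repr (B (b l)) k • b k := (b.sum_repr _).symm
      _ = b.repr (B (b l)) l • b l := by
        rw [Finset.sum_eq_single l]
        · intro k _ hk
          rw [b.repr_apply_apply, off l k hk.symm, zero_smul]
        · intro h
          exact absurd (Finset.mem_univ l) h
      _ = (inner ℝ (b l) (B (b l)) : ℝ) • b l := by rw [b.repr_apply_apply]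
  have diag : ∀ i j : Fin n, i ≠ j →
      inner ℝ (b j) (B (b j)) = (inner ℝ (b i) (B (b i)) : ℝ) := by
    intro i j hij
    have hai : inner ℝ a (B (b i)) = (inner ℝ (b i) (B (b i)) : ℝ) * inner ℝ a (b i) := by
      conv_lhs => rw [hBb i]
      rw [inner_smul_right]
    have haj : inner ℝ a (B (b j)) = (inner ℝ (b j) (B (b j)) : ℝ) * inner ℝ a (b j) := by
      conv_lhs => rw [hBb j]
      rw [inner_smul_right]
    have h1 : (inner ℝ (b j) (B (b j)) - inner ℝ (b i) (B (b i))) * (inner ℝ a (b j) : ℝ) = 0 := by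
      apply hh2_poly _ ((inner ℝ (b j) (B (b j)) - inner ℝ (b i) (B (b i))) *
        (2 * (μ j - μ i) - inner ℝ a (b i))) 0
      intro s
      have h := hh2_ev B H hij s
      rw [off i j hij, off j i hij.symm, hai, haj] at h
      have h0 := le_abs_self ((inner ℝ (b i) (B (b i)) * inner ℝ a (b i) +
        s * (inner ℝ (b j) (B (b j)) * inner ℝ a (b j))) * (1 + s ^ 2) -
        (inner ℝ a (b i) + s * inner ℝ a (b j)) * (inner ℝ (b i) (B (b i)) +
          s * (0 + 0) +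
          s ^ 2 * inner ℝ (b j) (B (b j))))
      nlinarith [h, h0]
    have h2 := (mul_eq_zero.mp h1).resolve_right (ha j)
    linarith
  rcases isEmpty_or_nonempty (Fin n) with hn | ⟨⟨i0⟩⟩
  · apply hB 0
    ext x i
    exact hn.elim i
  · apply hB (inner ℝ (b i0) (B (b i0)) : ℝ)
    have hall : ∀ l : Fin n, B (b l) = (inner ℝ (b i0) (B (b i0)) : ℝ) • b l := by
      intro l
      by_cases hl : l = i0
      · rw [hl]; exact hBb i0
      · rw [hBb l, diag i0 l (fun h => hl h.symm)]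
    generalize (inner ℝ (b i0) (B (b i0)) : ℝ) = c at hall ⊢
    apply ContinuousLinearMap.coe_injective
    apply b.toBasis.ext
    intro l
    simpa using hall l

end Pool.Agent.H88.CN
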