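import Pool.Agent.H88.CN.HH2
import Pool.Agent.H88.CN.AA2

/-!
# CN-HH3: the sign criterion is an open condition in `C¹`

Proof.  If `n = 0` every `B` is `0 • 1`.  Let `n ≥ 1`.  The set `T` of operators `B` with
`tr B = 0`, `‖B‖ = 1` is compact (finite dimension; `tr` is continuous) and none of them is a
multiple of the identity (`tr (s • 1) = s n`).  By `qf_cw` for every `B ∈ T` there is a unit
vector `u` with `⟨∇Q u, B u⟩ > 0`; by compactness there is `m0 > 0` such that for every `B ∈ T`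
there is a unit `u` with `⟨∇Q u, B u⟩ ≥ m0`: otherwise there are `B_k ∈ T` with
`⟨∇Q u, B_k u⟩ < 1/(k+1)` for all unit `u`, and a limit point `B ∈ T` has `⟨∇Q u, B u⟩ ≤ 0` for
all `u`.  (Only continuity in `B` for fixed `u` is used.)  Take `ρ = m0/2`.
Let `B` be no multiple of the identity, `B = s • 1 + B0` with `s = tr B / n`, `tr B0 = 0`,
`B0 ≠ 0`.  As `⟨V u, u⟩ = 0`: `⟨V u, B u⟩ = ⟨V u, B0 u⟩`; with `B1 = B0 / ‖B0‖ ∈ T` choose `u`:
`⟨V u, B1 u⟩ ≥ ⟨∇Q u, B1 u⟩ - ρ ≥ m0/2 > 0`.  Apply this to `-B` for the other sign.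
-/

namespace Pool.Agent.H88.CN

open MeasureTheory Metric Set Pool.Agent.H35.CA

variable {n : ℕ}

/-- the trace as a linear map -/
noncomputable def hh3_trL (n : ℕ) : (E n →L[ℝ] E n) →ₗ[ℝ] ℝ :=
  (LinearMap.trace ℝ (E n)).comp (ContinuousLinearMap.coeLM ℝ)

theorem hh3_trL_apply (B : E n →L[ℝ] E n) : hh3_trL n B = tr B := rfl

theorem hh3_compact (n : ℕ) : IsCompact {B : E n →L[ℝ] E n | tr B = 0 ∧ ‖B‖ = 1} := by
  have h1 : IsClosed {B : E n →L[ℝ] E n | tr B = 0} := by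
    have h2 : Continuous (hh3_trL n) := LinearMap.continuous_of_finiteDimensional _
    exact isClosed_eq h2 continuous_const
  have h3 : IsCompact (sphere (0 : E n →L[ℝ] E n) 1) := isCompact_sphere _ _
  have h5 : {B : E n →L[ℝ] E n | tr B = 0 ∧ ‖B‖ = 1} =
      {B : E n →L[ℝ] E n | tr B = 0} ∩ sphere (0 : E n →L[ℝ] E n) 1 := by
    ext B
    simp
  rw [h5]
  exact h3.inter_left h1

theorem hh3_uniform {n : ℕ} (hn : 0 < n) {W : E n → E n}
    (hW : ∀ B : E n →L[ℝ] E n, (∀ s : ℝ, B ≠ s • (1 : E n →L[ℝ] E n)) →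
      ∃ u : E n, ‖u‖ = 1 ∧ 0 < inner ℝ (W u) (B u)) :
    ∃ m0 : ℝ, 0 < m0 ∧ ∀ B : E n →L[ℝ] E n, tr B = 0 → ‖B‖ = 1 →
      ∃ u : E n, ‖u‖ = 1 ∧ m0 < inner ℝ (W u) (B u) := by
  have hn' : (n : ℝ) ≠ 0 := by positivity
  have hopen : ∀ k : ℕ, IsOpen {B : E n →L[ℝ] E n | ∃ u : E n, ‖u‖ = 1 ∧
      1 / ((k : ℝ) + 1) < inner ℝ (W u) (B u)} := by
    intro k
    have h1 : {B : E n →L[ℝ] E n | ∃ u : E n, ‖u‖ = 1 ∧
        1 / ((k : ℝ) + 1) < inner ℝ (W u) (B u)} =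
        ⋃ u ∈ {u : E n | ‖u‖ = 1}, {B : E n →L[ℝ] E n | 1 / ((k : ℝ) + 1) <
          inner ℝ (W u) (B u)} := by
      ext B
      simp
    rw [h1]
    refine isOpen_biUnion fun u _ => isOpen_lt continuous_const ?_
    fun_prop
  have hcov : {B : E n →L[ℝ] E n | tr B = 0 ∧ ‖B‖ = 1} ⊆
      ⋃ k : ℕ, {B : E n →L[ℝ] E n | ∃ u : E n, ‖u‖ = 1 ∧
        1 / ((k : ℝ) + 1) < inner ℝ (W u) (B u)} := by
    intro B hB
    obtain ⟨u, hu, h0⟩ := hW B (by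
      intro s hs
      have h1 : tr B = s * n := by
        rw [← hh3_trL_apply, hs, map_smul, hh3_trL_apply, tr_one, smul_eq_mul]
      rw [hB.1] at h1
      have h2 : s = 0 := by
        rcases mul_eq_zero.1 h1.symm with h | h
        · exact h
        · exact absurd h hn'
      have h3 := hB.2
      have h4 : (0 : ℝ) • (1 : E n →L[ℝ] E n) = 0 := by
        ext x i
        simp
      rw [hs, h2, h4, norm_zero] at h3
      exact zero_ne_one h3)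
    obtain ⟨k, hk⟩ := exists_nat_one_div_lt h0
    exact mem_iUnion.2 ⟨k, u, hu, hk⟩
  have hdir : Directed (· ⊆ ·) (fun k : ℕ => {B : E n →L[ℝ] E n | ∃ u : E n, ‖u‖ = 1 ∧
      1 / ((k : ℝ) + 1) < inner ℝ (W u) (B u)}) := by
    refine directed_of_isDirected_le fun i j hij => ?_
    rintro B ⟨u, hu, h⟩
    refine ⟨u, hu, lt_of_le_of_lt ?_ h⟩
    have h1 : (i : ℝ) ≤ j := by exact_mod_cast hij
    exact one_div_le_one_div_of_le (by positivity) (by linarith)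
  obtain ⟨k, hk⟩ := (hh3_compact n).elim_directed_cover _ hopen hcov hdir
  exact ⟨1 / ((k : ℝ) + 1), by positivity, fun B h1 h2 => hk ⟨h1, h2⟩⟩

theorem qf_open {b : OrthonormalBasis (Fin n) ℝ (E n)} {μ : Fin n → ℝ} {a : E n}
    (hμ : Function.Injective μ) (ha : ∀ i, (inner ℝ a (b i) : ℝ) ≠ 0) :
    ∃ ρ : ℝ, 0 < ρ ∧ ∀ V : E n → E n, (∀ u, ‖u‖ = 1 → inner ℝ (V u) u = 0) →
    (∀ u, ‖u‖ = 1 → ‖V u - gradient (Qf b μ a) u‖ ≤ ρ) → ∀ B : E n →L[ℝ] E n,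
    (∀ s : ℝ, B ≠ s • (1 : E n →L[ℝ] E n)) →
    (∃ u : E n, ‖u‖ = 1 ∧ 0 < inner ℝ (V u) (B u)) ∧
      ∃ u : E n, ‖u‖ = 1 ∧ inner ℝ (V u) (B u) < 0 := by
  rcases Nat.eq_zero_or_pos n with hn | hn
  · subst hn
    refine ⟨1, one_pos, fun V _ _ B hB => absurd ?_ (hB 0)⟩
    ext x i
    exact i.elim0
  obtain ⟨m0, hm0, hm⟩ := hh3_uniform hn (W := gradient (Qf b μ a)) (fun B hB => qf_cw hμ ha B hB)
  refine ⟨m0 / 2, by positivity, fun V hVt hVn => ?_⟩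
  have key : ∀ B : E n →L[ℝ] E n, (∀ s : ℝ, B ≠ s • (1 : E n →L[ℝ] E n)) →
      ∃ u : E n, ‖u‖ = 1 ∧ 0 < inner ℝ (V u) (B u) := by
    intro B hB
    have hn' : (n : ℝ) ≠ 0 := by positivity
    set s := tr B / n with hs
    set B0 := B - s • (1 : E n →L[ℝ] E n) with hB0
    have h0 : B0 ≠ 0 := fun h => hB s (sub_eq_zero.1 h)
    have hN : 0 < ‖B0‖ := norm_pos_iff.2 h0
    have htr : tr B0 = 0 := by
      rw [← hh3_trL_apply, hB0, map_sub, map_smul, hh3_trL_apply, hh3_trL_apply, tr_one,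
        smul_eq_mul, hs, div_mul_cancel₀ _ hn', sub_self]
    obtain ⟨u, hu, hmu⟩ := hm (‖B0‖⁻¹ • B0) (by
      rw [← hh3_trL_apply, map_smul, hh3_trL_apply, htr, smul_zero]) (by
      rw [norm_smul, norm_inv, norm_norm, inv_mul_cancel₀ hN.ne'])
    refine ⟨u, hu, ?_⟩
    have h1 : |inner ℝ (V u - gradient (Qf b μ a) u) ((‖B0‖⁻¹ • B0) u)| ≤ m0 / 2 := by
      refine (abs_real_inner_le_norm _ _).trans ?_
      have h2 : ‖(‖B0‖⁻¹ • B0) u‖ ≤ 1 := by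
        refine (ContinuousLinearMap.le_opNorm _ _).trans ?_
        rw [norm_smul, norm_inv, norm_norm, inv_mul_cancel₀ hN.ne', hu, one_mul]
      calc ‖V u - gradient (Qf b μ a) u‖ * ‖(‖B0‖⁻¹ • B0) u‖ ≤ m0 / 2 * 1 :=
            mul_le_mul (hVn u hu) h2 (norm_nonneg _) (by positivity)
        _ = m0 / 2 := mul_one _
    have h3 : 0 < inner ℝ (V u) ((‖B0‖⁻¹ • B0) u) := by
      have h4 : inner ℝ (V u - gradient (Qf b μ a) u) ((‖B0‖⁻¹ • B0) u) =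
          inner ℝ (V u) ((‖B0‖⁻¹ • B0) u) -
            (inner ℝ (gradient (Qf b μ a) u) ((‖B0‖⁻¹ • B0) u) : ℝ) := inner_sub_left _ _ _
      have h5 := (abs_le.1 h1).1
      rw [h4] at h5
      linarith
    have h6 : B u = ‖B0‖ • ((‖B0‖⁻¹ • B0) u) + s • u := by
      rw [smul_apply, smul_smul, mul_inv_cancel₀ hN.ne', one_smul, hB0]
      simp
    rw [h6, inner_add_right, inner_smul_right, inner_smul_right, hVt u hu, mul_zero, add_zero]
    exact mul_pos hN h3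
  intro B hB
  refine ⟨key B hB, ?_⟩
  obtain ⟨u, hu, h1⟩ := key (-B) (fun s hs => hB (-s) (by rw [← neg_neg B, hs]; ext x i; simp))
  refine ⟨u, hu, ?_⟩
  rw [neg_apply, inner_neg_right] at h1
  linarith

end Pool.Agent.H88.CN
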