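import Pool.Agent.H88.CN.LA3

/-!
# CN-LA: the obstruction data of a `C²` function (assembly, done by helper88)
-/

namespace Pool.Agent.H88.CN

open MeasureTheory Metric Set Pool.Agent.H35.CA

variable {n : ℕ}

theorem la_ob {F : E n → ℝ} (hF : Sm 2 F) {b : OrthonormalBasis (Fin n) ℝ (E n)}
    {μ : Fin n → ℝ} (hμ : Function.Injective μ) {c : ℝ} (hc : 0 < c)
    (hobs : ∀ u, ‖u‖ = 1 →
      c * ‖xi (Lop b μ) u‖ ^ 2 ≤ inner ℝ (gradient F u) (xi (Lop b μ) u)) :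
    ∃ M κ d : ℝ, Ob b μ c M κ d (gradient F) := by
  obtain ⟨M, hM, hM1, hM2⟩ := la_bd hF
  obtain ⟨κ, d, h1, h2, h3, h4, h5⟩ := la_mono hF hμ hc hobs
  refine ⟨M, κ, d, hc, hM, h1, h2, h3, h4, hobs, ?_, hM1, hM2, la_crit hF hμ hc hobs, h5⟩
  intro u hu
  refine grad_tan (sm_one_of_two hF) ?_
  intro h
  rw [h, norm_zero] at hu
  exact zero_ne_one hu

end Pool.Agent.H88.CN
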