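import Pool.Agent.H88.CN.KI
import Pool.Agent.H88.CN.OP

/-!
# CN-S2B: the Hölder term

Proof.  With `x = un (X w D p)`, `w' = sg t • w`, `k = ‖D y‖/‖X‖ = ‖Pj w x‖ ≤ 1`:
`‖G x - G w'‖ ≤ ε ‖x - w'‖^α ≤ ε (2 k)^α ≤ 2 ε k^α` (`ge_dist_sg`, `0 < α ≤ 1`), and
`‖Bop b μ i w x‖ ≤ C0 k` (`op_near`).  So `|integrand| ≤ 2 C0 ε k^(1+α) q` and `ki` with
`β = 1 + α` gives the bound.  Integrability: measurable (`G` is continuous on the sphere because
`α > 0`, `int_field`; `sg` is measurable) and dominated.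
-/

namespace Pool.Agent.H88.CN

open MeasureTheory Metric Set Pool.Agent.H35.CA

variable {m : ℕ}

theorem s2b_cont {n : ℕ} {ε α : ℝ} (hα : 0 < α) {G : E n → E n} (hG : Pt ε α G) :
    ContinuousOn G (sphere 0 1) := by
  intro v hv
  have hv1 : ‖v‖ = 1 := by simpa using hv
  rw [ContinuousWithinAt, tendsto_iff_norm_sub_tendsto_zero]
  have h1 : Filter.Tendsto (fun u : E n => ε * ‖u - v‖ ^ α) (nhdsWithin v (sphere 0 1))
      (nhds 0) := by
    have h2 : Continuous (fun u : E n => ε * ‖u - v‖ ^ α) := by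
      refine continuous_const.mul ?_
      exact (continuous_id.sub continuous_const).norm.rpow_const (fun _ => Or.inr hα.le)
    have h3 := (h2.tendsto v).mono_left (nhdsWithin_le_nhds (s := sphere (0 : E n) 1))
    simpa [Real.zero_rpow hα.ne'] using h3
  refine squeeze_zero' (Filter.Eventually.of_forall (fun u => norm_nonneg _)) ?_ h1
  filter_upwards [self_mem_nhdsWithin] with u hu
  exact hG.hol u v (by simpa using hu) hv1

theorem s2b_meas {ε α : ℝ} (hα : 0 < α) {G : E (m + 1) → E (m + 1)} (hG : Pt ε α G)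
    (b : OrthonormalBasis (Fin (m + 1)) ℝ (E (m + 1))) (μ : Fin (m + 1) → ℝ)
    {w : E (m + 1)} {D : E m →L[ℝ] E (m + 1)} (hF : Fr w D) (i : Fin (m + 1)) :
    AEStronglyMeasurable (fun p : ℝ × E m => (inner ℝ (G (un (X w D p)) - G (sg p.1 • w))
      (Bop b μ i w (un (X w D p))) : ℝ)) (nu m) := by
  have h1 := (int_field hF (s2b_cont hα hG)).2
  have h2 := (int_field hF (V := fun x => x) continuousOn_id).2
  have h3 : AEStronglyMeasurable (fun p : ℝ × E m => G (sg p.1 • w)) (nu m) := by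
    have h4 : (fun p : ℝ × E m => G (sg p.1 • w)) =
        fun p : ℝ × E m => if 0 < p.1 then G w else G (-w) := by
      funext p
      unfold sg
      split_ifs
      · rw [one_smul]
      · rw [neg_one_smul]
    rw [h4]
    refine (StronglyMeasurable.ite ?_ stronglyMeasurable_const
      stronglyMeasurable_const).aestronglyMeasurable
    exact measurableSet_lt measurable_const measurable_fst
  exact (h1.sub h3).inner ((Bop b μ i w).continuous.comp_aestronglyMeasurable h2)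

theorem s2b (b : OrthonormalBasis (Fin (m + 1)) ℝ (E (m + 1)))
    (μ : Fin (m + 1) → ℝ) {α : ℝ} (hα : 0 < α) (hα1 : α ≤ 1) :
    ∃ C : ℝ, 0 < C ∧ ∀ (ε : ℝ) (G : E (m + 1) → E (m + 1)), 0 < ε → Pt ε α G →
    ∀ (cq Lq : ℝ) (w : E (m + 1)) (D : E m →L[ℝ] E (m + 1))
    (q : ℝ × E m → ℝ), Fr w D → Dn cq Lq q → ∀ i,
    Integrable (fun p : ℝ × E m => inner ℝ (G (un (X w D p)) - G (sg p.1 • w))
      (Bop b μ i w (un (X w D p))) * q p) (nu m) ∧
    |∫ p : ℝ × E m, inner ℝ (G (un (X w D p)) - G (sg p.1 • w))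
      (Bop b μ i w (un (X w D p))) * q p ∂(nu m)| ≤ C * ε * ‖D‖ := by
  obtain ⟨C0, hC0, hnear⟩ := op_near b μ
  obtain ⟨Ck, hCk, hki⟩ := ki m (β := 1 + α) (by linarith)
  refine ⟨2 * C0 * Ck, by positivity, ?_⟩
  intro ε G hε hG cq Lq w D q hF hq i
  obtain ⟨hI, hI2⟩ := hki cq Lq w D q hF hq
  have hbd : ∀ᵐ p ∂(nu m), ‖(inner ℝ (G (un (X w D p)) - G (sg p.1 • w))
      (Bop b μ i w (un (X w D p))) : ℝ) * q p‖ ≤
      (2 * C0 * ε) * ((‖D p.2‖ / ‖X w D p‖) ^ (1 + α) * q p) := by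
    filter_upwards [int_ae m] with p hp
    obtain ⟨t, y⟩ := p
    have hy : y ∈ Rg m := hp.1
    have hx1 : ‖un (X w D (t, y))‖ = 1 := (ge_pos hF t hy).2.2
    have hXpos : 0 < ‖X w D (t, y)‖ := (ge_pos hF t hy).1
    have hρ : 0 < ‖D y‖ := (ge_rho_le hF hy).1
    have hk := (ge_pj hF t y).2
    have hs1 : ‖sg t • w‖ = 1 := by
      rw [norm_smul, hF.nw, mul_one, Real.norm_eq_abs]
      unfold sg
      split_ifs <;> simp
    have hd := ge_dist_sg hF t hy
    have hh := hG.hol _ _ hx1 hs1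
    have hB := (hnear i w hF.nw (un (X w D (t, y)))).1
    rw [hk] at hB
    set k := ‖D y‖ / ‖X w D (t, y)‖ with hkd
    have hk0 : 0 < k := div_pos hρ hXpos
    have h1 : ‖G (un (X w D (t, y))) - G (sg t • w)‖ ≤ 2 * ε * k ^ α := by
      refine hh.trans ?_
      have h2 : ‖un (X w D (t, y)) - sg t • w‖ ^ α ≤ (2 * k) ^ α :=
        Real.rpow_le_rpow (norm_nonneg _) hd hα.le
      have h3 : (2 * k) ^ α = 2 ^ α * k ^ α := Real.mul_rpow (by norm_num) hk0.le
      have h4 : (2 : ℝ) ^ α ≤ 2 := by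
        calc (2 : ℝ) ^ α ≤ 2 ^ (1 : ℝ) := Real.rpow_le_rpow_of_exponent_le (by norm_num) hα1
          _ = 2 := Real.rpow_one 2
      have h5 : 0 ≤ k ^ α := Real.rpow_nonneg hk0.le _
      have h6 : (2 * k) ^ α ≤ 2 * k ^ α := by
        rw [h3]
        exact mul_le_mul_of_nonneg_right h4 h5
      calc ε * ‖un (X w D (t, y)) - sg t • w‖ ^ α ≤ ε * (2 * k ^ α) :=
            mul_le_mul_of_nonneg_left (h2.trans h6) hε.le
        _ = 2 * ε * k ^ α := by ring
    have hq0 := hq.nonneg t y hy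
    have h7 := abs_real_inner_le_norm (G (un (X w D (t, y))) - G (sg t • w))
      (Bop b μ i w (un (X w D (t, y))))
    have h8 : ‖G (un (X w D (t, y))) - G (sg t • w)‖ * ‖Bop b μ i w (un (X w D (t, y)))‖ ≤
        (2 * ε * k ^ α) * (C0 * k) :=
      mul_le_mul h1 hB (norm_nonneg _) (by positivity)
    have h9 : k ^ (1 + α) = k * k ^ α := by
      rw [Real.rpow_add hk0, Real.rpow_one]
    rw [Real.norm_eq_abs, abs_mul, abs_of_nonneg hq0]
    calc |(inner ℝ (G (un (X w D (t, y))) - G (sg t • w))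
          (Bop b μ i w (un (X w D (t, y)))) : ℝ)| * q (t, y)
        ≤ ((2 * ε * k ^ α) * (C0 * k)) * q (t, y) :=
          mul_le_mul_of_nonneg_right (h7.trans h8) hq0
      _ = (2 * C0 * ε) * (k ^ (1 + α) * q (t, y)) := by rw [h9]; ring
  have hdom := hI.const_mul (2 * C0 * ε)
  have hmeas := (s2b_meas hα hG b μ hF i).mul (int_meas hq.cont)
  refine ⟨hdom.mono' hmeas hbd, ?_⟩
  have h1 := norm_integral_le_of_norm_le hdom hbd
  rw [Real.norm_eq_abs, integral_const_mul] at h1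
  refine h1.trans ?_
  have h2 : 0 ≤ 2 * C0 * ε := by positivity
  calc 2 * C0 * ε * ∫ p : ℝ × E m, (‖D p.2‖ / ‖X w D p‖) ^ (1 + α) * q p ∂(nu m)
      ≤ 2 * C0 * ε * (Ck * ‖D‖) := mul_le_mul_of_nonneg_left hI2 h2
    _ = 2 * C0 * Ck * ε * ‖D‖ := by ring

end Pool.Agent.H88.CN
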