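import Pool.Agent.H88.CN.Defs

/-!
# CN-T3: a one dimensional integral with a sign

`sg t` is `1` for `t > 0` and `-1` for `t ≤ 0`.
Proof.  On `|t| > 1` the integrand is at most `2 / (1 + t²)` in absolute value, contribution at
most `2π`.  On `|t| ≤ 1` write `q t = q 0 + (q t - q 0)`; the function
`sg t / √(t² + ρ²)` is odd up to the point `0`, so its integral over `[-1, 1]` is zero
(split at `0` and substitute `t ↦ -t`), and `|q t - q 0| ≤ L |t| ≤ L √(t² + ρ²)` gives a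
contribution of at most `2 L`.  So `C = 2π + 2L + 1` works.
-/

namespace Pool.Agent.H88.CN

open MeasureTheory Metric Set

private lemma t3_sg_abs (t : ℝ) : |sg t| = 1 := by
  unfold sg
  split_ifs <;> simp

private lemma t3_sg_meas : Measurable sg := by
  unfold sg
  exact Measurable.ite measurableSet_Ioi measurable_const measurable_const

private lemma t3_sg_neg {t : ℝ} (ht : t ≠ 0) : sg (-t) = - sg t := by
  unfold sg
  rcases lt_or_gt_of_ne ht with h | h
  · have h1 : ¬ (0 < t) := not_lt.mpr h.le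
    have h2 : 0 < -t := by linarith
    simp [h1, h2]
  · have h1 : ¬ (0 < -t) := by linarith
    simp [h, h1]

theorem t3 {L : ℝ} (hL : 0 ≤ L) : ∃ C : ℝ, 0 < C ∧ ∀ q : ℝ → ℝ, Continuous q → (∀ t, 0 ≤ q t) →
    (∀ t, q t * (1 + t ^ 2) ≤ 2) → (∀ t s, |q t - q s| ≤ L * |t - s|) →
    ∀ ρ : ℝ, 0 < ρ → ρ ≤ 2 →
    Integrable (fun t : ℝ => sg t * (q t / Real.sqrt (t ^ 2 + ρ ^ 2))) ∧
    |∫ t : ℝ, sg t * (q t / Real.sqrt (t ^ 2 + ρ ^ 2))| ≤ C := by
  refine ⟨(2 * L + 2) * Real.pi, by positivity, ?_⟩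
  intro q hq hq0 hq1 hq2 ρ hρ hρ2
  set f : ℝ → ℝ := fun t => sg t * (q t / Real.sqrt (t ^ 2 + ρ ^ 2)) with hf
  have hsq : ∀ t : ℝ, 0 < Real.sqrt (t ^ 2 + ρ ^ 2) := fun t => Real.sqrt_pos.mpr (by positivity)
  have hint : Integrable f := by
    refine Integrable.mono' (integrable_inv_one_add_sq.const_mul (2 / ρ)) ?_
      (Filter.Eventually.of_forall ?_)
    · refine (t3_sg_meas.mul (hq.measurable.div ?_)).aestronglyMeasurable
      exact (by fun_prop : Continuous fun t : ℝ => Real.sqrt (t ^ 2 + ρ ^ 2)).measurable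
    · intro t
      have h1 : ρ ≤ Real.sqrt (t ^ 2 + ρ ^ 2) := by
        apply Real.le_sqrt_of_sq_le
        nlinarith [sq_nonneg t]
      have h2 : q t ≤ 2 * (1 + t ^ 2)⁻¹ := by
        rw [← div_eq_mul_inv, le_div_iff₀ (by positivity)]
        exact hq1 t
      have h3 : q t / Real.sqrt (t ^ 2 + ρ ^ 2) ≤ q t / ρ :=
        div_le_div_of_nonneg_left (hq0 t) hρ h1
      have h4 : q t / ρ ≤ 2 * (1 + t ^ 2)⁻¹ / ρ := by gcongr
      have h5 : 2 * (1 + t ^ 2)⁻¹ / ρ = 2 / ρ * (1 + t ^ 2)⁻¹ := by ring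
      rw [Real.norm_eq_abs, hf]
      simp only
      rw [abs_mul, t3_sg_abs, one_mul, abs_of_nonneg (div_nonneg (hq0 t) (hsq t).le)]
      linarith
  refine ⟨hint, ?_⟩
  have h1 : ∫ t, f (-t) = ∫ t, f t := integral_neg_eq_self f volume
  have h2 : 2 * ∫ t, f t = ∫ t, (f t + f (-t)) := by
    rw [integral_add hint hint.comp_neg, h1]
    ring
  have h3 : ‖∫ t, (f t + f (-t))‖ ≤ ∫ t : ℝ, (4 * L + 4) * (1 + t ^ 2)⁻¹ := by
    refine norm_integral_le_of_norm_le (integrable_inv_one_add_sq.const_mul _) ?_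
    have h0 : ∀ᵐ t : ℝ, t ≠ 0 := by
      rw [ae_iff]
      simp
    filter_upwards [h0] with t ht
    have e1 : f t + f (-t) = sg t * ((q t - q (-t)) / Real.sqrt (t ^ 2 + ρ ^ 2)) := by
      simp only [hf]
      rw [t3_sg_neg ht, neg_sq]
      ring
    rw [e1, Real.norm_eq_abs, abs_mul, t3_sg_abs, one_mul, abs_div, abs_of_pos (hsq t),
      div_le_iff₀ (hsq t)]
    have a1 : |t| ≤ Real.sqrt (t ^ 2 + ρ ^ 2) := by
      rw [← Real.sqrt_sq_eq_abs]
      apply Real.sqrt_le_sqrt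
      nlinarith [sq_nonneg ρ]
    have a2 : |q t - q (-t)| ≤ L * (2 * |t|) := by
      have := hq2 t (-t)
      have e : |t - -t| = 2 * |t| := by
        rw [sub_neg_eq_add, ← two_mul, abs_mul, abs_two]
      rwa [e] at this
    have hpos : 0 < 1 + t ^ 2 := by positivity
    have hinv : 0 < (1 + t ^ 2)⁻¹ := by positivity
    by_cases hc : |t| ≤ 1
    · have b1 : t ^ 2 ≤ 1 := by
        rw [← sq_abs]
        nlinarith [abs_nonneg t]
      have b2 : 1 / 2 ≤ (1 + t ^ 2)⁻¹ := by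
        rw [le_inv_comm₀ (by norm_num) hpos]
        linarith
      calc |q t - q (-t)| ≤ L * (2 * |t|) := a2
        _ ≤ L * (2 * Real.sqrt (t ^ 2 + ρ ^ 2)) := by gcongr
        _ ≤ (4 * L + 4) * (1 / 2) * Real.sqrt (t ^ 2 + ρ ^ 2) := by nlinarith [(hsq t).le]
        _ ≤ (4 * L + 4) * (1 + t ^ 2)⁻¹ * Real.sqrt (t ^ 2 + ρ ^ 2) := by gcongr
    · have b1 : 1 ≤ Real.sqrt (t ^ 2 + ρ ^ 2) := le_trans (not_le.mp hc).le a1
      have b2 : q t ≤ 2 * (1 + t ^ 2)⁻¹ := by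
        rw [← div_eq_mul_inv, le_div_iff₀ hpos]
        exact hq1 t
      have b3 : q (-t) ≤ 2 * (1 + t ^ 2)⁻¹ := by
        rw [← div_eq_mul_inv, le_div_iff₀ hpos]
        have := hq1 (-t)
        rwa [neg_sq] at this
      have b4 : |q t - q (-t)| ≤ 4 * (1 + t ^ 2)⁻¹ := by
        rw [abs_le]
        constructor
        · linarith [hq0 t, hq0 (-t)]
        · linarith [hq0 t, hq0 (-t)]
      calc |q t - q (-t)| ≤ 4 * (1 + t ^ 2)⁻¹ := b4
        _ ≤ (4 * L + 4) * (1 + t ^ 2)⁻¹ := by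
            apply mul_le_mul_of_nonneg_right _ hinv.le
            linarith
        _ ≤ (4 * L + 4) * (1 + t ^ 2)⁻¹ * Real.sqrt (t ^ 2 + ρ ^ 2) := by
            apply le_mul_of_one_le_right _ b1
            positivity
  rw [← h2, integral_const_mul, integral_univ_inv_one_add_sq, Real.norm_eq_abs, abs_mul,
    abs_two] at h3
  linarith

end Pool.Agent.H88.CN
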