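import Pool.Agent.H88.CN.INT
import Pool.Agent.H88.CN.OP
import Pool.Agent.H88.CN.T3

/-!
# CN-S2C: the constant vectors

Proof.  `s2c_int`: for `y ∈ Rg m`, `|⟨p, D y⟩| / ‖X‖ ≤ ‖p‖` (`‖D y‖ ≤ ‖X‖` by `ge_norm`), so the
integrands are bounded times `q`; measurable by `ge_cont`; `int_q`.
`s2c_odd`: for fixed `y`, with `ρ = ‖D y‖`, the integral over `t` is
`⟨p, D y⟩ ∫ sg t (q (t, y) / √(t² + ρ²)) dt`, at most `‖p‖ ρ C3` by `t3` (applied to
`t ↦ q (t, y)`; continuity from `Dn.cont`; `L` may be replaced by `max L 0`), and `ρ ≤ 2 ‖D‖`;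
then `int_fiber_bd`.
`s2c_split`: pointwise, `⟨P + s N, Bop x⟩ = ⟨Bop P, x⟩ + s ⟨Bop N, x⟩` (`bop_symm`), and
`⟨Bop P, x⟩ = ⟨Bop P, Pj w x⟩ = ⟨Bop P, D y⟩ / ‖X‖` because `Bop P ⊥ w` (`bop_orth`,
`pj_symm`/`pj_apply`, `ge_pj`).
-/

namespace Pool.Agent.H88.CN

open MeasureTheory Metric Set Pool.Agent.H35.CA

variable {m : ℕ}

theorem s2c_int {cq Lq : ℝ} {w : E (m + 1)} {D : E m →L[ℝ] E (m + 1)} {q : ℝ × E m → ℝ}
    (h : Fr w D) (hq : Dn cq Lq q) (p : E (m + 1)) :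
    Integrable (fun z : ℝ × E m => inner ℝ p (D z.2) / ‖X w D z‖ * q z) (nu m) ∧
    Integrable (fun z : ℝ × E m => sg z.1 * (inner ℝ p (D z.2) / ‖X w D z‖) * q z) (nu m) := by
  obtain ⟨C, hC, H⟩ := int_q m
  have hm1 : AEStronglyMeasurable (fun z : ℝ × E m => inner ℝ p (D z.2) / ‖X w D z‖) (nu m) := by
    apply int_meas
    have h1 : ContinuousOn (fun z : ℝ × E m => (inner ℝ p (D z.2) : ℝ)) (univ ×ˢ Rg m) := by
      apply Continuous.continuousOn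
      exact continuous_const.inner (D.continuous.comp continuous_snd)
    have h2 := h1.mul (ge_cont h).2
    refine h2.congr ?_
    intro z _
    show (inner ℝ p (D z.2) : ℝ) / ‖X w D z‖ = inner ℝ p (D z.2) * ‖X w D z‖⁻¹
    rw [div_eq_mul_inv]
  have hs : Measurable sg := by
    unfold sg
    exact Measurable.ite measurableSet_Ioi measurable_const measurable_const
  have hm2 : AEStronglyMeasurable
      (fun z : ℝ × E m => sg z.1 * (inner ℝ p (D z.2) / ‖X w D z‖)) (nu m) :=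
    (hs.comp measurable_fst).aestronglyMeasurable.mul hm1
  have hb1 : ∀ t : ℝ, ∀ y ∈ Rg m, |(inner ℝ p (D y) : ℝ) / ‖X w D (t, y)‖| ≤ ‖p‖ := by
    intro t y hy
    have hX : 0 < ‖X w D (t, y)‖ := (ge_pos h t hy).1
    rw [abs_div, abs_of_pos hX, div_le_iff₀ hX]
    have hle : ‖D y‖ ≤ ‖X w D (t, y)‖ := by
      rw [(ge_norm h t y).2]
      apply Real.le_sqrt_of_sq_le
      nlinarith [sq_nonneg t]
    calc |(inner ℝ p (D y) : ℝ)| ≤ ‖p‖ * ‖D y‖ := abs_real_inner_le_norm p (D y)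
      _ ≤ ‖p‖ * ‖X w D (t, y)‖ := mul_le_mul_of_nonneg_left hle (norm_nonneg p)
  have hsg : ∀ t : ℝ, |sg t| = 1 := by
    intro t
    unfold sg
    split_ifs <;> simp
  constructor
  · exact (H cq Lq q hq _ ‖p‖ hm1 (norm_nonneg p) hb1).1
  · refine (H cq Lq q hq _ ‖p‖ hm2 (norm_nonneg p) ?_).1
    intro t y hy
    show |sg t * ((inner ℝ p (D y) : ℝ) / ‖X w D (t, y)‖)| ≤ ‖p‖
    rw [abs_mul, hsg, one_mul]
    exact hb1 t y hy

theorem s2c_odd (m : ℕ) (Lq : ℝ) : ∃ C : ℝ, 0 < C ∧ ∀ (cq : ℝ) (w : E (m + 1))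
    (D : E m →L[ℝ] E (m + 1)) (q : ℝ × E m → ℝ), Fr w D → Dn cq Lq q → ∀ p : E (m + 1),
    |∫ z : ℝ × E m, sg z.1 * (inner ℝ p (D z.2) / ‖X w D z‖) * q z ∂(nu m)|
      ≤ C * ‖p‖ * ‖D‖ := by
  obtain ⟨C3, hC3, H3⟩ := t3 (L := max Lq 0) (le_max_right _ _)
  refine ⟨2 * C3 * (volume (Rg m)).toReal + 1, by positivity, ?_⟩
  intro cq w D q h hq p
  have hint := (s2c_int h hq p).2
  have hA : ∀ y ∈ Rg m, |∫ t : ℝ, (fun z : ℝ × E m =>
      sg z.1 * (inner ℝ p (D z.2) / ‖X w D z‖) * q z) (t, y)| ≤ ‖p‖ * (2 * ‖D‖) * C3 := by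
    intro y hy
    obtain ⟨hr0, hr1, hr2, hD0⟩ := ge_rho_le h hy
    have hcont : Continuous (fun t : ℝ => q (t, y)) :=
      hq.cont.comp_continuous (by fun_prop) (fun t => ⟨mem_univ _, hy⟩)
    have h3 := (H3 (fun t => q (t, y)) hcont (fun t => hq.nonneg t y hy)
      (fun t => hq.upper t y hy)
      (fun t s => (hq.lip t s y hy).trans
        (mul_le_mul_of_nonneg_right (le_max_left _ _) (abs_nonneg _))) ‖D y‖ hr0 hr2).2
    have heq : (fun t : ℝ => (fun z : ℝ × E m =>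
        sg z.1 * (inner ℝ p (D z.2) / ‖X w D z‖) * q z) (t, y)) =
        fun t : ℝ => (inner ℝ p (D y) : ℝ) *
          (sg t * (q (t, y) / Real.sqrt (t ^ 2 + ‖D y‖ ^ 2))) := by
      funext t
      show sg t * ((inner ℝ p (D y) : ℝ) / ‖X w D (t, y)‖) * q (t, y) = _
      rw [(ge_norm h t y).2]
      ring
    rw [heq, integral_const_mul, abs_mul]
    calc |(inner ℝ p (D y) : ℝ)| * |∫ t : ℝ, sg t * (q (t, y) / Real.sqrt (t ^ 2 + ‖D y‖ ^ 2))|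
        ≤ (‖p‖ * (2 * ‖D‖)) * C3 := by
          apply mul_le_mul _ h3 (abs_nonneg _) (by positivity)
          calc |(inner ℝ p (D y) : ℝ)| ≤ ‖p‖ * ‖D y‖ := abs_real_inner_le_norm p (D y)
            _ ≤ ‖p‖ * (2 * ‖D‖) := mul_le_mul_of_nonneg_left hr1 (norm_nonneg p)
      _ = ‖p‖ * (2 * ‖D‖) * C3 := by ring
  have hfin := int_fiber_bd hint hA
  have hv : 0 ≤ (volume (Rg m)).toReal := ENNReal.toReal_nonneg
  calc |∫ z : ℝ × E m, sg z.1 * (inner ℝ p (D z.2) / ‖X w D z‖) * q z ∂(nu m)|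
      ≤ ‖p‖ * (2 * ‖D‖) * C3 * (volume (Rg m)).toReal := hfin
    _ ≤ ‖p‖ * (2 * ‖D‖) * C3 * (volume (Rg m)).toReal + ‖p‖ * ‖D‖ := by
        have : 0 ≤ ‖p‖ * ‖D‖ := by positivity
        linarith
    _ = (2 * C3 * (volume (Rg m)).toReal + 1) * ‖p‖ * ‖D‖ := by ring

theorem s2c_split {b : OrthonormalBasis (Fin (m + 1)) ℝ (E (m + 1))}
    {μ : Fin (m + 1) → ℝ} {w : E (m + 1)} {D : E m →L[ℝ] E (m + 1)} {q : ℝ × E m → ℝ}
    {cq Lq : ℝ} (h : Fr w D) (hq : Dn cq Lq q) (i : Fin (m + 1)) (P N : E (m + 1)) :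
    Integrable (fun z : ℝ × E m => inner ℝ (P + sg z.1 • N) (Bop b μ i w (un (X w D z))) * q z)
      (nu m) ∧
    ∫ z : ℝ × E m, inner ℝ (P + sg z.1 • N) (Bop b μ i w (un (X w D z))) * q z ∂(nu m) =
      Yi w D q (Bop b μ i w P) +
      ∫ z : ℝ × E m, sg z.1 * (inner ℝ (Bop b μ i w N) (D z.2) / ‖X w D z‖) * q z ∂(nu m) := by
  have key : ∀ Q : E (m + 1), ∀ t : ℝ, ∀ y ∈ Rg m,
      (inner ℝ Q (Bop b μ i w (un (X w D (t, y)))) : ℝ) =
        inner ℝ (Bop b μ i w Q) (D y) / ‖X w D (t, y)‖ := by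
    intro Q t y hy
    rw [← bop_symm]
    have h1 : (inner ℝ (Bop b μ i w Q) (Pj w (un (X w D (t, y)))) : ℝ) =
        inner ℝ (Bop b μ i w Q) (un (X w D (t, y))) := by
      rw [pj_apply, inner_sub_right, inner_smul_right, bop_orth b μ i h.nw Q, mul_zero, sub_zero]
    rw [← h1, (ge_pj h t y).1, inner_smul_right, div_eq_inv_mul]
  have hP := (s2c_int h hq (Bop b μ i w P)).1
  have hN := (s2c_int h hq (Bop b μ i w N)).2
  have hae : (fun z : ℝ × E m =>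
      (inner ℝ (P + sg z.1 • N) (Bop b μ i w (un (X w D z))) : ℝ) * q z) =ᵐ[nu m]
      fun z : ℝ × E m => inner ℝ (Bop b μ i w P) (D z.2) / ‖X w D z‖ * q z +
        sg z.1 * (inner ℝ (Bop b μ i w N) (D z.2) / ‖X w D z‖) * q z := by
    filter_upwards [int_ae m] with z hz
    obtain ⟨t, y⟩ := z
    have hy : y ∈ Rg m := hz.1
    show (inner ℝ (P + sg t • N) (Bop b μ i w (un (X w D (t, y)))) : ℝ) * q (t, y) =
      inner ℝ (Bop b μ i w P) (D y) / ‖X w D (t, y)‖ * q (t, y) +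
        sg t * (inner ℝ (Bop b μ i w N) (D y) / ‖X w D (t, y)‖) * q (t, y)
    rw [inner_add_left, real_inner_smul_left, key P t y hy, key N t y hy]
    ring
  constructor
  · exact (hP.add hN).congr hae.symm
  · rw [integral_congr_ae hae, integral_add hP hN]
    rfl

end Pool.Agent.H88.CN
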