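import Pool.Agent.H88.CN.S2A
import Pool.Agent.H88.CN.S2B
import Pool.Agent.H88.CN.S2C

/-!
# CN-S2: the main inequality

Proof.  `G = V - V0`, `P = (1/2)(V w + V (-w))`, `N = (1/2)(V w - V (-w))`, so that
`V (sg t • w) = P + sg t • N` for every `t`.  `KW` with the operator `B = Bop b μ i w`:
`0 = ∫ ⟨V x, B x⟩ q = ∫ ⟨V0 x - V0 w', B x⟩ q + ∫ ⟨G x - G w', B x⟩ q + ∫ ⟨V w', B x⟩ q`,
where `w' = sg t • w` (`V x = (V0 x - V0 w') + (G x - G w') + V w'`; all three are integrable).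
By `s2a` the first term is at least `c2 ‖D‖ - C dd ‖D‖`, by `s2b` the second is at least
`- C ε ‖D‖`, and by `s2c_split`, `s2c_odd` the third is at least
`- |Yi w D q (B P)| - C ‖B N‖ ‖D‖`, where `‖B N‖ ≤ C0 ‖N‖` (`op_near`, `pj_norm`) and
`‖N‖ ≤ (‖V w‖ + ‖V (-w)‖)/2 ≤ M dd + ε` (`V0 (± b i) = 0`, `Ob.lip`, `Pt.bd`).
-/

namespace Pool.Agent.H88.CN

open MeasureTheory Metric Set Pool.Agent.H35.CA

variable {m : ℕ}

theorem s2_sgw {V : E (m + 1) → E (m + 1)} (w : E (m + 1)) (t : ℝ) :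
    V (sg t • w) = (1 / 2 : ℝ) • (V w + V (-w)) + sg t • ((1 / 2 : ℝ) • (V w - V (-w))) := by
  rcases s2a_sg t with e | e
  · rw [e, one_smul, one_smul, ← smul_add]
    rw [show V w + V (-w) + (V w - V (-w)) = (2 : ℝ) • V w by rw [two_smul]; abel, smul_smul]
    norm_num
  · rw [e, neg_one_smul, neg_one_smul, ← sub_eq_add_neg, ← smul_sub]
    rw [show V w + V (-w) - (V w - V (-w)) = (2 : ℝ) • V (-w) by rw [two_smul]; abel, smul_smul]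
    norm_num

theorem s2_add3 {F f g h : ℝ × E m → ℝ} (hf : Integrable f (nu m)) (hg : Integrable g (nu m))
    (hh : Integrable h (nu m)) (e : ∀ p, F p = f p + g p + h p) :
    ∫ p, F p ∂(nu m) = ∫ p, f p ∂(nu m) + ∫ p, g p ∂(nu m) + ∫ p, h p ∂(nu m) := by
  have h1 : F = fun p => (fun p => f p + g p) p + h p := funext e
  have h2 : Integrable (fun p => f p + g p) (nu m) := hf.add hg
  rw [h1, integral_add h2 hh, integral_add hf hg]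

theorem s2 (hm : 1 ≤ m) {b : OrthonormalBasis (Fin (m + 1)) ℝ (E (m + 1))}
    {μ : Fin (m + 1) → ℝ} (hμ : Function.Injective μ) {c M κ d : ℝ}
    {V0 : E (m + 1) → E (m + 1)} (hO : Ob b μ c M κ d V0) {cq : ℝ} (hcq : 0 < cq) (Lq : ℝ)
    {α : ℝ} (hα : 0 < α) (hα1 : α ≤ 1) :
    ∃ c2 C : ℝ, 0 < c2 ∧ 0 < C ∧ ∀ (ε : ℝ) (V : E (m + 1) → E (m + 1)), 0 < ε →
    Pt ε α (fun u => V u - V0 u) → ∀ (w : E (m + 1)) (D : E m →L[ℝ] E (m + 1))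
    (q : ℝ × E m → ℝ), Fr w D → Dn cq Lq q → KW V w D q → ∀ i, dd (b i) w ≤ d →
    c2 * ‖D‖ ≤ C * (ε + dd (b i) w) * ‖D‖ +
      |Yi w D q (Bop b μ i w ((1 / 2 : ℝ) • (V w + V (-w))))| := by
  obtain ⟨C0, hC0, hnear⟩ := op_near b μ
  obtain ⟨c2, Ca, hc2, hCa, ha⟩ := s2a hm hμ hO hcq
  obtain ⟨Cb, hCb, hb⟩ := s2b b μ hα hα1
  obtain ⟨Cc, hCc, hc⟩ := s2c_odd m Lq
  have hM := hO.mpos
  have hC0' : 0 < C0 := lt_of_lt_of_le one_pos hC0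
  refine ⟨c2, Ca + Cb + Cc * C0 * (1 + M), hc2, by positivity, ?_⟩
  intro ε V hε hPt w D q hF hD hKW i hdd
  have hdn : 0 ≤ dd (b i) w := dd_nonneg _ _
  obtain ⟨hi1, hl1⟩ := ha Lq w D q hF hD i hdd
  obtain ⟨hi2, hl2⟩ := hb ε _ hε hPt cq Lq w D q hF hD i
  obtain ⟨hi3, hl3⟩ := s2c_split (b := b) (μ := μ) hF hD i ((1 / 2 : ℝ) • (V w + V (-w)))
    ((1 / 2 : ℝ) • (V w - V (-w)))
  have hl4 := hc cq w D q hF hD (Bop b μ i w ((1 / 2 : ℝ) • (V w - V (-w))))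
  have hkw := hKW (Bop b μ i w)
  have hsum : (∫ p : ℝ × E m, inner ℝ (V (un (X w D p))) (Bop b μ i w (un (X w D p))) * q p
      ∂(nu m)) =
      (∫ p : ℝ × E m, inner ℝ (V0 (un (X w D p)) - V0 (sg p.1 • w))
        (Bop b μ i w (un (X w D p))) * q p ∂(nu m)) +
      (∫ p : ℝ × E m, inner ℝ ((fun u => V u - V0 u) (un (X w D p)) -
        (fun u => V u - V0 u) (sg p.1 • w)) (Bop b μ i w (un (X w D p))) * q p ∂(nu m)) +
      ∫ z : ℝ × E m, inner ℝ ((1 / 2 : ℝ) • (V w + V (-w)) +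
        sg z.1 • ((1 / 2 : ℝ) • (V w - V (-w)))) (Bop b μ i w (un (X w D z))) * q z ∂(nu m) := by
    refine s2_add3 hi1 hi2 hi3 fun p => ?_
    simp only
    rw [← s2_sgw w p.1, ← add_mul, ← add_mul, ← inner_add_left, ← inner_add_left]
    congr 3
    abel
  rw [hkw, hl3] at hsum
  have hVw : ∀ v : E (m + 1), ‖v‖ = 1 → dd (b i) v = dd (b i) w → ‖V v‖ ≤ M * dd (b i) w + ε := by
    intro v hv hdv
    have e1 := s2a_small hO i hv
    rw [hdv] at e1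
    have e2 := hPt.bd v hv
    have e3 : V v = V0 v + (V v - V0 v) := by abel
    calc ‖V v‖ = ‖V0 v + (V v - V0 v)‖ := by rw [← e3]
      _ ≤ ‖V0 v‖ + ‖V v - V0 v‖ := norm_add_le _ _
      _ ≤ M * dd (b i) w + ε := add_le_add e1 e2
  have hN : ‖(1 / 2 : ℝ) • (V w - V (-w))‖ ≤ M * dd (b i) w + ε := by
    rw [norm_smul, Real.norm_eq_abs, abs_of_pos (by norm_num : (0 : ℝ) < 1 / 2)]
    have e1 := hVw w hF.nw rfl
    have e2 := hVw (-w) (by rw [norm_neg]; exact hF.nw) (dd_neg (b i) w)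
    have e3 := norm_sub_le (V w) (V (-w))
    linarith
  have hBN : ‖Bop b μ i w ((1 / 2 : ℝ) • (V w - V (-w)))‖ ≤ C0 * (M * dd (b i) w + ε) :=
    (hnear i w hF.nw _).1.trans (mul_le_mul_of_nonneg_left ((pj_norm hF.nw _).trans hN) hC0'.le)
  have hDn : 0 ≤ ‖D‖ := norm_nonneg D
  have hl5 : Cc * ‖Bop b μ i w ((1 / 2 : ℝ) • (V w - V (-w)))‖ * ‖D‖ ≤
      Cc * (C0 * (M * dd (b i) w + ε)) * ‖D‖ :=
    mul_le_mul_of_nonneg_right (mul_le_mul_of_nonneg_left hBN hCc.le) hDn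
  have hl6 := abs_le.mp (hl4.trans hl5)
  have hl7 := abs_le.mp hl2
  have hl8 := neg_abs_le (Yi w D q (Bop b μ i w ((1 / 2 : ℝ) • (V w + V (-w)))))
  have hl9 : 0 ≤ (Ca * ε + Cb * dd (b i) w + Cc * C0 * (M * ε + dd (b i) w)) * ‖D‖ := by
    positivity
  have hl10 : (Ca + Cb + Cc * C0 * (1 + M)) * (ε + dd (b i) w) * ‖D‖ =
      Ca * dd (b i) w * ‖D‖ + Cb * ε * ‖D‖ + Cc * (C0 * (M * dd (b i) w + ε)) * ‖D‖ +
      (Ca * ε + Cb * dd (b i) w + Cc * C0 * (M * ε + dd (b i) w)) * ‖D‖ := by ring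
  rw [hl10]
  linarith [hl6.1, hl6.2, hl7.1, hl7.2]

end Pool.Agent.H88.CN
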