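import Pool.Agent.H88.CN.Defs

/-!
# CN-T2: a one dimensional integral with a logarithm

Proof.  Integrability: the integrand is continuous and at most `2 / (ρ (1 + t²))` in absolute
value (`integrable_inv_one_add_sq`).
Split `ℝ` into `|t| > 1` and `|t| ≤ 1`.
On `|t| > 1`: `0 ≤ q t / √(t² + ρ²) ≤ 2 / (1 + t²)`, contribution at most `2π`.
On `|t| ≤ 1`: write `q t = q 0 + (q t - q 0)`, `|q t - q 0| ≤ L |t| ≤ L √(t² + ρ²)`, so the second
term contributes at most `2 L`.  The first is `q 0 ∫_{-1}^1 dt / √(t² + ρ²) = 2 q 0 arsinh (1/ρ)`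
(`arsinh (t/ρ)` is a primitive), and
`arsinh (1/ρ) = log (1/ρ + √(1/ρ² + 1)) = - log ρ + log (1 + √(1 + ρ²))` with
`0 ≤ log (1 + √(1 + ρ²)) ≤ log 4 ≤ 2` because `ρ ≤ 2`.  Finally `0 ≤ q 0 ≤ 2`.
So `C = 2π + 2L + 8` works.
-/

namespace Pool.Agent.H88.CN

open MeasureTheory Metric Set

private lemma t2_sqrt_pos (t : ℝ) {ρ : ℝ} (hρ : 0 < ρ) : 0 < Real.sqrt (t ^ 2 + ρ ^ 2) := by
  apply Real.sqrt_pos.mpr
  positivity

private lemma t2_prim (ρ : ℝ) (hρ : 0 < ρ) (t : ℝ) :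
    HasDerivAt (fun t : ℝ => Real.arsinh (t / ρ)) (1 / Real.sqrt (t ^ 2 + ρ ^ 2)) t := by
  have h1 : HasDerivAt (fun t : ℝ => t / ρ) (1 / ρ) t := (hasDerivAt_id t).div_const ρ
  have h2 := h1.arsinh
  have h3 : (Real.sqrt (1 + (t / ρ) ^ 2))⁻¹ • (1 / ρ) = 1 / Real.sqrt (t ^ 2 + ρ ^ 2) := by
    have e : t ^ 2 + ρ ^ 2 = ρ ^ 2 * (1 + (t / ρ) ^ 2) := by
      field_simp
      ring
    rw [e, Real.sqrt_mul (sq_nonneg ρ), Real.sqrt_sq hρ.le, smul_eq_mul]
    have : 0 < Real.sqrt (1 + (t / ρ) ^ 2) := Real.sqrt_pos.mpr (by positivity)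
    field_simp
  rw [h3] at h2
  exact h2

private lemma t2_arsinh (ρ : ℝ) (hρ : 0 < ρ) :
    Real.arsinh (1 / ρ) = - Real.log ρ + Real.log (1 + Real.sqrt (1 + ρ ^ 2)) := by
  have hs : 0 < 1 + Real.sqrt (1 + ρ ^ 2) := by positivity
  have e : 1 / ρ + Real.sqrt (1 + (1 / ρ) ^ 2) = (1 + Real.sqrt (1 + ρ ^ 2)) / ρ := by
    have e1 : 1 + (1 / ρ) ^ 2 = (1 + ρ ^ 2) / ρ ^ 2 := by
      field_simp
      ring
    rw [e1, Real.sqrt_div (by positivity), Real.sqrt_sq hρ.le]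
    field_simp
  unfold Real.arsinh
  rw [e, Real.log_div hs.ne' hρ.ne']
  ring

private lemma t2_one (ρ : ℝ) (hρ : 0 < ρ) :
    ∫ t in (-1 : ℝ)..1, 1 / Real.sqrt (t ^ 2 + ρ ^ 2) =
      2 * (- Real.log ρ + Real.log (1 + Real.sqrt (1 + ρ ^ 2))) := by
  have hc : Continuous (fun t : ℝ => 1 / Real.sqrt (t ^ 2 + ρ ^ 2)) := by
    apply Continuous.div continuous_const (by fun_prop)
    intro t
    exact (t2_sqrt_pos t hρ).ne'
  rw [intervalIntegral.integral_eq_sub_of_hasDerivAt (fun t _ => t2_prim ρ hρ t)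
    (hc.intervalIntegrable _ _)]
  have : (-1 : ℝ) / ρ = -(1 / ρ) := by ring
  rw [this, Real.arsinh_neg, t2_arsinh ρ hρ]
  ring

theorem t2 {L : ℝ} (hL : 0 ≤ L) : ∃ C : ℝ, 0 < C ∧ ∀ q : ℝ → ℝ, Continuous q → (∀ t, 0 ≤ q t) →
    (∀ t, q t * (1 + t ^ 2) ≤ 2) → (∀ t s, |q t - q s| ≤ L * |t - s|) →
    ∀ ρ : ℝ, 0 < ρ → ρ ≤ 2 →
    Integrable (fun t : ℝ => q t / Real.sqrt (t ^ 2 + ρ ^ 2)) ∧
    |(∫ t : ℝ, q t / Real.sqrt (t ^ 2 + ρ ^ 2)) - 2 * (-Real.log ρ) * q 0| ≤ C := by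
  refine ⟨2 * Real.pi + 2 * L + 8, by positivity, ?_⟩
  intro q hq h0 hup hlip ρ hρ hρ2
  have hfc : Continuous (fun t : ℝ => q t / Real.sqrt (t ^ 2 + ρ ^ 2)) := by
    apply Continuous.div hq (by fun_prop)
    intro t
    exact (t2_sqrt_pos t hρ).ne'
  have hqb : ∀ t, q t ≤ 2 * (1 + t ^ 2)⁻¹ := by
    intro t
    have h1 : (0 : ℝ) < 1 + t ^ 2 := by positivity
    rw [← div_eq_mul_inv, le_div_iff₀ h1]
    exact hup t
  have hint : Integrable (fun t : ℝ => q t / Real.sqrt (t ^ 2 + ρ ^ 2)) := by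
    have hg : Integrable (fun t : ℝ => (2 / ρ) * (1 + t ^ 2)⁻¹) :=
      integrable_inv_one_add_sq.const_mul _
    refine hg.mono' hfc.aestronglyMeasurable (Filter.Eventually.of_forall fun t => ?_)
    have hs := t2_sqrt_pos t hρ
    have hs2 : ρ ≤ Real.sqrt (t ^ 2 + ρ ^ 2) := by
      apply Real.le_sqrt_of_sq_le
      nlinarith [sq_nonneg t]
    rw [Real.norm_eq_abs, abs_of_nonneg (div_nonneg (h0 t) hs.le)]
    calc q t / Real.sqrt (t ^ 2 + ρ ^ 2) ≤ q t / ρ :=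
          div_le_div_of_nonneg_left (h0 t) hρ hs2
      _ ≤ (2 * (1 + t ^ 2)⁻¹) / ρ := by
          apply div_le_div_of_nonneg_right (hqb t) hρ.le
      _ = (2 / ρ) * (1 + t ^ 2)⁻¹ := by ring
  refine ⟨hint, ?_⟩
  set S : Set ℝ := Ioc (-1 : ℝ) 1 with hS
  have hSm : MeasurableSet S := measurableSet_Ioc
  have hsplit : (∫ t : ℝ, q t / Real.sqrt (t ^ 2 + ρ ^ 2)) =
      (∫ t in S, q t / Real.sqrt (t ^ 2 + ρ ^ 2)) +
      ∫ t in Sᶜ, q t / Real.sqrt (t ^ 2 + ρ ^ 2) := (integral_add_compl hSm hint).symm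
  -- outer part
  have hout0 : 0 ≤ ∫ t in Sᶜ, q t / Real.sqrt (t ^ 2 + ρ ^ 2) :=
    integral_nonneg fun t => div_nonneg (h0 t) (t2_sqrt_pos t hρ).le
  have hout1 : ∫ t in Sᶜ, q t / Real.sqrt (t ^ 2 + ρ ^ 2) ≤ 2 * Real.pi := by
    have hg : Integrable (fun t : ℝ => 2 * (1 + t ^ 2)⁻¹) :=
      integrable_inv_one_add_sq.const_mul _
    calc ∫ t in Sᶜ, q t / Real.sqrt (t ^ 2 + ρ ^ 2)
        ≤ ∫ t in Sᶜ, 2 * (1 + t ^ 2)⁻¹ := by
          apply setIntegral_mono_on hint.integrableOn hg.integrableOn hSm.compl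
          intro t ht
          have hs := t2_sqrt_pos t hρ
          have ht1 : 1 ≤ t ^ 2 := by
            simp only [hS, mem_compl_iff, mem_Ioc, not_and, not_le] at ht
            by_cases h : -1 < t
            · have := ht h
              nlinarith
            · push Not at h
              nlinarith
          have hs1 : 1 ≤ Real.sqrt (t ^ 2 + ρ ^ 2) := by
            apply Real.le_sqrt_of_sq_le
            nlinarith [sq_nonneg ρ]
          calc q t / Real.sqrt (t ^ 2 + ρ ^ 2) ≤ q t / 1 :=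
                div_le_div_of_nonneg_left (h0 t) one_pos hs1
            _ = q t := div_one _
            _ ≤ 2 * (1 + t ^ 2)⁻¹ := hqb t
      _ ≤ ∫ t, 2 * (1 + t ^ 2)⁻¹ :=
          setIntegral_le_integral hg (Filter.Eventually.of_forall fun t => by positivity)
      _ = 2 * Real.pi := by
          rw [integral_const_mul, integral_univ_inv_one_add_sq]
  -- inner part
  have hin : ∫ t in S, q t / Real.sqrt (t ^ 2 + ρ ^ 2) =
      ∫ t in (-1 : ℝ)..1, q t / Real.sqrt (t ^ 2 + ρ ^ 2) := by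
    rw [intervalIntegral.integral_of_le (by norm_num)]
  have hc1 : Continuous (fun t : ℝ => 1 / Real.sqrt (t ^ 2 + ρ ^ 2)) := by
    apply Continuous.div continuous_const (by fun_prop)
    intro t
    exact (t2_sqrt_pos t hρ).ne'
  have hc2 : Continuous (fun t : ℝ => (q t - q 0) / Real.sqrt (t ^ 2 + ρ ^ 2)) := by
    apply Continuous.div (by fun_prop) (by fun_prop)
    intro t
    exact (t2_sqrt_pos t hρ).ne'
  have hin2 : ∫ t in (-1 : ℝ)..1, q t / Real.sqrt (t ^ 2 + ρ ^ 2) =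
      q 0 * (2 * (- Real.log ρ + Real.log (1 + Real.sqrt (1 + ρ ^ 2)))) +
      ∫ t in (-1 : ℝ)..1, (q t - q 0) / Real.sqrt (t ^ 2 + ρ ^ 2) := by
    have hc3 : Continuous (fun t : ℝ => q 0 * (1 / Real.sqrt (t ^ 2 + ρ ^ 2))) :=
      continuous_const.mul hc1
    rw [← t2_one ρ hρ, ← intervalIntegral.integral_const_mul,
      ← intervalIntegral.integral_add (hc3.intervalIntegrable _ _)
        (hc2.intervalIntegrable _ _)]
    apply intervalIntegral.integral_congr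
    intro t _
    simp only []
    ring
  have hrem : |∫ t in (-1 : ℝ)..1, (q t - q 0) / Real.sqrt (t ^ 2 + ρ ^ 2)| ≤ 2 * L := by
    have h := intervalIntegral.norm_integral_le_of_norm_le_const
      (a := (-1 : ℝ)) (b := 1) (C := L)
      (f := fun t : ℝ => (q t - q 0) / Real.sqrt (t ^ 2 + ρ ^ 2)) ?_
    · rw [Real.norm_eq_abs] at h
      have e : |(1 : ℝ) - (-1)| = 2 := by norm_num
      rw [e] at h
      linarith
    · intro t _
      have hs := t2_sqrt_pos t hρ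
      rw [Real.norm_eq_abs, abs_div, abs_of_pos hs, div_le_iff₀ hs]
      have h1 := hlip t 0
      rw [sub_zero] at h1
      have h2 : |t| ≤ Real.sqrt (t ^ 2 + ρ ^ 2) := by
        apply Real.abs_le_sqrt
        nlinarith [sq_nonneg ρ]
      calc |q t - q 0| ≤ L * |t| := h1
        _ ≤ L * Real.sqrt (t ^ 2 + ρ ^ 2) := mul_le_mul_of_nonneg_left h2 hL
  have hl0 : 0 ≤ Real.log (1 + Real.sqrt (1 + ρ ^ 2)) := by
    apply Real.log_nonneg
    have := Real.sqrt_nonneg (1 + ρ ^ 2)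
    linarith
  have hl1 : Real.log (1 + Real.sqrt (1 + ρ ^ 2)) ≤ 2 := by
    have h1 : Real.sqrt (1 + ρ ^ 2) ≤ 3 := by
      apply Real.sqrt_le_iff.mpr
      constructor
      · norm_num
      · nlinarith
    have h2 : Real.log (1 + Real.sqrt (1 + ρ ^ 2)) ≤ Real.log 4 := by
      apply Real.log_le_log (by positivity)
      linarith
    have h3 : Real.log 4 = 2 * Real.log 2 := by
      rw [show (4 : ℝ) = 2 ^ 2 by norm_num, Real.log_pow]
      norm_num
    have h4 := Real.log_two_lt_d9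
    rw [h3] at h2
    linarith
  have hq0 : q 0 ≤ 2 := by
    have := hup 0
    simpa using this
  have hq00 := h0 0
  have hprod0 : 0 ≤ q 0 * Real.log (1 + Real.sqrt (1 + ρ ^ 2)) := mul_nonneg hq00 hl0
  have hprod1 : q 0 * Real.log (1 + Real.sqrt (1 + ρ ^ 2)) ≤ 4 := by
    calc q 0 * Real.log (1 + Real.sqrt (1 + ρ ^ 2)) ≤ 2 * 2 :=
          mul_le_mul hq0 hl1 hl0 (by norm_num)
      _ = 4 := by norm_num
  rw [hsplit, hin, hin2]
  rw [abs_le] at hrem ⊢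
  constructor
  · nlinarith [hrem.1, hrem.2, Real.pi_pos]
  · nlinarith [hrem.1, hrem.2, Real.pi_pos]

end Pool.Agent.H88.CN
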