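import Pool.Agent.H88.CN.Defs

/-!
# CN-T5: elementary inequalities with logarithms

Proofs.
`t5a`: with `x = ρ / δ ∈ (0, 2]` this is `x |log x| ≤ 2`: for `x ≤ 1`, `x log (1/x) ≤ 1`
(`Real.log_le_sub_one_of_pos` applied to `1/x`: `log (1/x) ≤ 1/x - 1`); for `1 ≤ x ≤ 2`,
`x log x ≤ 2 log 2 ≤ 2`.
`t5b`: `ρ² ≤ 4 δ²`, `ρ² |log ρ| ≤ ρ² |log δ| + ρ * (ρ |log ρ - log δ|) ≤ 4 δ² |log δ| + 4 δ²`.
`t6`: first `δ |log δ|² ≤ 16 √δ` and `δ |log δ| ≤ 16 √δ` for `0 < δ ≤ 1`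
(`|log δ| = 4 |log δ^(1/4)| ≤ 4 δ^(-1/4)`, because `log y ≤ y` for `y = δ^(-1/4) ≥ 1`; so
`|log δ|² ≤ 16 δ^(-1/2)`, `|log δ| ≤ 4 δ^(-1/4) ≤ 16 δ^(-1/2)`).  Then for `ε ≤ 1`, `δ ≤ K ε²`:
`|log δ| δ (1 + ε (1 + |log δ|)) ≤ 2 δ |log δ| + δ |log δ|² ≤ 48 √δ ≤ 48 √K ε`.
So `K ε + K (...) ≤ (K + 48 K √K) ε < c` for small `ε`.
-/

namespace Pool.Agent.H88.CN

open MeasureTheory Metric Set

theorem t5a {ρ δ : ℝ} (hρ : 0 < ρ) (hδ : 0 < δ) (h : ρ ≤ 2 * δ) :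
    ρ * |Real.log ρ - Real.log δ| ≤ 2 * δ := by
  rcases le_total ρ δ with h1 | h1
  · have h2 : Real.log ρ - Real.log δ ≤ 0 := sub_nonpos.mpr (Real.log_le_log hρ h1)
    rw [abs_of_nonpos h2, neg_sub]
    have h3 : Real.log δ - Real.log ρ = Real.log (δ / ρ) :=
      (Real.log_div hδ.ne' hρ.ne').symm
    have h4 : Real.log (δ / ρ) ≤ δ / ρ - 1 := Real.log_le_sub_one_of_pos (div_pos hδ hρ)
    rw [h3]
    have h5 : ρ * Real.log (δ / ρ) ≤ ρ * (δ / ρ - 1) := mul_le_mul_of_nonneg_left h4 hρ.le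
    have h6 : ρ * (δ / ρ - 1) = δ - ρ := by field_simp
    linarith
  · have h2 : 0 ≤ Real.log ρ - Real.log δ := sub_nonneg.mpr (Real.log_le_log hδ h1)
    rw [abs_of_nonneg h2]
    have h3 : Real.log ρ - Real.log δ = Real.log (ρ / δ) :=
      (Real.log_div hρ.ne' hδ.ne').symm
    have h4 : Real.log (ρ / δ) ≤ ρ / δ - 1 := Real.log_le_sub_one_of_pos (div_pos hρ hδ)
    have h7 : ρ / δ ≤ 2 := by rw [div_le_iff₀ hδ]; exact h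
    have h5 : ρ * (Real.log ρ - Real.log δ) ≤ ρ * 1 := by
      apply mul_le_mul_of_nonneg_left _ hρ.le
      rw [h3]
      linarith
    linarith

theorem t5b {ρ δ : ℝ} (hρ : 0 < ρ) (hδ : 0 < δ) (h : ρ ≤ 2 * δ) :
    ρ ^ 2 * (1 + |Real.log ρ|) ≤ 8 * δ ^ 2 * (1 + |Real.log δ|) := by
  have h1 := t5a hρ hδ h
  have h2 : |Real.log ρ| ≤ |Real.log δ| + |Real.log ρ - Real.log δ| := by
    have h3 := abs_add_le (Real.log δ) (Real.log ρ - Real.log δ)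
    have h4 : Real.log δ + (Real.log ρ - Real.log δ) = Real.log ρ := by ring
    rw [h4] at h3
    exact h3
  have h0 : 0 ≤ |Real.log δ| := abs_nonneg _
  have h5 : ρ ^ 2 ≤ 4 * δ ^ 2 := by nlinarith
  have h6 : ρ ^ 2 * |Real.log ρ| ≤ ρ ^ 2 * |Real.log δ| + ρ * (ρ * |Real.log ρ - Real.log δ|) := by
    have h7 := mul_le_mul_of_nonneg_left h2 (sq_nonneg ρ)
    nlinarith
  have h8 : ρ * (ρ * |Real.log ρ - Real.log δ|) ≤ ρ * (2 * δ) :=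
    mul_le_mul_of_nonneg_left h1 hρ.le
  have h9 : ρ * (2 * δ) ≤ 2 * δ * (2 * δ) :=
    mul_le_mul_of_nonneg_right h (by positivity)
  have h10 : ρ ^ 2 * |Real.log δ| ≤ 4 * δ ^ 2 * |Real.log δ| :=
    mul_le_mul_of_nonneg_right h5 h0
  have h11 : 0 ≤ δ ^ 2 * |Real.log δ| := by positivity
  nlinarith

/-- The quarter root estimate: `s |log (s⁴)| ≤ 4` for `0 < s ≤ 1`. -/
theorem t5_quarter {s : ℝ} (hs : 0 < s) (hs1 : s ≤ 1) : s * |Real.log (s ^ 4)| ≤ 4 := by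
  have h1 : Real.log (s ^ 4) = 4 * Real.log s := by
    rw [Real.log_pow]
    norm_num
  have h2 : Real.log s ≤ 0 := Real.log_nonpos hs.le hs1
  have h3 : Real.log s⁻¹ ≤ s⁻¹ - 1 := Real.log_le_sub_one_of_pos (inv_pos.mpr hs)
  rw [Real.log_inv] at h3
  have h4 : s * (-Real.log s) ≤ s * (s⁻¹ - 1) := mul_le_mul_of_nonneg_left h3 hs.le
  have h5 : s * (s⁻¹ - 1) = 1 - s := by field_simp
  rw [h1, abs_of_nonpos (by linarith)]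
  nlinarith

theorem t6 {K c : ℝ} (hK : 0 < K) (hc : 0 < c) : ∃ ε0 : ℝ, 0 < ε0 ∧ ε0 ≤ 1 ∧ ∀ ε δ : ℝ,
    0 < ε → ε ≤ ε0 → 0 < δ → δ ≤ 1 → δ ≤ K * ε ^ 2 →
    K * ε + K * (|Real.log δ| * δ * (1 + ε * (1 + |Real.log δ|))) < c := by
  have hsK : 0 ≤ Real.sqrt K := Real.sqrt_nonneg K
  set A : ℝ := K + 48 * K * Real.sqrt K with hA
  have hA0 : 0 < A := by positivity
  refine ⟨min 1 (c / (2 * A)), lt_min one_pos (by positivity), min_le_left _ _, ?_⟩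
  intro ε δ hε hε0 hδ hδ1 hδK
  have hε1 : ε ≤ 1 := hε0.trans (min_le_left _ _)
  have hε2 : ε ≤ c / (2 * A) := hε0.trans (min_le_right _ _)
  have hAε : A * ε ≤ c / 2 := by
    have h1 := mul_le_mul_of_nonneg_left hε2 hA0.le
    have h2 : A * (c / (2 * A)) = c / 2 := by field_simp
    linarith
  -- the fourth root
  obtain ⟨s, hs, hs1, hs4⟩ : ∃ s : ℝ, 0 < s ∧ s ≤ 1 ∧ s ^ 4 = δ := by
    refine ⟨Real.sqrt (Real.sqrt δ), Real.sqrt_pos.mpr (Real.sqrt_pos.mpr hδ), ?_, ?_⟩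
    · have h1 : Real.sqrt δ ≤ 1 := Real.sqrt_le_one.mpr hδ1
      exact Real.sqrt_le_one.mpr h1
    · have h1 : Real.sqrt (Real.sqrt δ) ^ 2 = Real.sqrt δ := Real.sq_sqrt (Real.sqrt_nonneg δ)
      have h2 : Real.sqrt δ ^ 2 = δ := Real.sq_sqrt hδ.le
      calc Real.sqrt (Real.sqrt δ) ^ 4 = (Real.sqrt (Real.sqrt δ) ^ 2) ^ 2 := by ring
        _ = δ := by rw [h1, h2]
  have hq := t5_quarter hs hs1
  rw [hs4] at hq
  set ℓ : ℝ := |Real.log δ| with hℓ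
  have hℓ0 : 0 ≤ ℓ := abs_nonneg _
  have hsl0 : 0 ≤ s * ℓ := mul_nonneg hs.le hℓ0
  -- `s ^ 2 ≤ √K ε`
  have hs2 : s ^ 2 ≤ Real.sqrt K * ε := by
    have h1 : (s ^ 2) ^ 2 ≤ (Real.sqrt K * ε) ^ 2 := by
      have h2 : (s ^ 2) ^ 2 = δ := by rw [← hs4]; ring
      have h3 : (Real.sqrt K * ε) ^ 2 = K * ε ^ 2 := by
        rw [mul_pow, Real.sq_sqrt hK.le]
      rw [h2, h3]
      exact hδK
    exact le_of_sq_le_sq h1 (by positivity)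
  -- the two products
  have h3 : δ * ℓ ^ 2 ≤ 16 * s ^ 2 := by
    have h4 : δ * ℓ ^ 2 = s ^ 2 * (s * ℓ) ^ 2 := by rw [← hs4]; ring
    have h5 : (s * ℓ) ^ 2 ≤ 16 := by nlinarith
    rw [h4]
    nlinarith [sq_nonneg s]
  have h6 : δ * ℓ ≤ 16 * s ^ 2 := by
    have h7 : δ * ℓ = s ^ 2 * (s * (s * ℓ)) := by rw [← hs4]; ring
    have h8 : s * (s * ℓ) ≤ 1 * 4 := mul_le_mul hs1 hq hsl0 (by norm_num)
    rw [h7]
    nlinarith [sq_nonneg s]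
  have h9 : 0 ≤ δ * ℓ := mul_nonneg hδ.le hℓ0
  have h10 : 0 ≤ δ * ℓ ^ 2 := by positivity
  have h11 : ℓ * δ * (1 + ε * (1 + ℓ)) ≤ 2 * (δ * ℓ) + δ * ℓ ^ 2 := by
    have h12 : ℓ * δ * (1 + ε * (1 + ℓ)) = δ * ℓ + ε * (δ * ℓ) + ε * (δ * ℓ ^ 2) := by ring
    have h13 : ε * (δ * ℓ) ≤ 1 * (δ * ℓ) := mul_le_mul_of_nonneg_right hε1 h9
    have h14 : ε * (δ * ℓ ^ 2) ≤ 1 * (δ * ℓ ^ 2) := mul_le_mul_of_nonneg_right hε1 h10
    rw [h12]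
    linarith
  have h15 : ℓ * δ * (1 + ε * (1 + ℓ)) ≤ 48 * (Real.sqrt K * ε) := by linarith
  have h16 : K * (ℓ * δ * (1 + ε * (1 + ℓ))) ≤ K * (48 * (Real.sqrt K * ε)) :=
    mul_le_mul_of_nonneg_left h15 hK.le
  have h17 : K * ε + K * (48 * (Real.sqrt K * ε)) = A * ε := by rw [hA]; ring
  linarith

end Pool.Agent.H88.CN
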