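import Pool.Agent.H88.CN.INT
import Pool.Agent.H88.CN.S2C
import Pool.Agent.H88.CN.T2
import Pool.Agent.H88.CN.T5

/-!
# CN-S3: the logarithmic term

Proof.  For fixed `y ∈ Rg m`, `ρ = ‖D y‖ ∈ (0, 2]`, `δ = ‖D‖`, `ρ ≤ 2 δ`:
`∫ ⟨p, D y⟩ / ‖X‖ q dt = ⟨p, D y⟩ ∫ q (t, y) / √(t² + ρ²) dt`, and by `t2` the last integral
differs from `2 (-log ρ) q (0, y)` by at most `C2` (`Dn.lip` holds with `max Lq 0` as well).
`q (0, y) ≤ 2` and `|⟨p, D y⟩| |log ρ - log δ| ≤ ‖p‖ ρ |log ρ - log δ| ≤ 2 ‖p‖ δ` (`t5a`), so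
`|∫ ⟨p, D y⟩ / ‖X‖ q dt - 2 (-log δ) ⟨p, D y⟩ q (0, y)| ≤ (2 C2 + 8) ‖p‖ δ`.
Integrate over `Rg m` (`int_fiber`; the function `y ↦ ⟨p, D y⟩ q (0, y)` is continuous on the
compact set `Rg m`; `norm_setIntegral_le_of_norm_le_const`).
-/

namespace Pool.Agent.H88.CN

open MeasureTheory Metric Set Pool.Agent.H35.CA

variable {m : ℕ}

theorem s3 (m : ℕ) (Lq : ℝ) : ∃ C : ℝ, 0 < C ∧ ∀ (cq : ℝ) (w : E (m + 1))
    (D : E m →L[ℝ] E (m + 1)) (q : ℝ × E m → ℝ), Fr w D → Dn cq Lq q → 0 < ‖D‖ →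
    ∀ p : E (m + 1),
    |Yi w D q p - 2 * (-Real.log ‖D‖) * am D q p| ≤ C * ‖p‖ * ‖D‖ := by
  obtain ⟨C2, hC2, ht2⟩ := t2 (L := max Lq 0) (le_max_right _ _)
  have hVV : 0 ≤ (volume : Measure (E m)).real (Rg m) := measureReal_nonneg
  refine ⟨(2 * C2 + 8) * (volume : Measure (E m)).real (Rg m) + 1, by positivity, ?_⟩
  intro cq w D q hF hq hD p
  have hint := (s2c_int hF hq p).1
  -- the inner integral
  have hg : ∀ y ∈ Rg m, ∫ t : ℝ, inner ℝ p (D y) / ‖X w D (t, y)‖ * q (t, y) =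
      inner ℝ p (D y) * ∫ t : ℝ, q (t, y) / Real.sqrt (t ^ 2 + ‖D y‖ ^ 2) := by
    intro y _
    rw [← integral_const_mul]
    refine integral_congr_ae (Filter.Eventually.of_forall fun t => ?_)
    simp only
    rw [(ge_norm hF t y).2]
    ring
  have hbd : ∀ y ∈ Rg m, ‖(∫ t : ℝ, inner ℝ p (D y) / ‖X w D (t, y)‖ * q (t, y)) -
      2 * (-Real.log ‖D‖) * (inner ℝ p (D y) * q (0, y))‖ ≤ (2 * C2 + 8) * ‖p‖ * ‖D‖ := by
    intro y hy
    obtain ⟨hρ, hρ2, hρ3, -⟩ := ge_rho_le hF hy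
    have hqc : Continuous fun t : ℝ => q (t, y) :=
      hq.cont.comp_continuous (by fun_prop) fun t => ⟨mem_univ _, hy⟩
    have h1 := (ht2 (fun t => q (t, y)) hqc (fun t => hq.nonneg t y hy)
      (fun t => hq.upper t y hy)
      (fun t s => (hq.lip t s y hy).trans
        (mul_le_mul_of_nonneg_right (le_max_left _ _) (abs_nonneg _))) ‖D y‖ hρ hρ3).2
    have h2 := t5a hρ hD hρ2
    have h3 : |(inner ℝ p (D y) : ℝ)| ≤ ‖p‖ * ‖D y‖ := abs_real_inner_le_norm _ _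
    have h4 : 0 ≤ q (0, y) := hq.nonneg 0 y hy
    have h5 : q (0, y) ≤ 2 := by
      have := hq.upper 0 y hy
      simpa using this
    rw [hg y hy, Real.norm_eq_abs]
    set a : ℝ := inner ℝ p (D y) with ha
    set J : ℝ := ∫ t : ℝ, q (t, y) / Real.sqrt (t ^ 2 + ‖D y‖ ^ 2) with hJ
    have h6 : a * J - 2 * (-Real.log ‖D‖) * (a * q (0, y)) =
        a * (J - 2 * (-Real.log ‖D y‖) * q (0, y)) -
          a * (Real.log ‖D y‖ - Real.log ‖D‖) * (2 * q (0, y)) := by ring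
    have h7 : |a * (J - 2 * (-Real.log ‖D y‖) * q (0, y))| ≤ ‖p‖ * (2 * ‖D‖) * C2 := by
      rw [abs_mul]
      refine mul_le_mul (h3.trans (mul_le_mul_of_nonneg_left hρ2 (norm_nonneg _))) h1
        (abs_nonneg _) (by positivity)
    have h8 : |a * (Real.log ‖D y‖ - Real.log ‖D‖) * (2 * q (0, y))| ≤
        ‖p‖ * (2 * ‖D‖) * 4 := by
      rw [abs_mul, abs_mul]
      have h9 : |a| * |Real.log ‖D y‖ - Real.log ‖D‖| ≤ ‖p‖ * (2 * ‖D‖) := by
        calc |a| * |Real.log ‖D y‖ - Real.log ‖D‖|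
            ≤ ‖p‖ * ‖D y‖ * |Real.log ‖D y‖ - Real.log ‖D‖| :=
              mul_le_mul_of_nonneg_right h3 (abs_nonneg _)
          _ = ‖p‖ * (‖D y‖ * |Real.log ‖D y‖ - Real.log ‖D‖|) := by ring
          _ ≤ ‖p‖ * (2 * ‖D‖) := mul_le_mul_of_nonneg_left h2 (norm_nonneg _)
      have h10 : |2 * q (0, y)| ≤ 4 := by
        rw [abs_of_nonneg (by positivity)]
        linarith
      exact mul_le_mul h9 h10 (abs_nonneg _) (by positivity)
    rw [h6]
    calc |a * (J - 2 * (-Real.log ‖D y‖) * q (0, y)) -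
          a * (Real.log ‖D y‖ - Real.log ‖D‖) * (2 * q (0, y))|
        ≤ |a * (J - 2 * (-Real.log ‖D y‖) * q (0, y))| +
          |a * (Real.log ‖D y‖ - Real.log ‖D‖) * (2 * q (0, y))| := abs_sub _ _
      _ ≤ ‖p‖ * (2 * ‖D‖) * C2 + ‖p‖ * (2 * ‖D‖) * 4 := add_le_add h7 h8
      _ = (2 * C2 + 8) * ‖p‖ * ‖D‖ := by ring
  -- integrability
  have hi1 : IntegrableOn (fun y => ∫ t : ℝ, inner ℝ p (D y) / ‖X w D (t, y)‖ * q (t, y))
      (Rg m) := by
    have h1 : Integrable (fun z : ℝ × E m => inner ℝ p (D z.2) / ‖X w D z‖ * q z)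
      ((volume : Measure ℝ).prod ((volume : Measure (E m)).restrict (Rg m))) := hint
    exact h1.integral_prod_right
  have hi2 : IntegrableOn (fun y => (inner ℝ p (D y) : ℝ) * q (0, y)) (Rg m) := by
    refine ContinuousOn.integrableOn_compact (rg_compact m) ?_
    refine ContinuousOn.mul ?_ ?_
    · exact (continuous_const.inner D.continuous).continuousOn
    · refine hq.cont.comp (f := fun y : E m => ((0 : ℝ), y)) (by fun_prop) ?_
      intro y hy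
      exact ⟨mem_univ _, hy⟩
  have heq : Yi w D q p - 2 * (-Real.log ‖D‖) * am D q p =
      ∫ y in Rg m, ((∫ t : ℝ, inner ℝ p (D y) / ‖X w D (t, y)‖ * q (t, y)) -
        2 * (-Real.log ‖D‖) * (inner ℝ p (D y) * q (0, y))) := by
    rw [integral_sub hi1 (hi2.const_mul _), integral_const_mul]
    unfold Yi am
    rw [int_fiber hint]
  rw [heq, ← Real.norm_eq_abs]
  have hfin : (volume : Measure (E m)) (Rg m) < ⊤ := lt_top_iff_ne_top.2 (rg_meas m).2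
  refine (norm_setIntegral_le_of_norm_le_const hfin hbd).trans ?_
  have h1 : 0 ≤ ‖p‖ * ‖D‖ := by positivity
  calc (2 * C2 + 8) * ‖p‖ * ‖D‖ * (volume : Measure (E m)).real (Rg m)
      = (2 * C2 + 8) * (volume : Measure (E m)).real (Rg m) * (‖p‖ * ‖D‖) := by ring
    _ ≤ ((2 * C2 + 8) * (volume : Measure (E m)).real (Rg m) + 1) * (‖p‖ * ‖D‖) :=
        mul_le_mul_of_nonneg_right (by linarith) h1
    _ = ((2 * C2 + 8) * (volume : Measure (E m)).real (Rg m) + 1) * ‖p‖ * ‖D‖ := by ring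

end Pool.Agent.H88.CN
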