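import Pool.Agent.H88.CN.GE

/-!
# CN-INT: integrability with respect to `nu m`

`Rg m` is compact, so `volume.restrict (Rg m)` is a finite measure, and `nu m` is sigma-finite.
`int_ae`: `nu m` is concentrated on `univ ×ˢ Rg m`, and `{p | p.1 = 0}` is a null set.
`int_dom`: `1 / (1 + t²)` is integrable on `ℝ` (`integrable_inv_one_add_sq`), so
`(t, y) ↦ 1 / (1 + t²)` is integrable for `nu m` (product of an integrable function and a
constant on a finite measure space: `Integrable.prod_mul` or `Integrable.comp_fst`).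
`int_q`: `|Φ q| ≤ 2 A / (1 + t²)` almost everywhere, and
`∫ |Φ q| dν ≤ 2 A ∫ dt/(1+t²) vol (Rg m) = 2 π A vol (Rg m)`.
`int_fiber`: Fubini (`integral_prod_symm`).
`int_fiber_bd`, `int_fiber_lb`: from `int_fiber`; the outer integral is over a set of finite
measure (`norm_setIntegral_le_of_norm_le_const`); for the lower bound `setIntegral_mono_on`.
`int_meas`: a function which is continuous on the closed set `univ ×ˢ Rg m` is
`AEStronglyMeasurable` for `nu m` (`nu m` is the restriction of the product measure to that set: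
`Measure.prod_restrict` with `Measure.restrict_univ`, then `ContinuousOn.aestronglyMeasurable`).
`int_field`: `V` is continuous on the unit sphere, and `ge_cont`, `ge_pos`.
-/

namespace Pool.Agent.H88.CN

open MeasureTheory Metric Set Pool.Agent.H35.CA

variable {m : ℕ}

theorem rg_compact (m : ℕ) : IsCompact (Rg m) := by
  apply Metric.isCompact_of_isClosed_isBounded
  · have : Rg m = (fun y : E m => ‖y‖) ⁻¹' (Icc 1 2) := rfl
    rw [this]
    exact isClosed_Icc.preimage continuous_norm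
  · exact (Metric.isBounded_closedBall (x := (0 : E m)) (r := 2)).subset
      (fun y hy => by simpa using hy.2)

private theorem int_nu (m : ℕ) : nu m =
    ((volume : Measure ℝ).prod (volume : Measure (E m))).restrict (univ ×ˢ Rg m) := by
  rw [← Measure.prod_restrict, Measure.restrict_univ, nu]

theorem rg_meas (m : ℕ) : MeasurableSet (Rg m) ∧ (volume (Rg m) : ENNReal) ≠ ⊤ :=
  ⟨(rg_compact m).isClosed.measurableSet, (rg_compact m).measure_lt_top.ne⟩

private theorem int_fin (m : ℕ) :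
    IsFiniteMeasure ((volume : Measure (E m)).restrict (Rg m)) :=
  ⟨by rw [Measure.restrict_apply_univ]; exact (rg_compact m).measure_lt_top⟩

theorem int_ae (m : ℕ) : ∀ᵐ p ∂(nu m), p.2 ∈ Rg m ∧ p.1 ≠ 0 := by
  have h1 : ∀ᵐ p ∂(nu m), p.2 ∈ Rg m := by
    rw [int_nu]
    filter_upwards [ae_restrict_mem (MeasurableSet.univ.prod (rg_meas m).1)] with p hp
    exact hp.2
  have h2 : ∀ᵐ p ∂(nu m), p.1 ≠ 0 := by
    have h3 : ∀ᵐ t ∂(volume : Measure ℝ), t ≠ 0 := by
      rw [ae_iff]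
      simp
    exact Measure.quasiMeasurePreserving_fst.ae h3
  filter_upwards [h1, h2] with p a b
  exact ⟨a, b⟩

theorem int_dom (m : ℕ) : Integrable (fun p : ℝ × E m => (1 + p.1 ^ 2)⁻¹) (nu m) := by
  have := int_fin m
  exact integrable_inv_one_add_sq.comp_fst _

theorem int_meas {Φ : ℝ × E m → ℝ} (h : ContinuousOn Φ (univ ×ˢ Rg m)) :
    AEStronglyMeasurable Φ (nu m) := by
  rw [int_nu]
  exact h.aestronglyMeasurable (MeasurableSet.univ.prod (rg_meas m).1)

/-- The total mass is bounded by a constant which depends only on `m`. -/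
theorem int_q (m : ℕ) : ∃ C : ℝ, 0 < C ∧ ∀ (c L : ℝ) (q : ℝ × E m → ℝ), Dn c L q →
    ∀ (Φ : ℝ × E m → ℝ) (A : ℝ), AEStronglyMeasurable Φ (nu m) → 0 ≤ A →
    (∀ t, ∀ y ∈ Rg m, |Φ (t, y)| ≤ A) →
    Integrable (fun p => Φ p * q p) (nu m) ∧ |∫ p, Φ p * q p ∂(nu m)| ≤ C * A := by
  have hfin := int_fin m
  refine ⟨2 * (((volume : Measure (E m)).restrict (Rg m)).real univ * Real.pi) + 1, by positivity,
    ?_⟩
  intro c L q hq Φ A hΦ hA hb
  have hbd : ∀ᵐ p ∂(nu m), ‖Φ p * q p‖ ≤ (2 * A) * (1 + p.1 ^ 2)⁻¹ := by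
    filter_upwards [int_ae m] with p hp
    obtain ⟨t, y⟩ := p
    have h1 : (0 : ℝ) < 1 + t ^ 2 := by positivity
    have h2 := hq.upper t y hp.1
    have h3 := hq.nonneg t y hp.1
    have h4 := hb t y hp.1
    have h5 : q (t, y) ≤ 2 * (1 + t ^ 2)⁻¹ := by
      rw [← div_eq_mul_inv, le_div_iff₀ h1]
      exact h2
    rw [norm_mul, Real.norm_eq_abs, Real.norm_eq_abs, abs_of_nonneg h3]
    calc |Φ (t, y)| * q (t, y) ≤ A * (2 * (1 + t ^ 2)⁻¹) :=
          mul_le_mul h4 h5 h3 hA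
      _ = (2 * A) * (1 + t ^ 2)⁻¹ := by ring
  have hdom : Integrable (fun p : ℝ × E m => (2 * A) * (1 + p.1 ^ 2)⁻¹) (nu m) :=
    (int_dom m).const_mul (2 * A)
  have hint : Integrable (fun p => Φ p * q p) (nu m) :=
    hdom.mono' (hΦ.mul (int_meas hq.cont)) hbd
  refine ⟨hint, ?_⟩
  have h1 := norm_integral_le_of_norm_le hdom hbd
  have h2 : ∫ p : ℝ × E m, (2 * A) * (1 + p.1 ^ 2)⁻¹ ∂(nu m) =
      (2 * A) * (((volume : Measure (E m)).restrict (Rg m)).real univ * Real.pi) := by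
    rw [integral_const_mul]
    congr 1
    have h3 := integral_fun_fst (μ := (volume : Measure ℝ))
      (ν := (volume : Measure (E m)).restrict (Rg m)) (fun t : ℝ => (1 + t ^ 2)⁻¹)
    rw [integral_univ_inv_one_add_sq, smul_eq_mul] at h3
    exact h3
  rw [h2, Real.norm_eq_abs] at h1
  refine h1.trans ?_
  nlinarith

theorem int_fiber {Ψ : ℝ × E m → ℝ} (h : Integrable Ψ (nu m)) :
    ∫ p, Ψ p ∂(nu m) = ∫ y in Rg m, ∫ t : ℝ, Ψ (t, y) := by
  exact integral_prod_symm Ψ h

theorem int_fiber_bd {Ψ : ℝ × E m → ℝ} {A : ℝ} (h : Integrable Ψ (nu m))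
    (hA : ∀ y ∈ Rg m, |∫ t : ℝ, Ψ (t, y)| ≤ A) :
    |∫ p, Ψ p ∂(nu m)| ≤ A * (volume (Rg m)).toReal := by
  rw [int_fiber h, ← Real.norm_eq_abs]
  exact norm_setIntegral_le_of_norm_le_const (rg_compact m).measure_lt_top hA

theorem int_fiber_lb {Ψ : ℝ × E m → ℝ} {g : E m → ℝ} (h : Integrable Ψ (nu m))
    (hg : IntegrableOn g (Rg m)) (hA : ∀ y ∈ Rg m, g y ≤ ∫ t : ℝ, Ψ (t, y)) :
    ∫ y in Rg m, g y ≤ ∫ p, Ψ p ∂(nu m) := by
  rw [int_fiber h]
  exact setIntegral_mono_on hg h.integral_prod_right (rg_meas m).1 hA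

/-- Measurability of a vector field on the sphere in the frame coordinates. -/
theorem int_field {w : E (m + 1)} {D : E m →L[ℝ] E (m + 1)} (h : Fr w D)
    {V : E (m + 1) → E (m + 1)} (hV : ContinuousOn V (sphere 0 1)) :
    ContinuousOn (fun p : ℝ × E m => V (un (X w D p))) (univ ×ˢ Rg m) ∧
      AEStronglyMeasurable (fun p : ℝ × E m => V (un (X w D p))) (nu m) := by
  have h1 : ContinuousOn (fun p : ℝ × E m => V (un (X w D p))) (univ ×ˢ Rg m) := by
    refine hV.comp (ge_cont h).1 ?_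
    rintro ⟨t, y⟩ hp
    have := (ge_pos h t hp.2).2.2
    simpa using this
  refine ⟨h1, ?_⟩
  rw [int_nu]
  exact h1.aestronglyMeasurable (MeasurableSet.univ.prod (rg_meas m).1)

end Pool.Agent.H88.CN
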