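import Pool.Agent.H88.CN.Defs

/-!
# CN-T4: a one dimensional integral against a concentrated function

Proof.  Integrability: `φ` is continuous and dominated by `K (1 + ε) ρ / (t² + ρ²)` up to the
constant (`ρ / √(t² + ρ²) ≤ 1`), which is integrable (`integral ρ/(t²+ρ²) = π`); `q` is bounded
by 2 and continuous.
`∫ φ q - τ q 0 = ∫ φ (q - q 0)` and `|q t - q 0| ≤ min (L |t|) 2 ≤ (L + 2) min |t| 1`.
(1) `∫ ρ² |t| / (t² + ρ²)^(3/2) dt = 2 ρ² [-(t² + ρ²)^(-1/2)]_0^∞ = 2 ρ` (primitive).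
(2) `∫ ρ min(|t|, 1) / (t² + ρ²) dt = ρ log (1 + 1/ρ²) + 2 ρ ∫_1^∞ dt / (t² + ρ²)
    ≤ ρ (log 5 + 2 |log ρ|) + 2 ρ`, since `log (1 + 1/ρ²) = log (1 + ρ²) - 2 log ρ` and `ρ ≤ 2`;
`∫_1^∞ dt/(t²+ρ²) ≤ ∫_1^∞ dt/t² = 1`.
Hence `|∫ φ q - τ q 0| ≤ K (L + 2) (2 ρ + ε ρ (4 + 2 |log ρ|))`, and `C = 4 (L + 2)` works.
(Any way of bounding the two integrals is fine, only the shape of the bound matters.)
-/

namespace Pool.Agent.H88.CN

open MeasureTheory Metric Set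

theorem t4_int {ρ : ℝ} (hρ : 0 < ρ) :
    Integrable (fun t : ℝ => ρ ^ 2 / (t ^ 2 + ρ ^ 2)) ∧
      ∫ t : ℝ, ρ ^ 2 / (t ^ 2 + ρ ^ 2) = ρ * Real.pi := by
  have h : (fun t : ℝ => ρ ^ 2 / (t ^ 2 + ρ ^ 2))
      = fun t : ℝ => (fun x : ℝ => (1 + x ^ 2)⁻¹) (t / ρ) := by
    funext t
    have h1 : t ^ 2 + ρ ^ 2 ≠ 0 := by positivity
    have h2 : 1 + (t / ρ) ^ 2 ≠ 0 := by positivity
    simp only
    rw [div_eq_iff h1, inv_mul_eq_div, eq_div_iff h2]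
    field_simp
    ring
  rw [h]
  constructor
  · exact integrable_inv_one_add_sq.comp_div hρ.ne'
  · have h3 := MeasureTheory.Measure.integral_comp_div (fun x : ℝ => (1 + x ^ 2)⁻¹) ρ
    rw [h3, integral_univ_inv_one_add_sq, abs_of_pos hρ, smul_eq_mul]

theorem t4_cont {ρ : ℝ} (hρ : 0 < ρ) : Continuous (fun t : ℝ => |t| / (t ^ 2 + ρ ^ 2)) := by
  apply Continuous.div continuous_abs (by fun_prop)
  intro t
  positivity

theorem t4_log {ρ : ℝ} (hρ : 0 < ρ) :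
    ∫ t in Icc (-1 : ℝ) 1, |t| / (t ^ 2 + ρ ^ 2) = Real.log (1 + ρ ^ 2) - 2 * Real.log ρ := by
  have hc := t4_cont hρ
  rw [integral_Icc_eq_integral_Ioc, ← intervalIntegral.integral_of_le (by norm_num : (-1 : ℝ) ≤ 1),
    ← intervalIntegral.integral_add_adjacent_intervals (b := 0) (hc.intervalIntegrable _ _)
      (hc.intervalIntegrable _ _)]
  have hder : ∀ t : ℝ, HasDerivAt (fun t : ℝ => (1 / 2) * Real.log (t ^ 2 + ρ ^ 2))
      (t / (t ^ 2 + ρ ^ 2)) t := by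
    intro t
    have h1 : HasDerivAt (fun t : ℝ => t ^ 2 + ρ ^ 2) (2 * t) t := by
      have := (hasDerivAt_pow 2 t).add_const (ρ ^ 2)
      simpa using this
    have h2 : t ^ 2 + ρ ^ 2 ≠ 0 := by positivity
    have h3 := (h1.log h2).const_mul (1 / 2)
    have h4 : (1 / 2 : ℝ) * (2 * t / (t ^ 2 + ρ ^ 2)) = t / (t ^ 2 + ρ ^ 2) := by ring
    rw [h4] at h3
    exact h3
  have e1 : ∫ t in (-1 : ℝ)..0, |t| / (t ^ 2 + ρ ^ 2)
      = -((1 / 2) * Real.log ((0 : ℝ) ^ 2 + ρ ^ 2)) - -((1 / 2) * Real.log ((-1 : ℝ) ^ 2 + ρ ^ 2)) := by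
    apply intervalIntegral.integral_eq_sub_of_hasDerivAt
      (f := fun t : ℝ => -((1 / 2) * Real.log (t ^ 2 + ρ ^ 2)))
    · intro t ht
      rw [uIcc_of_le (by norm_num)] at ht
      have h5 := (hder t).neg
      rw [abs_of_nonpos ht.2]
      have h6 : -t / (t ^ 2 + ρ ^ 2) = -(t / (t ^ 2 + ρ ^ 2)) := by ring
      rw [h6]
      exact h5
    · exact hc.intervalIntegrable _ _
  have e2 : ∫ t in (0 : ℝ)..1, |t| / (t ^ 2 + ρ ^ 2)
      = ((1 / 2) * Real.log ((1 : ℝ) ^ 2 + ρ ^ 2)) - ((1 / 2) * Real.log ((0 : ℝ) ^ 2 + ρ ^ 2)) := by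
    apply intervalIntegral.integral_eq_sub_of_hasDerivAt
      (f := fun t : ℝ => ((1 / 2) * Real.log (t ^ 2 + ρ ^ 2)))
    · intro t ht
      rw [uIcc_of_le (by norm_num)] at ht
      rw [abs_of_nonneg ht.1]
      exact hder t
    · exact hc.intervalIntegrable _ _
  rw [e1, e2]
  have h7 : Real.log ((0 : ℝ) ^ 2 + ρ ^ 2) = 2 * Real.log ρ := by
    rw [zero_pow two_ne_zero, zero_add, Real.log_pow]
    norm_num
  rw [h7]
  norm_num
  ring

theorem t4 {L : ℝ} (hL : 0 ≤ L) : ∃ C : ℝ, 0 < C ∧ ∀ q : ℝ → ℝ, Continuous q → (∀ t, 0 ≤ q t) →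
    (∀ t, q t * (1 + t ^ 2) ≤ 2) → (∀ t s, |q t - q s| ≤ L * |t - s|) →
    ∀ φ : ℝ → ℝ, Continuous φ → ∀ K ε ρ : ℝ, 0 ≤ K → 0 ≤ ε → 0 < ρ → ρ ≤ 2 →
    (∀ t, |φ t| ≤ K * (ρ / (t ^ 2 + ρ ^ 2)) * (ρ / Real.sqrt (t ^ 2 + ρ ^ 2) + ε)) →
    Integrable φ ∧ Integrable (fun t => φ t * q t) ∧
    |(∫ t : ℝ, φ t * q t) - (∫ t : ℝ, φ t) * q 0| ≤ C * K * (ρ + ε * ρ * (1 + |Real.log ρ|)) := by
  refine ⟨20 * (L + 2), by positivity, ?_⟩
  intro q hqc hq0 hq2 hqL φ hφc K ε ρ hK hε hρ hρ2 hφ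
  obtain ⟨hI1, hI2⟩ := t4_int hρ
  have hden : ∀ t : ℝ, 0 < t ^ 2 + ρ ^ 2 := fun t => by positivity
  have hsq : ∀ t : ℝ, 0 < Real.sqrt (t ^ 2 + ρ ^ 2) := fun t => Real.sqrt_pos.2 (hden t)
  have hρs : ∀ t : ℝ, ρ ≤ Real.sqrt (t ^ 2 + ρ ^ 2) := by
    intro t
    apply Real.le_sqrt_of_sq_le
    nlinarith [sq_nonneg t]
  have hts : ∀ t : ℝ, |t| ≤ Real.sqrt (t ^ 2 + ρ ^ 2) := by
    intro t
    apply Real.le_sqrt_of_sq_le
    rw [sq_abs]
    nlinarith [sq_nonneg ρ]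
  -- bounds on q
  have hqle : ∀ t, q t ≤ 2 := by
    intro t
    have h1 := hq2 t
    have h2 := hq0 t
    nlinarith [sq_nonneg t, mul_nonneg h2 (sq_nonneg t)]
  have hqd : ∀ t, |q t - q 0| ≤ 2 := by
    intro t
    rw [abs_le]
    constructor <;> linarith [hqle t, hqle 0, hq0 t, hq0 0]
  have hqd2 : ∀ t, |q t - q 0| ≤ L * |t| := by
    intro t
    have := hqL t 0
    rwa [sub_zero] at this
  -- integrability of φ
  have hφi : Integrable φ := by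
    apply (hI1.const_mul (K * (1 + ε) / ρ)).mono' hφc.aestronglyMeasurable
    filter_upwards with t
    rw [Real.norm_eq_abs]
    refine le_trans (hφ t) ?_
    have h1 : ρ / Real.sqrt (t ^ 2 + ρ ^ 2) ≤ 1 := by
      rw [div_le_one (hsq t)]
      exact hρs t
    have h2 : K * (ρ / (t ^ 2 + ρ ^ 2)) * (ρ / Real.sqrt (t ^ 2 + ρ ^ 2) + ε)
        ≤ K * (ρ / (t ^ 2 + ρ ^ 2)) * (1 + ε) := by
      apply mul_le_mul_of_nonneg_left (by linarith)
      have := hden t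
      positivity
    refine le_trans h2 (le_of_eq ?_)
    have h3 := (hden t).ne'
    field_simp
  have hφqi : Integrable (fun t => φ t * q t) := by
    apply (hφi.norm.mul_const 2).mono' (hφc.mul hqc).aestronglyMeasurable
    filter_upwards with t
    show ‖φ t * q t‖ ≤ ‖φ t‖ * 2
    rw [norm_mul]
    apply mul_le_mul_of_nonneg_left _ (norm_nonneg _)
    rw [Real.norm_eq_abs, abs_of_nonneg (hq0 t)]
    exact hqle t
  refine ⟨hφi, hφqi, ?_⟩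
  -- the difference
  have hdiff : (∫ t : ℝ, φ t * q t) - (∫ t : ℝ, φ t) * q 0 = ∫ t : ℝ, φ t * (q t - q 0) := by
    rw [← integral_mul_const, ← integral_sub hφqi (hφi.mul_const _)]
    congr 1
    funext t
    ring
  -- the majorant
  have hF2 : Integrable ((Icc (-1 : ℝ) 1).indicator (fun t : ℝ => |t| / (t ^ 2 + ρ ^ 2))) := by
    rw [integrable_indicator_iff measurableSet_Icc]
    exact (t4_cont hρ).continuousOn.integrableOn_compact isCompact_Icc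
  have hF3 : Integrable (fun t : ℝ => 2 * (1 + t ^ 2)⁻¹) := integrable_inv_one_add_sq.const_mul 2
  have hF23 : Integrable (fun t : ℝ => (Icc (-1 : ℝ) 1).indicator
      (fun t : ℝ => |t| / (t ^ 2 + ρ ^ 2)) t + 2 * (1 + t ^ 2)⁻¹) := hF2.add hF3
  have hFi : Integrable (fun t : ℝ => K * L * (ρ ^ 2 / (t ^ 2 + ρ ^ 2))
      + K * ε * ρ * (L + 2) * ((Icc (-1 : ℝ) 1).indicator (fun t : ℝ => |t| / (t ^ 2 + ρ ^ 2)) t
        + 2 * (1 + t ^ 2)⁻¹)) :=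
    (hI1.const_mul _).add (hF23.const_mul _)
  have hmaj : ∀ t : ℝ, ‖φ t * (q t - q 0)‖ ≤ K * L * (ρ ^ 2 / (t ^ 2 + ρ ^ 2))
      + K * ε * ρ * (L + 2) * ((Icc (-1 : ℝ) 1).indicator (fun t : ℝ => |t| / (t ^ 2 + ρ ^ 2)) t
        + 2 * (1 + t ^ 2)⁻¹) := by
    intro t
    rw [norm_mul, Real.norm_eq_abs, Real.norm_eq_abs]
    have h1 : |φ t| * |q t - q 0|
        ≤ (K * (ρ / (t ^ 2 + ρ ^ 2)) * (ρ / Real.sqrt (t ^ 2 + ρ ^ 2) + ε)) * |q t - q 0| :=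
      mul_le_mul_of_nonneg_right (hφ t) (abs_nonneg _)
    refine le_trans h1 ?_
    have hsplit : (K * (ρ / (t ^ 2 + ρ ^ 2)) * (ρ / Real.sqrt (t ^ 2 + ρ ^ 2) + ε)) * |q t - q 0|
        = K * (ρ ^ 2 / (t ^ 2 + ρ ^ 2)) * (|q t - q 0| / Real.sqrt (t ^ 2 + ρ ^ 2))
          + K * ε * ρ * (|q t - q 0| / (t ^ 2 + ρ ^ 2)) := by
      have h3 := (hden t).ne'
      have h4 := (hsq t).ne'
      field_simp
    rw [hsplit]
    have hA : K * (ρ ^ 2 / (t ^ 2 + ρ ^ 2)) * (|q t - q 0| / Real.sqrt (t ^ 2 + ρ ^ 2))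
        ≤ K * L * (ρ ^ 2 / (t ^ 2 + ρ ^ 2)) := by
      have h5 : |q t - q 0| / Real.sqrt (t ^ 2 + ρ ^ 2) ≤ L := by
        rw [div_le_iff₀ (hsq t)]
        exact le_trans (hqd2 t) (mul_le_mul_of_nonneg_left (hts t) hL)
      have h6 : 0 ≤ K * (ρ ^ 2 / (t ^ 2 + ρ ^ 2)) := by
        have := hden t
        positivity
      calc K * (ρ ^ 2 / (t ^ 2 + ρ ^ 2)) * (|q t - q 0| / Real.sqrt (t ^ 2 + ρ ^ 2))
          ≤ K * (ρ ^ 2 / (t ^ 2 + ρ ^ 2)) * L := mul_le_mul_of_nonneg_left h5 h6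
        _ = K * L * (ρ ^ 2 / (t ^ 2 + ρ ^ 2)) := by ring
    have hB : |q t - q 0| / (t ^ 2 + ρ ^ 2)
        ≤ (L + 2) * ((Icc (-1 : ℝ) 1).indicator (fun t : ℝ => |t| / (t ^ 2 + ρ ^ 2)) t
          + 2 * (1 + t ^ 2)⁻¹) := by
      have h7 : 0 ≤ 2 * (1 + t ^ 2)⁻¹ := by positivity
      by_cases ht : t ∈ Icc (-1 : ℝ) 1
      · rw [indicator_of_mem ht]
        have h8 : |q t - q 0| / (t ^ 2 + ρ ^ 2) ≤ (L + 2) * (|t| / (t ^ 2 + ρ ^ 2)) := by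
          rw [← mul_div_assoc]
          apply div_le_div_of_nonneg_right _ (hden t).le
          nlinarith [hqd2 t, abs_nonneg t]
        refine le_trans h8 ?_
        apply mul_le_mul_of_nonneg_left _ (by linarith)
        linarith
      · rw [indicator_of_notMem ht, zero_add]
        have ht1 : 1 ≤ t ^ 2 := by
          rw [mem_Icc, not_and_or, not_le, not_le] at ht
          rcases ht with h | h <;> nlinarith
        have h9 : |q t - q 0| / (t ^ 2 + ρ ^ 2) ≤ 2 / (t ^ 2 + ρ ^ 2) :=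
          div_le_div_of_nonneg_right (hqd t) (hden t).le
        have h10 : 2 / (t ^ 2 + ρ ^ 2) ≤ 4 * (1 + t ^ 2)⁻¹ := by
          rw [← div_eq_mul_inv, div_le_div_iff₀ (hden t) (by positivity)]
          nlinarith [sq_nonneg ρ]
        have h11 : 4 * (1 + t ^ 2)⁻¹ ≤ (L + 2) * (2 * (1 + t ^ 2)⁻¹) := by
          nlinarith [mul_nonneg hL h7]
        linarith
    have hC : K * ε * ρ * (|q t - q 0| / (t ^ 2 + ρ ^ 2))
        ≤ K * ε * ρ * ((L + 2) * ((Icc (-1 : ℝ) 1).indicator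
          (fun t : ℝ => |t| / (t ^ 2 + ρ ^ 2)) t + 2 * (1 + t ^ 2)⁻¹)) :=
      mul_le_mul_of_nonneg_left hB (by positivity)
    have hD : K * ε * ρ * ((L + 2) * ((Icc (-1 : ℝ) 1).indicator
          (fun t : ℝ => |t| / (t ^ 2 + ρ ^ 2)) t + 2 * (1 + t ^ 2)⁻¹))
        = K * ε * ρ * (L + 2) * ((Icc (-1 : ℝ) 1).indicator
          (fun t : ℝ => |t| / (t ^ 2 + ρ ^ 2)) t + 2 * (1 + t ^ 2)⁻¹) := by ring
    rw [hD] at hC
    linarith
  have hfin := norm_integral_le_of_norm_le hFi (Filter.Eventually.of_forall hmaj)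
  rw [hdiff]
  rw [Real.norm_eq_abs] at hfin
  refine le_trans hfin ?_
  rw [integral_add (hI1.const_mul _) (hF23.const_mul _), integral_const_mul,
    integral_const_mul, integral_add hF2 hF3, integral_const_mul, hI2,
    integral_indicator measurableSet_Icc, t4_log hρ, integral_univ_inv_one_add_sq]
  -- numerics
  have hpi := Real.pi_lt_d2
  have hpi0 := Real.pi_pos
  have hlog1 : Real.log (1 + ρ ^ 2) ≤ 4 := by
    have h1 : Real.log (1 + ρ ^ 2) ≤ (1 + ρ ^ 2) - 1 := Real.log_le_sub_one_of_pos (by positivity)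
    nlinarith
  have hlog2 : -Real.log ρ ≤ |Real.log ρ| := neg_le_abs _
  have hla : 0 ≤ |Real.log ρ| := abs_nonneg _
  have hX : Real.log (1 + ρ ^ 2) - 2 * Real.log ρ + 2 * Real.pi ≤ 20 * (1 + |Real.log ρ|) := by
    nlinarith
  have hY : K * ε * ρ * (L + 2) * (Real.log (1 + ρ ^ 2) - 2 * Real.log ρ + 2 * Real.pi)
      ≤ K * ε * ρ * (L + 2) * (20 * (1 + |Real.log ρ|)) :=
    mul_le_mul_of_nonneg_left hX (by positivity)
  have hZ : K * L * (ρ * Real.pi) ≤ 20 * (L + 2) * K * ρ := by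
    have h1 : 0 ≤ K * ρ := by positivity
    have h2 : 0 ≤ K * ρ * L := by positivity
    nlinarith [mul_nonneg h2 hpi0.le]
  calc K * L * (ρ * Real.pi)
        + K * ε * ρ * (L + 2) * (Real.log (1 + ρ ^ 2) - 2 * Real.log ρ + 2 * Real.pi)
      ≤ 20 * (L + 2) * K * ρ + K * ε * ρ * (L + 2) * (20 * (1 + |Real.log ρ|)) := by linarith
    _ = 20 * (L + 2) * K * (ρ + ε * ρ * (1 + |Real.log ρ|)) := by ring

end Pool.Agent.H88.CN
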