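import Pool.Agent.H88.CN.S4A
import Pool.Agent.H88.CN.INT
import Pool.Agent.H88.CN.OP
import Pool.Agent.H88.CN.T4
import Pool.Agent.H88.CN.T5

/-!
# CN-S4: the identity for the rank one operators

Proof.  `τ = F w - F (-w)`, `V = gradient F`, `x = un X`, `X = X w D (t, y)`, `ρ = ‖D y‖`,
`δ = ‖D‖`.  `KW` with `B x = ⟨p, x⟩ w` (`(innerSL ℝ p).smulRight w`):
`∫ ⟨V x, w⟩ ⟨p, x⟩ q dν = 0`.  As `⟨p, w⟩ = 0`, `⟨p, x⟩ = ⟨p, D y⟩ / ‖X‖`, so with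
`φ_y t = ⟨V x, w⟩ / ‖X‖` the identity reads `∫_y ⟨p, D y⟩ (∫_t φ_y q (t, y) dt) dy = 0`
(`int_fiber`; the integrand is bounded times `q`).
Bound for `φ_y`: `V x ⊥ x` (`grad_tan`), so `|⟨V x, w⟩| ≤ ‖V x‖ ‖Pj w x‖` (`ge_tan`), and with
`k = ‖Pj w x‖ = ρ / ‖X‖`, `‖X‖ = √(t² + ρ²)`: `|φ_y t| ≤ K (k + ε) k / ‖X‖
= K (ρ/(t²+ρ²)) (ρ/√(t²+ρ²) + ε)`.  By `s4a` and `t4` (`t ↦ q (t, y)`; `L` may be replaced by
`max Lq 0`): `|∫_t φ_y q - τ q (0, y)| ≤ C K (ρ + ε ρ (1 + |log ρ|))`.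
Multiply by `|⟨p, D y⟩| ≤ ‖p‖ ρ` and use `ρ² ≤ 4 δ²` and `t5b`:
`|⟨p, D y⟩ ∫_t φ_y q - τ ⟨p, D y⟩ q (0, y)| ≤ 8 C K ‖p‖ δ² (1 + ε (1 + |log δ|))`.
Integrate over `Rg m`: `|τ am D q p| ≤ 8 C K vol(Rg m) ‖p‖ δ² (1 + ε (1 + |log δ|))`.
-/

namespace Pool.Agent.H88.CN

open MeasureTheory Metric Set Pool.Agent.H35.CA

variable {m : ℕ}

/-- the estimate on one fiber -/
theorem s4_fiber {Lq : ℝ} {C4 : ℝ} (hC4 : 0 < C4)
    (ht4 : ∀ q : ℝ → ℝ, Continuous q → (∀ t, 0 ≤ q t) →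
    (∀ t, q t * (1 + t ^ 2) ≤ 2) → (∀ t s, |q t - q s| ≤ max Lq 0 * |t - s|) →
    ∀ φ : ℝ → ℝ, Continuous φ → ∀ K ε ρ : ℝ, 0 ≤ K → 0 ≤ ε → 0 < ρ → ρ ≤ 2 →
    (∀ t, |φ t| ≤ K * (ρ / (t ^ 2 + ρ ^ 2)) * (ρ / Real.sqrt (t ^ 2 + ρ ^ 2) + ε)) →
    Integrable φ ∧ Integrable (fun t => φ t * q t) ∧
    |(∫ t : ℝ, φ t * q t) - (∫ t : ℝ, φ t) * q 0| ≤ C4 * K * (ρ + ε * ρ * (1 + |Real.log ρ|)))
    {F : E (m + 1) → ℝ} (hF : Sm 1 F) {K ε cq : ℝ} {w : E (m + 1)} {D : E m →L[ℝ] E (m + 1)}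
    {q : ℝ × E m → ℝ} (hK : 0 ≤ K) (hε : 0 ≤ ε) (hfr : Fr w D) (hq : Dn cq Lq q)
    (hV : ∀ u, ‖u‖ = 1 → ‖gradient F u‖ ≤ K * (‖Pj w u‖ + ε)) (p : E (m + 1))
    {y : E m} (hy : y ∈ Rg m) :
    |inner ℝ p (D y) * ((F w - F (-w)) * q (0, y)) - inner ℝ p (D y) *
      ∫ t : ℝ, inner ℝ (gradient F (un (X w D (t, y)))) w / ‖X w D (t, y)‖ * q (t, y)| ≤
      8 * C4 * K * ‖p‖ * (‖D‖ ^ 2 * (1 + ε * (1 + |Real.log ‖D‖|))) := by
  obtain ⟨hρ0, hρδ, hρ2, hδ⟩ := ge_rho_le hfr hy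
  obtain ⟨hφc, hφi⟩ := s4a hF hfr hy
  set φ : ℝ → ℝ := fun t => inner ℝ (gradient F (un (X w D (t, y)))) w / ‖X w D (t, y)‖ with hφ
  have hqc : Continuous (fun t : ℝ => q (t, y)) := by
    rw [← continuousOn_univ]
    exact hq.cont.comp (by fun_prop : ContinuousOn (fun t : ℝ => (t, y)) univ)
      (fun t _ => ⟨mem_univ _, hy⟩)
  have hφb : ∀ t, |φ t| ≤ K * (‖D y‖ / (t ^ 2 + ‖D y‖ ^ 2)) *
      (‖D y‖ / Real.sqrt (t ^ 2 + ‖D y‖ ^ 2) + ε) := by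
    intro t
    obtain ⟨hX0, hXne, hX1⟩ := ge_pos hfr t hy
    have hn := ge_norm hfr t y
    have hk := (ge_pj hfr t y).2
    have hune : un (X w D (t, y)) ≠ 0 := by
      intro h
      rw [h, norm_zero] at hX1
      exact zero_ne_one hX1
    have htan := ge_tan hfr.nw hX1 (grad_tan hF hune)
    have hVb := hV _ hX1
    rw [← hn.2, ← hn.1]
    rw [hk] at htan hVb
    have h1 : |φ t| = |inner ℝ (gradient F (un (X w D (t, y)))) w| / ‖X w D (t, y)‖ := by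
      simp only [hφ]
      rw [abs_div, abs_of_pos hX0]
    rw [h1]
    have h2 : |inner ℝ (gradient F (un (X w D (t, y)))) w| ≤
        K * (‖D y‖ / ‖X w D (t, y)‖ + ε) * (‖D y‖ / ‖X w D (t, y)‖) :=
      htan.trans (mul_le_mul_of_nonneg_right hVb (by positivity))
    calc |inner ℝ (gradient F (un (X w D (t, y)))) w| / ‖X w D (t, y)‖
        ≤ K * (‖D y‖ / ‖X w D (t, y)‖ + ε) * (‖D y‖ / ‖X w D (t, y)‖) / ‖X w D (t, y)‖ :=
          div_le_div_of_nonneg_right h2 hX0.le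
      _ = K * (‖D y‖ / ‖X w D (t, y)‖ ^ 2) * (‖D y‖ / ‖X w D (t, y)‖ + ε) := by
          field_simp
  obtain ⟨hi1, hi2, hb⟩ := ht4 (fun t => q (t, y)) hqc (fun t => hq.nonneg t y hy)
    (fun t => hq.upper t y hy) (fun t s => (hq.lip t s y hy).trans
      (mul_le_mul_of_nonneg_right (le_max_left _ _) (abs_nonneg _))) φ hφc K ε ‖D y‖ hK hε hρ0
    hρ2 hφb
  rw [hφi hi1] at hb
  rw [← mul_sub, abs_mul]
  have h1 : |inner ℝ p (D y)| ≤ ‖p‖ * ‖D y‖ := abs_real_inner_le_norm _ _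
  have h2 : |(F w - F (-w)) * q (0, y) - ∫ t : ℝ, φ t * q (t, y)| ≤
      C4 * K * (‖D y‖ + ε * ‖D y‖ * (1 + |Real.log ‖D y‖|)) := by
    rw [abs_sub_comm]
    exact hb
  have h3 := t5b hρ0 hδ hρδ
  have h4 : ‖D y‖ ^ 2 ≤ 4 * ‖D‖ ^ 2 := by nlinarith
  calc |inner ℝ p (D y)| * |(F w - F (-w)) * q (0, y) - ∫ t : ℝ, φ t * q (t, y)|
      ≤ (‖p‖ * ‖D y‖) * (C4 * K * (‖D y‖ + ε * ‖D y‖ * (1 + |Real.log ‖D y‖|))) :=
        mul_le_mul h1 h2 (abs_nonneg _) (by positivity)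
    _ = C4 * K * ‖p‖ * (‖D y‖ ^ 2 + ε * (‖D y‖ ^ 2 * (1 + |Real.log ‖D y‖|))) := by ring
    _ ≤ C4 * K * ‖p‖ * (8 * ‖D‖ ^ 2 + ε * (8 * ‖D‖ ^ 2 * (1 + |Real.log ‖D‖|))) := by
        refine mul_le_mul_of_nonneg_left (add_le_add ?_ (mul_le_mul_of_nonneg_left h3 hε))
          (by positivity)
        nlinarith [sq_nonneg ‖D‖]
    _ = 8 * C4 * K * ‖p‖ * (‖D‖ ^ 2 * (1 + ε * (1 + |Real.log ‖D‖|))) := by ring

theorem s4 (m : ℕ) (Lq : ℝ) : ∃ C : ℝ, 0 < C ∧ ∀ (F : E (m + 1) → ℝ), Sm 1 F →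
    ∀ (K ε cq : ℝ) (w : E (m + 1)) (D : E m →L[ℝ] E (m + 1)) (q : ℝ × E m → ℝ),
    0 ≤ K → 0 ≤ ε → Fr w D → Dn cq Lq q → 0 < ‖D‖ →
    (∀ u, ‖u‖ = 1 → ‖gradient F u‖ ≤ K * (‖Pj w u‖ + ε)) → KW (gradient F) w D q →
    ∀ p : E (m + 1), inner ℝ p w = 0 →
    |F w - F (-w)| * |am D q p| ≤
      C * K * ‖p‖ * (‖D‖ ^ 2 * (1 + ε * (1 + |Real.log ‖D‖|))) := by
  obtain ⟨C4, hC4, ht4⟩ := t4 (L := max Lq 0) (le_max_right _ _)
  refine ⟨8 * C4 * (volume (Rg m)).toReal + 1, by positivity, ?_⟩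
  intro F hF K ε cq w D q hK hε hfr hq hD hV hKW p hpw
  obtain ⟨Cq, -, hCq⟩ := int_q m
  set B : E (m + 1) →L[ℝ] E (m + 1) := (innerSL ℝ p).smulRight w with hB
  -- the integrand
  have hVc : ContinuousOn (gradient F) (sphere 0 1) := by
    refine (grad_cont hF).mono fun u hu => ?_
    intro h
    rw [mem_singleton_iff] at h
    rw [h] at hu
    simp at hu
  have hΦc : ContinuousOn (fun z : ℝ × E m => (inner ℝ (gradient F (un (X w D z)))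
      (B (un (X w D z))) : ℝ)) (univ ×ˢ Rg m) :=
    (int_field hfr hVc).1.inner (B.continuous.comp_continuousOn (ge_cont hfr).1)
  have hint : Integrable (fun z : ℝ × E m => (inner ℝ (gradient F (un (X w D z)))
      (B (un (X w D z))) : ℝ) * q z) (nu m) := by
    refine (hCq cq Lq q hq _ (K * (1 + ε) * ‖B‖) (int_meas hΦc) (by positivity) ?_).1
    intro t y hy
    obtain ⟨hX0, hXne, hX1⟩ := ge_pos hfr t hy
    refine (abs_real_inner_le_norm _ _).trans (mul_le_mul ?_ ?_ (norm_nonneg _) (by positivity))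
    · exact (hV _ hX1).trans (mul_le_mul_of_nonneg_left
        (by linarith [(ge_pj_sq hfr.nw hX1).2]) hK)
    · refine (B.le_opNorm _).trans (le_of_eq ?_)
      rw [hX1, mul_one]
  have hval : ∀ t, ∀ y ∈ Rg m, (inner ℝ (gradient F (un (X w D (t, y))))
      (B (un (X w D (t, y)))) : ℝ) * q (t, y) = inner ℝ p (D y) *
        (inner ℝ (gradient F (un (X w D (t, y)))) w / ‖X w D (t, y)‖ * q (t, y)) := by
    intro t y hy
    have h1 : B (un (X w D (t, y))) = (inner ℝ p (D y) / ‖X w D (t, y)‖ : ℝ) • w := by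
      rw [hB]
      rw [ContinuousLinearMap.smulRight_apply, innerSL_apply_apply]
      congr 1
      unfold un X
      rw [inner_smul_right, inner_add_right, inner_smul_right, hpw]
      simp only [mul_zero, zero_add]
      ring
    rw [h1, inner_smul_right]
    ring
  have h0 : ∫ y in Rg m, inner ℝ p (D y) * ∫ t : ℝ,
      inner ℝ (gradient F (un (X w D (t, y)))) w / ‖X w D (t, y)‖ * q (t, y) = 0 := by
    rw [← hKW B, int_fiber hint]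
    refine setIntegral_congr_fun (rg_meas m).1 fun y hy => ?_
    rw [← integral_const_mul]
    exact integral_congr_ae (Filter.Eventually.of_forall fun t => (hval t y hy).symm)
  have hi1 : IntegrableOn (fun y => inner ℝ p (D y) * ∫ t : ℝ,
      inner ℝ (gradient F (un (X w D (t, y)))) w / ‖X w D (t, y)‖ * q (t, y)) (Rg m) := by
    have h1 := hint.integral_prod_right
    refine h1.congr ?_
    filter_upwards [ae_restrict_mem (rg_meas m).1] with y hy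
    rw [← integral_const_mul]
    exact integral_congr_ae (Filter.Eventually.of_forall fun t => (hval t y hy))
  have hi2 : IntegrableOn (fun y => inner ℝ p (D y) * ((F w - F (-w)) * q (0, y))) (Rg m) := by
    refine ContinuousOn.integrableOn_compact (rg_compact m) ?_
    refine ContinuousOn.mul (by fun_prop) (ContinuousOn.mul continuousOn_const ?_)
    exact hq.cont.comp (by fun_prop : ContinuousOn (fun y : E m => ((0 : ℝ), y)) (Rg m))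
      (fun y hy => ⟨mem_univ _, hy⟩)
  have hmain : (F w - F (-w)) * am D q p = ∫ y in Rg m,
      (inner ℝ p (D y) * ((F w - F (-w)) * q (0, y)) - inner ℝ p (D y) *
      ∫ t : ℝ, inner ℝ (gradient F (un (X w D (t, y)))) w / ‖X w D (t, y)‖ * q (t, y)) := by
    rw [integral_sub hi2 hi1, h0, sub_zero]
    unfold am
    rw [← integral_const_mul]
    congr 1
    funext y
    ring
  rw [← abs_mul, hmain]
  have hfin : (volume (Rg m)) < ⊤ := lt_of_le_of_ne le_top (rg_meas m).2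
  have hb := norm_setIntegral_le_of_norm_le_const (μ := (volume : Measure (E m))) hfin
    (C := 8 * C4 * K * ‖p‖ * (‖D‖ ^ 2 * (1 + ε * (1 + |Real.log ‖D‖|))))
    (f := fun y => inner ℝ p (D y) * ((F w - F (-w)) * q (0, y)) - inner ℝ p (D y) *
      ∫ t : ℝ, inner ℝ (gradient F (un (X w D (t, y)))) w / ‖X w D (t, y)‖ * q (t, y))
    (fun y hy => by
      rw [Real.norm_eq_abs]
      exact s4_fiber hC4 ht4 hF hK hε hfr hq hV p hy)
  rw [Real.norm_eq_abs] at hb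
  refine hb.trans ?_
  have hnn : 0 ≤ K * ‖p‖ * (‖D‖ ^ 2 * (1 + ε * (1 + |Real.log ‖D‖|))) := by positivity
  have hreal : (volume : Measure (E m)).real (Rg m) = (volume (Rg m)).toReal := rfl
  rw [hreal]
  nlinarith

end Pool.Agent.H88.CN
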