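import Pool.Agent.H88.CN.S1
import Pool.Agent.H88.CN.S2
import Pool.Agent.H88.CN.S3
import Pool.Agent.H88.CN.S4

/-!
# CN-S5: the core theorem

Proof.  Write `V = gradient F`, `δ = ‖D‖ > 0` (`m ≥ 1` and `D` is injective), `δ ≤ 1`.
Let `C1` be the constant of `s1`, `c2, C2'` those of `s2`, `C3` of `s3`, `C4` of `s4`, `C0` of
`op_near`.  For `ε ≤ 1`: `δ ≤ C1 ε²` and `dd (b i) w ≤ C1 ε` for some `i`; for `ε` small this is
at most `min d r`, so (`w` or `-w` is within `r` of `b i`) the odd control gives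
`‖V w + V (-w)‖ ≤ C2 |τ|`, `τ = F w - F (-w)`.
For unit `u` choose `s = ±1` with `⟨u, s w⟩ ≥ 0`; `‖u - s w‖ ≤ 2 ‖Pj w u‖` (`ge_dist`), so
`‖V u‖ ≤ ‖V0 u‖ + ε ≤ 2 M ‖Pj w u‖ + M dd + ε ≤ K (‖Pj w u‖ + ε)`, `K = 2 M + M C1 + 1`.
Let `P = (1/2)(V w + V (-w))`, `p = Bop b μ i w P`; `⟨p, w⟩ = 0`, `‖p‖ ≤ C0 ‖P‖ ≤ C0 C2 |τ|`, and
`‖p‖ ≤ C0 (M dd + ε) ≤ C0 (M C1 + 1) ε`.
`s2`: `c2 δ ≤ C2' (1 + C1) ε δ + |Yi p|`; `s3`: `|Yi p| ≤ 2 |log δ| |am p| + C3 ‖p‖ δ`;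
`s4`: `|τ| |am p| ≤ C4 K ‖p‖ δ² (1 + ε (1 + |log δ|))`.
If `τ = 0` then `P = 0`, `p = 0`, `am p = 0`; otherwise `|am p| ≤ C4 K C0 C2 δ² (...)`.
In both cases `c2 δ ≤ K' ε δ + K' |log δ| δ² (1 + ε (1 + |log δ|))`; divide by `δ` and use `t6`
(with `δ ≤ C1 ε²`, enlarge `K'` so that `K' ≥ C1`) for a contradiction.
-/

namespace Pool.Agent.H88.CN

open MeasureTheory Metric Set Pool.Agent.H35.CA

variable {m : ℕ}

/-- The odd part of `F` is controlled near the eigenvectors. -/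
def OddC {n : ℕ} (b : OrthonormalBasis (Fin n) ℝ (E n)) (C r : ℝ) (F : E n → ℝ) : Prop :=
  ∀ i u, ‖u‖ = 1 → ‖u - b i‖ ≤ r → ‖gradient F u + gradient F (-u)‖ ≤ C * |F u - F (-u)|

theorem s5_V0 {b : OrthonormalBasis (Fin (m + 1)) ℝ (E (m + 1))}
    {μ : Fin (m + 1) → ℝ} {c M κ d : ℝ}
    {V0 : E (m + 1) → E (m + 1)} (hO : Ob b μ c M κ d V0) (i : Fin (m + 1))
    {w : E (m + 1)} (hw : ‖w‖ = 1) : ‖V0 w‖ ≤ M * dd (b i) w := by
  have hb : ‖b i‖ = 1 := b.norm_eq_one i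
  have h1 := hO.lip w (b i) hw hb
  have h2 := hO.lip w (-b i) hw (by rw [norm_neg]; exact hb)
  rw [(hO.crit i).1, sub_zero] at h1
  rw [(hO.crit i).2, sub_zero, sub_neg_eq_add] at h2
  unfold dd
  rcases min_choice ‖w - b i‖ ‖w + b i‖ with h | h
  · rw [h]; exact h1
  · rw [h]; exact h2

theorem s5_odd {b : OrthonormalBasis (Fin (m + 1)) ℝ (E (m + 1))} {C2 r : ℝ}
    {F : E (m + 1) → ℝ} (h : OddC b C2 r F) (i : Fin (m + 1)) {w : E (m + 1)} (hw : ‖w‖ = 1)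
    (hr : dd (b i) w ≤ r) : ‖gradient F w + gradient F (-w)‖ ≤ C2 * |F w - F (-w)| := by
  unfold dd at hr
  rcases min_choice ‖w - b i‖ ‖w + b i‖ with h1 | h1
  · rw [h1] at hr
    exact h i w hw hr
  · rw [h1] at hr
    have h2 := h i (-w) (by rw [norm_neg]; exact hw)
      (by rw [show -w - b i = -(w + b i) by abel, norm_neg]; exact hr)
    rw [neg_neg, add_comm (gradient F (-w)) (gradient F w), abs_sub_comm] at h2
    exact h2

theorem s5_bd {b : OrthonormalBasis (Fin (m + 1)) ℝ (E (m + 1))}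
    {μ : Fin (m + 1) → ℝ} {c M κ d : ℝ}
    {V0 V : E (m + 1) → E (m + 1)} (hO : Ob b μ c M κ d V0) (i : Fin (m + 1)) {ε α C1 : ℝ}
    (hG : Pt ε α (fun u => V u - V0 u))
    {w : E (m + 1)} (hw : ‖w‖ = 1) (hd : dd (b i) w ≤ C1 * ε) {u : E (m + 1)} (hu : ‖u‖ = 1) :
    ‖V u‖ ≤ 2 * M * ‖Pj w u‖ + (M * C1 + 1) * ε := by
  have hM : 0 < M := hO.mpos
  have h1 : ‖V u‖ ≤ ‖V0 u‖ + ε := by
    have h2 := hG.bd u hu
    have h3 : V u = V0 u + (V u - V0 u) := by abel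
    calc ‖V u‖ = ‖V0 u + (V u - V0 u)‖ := by rw [← h3]
      _ ≤ ‖V0 u‖ + ‖V u - V0 u‖ := norm_add_le _ _
      _ ≤ ‖V0 u‖ + ε := by
        have h4 : ‖V u - V0 u‖ ≤ ε := h2
        linarith
  have key : ∀ v : E (m + 1), ‖v‖ = 1 → dd (b i) v = dd (b i) w → Pj v = Pj w →
      0 ≤ inner ℝ u v → ‖V0 u‖ ≤ 2 * M * ‖Pj w u‖ + M * (C1 * ε) := by
    intro v hv hdv hPv hin
    have h2 := ge_dist hv hu hin
    rw [hPv] at h2
    have h3 := s5_V0 hO i hv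
    rw [hdv] at h3
    have h4 := hO.lip u v hu hv
    have h5 : ‖V0 u‖ ≤ ‖V0 u - V0 v‖ + ‖V0 v‖ := by
      calc ‖V0 u‖ = ‖(V0 u - V0 v) + V0 v‖ := by rw [sub_add_cancel]
        _ ≤ _ := norm_add_le _ _
    have h6 : M * ‖u - v‖ ≤ M * (2 * ‖Pj w u‖) := mul_le_mul_of_nonneg_left h2 hM.le
    have h7 : M * dd (b i) w ≤ M * (C1 * ε) := mul_le_mul_of_nonneg_left hd hM.le
    linarith
  have h8 : ‖V0 u‖ ≤ 2 * M * ‖Pj w u‖ + M * (C1 * ε) := by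
    rcases le_total 0 (inner ℝ u w) with h | h
    · exact key w hw rfl rfl h
    · refine key (-w) (by rw [norm_neg]; exact hw) (dd_neg _ _) (pj_neg w) ?_
      rw [inner_neg_right]
      linarith
  linarith

theorem core (hm : 1 ≤ m) {b : OrthonormalBasis (Fin (m + 1)) ℝ (E (m + 1))}
    {μ : Fin (m + 1) → ℝ} (hμ : Function.Injective μ) {c M κ d : ℝ}
    {V0 : E (m + 1) → E (m + 1)} (hO : Ob b μ c M κ d V0) {cq : ℝ} (hcq : 0 < cq) (Lq : ℝ)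
    {α : ℝ} (hα : 0 < α) (hα1 : α ≤ 1) {C2 r : ℝ} (hC2 : 0 < C2) (hr : 0 < r) :
    ∃ ε0 : ℝ, 0 < ε0 ∧ ∀ ε : ℝ, 0 < ε → ε ≤ ε0 → ∀ F : E (m + 1) → ℝ, Sm 1 F →
    Pt ε α (fun u => gradient F u - V0 u) → OddC b C2 r F →
    ∀ (w : E (m + 1)) (D : E m →L[ℝ] E (m + 1)) (q : ℝ × E m → ℝ), Fr w D → Dn cq Lq q →
    ¬ KW (gradient F) w D q := by
  obtain ⟨C1, hC1, H1⟩ := s1 (Lq := Lq) hm hμ hO hcq hα
  obtain ⟨c2, C2', hc2, hC2', H2⟩ := s2 hm hμ hO hcq Lq hα hα1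
  obtain ⟨C3, hC3, H3⟩ := s3 m Lq
  obtain ⟨C4, hC4, H4⟩ := s4 m Lq
  obtain ⟨C0, hC0, H0⟩ := op_near b μ
  have hM : 0 < M := hO.mpos
  have hC0' : 0 < C0 := by linarith
  have hMC : 0 < M * C1 := mul_pos hM hC1
  set K : ℝ := 2 * M + M * C1 + 1 with hKdef
  have hK : 0 < K := by rw [hKdef]; positivity
  set A : ℝ := C4 * K * (C0 * C2) with hAdef
  have hA : 0 < A := by rw [hAdef]; positivity
  set K' : ℝ := C2' * (1 + C1) + C3 * (C0 * (M * C1 + 1)) + 2 * A + C1 with hK'def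
  have hK' : 0 < K' := by rw [hK'def]; positivity
  obtain ⟨ε1, hε1, hε11, H6⟩ := t6 hK' hc2
  have hdr : 0 < min d r := lt_min hO.dpos hr
  refine ⟨min ε1 (min d r / C1), lt_min hε1 (div_pos hdr hC1), ?_⟩
  intro ε hε hεle F hF hG hodd w D q hFr hDn hKW
  have hεle1 : ε ≤ ε1 := hεle.trans (min_le_left _ _)
  have hεle2 : C1 * ε ≤ min d r := by
    have h := hεle.trans (min_le_right _ _)
    rw [le_div_iff₀ hC1] at h
    linarith
  have hε1' : ε ≤ 1 := hεle1.trans hε11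
  have hw : ‖w‖ = 1 := hFr.nw
  -- the norm of D is positive
  have hδ : 0 < ‖D‖ := by
    have hy : (EuclideanSpace.single (⟨0, hm⟩ : Fin m) (1 : ℝ)) ∈ Rg m := by
      have h1 : ‖(EuclideanSpace.single (⟨0, hm⟩ : Fin m) (1 : ℝ))‖ = 1 := by simp
      exact ⟨h1.ge, by rw [h1]; norm_num⟩
    exact (ge_rho_le hFr hy).2.2.2
  have hδ1 : ‖D‖ ≤ 1 := hFr.nD
  obtain ⟨hδε, i, hdi⟩ := H1 ε hε hε1' (gradient F) hG w D q hFr hDn hKW
  have hdd : dd (b i) w ≤ d := hdi.trans (hεle2.trans (min_le_left _ _))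
  have hdr' : dd (b i) w ≤ r := hdi.trans (hεle2.trans (min_le_right _ _))
  have hdd0 : 0 ≤ dd (b i) w := dd_nonneg _ _
  have hodd' := s5_odd hodd i hw hdr'
  set τ : ℝ := F w - F (-w) with hτ
  set P : E (m + 1) := (1 / 2 : ℝ) • (gradient F w + gradient F (-w)) with hP
  set p : E (m + 1) := Bop b μ i w P with hp
  have hpw : inner ℝ p w = 0 := bop_orth b μ i hw P
  have hpP : ‖p‖ ≤ C0 * ‖P‖ :=
    ((H0 i w hw P).1).trans (mul_le_mul_of_nonneg_left (pj_norm hw P) hC0'.le)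
  have hPτ : ‖P‖ ≤ C2 * |τ| := by
    rw [hP, norm_smul]
    have h1 : ‖(1 / 2 : ℝ)‖ = 1 / 2 := by norm_num
    rw [h1]
    have h2 : 0 ≤ ‖gradient F w + gradient F (-w)‖ := norm_nonneg _
    linarith
  have hpτ : ‖p‖ ≤ C0 * C2 * |τ| := by
    calc ‖p‖ ≤ C0 * ‖P‖ := hpP
      _ ≤ C0 * (C2 * |τ|) := mul_le_mul_of_nonneg_left hPτ hC0'.le
      _ = C0 * C2 * |τ| := by ring
  have hPε : ‖P‖ ≤ (M * C1 + 1) * ε := by
    have h1 := s5_bd (V := gradient F) hO i hG hw hdi hw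
    have h2 := s5_bd (V := gradient F) hO i hG hw hdi (u := -w) (by rw [norm_neg]; exact hw)
    have h3 : Pj w w = 0 := pj_self hw
    have h4 : Pj w (-w) = 0 := by rw [map_neg, h3, neg_zero]
    rw [h3, norm_zero, mul_zero, zero_add] at h1
    rw [h4, norm_zero, mul_zero, zero_add] at h2
    rw [hP, norm_smul]
    have h5 : ‖(1 / 2 : ℝ)‖ = 1 / 2 := by norm_num
    rw [h5]
    have h6 := norm_add_le (gradient F w) (gradient F (-w))
    linarith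
  have hpε : ‖p‖ ≤ C0 * (M * C1 + 1) * ε := by
    calc ‖p‖ ≤ C0 * ‖P‖ := hpP
      _ ≤ C0 * ((M * C1 + 1) * ε) := mul_le_mul_of_nonneg_left hPε hC0'.le
      _ = C0 * (M * C1 + 1) * ε := by ring
  -- the bound for the gradient
  have hKb : ∀ u, ‖u‖ = 1 → ‖gradient F u‖ ≤ K * (‖Pj w u‖ + ε) := by
    intro u hu
    have h1 := s5_bd (V := gradient F) hO i hG hw hdi hu
    have h2 : 0 ≤ ‖Pj w u‖ := norm_nonneg _
    have h3 : K * (‖Pj w u‖ + ε) = (2 * M * ‖Pj w u‖ + (M * C1 + 1) * ε) +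
        ((M * C1 + 1) * ‖Pj w u‖ + 2 * M * ε) := by rw [hKdef]; ring
    have h4 : 0 ≤ (M * C1 + 1) * ‖Pj w u‖ + 2 * M * ε := by positivity
    linarith
  have e4 := H4 F hF K ε cq w D q hK.le hε.le hFr hDn hδ hKb hKW p hpw
  set Q : ℝ := 1 + ε * (1 + |Real.log ‖D‖|) with hQ
  have hQ0 : 0 < Q := by rw [hQ]; positivity
  have hΛ : 0 ≤ |Real.log ‖D‖| := abs_nonneg _
  have ham : |am D q p| ≤ A * (‖D‖ ^ 2 * Q) := by
    have hR : 0 ≤ A * (‖D‖ ^ 2 * Q) := by positivity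
    rcases eq_or_ne τ 0 with h0 | h0
    · have hp0 : p = 0 := by
        rw [h0, abs_zero, mul_zero] at hpτ
        exact norm_le_zero_iff.1 hpτ
      have : am D q p = 0 := by
        unfold am
        rw [hp0]
        simp
      rw [this, abs_zero]
      exact hR
    · have hτ0 : 0 < |τ| := abs_pos.2 h0
      have h1 : |τ| * |am D q p| ≤ |τ| * (A * (‖D‖ ^ 2 * Q)) := by
        calc |τ| * |am D q p| ≤ C4 * K * ‖p‖ * (‖D‖ ^ 2 * Q) := e4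
          _ ≤ C4 * K * (C0 * C2 * |τ|) * (‖D‖ ^ 2 * Q) := by
            apply mul_le_mul_of_nonneg_right _ (by positivity)
            exact mul_le_mul_of_nonneg_left hpτ (by positivity)
          _ = |τ| * (A * (‖D‖ ^ 2 * Q)) := by rw [hAdef]; ring
      exact le_of_mul_le_mul_left h1 hτ0
  have e3 := H3 cq w D q hFr hDn hδ p
  have hYi : |Yi w D q p| ≤ 2 * |Real.log ‖D‖| * (A * (‖D‖ ^ 2 * Q)) +
      C3 * (C0 * (M * C1 + 1) * ε) * ‖D‖ := by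
    have h1 : |Yi w D q p| ≤ |Yi w D q p - 2 * (-Real.log ‖D‖) * am D q p| +
        |2 * (-Real.log ‖D‖) * am D q p| := by
      calc |Yi w D q p| = |(Yi w D q p - 2 * (-Real.log ‖D‖) * am D q p) +
            2 * (-Real.log ‖D‖) * am D q p| := by rw [sub_add_cancel]
        _ ≤ _ := abs_add_le _ _
    have h2 : |2 * (-Real.log ‖D‖) * am D q p| = 2 * |Real.log ‖D‖| * |am D q p| := by
      rw [abs_mul, abs_mul, abs_neg, abs_two]
    have h3 : 2 * |Real.log ‖D‖| * |am D q p| ≤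
        2 * |Real.log ‖D‖| * (A * (‖D‖ ^ 2 * Q)) :=
      mul_le_mul_of_nonneg_left ham (by positivity)
    have h4 : C3 * ‖p‖ * ‖D‖ ≤ C3 * (C0 * (M * C1 + 1) * ε) * ‖D‖ := by
      apply mul_le_mul_of_nonneg_right _ hδ.le
      exact mul_le_mul_of_nonneg_left hpε hC3.le
    linarith
  have e2 := H2 ε (gradient F) hε hG w D q hFr hDn hKW i hdd
  have e2' : c2 * ‖D‖ ≤ C2' * (ε + C1 * ε) * ‖D‖ + |Yi w D q p| := by
    refine e2.trans ?_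
    have h1 : C2' * (ε + dd (b i) w) * ‖D‖ ≤ C2' * (ε + C1 * ε) * ‖D‖ := by
      apply mul_le_mul_of_nonneg_right _ hδ.le
      exact mul_le_mul_of_nonneg_left (by linarith) hC2'.le
    exact add_le_add_left h1 _
  -- divide by the norm of D
  have e5 : c2 ≤ C2' * (1 + C1) * ε + C3 * (C0 * (M * C1 + 1)) * ε +
      2 * A * (|Real.log ‖D‖| * ‖D‖ * Q) := by
    have h1 : c2 * ‖D‖ ≤ (C2' * (1 + C1) * ε + C3 * (C0 * (M * C1 + 1)) * ε +
      2 * A * (|Real.log ‖D‖| * ‖D‖ * Q)) * ‖D‖ := by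
      calc c2 * ‖D‖ ≤ C2' * (ε + C1 * ε) * ‖D‖ + (2 * |Real.log ‖D‖| * (A * (‖D‖ ^ 2 * Q)) +
          C3 * (C0 * (M * C1 + 1) * ε) * ‖D‖) := by linarith
        _ = _ := by ring
    exact le_of_mul_le_mul_right h1 hδ
  have e6 := H6 ε ‖D‖ hε hεle1 hδ hδ1 (hδε.trans
    (mul_le_mul_of_nonneg_right (by rw [hK'def]; nlinarith [mul_pos hC2' hC1, mul_pos hC3 (mul_pos hC0' (by positivity : (0:ℝ) < M * C1 + 1))]) (by positivity)))
  have hS : 0 ≤ |Real.log ‖D‖| * ‖D‖ * Q := by positivity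
  have h7 : C2' * (1 + C1) * ε + C3 * (C0 * (M * C1 + 1)) * ε ≤ K' * ε := by
    rw [← add_mul]
    apply mul_le_mul_of_nonneg_right _ hε.le
    rw [hK'def]
    linarith
  have h8 : 2 * A * (|Real.log ‖D‖| * ‖D‖ * Q) ≤ K' * (|Real.log ‖D‖| * ‖D‖ * Q) := by
    apply mul_le_mul_of_nonneg_right _ hS
    rw [hK'def]
    have : 0 < C2' * (1 + C1) := by positivity
    have : 0 < C3 * (C0 * (M * C1 + 1)) := by positivity
    linarith
  linarith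

end Pool.Agent.H88.CN
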