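import Pool.Agent.H88.CN.GG2
import Pool.Agent.H88.CN.S5
import Pool.Agent.H88.CN.LA

/-!
# CN-STAB: stability of the obstruction (assembly)

Proof.  `n = m + 1`, `m ≥ 1`.  On the unit sphere `F0` is continuous and positive:
`2 lam ≤ F0 ≤ Lam` with `lam > 0` (compactness; homogeneity extends this to all `x ≠ 0`).  For
`ε ≤ lam` and `|F - F0| ≤ ε` on the sphere, `lam ≤ F ≤ Lam + lam` off the origin.  `gg2` with
`lam, Lam + lam` gives `c', L'`; `la_ob` gives the data `Ob` for `V0 = gradient F0`; `core` gives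
`ε0`.  Take `ε = min ε0 lam`.  If `K` were a solution for `F`, `gg2` gives `w, D, q` with
`KW (gradient F) w D q`, contradicting `core` (`hol`, `bd`, and tangentiality `grad_tan`
give `Pt ε α`).
-/

namespace Pool.Agent.H88.CN

open MeasureTheory Metric Set Pool.Agent.H35.CA

variable {n : ℕ}

/-- `F` and `F0` are close in the class `C^(1,α)`. -/
structure Cl (α ε : ℝ) (F F0 : E n → ℝ) : Prop where
  c0 : ∀ u, ‖u‖ = 1 → |F u - F0 u| ≤ ε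
  c1 : ∀ u, ‖u‖ = 1 → ‖gradient F u - gradient F0 u‖ ≤ ε
  hol : ∀ u v, ‖u‖ = 1 → ‖v‖ = 1 →
    ‖(gradient F u - gradient F0 u) - (gradient F v - gradient F0 v)‖ ≤ ε * ‖u - v‖ ^ α

theorem stab (hn : 2 ≤ n) {F0 : E n → ℝ} (hF0 : Sm 2 F0) (hpos : ∀ u, ‖u‖ = 1 → 0 < F0 u)
    {b : OrthonormalBasis (Fin n) ℝ (E n)} {μ : Fin n → ℝ} (hμ : Function.Injective μ)
    {c : ℝ} (hc : 0 < c)
    (hobs : ∀ u, ‖u‖ = 1 →
      c * ‖xi (Lop b μ) u‖ ^ 2 ≤ inner ℝ (gradient F0 u) (xi (Lop b μ) u))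
    {α : ℝ} (hα : 0 < α) (hα1 : α ≤ 1) {C r : ℝ} (hC : 0 < C) (hr : 0 < r) :
    ∃ ε : ℝ, 0 < ε ∧ ∀ F : E n → ℝ, Sm 1 F → Cl α ε F F0 → OddC b C r F →
    (∀ u, ‖u‖ = 1 → 0 < F u) ∧
      ¬ ∃ K : Set (E n), IsSolution (fun u : sphere (0 : E n) 1 => F u) K := by
  obtain ⟨m, rfl⟩ : ∃ m, n = m + 1 := ⟨n - 1, by omega⟩
  have hm : 1 ≤ m := by omega
  have hne0 : ∀ u : E (m + 1), ‖u‖ = 1 → u ≠ 0 := by
    rintro u hu rfl
    simp at hu
  have hcont : ContinuousOn F0 (sphere (0 : E (m + 1)) 1) :=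
    hF0.smooth.continuousOn.mono fun u hu => hne0 u (by simpa using hu)
  have hcomp : IsCompact (sphere (0 : E (m + 1)) 1) := isCompact_sphere _ _
  have hne : (sphere (0 : E (m + 1)) 1).Nonempty := ⟨b 0, by simp [b.norm_eq_one]⟩
  obtain ⟨u1, hu1, hmin⟩ := hcomp.exists_isMinOn hne hcont
  obtain ⟨u2, hu2, hmax⟩ := hcomp.exists_isMaxOn hne hcont
  have hu1' : ‖u1‖ = 1 := by simpa using hu1
  have hlam : 0 < F0 u1 := hpos u1 hu1'
  have hLam : F0 u1 ≤ F0 u2 := hmin hu2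
  set lam : ℝ := F0 u1 / 2 with hl
  have hl0 : 0 < lam := by positivity
  have hbd0 : ∀ u, ‖u‖ = 1 → 2 * lam ≤ F0 u ∧ F0 u ≤ F0 u2 := by
    intro u hu
    have hus : u ∈ sphere (0 : E (m + 1)) 1 := by simpa using hu
    have h1 : F0 u1 ≤ F0 u := hmin hus
    have h2 : F0 u ≤ F0 u2 := hmax hus
    exact ⟨by rw [hl]; linarith, h2⟩
  obtain ⟨cq, Lq, hcq, hgg⟩ := gg2 hm hl0 (show lam ≤ F0 u2 + lam by linarith)
  obtain ⟨M, κ, d, hO⟩ := la_ob hF0 hμ hc hobs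
  obtain ⟨ε0, hε0, hcore⟩ := core hm hμ hO hcq Lq hα hα1 hC hr
  refine ⟨min ε0 lam, lt_min hε0 hl0, ?_⟩
  intro F hF hcl hodd
  have hbd : ∀ u, ‖u‖ = 1 → lam ≤ F u ∧ F u ≤ F0 u2 + lam := by
    intro u hu
    have h1 := (hcl.c0 u hu).trans (min_le_right _ _)
    rw [abs_le] at h1
    obtain ⟨h2, h3⟩ := hbd0 u hu
    exact ⟨by linarith [h1.1], by linarith [h1.2]⟩
  refine ⟨fun u hu => hl0.trans_le (hbd u hu).1, ?_⟩
  rintro ⟨K, hK⟩
  have hall : ∀ x : E (m + 1), x ≠ 0 → lam ≤ F x ∧ F x ≤ F0 u2 + lam := by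
    intro x hx
    have hn : 0 < ‖x‖ := norm_pos_iff.2 hx
    have h1 := hF.hom ‖x‖⁻¹ (by positivity) x
    rw [← h1]
    refine hbd _ ?_
    rw [norm_smul, norm_inv, norm_norm, inv_mul_cancel₀ hn.ne']
  obtain ⟨w, D, q, hFr, hDn, hKW⟩ := hgg F hF hall K hK
  refine hcore (min ε0 lam) (lt_min hε0 hl0) (min_le_left _ _) F hF ?_ hodd w D q hFr hDn hKW
  refine ⟨?_, hcl.c1, hcl.hol⟩
  intro u hu
  rw [inner_sub_left, grad_tan hF (hne0 u hu), grad_tan (sm_one_of_two hF0) (hne0 u hu), sub_zero]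

end Pool.Agent.H88.CN
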