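import Pool.Agent.H88.CN.HH3
import Pool.Agent.H88.CN.STAB

/-!
# CN-HH4: open sets of functions near the constants without solutions

Proof.  Let `b` be the standard basis (`EuclideanSpace.basisFun (Fin n) ℝ`),
`μ_i = η' / (i + 1)` with `η' = min η (1/4)` (injective, `0 < μ_i ≤ η'`), `a0 = ∑ b_i`,
`‖a0‖ = √n`, `⟨a0, b_i⟩ = 1`, and `Q_t = Qf b μ (t a0)`.
`Q_0` satisfies the hypotheses of `stab` with `c = 2`: `gradient Q_0 u = 2 xi L u` (`qf_grad`), and
`Q_0 ≥ 1` on the sphere (`qf_unit`).  Let `ε` be given by `stab` for `C = 4 √n + 2`,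
`r = 1/(2 √n)`.
`Q_t` against `Q_0` on the sphere: values differ by at most `t √n`, gradients by
`t (a0 - ⟨a0,u⟩ u)`, of norm at most `t √n`, and
`‖⟨a0,u⟩ u - ⟨a0,v⟩ v‖ ≤ 2 √n ‖u - v‖ ≤ 4 √n ‖u - v‖^α` (`‖u - v‖ ≤ 2`, `0 < α ≤ 1`:
`‖u-v‖ = ‖u-v‖^α ‖u-v‖^(1-α) ≤ 2 ‖u-v‖^α`).  Choose `t > 0` with `4 t √n ≤ ε/2`, `t ≤ η`, and
`ρ = min (t/4) (ε/2)`, also at most the `ρ` of `qf_open` for `a = t a0`.
Let `Cl α ρ F Q_t`.  Then `Cl α ε F Q_0` (add up).  `OddC b C r F`: for `‖u - b_i‖ ≤ r`,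
`⟨a0, u⟩ ≥ 1 - √n r = 1/2`, so `|F u - F (-u)| ≥ |Q_t u - Q_t (-u)| - 2 ρ = 2 t ⟨a0,u⟩ - 2 ρ
≥ t - t/2 = t/2`, and `‖∇F u + ∇F (-u)‖ ≤ ‖∇Q_t u + ∇Q_t (-u)‖ + 2 ρ
= 2 t ‖a0 - ⟨a0,u⟩ u‖ + 2 ρ ≤ (2 √n + 1) t` (`xi L (-u) = - xi L u`), at most `C t/2`.
So `stab` applies.  The last assertion is `qf_open` with `V = gradient F` (`grad_tan`, `Cl.c1`).
-/

namespace Pool.Agent.H88.CN

open MeasureTheory Metric Set Pool.Agent.H35.CA

variable {n : ℕ}

theorem near (hn : 2 ≤ n) {η : ℝ} (hη : 0 < η) {α : ℝ} (hα : 0 < α) (hα1 : α ≤ 1) :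
    ∃ (μ : Fin n → ℝ) (a : E n), (∀ i, |μ i| ≤ η ∧ |a i| ≤ η) ∧ ∃ ρ : ℝ, 0 < ρ ∧
    ∀ F : E n → ℝ, Sm 1 F → Cl α ρ F (Qf (EuclideanSpace.basisFun (Fin n) ℝ) μ a) →
    (∀ u, ‖u‖ = 1 → 0 < F u) ∧
      (¬ ∃ K : Set (E n), IsSolution (fun u : sphere (0 : E n) 1 => F u) K) ∧
      ∀ B : E n →L[ℝ] E n, (∀ s : ℝ, B ≠ s • (1 : E n →L[ℝ] E n)) →
        (∃ u : E n, ‖u‖ = 1 ∧ 0 < inner ℝ (gradient F u) (B u)) ∧
        ∃ u : E n, ‖u‖ = 1 ∧ inner ℝ (gradient F u) (B u) < 0 := by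
  set b := EuclideanSpace.basisFun (Fin n) ℝ with hb
  set μ : Fin n → ℝ := fun i => η / ((i : ℕ) + 1) with hμd
  set a0 : E n := WithLp.toLp 2 (fun _ => (1 : ℝ)) with ha0
  have hμpos : ∀ i, 0 < μ i := fun i => by rw [hμd]; positivity
  have hμle : ∀ i, μ i ≤ η := by
    intro i
    rw [hμd]
    apply div_le_self hη.le
    have : (0 : ℝ) ≤ (i : ℕ) := Nat.cast_nonneg _
    linarith
  have hμinj : Function.Injective μ := by
    intro i j hij
    simp only [hμd] at hij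
    have h1 : ((i : ℕ) : ℝ) + 1 ≠ 0 := by positivity
    have h2 : ((j : ℕ) : ℝ) + 1 ≠ 0 := by positivity
    rw [div_eq_div_iff h1 h2] at hij
    have h3 := mul_left_cancel₀ hη.ne' hij
    have h4 : ((i : ℕ) : ℝ) = ((j : ℕ) : ℝ) := by linarith
    exact Fin.ext (Nat.cast_injective h4)
  have hinn : ∀ i, (inner ℝ a0 (b i) : ℝ) = 1 := by
    intro i
    rw [hb, EuclideanSpace.basisFun_apply, ha0]
    simp [EuclideanSpace.inner_single_right]
  set S : ℝ := ‖a0‖ + 1 with hS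
  have hSpos : 0 < S := by positivity
  have hS1 : 1 ≤ S := by
    have := norm_nonneg a0
    linarith
  have haS : ‖a0‖ ≤ S := by linarith
  have hlin : ∀ u : E n, ‖u‖ = 1 → |(inner ℝ a0 u : ℝ)| ≤ S := by
    intro u hu
    have h := abs_real_inner_le_norm a0 u
    rw [hu, mul_one] at h
    exact h.trans haS
  -- the unperturbed function
  have hQ0 : Sm 2 (Qf b μ 0) := by exact_mod_cast qf_sm b μ 0 2
  have hQ0pos : ∀ u, ‖u‖ = 1 → 0 < Qf b μ 0 u := by
    intro u hu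
    rw [qf_unit b μ 0 hu, inner_zero_left]
    have : 0 ≤ ∑ i, μ i * (inner ℝ (b i) u : ℝ) ^ 2 :=
      Finset.sum_nonneg fun i _ => mul_nonneg (hμpos i).le (sq_nonneg _)
    linarith
  have hobs : ∀ u, ‖u‖ = 1 →
      2 * ‖xi (Lop b μ) u‖ ^ 2 ≤ inner ℝ (gradient (Qf b μ 0) u) (xi (Lop b μ) u) := by
    intro u hu
    rw [qf_grad b μ 0 hu, inner_zero_left, zero_smul, sub_zero, add_zero, real_inner_smul_left,
      real_inner_self_eq_norm_sq]
  obtain ⟨ε, hε, hstab⟩ := stab hn hQ0 hQ0pos hμinj (by norm_num : (0 : ℝ) < 2) hobs hα hα1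
    (C := 8 * S + 1) (r := 1 / (2 * S)) (by positivity) (by positivity)
  set t : ℝ := min η (ε / (8 * S)) with ht
  have htpos : 0 < t := lt_min hη (by positivity)
  have htη : t ≤ η := min_le_left _ _
  have htε : 4 * t * S ≤ ε / 2 := by
    have h := min_le_right η (ε / (8 * S))
    rw [← ht, le_div_iff₀ (by positivity)] at h
    linarith
  obtain ⟨ρ1, hρ1, hopen⟩ := qf_open (b := b) (μ := μ) (a := t • a0) hμinj (by
    intro i
    rw [real_inner_smul_left, hinn i, mul_one]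
    exact htpos.ne')
  set ρ : ℝ := min (min (t / 4) (ε / 2)) ρ1 with hρ
  have hρpos : 0 < ρ := lt_min (lt_min (by positivity) (by positivity)) hρ1
  have hρt : ρ ≤ t / 4 := (min_le_left _ _).trans (min_le_left _ _)
  have hρε : ρ ≤ ε / 2 := (min_le_left _ _).trans (min_le_right _ _)
  have hρρ : ρ ≤ ρ1 := min_le_right _ _
  -- differences of the quadratic functions
  have hval : ∀ u, ‖u‖ = 1 → Qf b μ (t • a0) u - Qf b μ 0 u = t * inner ℝ a0 u := by
    intro u hu
    rw [qf_unit b μ _ hu, qf_unit b μ _ hu, real_inner_smul_left, inner_zero_left]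
    ring
  have hgr : ∀ u, ‖u‖ = 1 → gradient (Qf b μ (t • a0)) u - gradient (Qf b μ 0) u
      = t • (a0 - (inner ℝ a0 u : ℝ) • u) := by
    intro u hu
    rw [qf_grad b μ _ hu, qf_grad b μ _ hu, real_inner_smul_left, inner_zero_left, zero_smul,
      sub_zero, add_zero, smul_sub, smul_smul]
    abel
  have hpr : ∀ u, ‖u‖ = 1 → ‖a0 - (inner ℝ a0 u : ℝ) • u‖ ≤ 2 * S := by
    intro u hu
    calc ‖a0 - (inner ℝ a0 u : ℝ) • u‖ ≤ ‖a0‖ + ‖(inner ℝ a0 u : ℝ) • u‖ := norm_sub_le _ _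
      _ ≤ S + S := by
          rw [norm_smul, hu, mul_one, Real.norm_eq_abs]
          exact add_le_add haS (hlin u hu)
      _ = 2 * S := by ring
  have hhol : ∀ u v, ‖u‖ = 1 → ‖v‖ = 1 →
      ‖(a0 - (inner ℝ a0 u : ℝ) • u) - (a0 - (inner ℝ a0 v : ℝ) • v)‖
        ≤ 4 * S * ‖u - v‖ ^ α := by
    intro u v hu hv
    have e : (a0 - (inner ℝ a0 u : ℝ) • u) - (a0 - (inner ℝ a0 v : ℝ) • v)
        = -((inner ℝ a0 (u - v) : ℝ) • u + (inner ℝ a0 v : ℝ) • (u - v)) := by
      rw [inner_sub_right, sub_smul, smul_sub]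
      abel
    rw [e, norm_neg]
    have h1 : ‖(inner ℝ a0 (u - v) : ℝ) • u‖ ≤ S * ‖u - v‖ := by
      rw [norm_smul, hu, mul_one, Real.norm_eq_abs]
      exact (abs_real_inner_le_norm a0 (u - v)).trans
        (mul_le_mul_of_nonneg_right haS (norm_nonneg _))
    have h2 : ‖(inner ℝ a0 v : ℝ) • (u - v)‖ ≤ S * ‖u - v‖ := by
      rw [norm_smul, Real.norm_eq_abs]
      exact mul_le_mul_of_nonneg_right (hlin v hv) (norm_nonneg _)
    have h3 : ‖u - v‖ ≤ 2 * ‖u - v‖ ^ α := by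
      have hle2 : ‖u - v‖ ≤ 2 := by
        have := norm_sub_le u v
        rw [hu, hv] at this
        linarith
      rcases eq_or_lt_of_le (norm_nonneg (u - v)) with h0 | h0
      · rw [← h0]
        have : (0 : ℝ) ≤ (0 : ℝ) ^ α := Real.rpow_nonneg le_rfl _
        linarith
      · have e1 : ‖u - v‖ = ‖u - v‖ ^ (1 - α) * ‖u - v‖ ^ α := by
          rw [← Real.rpow_add h0]
          simp
        have h4 : ‖u - v‖ ^ (1 - α) ≤ 2 := by
          calc ‖u - v‖ ^ (1 - α) ≤ 2 ^ (1 - α) :=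
                Real.rpow_le_rpow h0.le hle2 (by linarith)
            _ ≤ 2 ^ (1 : ℝ) := Real.rpow_le_rpow_of_exponent_le (by norm_num) (by linarith)
            _ = 2 := by simp
        calc ‖u - v‖ = ‖u - v‖ ^ (1 - α) * ‖u - v‖ ^ α := e1
          _ ≤ 2 * ‖u - v‖ ^ α :=
              mul_le_mul_of_nonneg_right h4 (Real.rpow_nonneg h0.le _)
    calc ‖(inner ℝ a0 (u - v) : ℝ) • u + (inner ℝ a0 v : ℝ) • (u - v)‖
        ≤ S * ‖u - v‖ + S * ‖u - v‖ := (norm_add_le _ _).trans (add_le_add h1 h2)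
      _ = 2 * S * ‖u - v‖ := by ring
      _ ≤ 2 * S * (2 * ‖u - v‖ ^ α) := mul_le_mul_of_nonneg_left h3 (by positivity)
      _ = 4 * S * ‖u - v‖ ^ α := by ring
  refine ⟨μ, t • a0, ?_, ρ, hρpos, ?_⟩
  · intro i
    refine ⟨?_, ?_⟩
    · rw [abs_of_pos (hμpos i)]
      exact hμle i
    · have : (t • a0) i = t := by
        simp [ha0]
      rw [this, abs_of_pos htpos]
      exact htη
  intro F hF hcl
  -- closeness to the even function
  have hcl0 : Cl α ε F (Qf b μ 0) := by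
    refine ⟨?_, ?_, ?_⟩
    · intro u hu
      have h1 := hcl.c0 u hu
      have h2 : |Qf b μ (t • a0) u - Qf b μ 0 u| ≤ t * S := by
        rw [hval u hu, abs_mul, abs_of_pos htpos]
        exact mul_le_mul_of_nonneg_left (hlin u hu) htpos.le
      have h3 := abs_sub_le (F u) (Qf b μ (t • a0) u) (Qf b μ 0 u)
      have h4 : 0 ≤ t * S := by positivity
      linarith
    · intro u hu
      have h1 := hcl.c1 u hu
      have h2 : ‖gradient (Qf b μ (t • a0)) u - gradient (Qf b μ 0) u‖ ≤ t * (2 * S) := by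
        rw [hgr u hu, norm_smul, Real.norm_eq_abs, abs_of_pos htpos]
        exact mul_le_mul_of_nonneg_left (hpr u hu) htpos.le
      have h3 := norm_sub_le_norm_sub_add_norm_sub (gradient F u)
        (gradient (Qf b μ (t • a0)) u) (gradient (Qf b μ 0) u)
      have h4 : 0 ≤ t * S := by positivity
      linarith
    · intro u v hu hv
      have h1 := hcl.hol u v hu hv
      have h2 : ‖(gradient (Qf b μ (t • a0)) u - gradient (Qf b μ 0) u)
          - (gradient (Qf b μ (t • a0)) v - gradient (Qf b μ 0) v)‖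
          ≤ t * (4 * S * ‖u - v‖ ^ α) := by
        rw [hgr u hu, hgr v hv, ← smul_sub, norm_smul, Real.norm_eq_abs, abs_of_pos htpos]
        exact mul_le_mul_of_nonneg_left (hhol u v hu hv) htpos.le
      have e : (gradient F u - gradient (Qf b μ 0) u) - (gradient F v - gradient (Qf b μ 0) v)
          = ((gradient F u - gradient (Qf b μ (t • a0)) u)
              - (gradient F v - gradient (Qf b μ (t • a0)) v))
            + ((gradient (Qf b μ (t • a0)) u - gradient (Qf b μ 0) u)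
              - (gradient (Qf b μ (t • a0)) v - gradient (Qf b μ 0) v)) := by
        abel
      rw [e]
      have h0 : 0 ≤ ‖u - v‖ ^ α := Real.rpow_nonneg (norm_nonneg _) _
      calc _ ≤ ρ * ‖u - v‖ ^ α + t * (4 * S * ‖u - v‖ ^ α) :=
            (norm_add_le _ _).trans (add_le_add h1 h2)
        _ = (ρ + 4 * t * S) * ‖u - v‖ ^ α := by ring
        _ ≤ ε * ‖u - v‖ ^ α := mul_le_mul_of_nonneg_right (by linarith) h0
  -- the odd part
  have hodd : OddC b (8 * S + 1) (1 / (2 * S)) F := by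
    intro i u hu hui
    have hnu : ‖-u‖ = 1 := by rw [norm_neg, hu]
    have hin : 1 / 2 ≤ (inner ℝ a0 u : ℝ) := by
      have e : (inner ℝ a0 u : ℝ) = 1 + inner ℝ a0 (u - b i) := by
        rw [inner_sub_right, hinn i]
        ring
      have h1 := abs_real_inner_le_norm a0 (u - b i)
      have h2 : ‖a0‖ * ‖u - b i‖ ≤ S * (1 / (2 * S)) :=
        mul_le_mul haS hui (norm_nonneg _) hSpos.le
      have h3 : S * (1 / (2 * S)) = 1 / 2 := by field_simp
      have h4 := neg_abs_le (inner ℝ a0 (u - b i) : ℝ)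
      rw [e]
      linarith
    have hQd : Qf b μ (t • a0) u - Qf b μ (t • a0) (-u) = 2 * t * inner ℝ a0 u := by
      rw [qf_unit b μ _ hu, qf_unit b μ _ hnu, real_inner_smul_left, real_inner_smul_left,
        inner_neg_right]
      have : ∀ i, (inner ℝ (b i) (-u) : ℝ) ^ 2 = (inner ℝ (b i) u : ℝ) ^ 2 := by
        intro i
        rw [inner_neg_right, neg_sq]
      simp_rw [this]
      ring
    have hQg : gradient (Qf b μ (t • a0)) u + gradient (Qf b μ (t • a0)) (-u)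
        = (2 * t) • (a0 - (inner ℝ a0 u : ℝ) • u) := by
      rw [qf_grad b μ _ hu, qf_grad b μ _ hnu]
      have hx : xi (Lop b μ) (-u) = - xi (Lop b μ) u := by
        simp only [xi, map_neg, inner_neg_left, inner_neg_right, neg_neg, smul_neg]
        abel
      rw [hx, inner_neg_right, real_inner_smul_left, smul_neg, neg_smul, smul_neg, neg_neg,
        smul_sub, smul_smul, two_mul, add_smul, add_mul, add_smul]
      abel
    have h1 := hcl.c0 u hu
    have h2 := hcl.c0 (-u) hnu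
    have h3 := hcl.c1 u hu
    have h4 := hcl.c1 (-u) hnu
    have hL : t / 2 ≤ |F u - F (-u)| := by
      have h5 := le_abs_self (F u - F (-u))
      have h6 := neg_abs_le (F u - Qf b μ (t • a0) u)
      have h7 := le_abs_self (F (-u) - Qf b μ (t • a0) (-u))
      have h8 : t * (1 / 2) ≤ t * inner ℝ a0 u := mul_le_mul_of_nonneg_left hin htpos.le
      linarith
    have hU : ‖gradient F u + gradient F (-u)‖ ≤ (4 * S + 1 / 2) * t := by
      have e : gradient F u + gradient F (-u)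
          = (gradient F u - gradient (Qf b μ (t • a0)) u)
            + (gradient F (-u) - gradient (Qf b μ (t • a0)) (-u))
            + (2 * t) • (a0 - (inner ℝ a0 u : ℝ) • u) := by
        rw [← hQg]
        abel
      rw [e]
      have h5 : ‖(2 * t) • (a0 - (inner ℝ a0 u : ℝ) • u)‖ ≤ 2 * t * (2 * S) := by
        rw [norm_smul, Real.norm_eq_abs, abs_of_pos (by positivity)]
        exact mul_le_mul_of_nonneg_left (hpr u hu) (by positivity)
      calc _ ≤ ρ + ρ + 2 * t * (2 * S) :=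
            (norm_add_le _ _).trans (add_le_add ((norm_add_le _ _).trans (add_le_add h3 h4)) h5)
        _ ≤ (4 * S + 1 / 2) * t := by linarith
    calc ‖gradient F u + gradient F (-u)‖ ≤ (4 * S + 1 / 2) * t := hU
      _ = (8 * S + 1) * (t / 2) := by ring
      _ ≤ (8 * S + 1) * |F u - F (-u)| := mul_le_mul_of_nonneg_left hL (by positivity)
  obtain ⟨hp, hns⟩ := hstab F hF hcl0 hodd
  refine ⟨hp, hns, ?_⟩
  refine hopen (gradient F) ?_ ?_
  · intro u hu
    refine grad_tan hF ?_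
    intro h0
    rw [h0, norm_zero] at hu
    exact zero_ne_one hu
  · intro u hu
    exact (hcl.c1 u hu).trans hρρ

end Pool.Agent.H88.CN
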