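import Pool.Agent.H88.CN.Defs

/-!
# CN-T1: a one dimensional integral

Proof.  Substitute `t = ρ s` (`Measure.integral_comp_mul_left` / `integral_comp_mul_left`,
`Integrable.comp_mul_left'`): `ρ / √(ρ² s² + ρ²) = (1 + s²)^(-1/2)`, so the integral equals
`ρ ∫ (1 + s²)^(-β/2) ds`, and the integral is finite because `β > 1`
(`integrable_rpow_neg_one_add_norm_sq` in Mathlib, or `integrable_one_add_norm` with
`1 + s² ≥ (1 + |s|)² / 2`).  Take `C` = that integral plus 1.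
-/

namespace Pool.Agent.H88.CN

open MeasureTheory Metric Set

private theorem t1_aux (β ρ : ℝ) (hρ : 0 < ρ) (t : ℝ) :
    (ρ / Real.sqrt (t ^ 2 + ρ ^ 2)) ^ β = ((1 : ℝ) + ‖t / ρ‖ ^ 2) ^ (-β / 2) := by
  have hpos : (0 : ℝ) < 1 + (t / ρ) ^ 2 := by positivity
  have h1 : t ^ 2 + ρ ^ 2 = ρ ^ 2 * (1 + (t / ρ) ^ 2) := by
    field_simp
    ring
  have h2 : Real.sqrt (t ^ 2 + ρ ^ 2) = ρ * Real.sqrt (1 + (t / ρ) ^ 2) := by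
    rw [h1, Real.sqrt_mul (by positivity), Real.sqrt_sq hρ.le]
  have h3 : ρ / Real.sqrt (t ^ 2 + ρ ^ 2) = (Real.sqrt (1 + (t / ρ) ^ 2))⁻¹ := by
    rw [h2]
    have : Real.sqrt (1 + (t / ρ) ^ 2) ≠ 0 := (Real.sqrt_pos.mpr hpos).ne'
    field_simp
  rw [h3, Real.norm_eq_abs, sq_abs, Real.sqrt_eq_rpow, ← Real.rpow_neg hpos.le,
    ← Real.rpow_mul hpos.le]
  congr 1
  ring

theorem t1 {β : ℝ} (hβ : 1 < β) : ∃ C : ℝ, 0 < C ∧ ∀ ρ : ℝ, 0 < ρ →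
    Integrable (fun t : ℝ => (ρ / Real.sqrt (t ^ 2 + ρ ^ 2)) ^ β) ∧
    ∫ t : ℝ, (ρ / Real.sqrt (t ^ 2 + ρ ^ 2)) ^ β ≤ C * ρ := by
  have hint : Integrable (fun x : ℝ => ((1 : ℝ) + ‖x‖ ^ 2) ^ (-β / 2)) := by
    apply integrable_rpow_neg_one_add_norm_sq
    simpa using hβ
  have hnn : 0 ≤ ∫ x : ℝ, ((1 : ℝ) + ‖x‖ ^ 2) ^ (-β / 2) :=
    integral_nonneg fun x => by positivity
  refine ⟨(∫ x : ℝ, ((1 : ℝ) + ‖x‖ ^ 2) ^ (-β / 2)) + 1, by linarith, ?_⟩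
  intro ρ hρ
  have hfun : (fun t : ℝ => (ρ / Real.sqrt (t ^ 2 + ρ ^ 2)) ^ β)
      = fun t : ℝ => ((1 : ℝ) + ‖t / ρ‖ ^ 2) ^ (-β / 2) := by
    funext t
    exact t1_aux β ρ hρ t
  rw [hfun]
  refine ⟨hint.comp_div hρ.ne', ?_⟩
  have h1 := MeasureTheory.Measure.integral_comp_div
    (fun x : ℝ => ((1 : ℝ) + ‖x‖ ^ 2) ^ (-β / 2)) ρ
  rw [h1, abs_of_pos hρ, smul_eq_mul]
  nlinarith

end Pool.Agent.H88.CN
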