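import Pool.Agent.H88.CN.INT
import Pool.Agent.H88.CN.T1

/-!
# CN-KI: the integral of a power of `κ = ‖D y‖ / ‖X‖`

Proof.  `‖X w D (t, y)‖ = √(t² + ρ²)`, `ρ = ‖D y‖` (`ge_norm`), so the integrand is
`(ρ/√(t²+ρ²))^β q (t, y)`, with values between `0` and `2` (`κ ≤ 1`, `q ≤ 2`); integrability by
`int_q` (measurability: `int_meas`, continuity of `q` and of `‖X‖⁻¹` by `ge_cont`, `β > 0`).
For fixed `y ∈ Rg m` the integral over `t` is between `0` and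
`2 ∫ (ρ/√(t²+ρ²))^β dt ≤ 2 C1 ρ ≤ 4 C1 ‖D‖` by `t1`; then `int_fiber_bd`.
-/

namespace Pool.Agent.H88.CN

open MeasureTheory Metric Set Pool.Agent.H35.CA

variable {m : ℕ}

private theorem ki_q {c L : ℝ} {q : ℝ × E m → ℝ} (h : Dn c L q) (t : ℝ) {y : E m}
    (hy : y ∈ Rg m) : 0 ≤ q (t, y) ∧ q (t, y) ≤ 2 := by
  have h1 := h.nonneg t y hy
  have h2 := h.upper t y hy
  refine ⟨h1, ?_⟩
  nlinarith [mul_nonneg h1 (sq_nonneg t)]

theorem ki (m : ℕ) {β : ℝ} (hβ : 1 < β) : ∃ C : ℝ, 0 < C ∧ ∀ (c L : ℝ) (w : E (m + 1))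
    (D : E m →L[ℝ] E (m + 1)) (q : ℝ × E m → ℝ), Fr w D → Dn c L q →
    Integrable (fun p : ℝ × E m => (‖D p.2‖ / ‖X w D p‖) ^ β * q p) (nu m) ∧
    ∫ p : ℝ × E m, (‖D p.2‖ / ‖X w D p‖) ^ β * q p ∂(nu m) ≤ C * ‖D‖ := by
  obtain ⟨C1, hC1, hT⟩ := t1 hβ
  obtain ⟨Cq, hCq, hQ⟩ := int_q m
  refine ⟨4 * C1 * (volume (Rg m)).toReal + 1, by positivity, ?_⟩
  intro c L w D q hF hq
  have hκ : ∀ t, ∀ y ∈ Rg m, 0 ≤ ‖D y‖ / ‖X w D (t, y)‖ ∧ ‖D y‖ / ‖X w D (t, y)‖ ≤ 1 := by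
    intro t y hy
    refine ⟨by positivity, ?_⟩
    have h1 := (ge_pos hF t hy).1
    rw [div_le_one h1]
    have h2 := (ge_norm hF t y).1
    nlinarith [sq_nonneg t, norm_nonneg (D y)]
  have hXc : Continuous (fun p : ℝ × E m => X w D p) := by
    unfold X
    exact (continuous_fst.smul continuous_const).add (D.continuous.comp continuous_snd)
  have hcont : ContinuousOn (fun p : ℝ × E m => (‖D p.2‖ / ‖X w D p‖) ^ β) (univ ×ˢ Rg m) := by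
    refine ContinuousOn.rpow_const ?_ (fun _ _ => Or.inr (by linarith))
    refine ContinuousOn.div ?_ hXc.norm.continuousOn ?_
    · exact (D.continuous.comp continuous_snd).norm.continuousOn
    · rintro ⟨t, y⟩ ⟨_, hy⟩
      exact (ge_pos hF t hy).1.ne'
  have hint := (hQ c L q hq _ 1 (int_meas hcont) zero_le_one (by
    intro t y hy
    obtain ⟨h1, h2⟩ := hκ t y hy
    rw [abs_of_nonneg (Real.rpow_nonneg h1 _)]
    exact Real.rpow_le_one h1 h2 (by linarith))).1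
  refine ⟨hint, ?_⟩
  have hfib : ∀ y ∈ Rg m, |∫ t : ℝ, (‖D y‖ / ‖X w D (t, y)‖) ^ β * q (t, y)|
      ≤ 4 * C1 * ‖D‖ := by
    intro y hy
    obtain ⟨hρ, hρ2, -, -⟩ := ge_rho_le hF hy
    obtain ⟨hI, hI2⟩ := hT ‖D y‖ hρ
    have hle : ‖∫ t : ℝ, (‖D y‖ / ‖X w D (t, y)‖) ^ β * q (t, y)‖ ≤
        ∫ t : ℝ, 2 * (‖D y‖ / Real.sqrt (t ^ 2 + ‖D y‖ ^ 2)) ^ β := by
      refine norm_integral_le_of_norm_le (hI.const_mul 2) ?_
      filter_upwards with t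
      obtain ⟨h1, h2⟩ := hκ t y hy
      obtain ⟨h3, h4⟩ := ki_q hq t hy
      rw [Real.norm_eq_abs, abs_mul, abs_of_nonneg (Real.rpow_nonneg h1 _), abs_of_nonneg h3,
        ← (ge_norm hF t y).2, mul_comm]
      exact mul_le_mul_of_nonneg_right h4 (Real.rpow_nonneg h1 _)
    rw [Real.norm_eq_abs] at hle
    refine hle.trans ?_
    rw [integral_const_mul]
    nlinarith
  have hfin := int_fiber_bd hint hfib
  refine (le_abs_self _).trans (hfin.trans ?_)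
  have h5 := norm_nonneg D
  have h6 : 0 ≤ (volume (Rg m)).toReal := ENNReal.toReal_nonneg
  nlinarith

end Pool.Agent.H88.CN
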