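import Pool.Agent.H88.CN.S4A

/-!
# CN-LA1: bounds for the gradient of a `C²` function

Proof.  `gradient F` is `C¹` off the origin (`ContDiffOn.fderiv_of_isOpen` and the isometry
`toDual.symm`), see `la_c1`.  On the compact annulus `A = {1/2 ≤ ‖x‖ ≤ 1}` the norms of
`gradient F` and of `fderiv ℝ (gradient F)` are bounded by some `M0`.  For unit `u, v` with
`‖u - v‖ ≤ 1` every point of the segment `[u, v]` has norm `≥ 1/2` and `≤ 1`, so the mean value
inequality on the segment (`Convex.norm_image_sub_le_of_norm_fderiv_le` on a convex set, or along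
the line) gives `‖V u - V v‖ ≤ M0 ‖u - v‖`; for `‖u - v‖ > 1`, `‖V u - V v‖ ≤ 2 M0 ≤
2 M0 ‖u - v‖`.  Take `M = 2 M0 + 1`.  (For `n = 0` everything is trivial.)
-/

namespace Pool.Agent.H88.CN

open MeasureTheory Metric Set Pool.Agent.H35.CA

variable {n : ℕ}

theorem sm_one_of_two {F : E n → ℝ} (hF : Sm 2 F) : Sm 1 F :=
  ⟨hF.hom, hF.smooth.of_le (by norm_num)⟩

/-- The isometry `toDual.symm` as a real linear map. -/
private noncomputable def la1_D (n : ℕ) : (E n →L[ℝ] ℝ) →ₗᵢ[ℝ] E n where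
  toFun A := (InnerProductSpace.toDual ℝ (E n)).symm A
  map_add' A B := by rw [map_add]
  map_smul' c A := by rw [map_smulₛₗ]; rfl
  norm_map' A := (InnerProductSpace.toDual ℝ (E n)).symm.norm_map A

private theorem la1_grad (F : E n → ℝ) : gradient F = fun x => la1_D n (fderiv ℝ F x) := by
  funext x
  rfl

theorem la_c1 {F : E n → ℝ} (hF : Sm 2 F) : ContDiffOn ℝ 1 (gradient F) {0}ᶜ := by
  have h1 : ContDiffOn ℝ 1 (fderiv ℝ F) {0}ᶜ :=
    hF.smooth.fderiv_of_isOpen isOpen_compl_singleton (by norm_num)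
  rw [la1_grad]
  exact (la1_D n).contDiff.comp_contDiffOn h1

/-- The annulus. -/
private def la1_A (n : ℕ) : Set (E n) := {x | 1 / 2 ≤ ‖x‖ ∧ ‖x‖ ≤ 1}

private theorem la1_comp : IsCompact (la1_A n) := by
  have h1 : la1_A n = closedBall (0 : E n) 1 ∩ {x | 1 / 2 ≤ ‖x‖} := by
    ext x
    simp only [la1_A, mem_setOf_eq, mem_inter_iff, mem_closedBall, dist_zero_right]
    tauto
  rw [h1]
  exact (isCompact_closedBall (0 : E n) 1).inter_right
    (isClosed_le continuous_const continuous_norm)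

private theorem la1_sub : la1_A n ⊆ {0}ᶜ := by
  rintro x ⟨hx, -⟩ h0
  rw [mem_singleton_iff] at h0
  rw [h0, norm_zero] at hx
  norm_num at hx

private theorem la1_seg {u v : E n} (hu : ‖u‖ = 1) (hv : ‖v‖ = 1) (huv : ‖u - v‖ ≤ 1) {x : E n}
    (hx : x ∈ segment ℝ v u) : x ∈ la1_A n := by
  have h1 : x ∈ closedBall (0 : E n) 1 := by
    refine (convex_closedBall (0 : E n) 1).segment_subset ?_ ?_ hx
    · simp [hv]
    · simp [hu]
  have h1' : ‖x‖ ≤ 1 := by simpa using h1
  refine ⟨?_, h1'⟩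
  obtain ⟨a, b, ha, hb, hab, rfl⟩ := hx
  rcases le_total a (1 / 2) with h | h
  · have h2 : a • v + b • u = u - a • (u - v) := by
      have : b = 1 - a := by linarith
      rw [this]
      module
    rw [h2]
    have h3 : ‖a • (u - v)‖ ≤ 1 / 2 := by
      rw [norm_smul, Real.norm_of_nonneg ha]
      nlinarith [norm_nonneg (u - v)]
    have h4 := norm_sub_norm_le u (a • (u - v))
    linarith
  · have h2 : a • v + b • u = v - b • (v - u) := by
      have : a = 1 - b := by linarith
      rw [this]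
      module
    rw [h2]
    have h3 : ‖b • (v - u)‖ ≤ 1 / 2 := by
      rw [norm_smul, Real.norm_of_nonneg hb]
      rw [norm_sub_rev] at huv
      have hb2 : b ≤ 1 / 2 := by linarith
      nlinarith [norm_nonneg (v - u)]
    have h4 := norm_sub_norm_le v (b • (v - u))
    linarith

theorem la_bd {F : E n → ℝ} (hF : Sm 2 F) : ∃ M : ℝ, 0 < M ∧
    (∀ u, ‖u‖ = 1 → ‖gradient F u‖ ≤ M) ∧
    ∀ u v, ‖u‖ = 1 → ‖v‖ = 1 → ‖gradient F u - gradient F v‖ ≤ M * ‖u - v‖ := by
  have hc := la_c1 hF
  obtain ⟨M1, hM1⟩ := la1_comp.exists_bound_of_continuousOn (hc.continuousOn.mono la1_sub)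
  have hc2 : ContinuousOn (fderiv ℝ (gradient F)) {0}ᶜ :=
    hc.continuousOn_fderiv_of_isOpen isOpen_compl_singleton le_rfl
  obtain ⟨M2, hM2⟩ := la1_comp.exists_bound_of_continuousOn (hc2.mono la1_sub)
  have hA : ∀ u : E n, ‖u‖ = 1 → u ∈ la1_A n := fun u hu => ⟨by rw [hu]; norm_num, hu.le⟩
  set M := 2 * |M1| + |M2| + 1 with hM
  have hM0 : 0 < M := by positivity
  refine ⟨M, hM0, fun u hu => ?_, fun u v hu hv => ?_⟩
  · have := hM1 u (hA u hu)
    have h2 := le_abs_self M1
    have h3 := abs_nonneg M1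
    have h4 := abs_nonneg M2
    linarith
  · rcases le_total ‖u - v‖ 1 with h | h
    · have hd : ∀ x ∈ segment ℝ v u, DifferentiableAt ℝ (gradient F) x := by
        intro x hx
        have hx0 : x ∈ ({0}ᶜ : Set (E n)) := la1_sub (la1_seg hu hv h hx)
        exact (hc.differentiableOn (by norm_num) x hx0).differentiableAt
          (isOpen_compl_singleton.mem_nhds hx0)
      have h1 := (convex_segment v u).norm_image_sub_le_of_norm_fderiv_le (𝕜 := ℝ) hd
        (fun x hx => hM2 x (la1_seg hu hv h hx)) (left_mem_segment ℝ v u)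
        (right_mem_segment ℝ v u)
      refine h1.trans (mul_le_mul_of_nonneg_right ?_ (norm_nonneg _))
      have h2 := le_abs_self M2
      have h3 := abs_nonneg M1
      linarith
    · have h1 := hM1 u (hA u hu)
      have h2 := hM1 v (hA v hv)
      have h3 := norm_sub_le (gradient F u) (gradient F v)
      have h4 := le_abs_self M1
      have h5 := abs_nonneg M2
      have h6 : M ≤ M * ‖u - v‖ := le_mul_of_one_le_right hM0.le h
      linarith

end Pool.Agent.H88.CN
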