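import Pool.Agent.H88.CN.S4A
import Pool.Agent.H88.CN.OP
import Pool.Agent.H88.CN.LA1

/-!
# CN-LA2: first and second order consequences of the obstruction inequality

Write `L = Lop b μ`, `V = gradient F`, `A = L - μ_i`, `p = b i` or `p = - b i` (`A p = 0`),
`v ⊥ b i`, `x = p + s v`, `|x|² = 1 + s² |v|²`, `u = un x`.
Facts: `V u = |x| V x` (`grad_hom`), `V u ⊥ u` (`grad_tan`), so
`⟨V u, xi L u⟩ = ⟨V u, L u - μ_i u⟩ = ⟨V x, A x⟩ = s ⟨V x, A v⟩` (`xi_inner`, `A p = 0`).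
`⟨A x, x⟩ = s² ⟨A v, v⟩` (`⟨A v, p⟩ = ⟨v, A p⟩ = 0`) and (as in `xi_sq`, since
`xi L u = A u - ⟨A u, u⟩ u`) `‖xi L u‖² = ‖A u‖² - ⟨A u, u⟩²
= s² ‖A v‖² / |x|² - s⁴ ⟨A v, v⟩² / |x|⁴`.
The hypothesis at `u` reads: `c (s² ‖A v‖² / |x|² - s⁴ ⟨A v, v⟩² / |x|⁴) ≤ s ⟨V x, A v⟩`.
`la_crit`: for `s > 0` divide by `s` and let `s → 0`: `0 ≤ ⟨V p, A v⟩` (`V` is continuous at `p`).
With `v = b j` and `v = - b j`, `j ≠ i`, `A v = ± (μ_j - μ_i) b j`: `⟨V p, b j⟩ = 0`; and
`⟨V p, b i⟩ = ± ⟨V p, p⟩ = 0`.  So `V p = 0`.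
`la_hess`: now `V (p + s v) = s (fderiv ℝ V p v) + o(s)` (`V` is differentiable at `p`, `V p = 0`);
divide by `s²` and let `s → 0+`: `c ‖A v‖² ≤ ⟨fderiv ℝ V p v, A v⟩`.
-/

namespace Pool.Agent.H88.CN

open MeasureTheory Metric Set Pool.Agent.H35.CA

variable {n : ℕ}

private theorem la2_key {F : E n → ℝ} (hF : Sm 1 F) {b : OrthonormalBasis (Fin n) ℝ (E n)}
    {μ : Fin n → ℝ} {c : ℝ}
    (hobs : ∀ u, ‖u‖ = 1 → c * ‖xi (Lop b μ) u‖ ^ 2 ≤ inner ℝ (gradient F u) (xi (Lop b μ) u))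
    (i : Fin n) {p : E n} (hp1 : ‖p‖ = 1) (hp : Lop b μ p = μ i • p) (v : E n)
    (hv : inner ℝ p v = 0) (s : ℝ) (hs : 0 < s) :
    c * (s * ‖Lop b μ v - μ i • v‖ ^ 2 / (1 + s ^ 2 * ‖v‖ ^ 2) -
      s ^ 3 * (inner ℝ (Lop b μ v - μ i • v) v) ^ 2 / (1 + s ^ 2 * ‖v‖ ^ 2) ^ 2) ≤
      inner ℝ (gradient F (p + s • v)) (Lop b μ v - μ i • v) := by
  set a : E n := Lop b μ v - μ i • v with ha
  set x : E n := p + s • v with hx
  have hN : ‖x‖ ^ 2 = 1 + s ^ 2 * ‖v‖ ^ 2 := by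
    rw [hx, norm_add_sq_real, inner_smul_right, hv, norm_smul, hp1, Real.norm_eq_abs, mul_pow,
      sq_abs]
    ring
  have hNpos : 0 < 1 + s ^ 2 * ‖v‖ ^ 2 := by positivity
  have hx0 : x ≠ 0 := by
    intro h
    rw [h, norm_zero] at hN
    have : (0 : ℝ) ^ 2 = 0 := by norm_num
    rw [this] at hN
    linarith
  have hxn : 0 < ‖x‖ := norm_pos_iff.2 hx0
  have hun : un x = ‖x‖⁻¹ • x := rfl
  have hu1 : ‖un x‖ = 1 := by
    rw [hun, norm_smul, norm_inv, norm_norm, inv_mul_cancel₀ hxn.ne']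
  have hap : inner ℝ a p = 0 := by
    rw [ha, inner_sub_left, lop_symm, hp, inner_smul_right, inner_smul_left, real_inner_comm, hv]
    simp
  have hax : inner ℝ a x = s * inner ℝ a v := by
    rw [hx, inner_add_right, hap, inner_smul_right, zero_add]
  have hLx : Lop b μ x = μ i • x + s • a := by
    rw [hx, ha, map_add, map_smul, hp]
    module
  have hLu : Lop b μ (un x) = μ i • un x + (‖x‖⁻¹ * s) • a := by
    rw [hun, map_smul, hLx]
    module
  have h1 := hobs (un x) hu1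
  have htan : inner ℝ (gradient F (un x)) (un x) = 0 := by
    refine grad_tan hF ?_
    rw [← norm_pos_iff, hu1]
    exact one_pos
  have hR : inner ℝ (gradient F (un x)) (xi (Lop b μ) (un x)) = s * inner ℝ (gradient F x) a := by
    rw [← (xi_inner (Lop b μ) htan (μ i)).1, hLu, add_sub_cancel_left, (grad_hom hF hx0).1,
      inner_smul_left, inner_smul_right]
    simp only [conj_trivial]
    field_simp
  have hL : ‖xi (Lop b μ) (un x)‖ ^ 2 = s ^ 2 * ‖a‖ ^ 2 / (1 + s ^ 2 * ‖v‖ ^ 2) -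
      s ^ 4 * (inner ℝ a v) ^ 2 / (1 + s ^ 2 * ‖v‖ ^ 2) ^ 2 := by
    have hw : inner ℝ ((‖x‖⁻¹ * s) • a) (un x) = s ^ 2 * inner ℝ a v / (1 + s ^ 2 * ‖v‖ ^ 2) := by
      rw [hun, inner_smul_left, inner_smul_right, hax, ← hN]
      simp only [conj_trivial]
      field_simp
    have hw2 : ‖(‖x‖⁻¹ * s) • a‖ ^ 2 = s ^ 2 * ‖a‖ ^ 2 / (1 + s ^ 2 * ‖v‖ ^ 2) := by
      rw [norm_smul, mul_pow, Real.norm_eq_abs, sq_abs, ← hN]
      field_simp
    rw [(xi_sq (Lop b μ) hu1).1, hLu, norm_add_sq_real, inner_add_left, hw2, hw, norm_smul, hu1,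
      inner_smul_left (un x) (un x), real_inner_self_eq_norm_sq, hu1, inner_smul_left,
      real_inner_comm, hw, Real.norm_eq_abs]
    simp only [conj_trivial, mul_one, one_pow, sq_abs]
    generalize 1 + s ^ 2 * ‖v‖ ^ 2 = N
    ring
  rw [hR, hL] at h1
  have h2 : s * (c * (s * ‖a‖ ^ 2 / (1 + s ^ 2 * ‖v‖ ^ 2) -
      s ^ 3 * (inner ℝ a v) ^ 2 / (1 + s ^ 2 * ‖v‖ ^ 2) ^ 2)) ≤
      s * inner ℝ (gradient F x) a := by
    refine le_trans (le_of_eq ?_) h1
    ring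
  exact le_of_mul_le_mul_left h2 hs

private theorem la2_p {b : OrthonormalBasis (Fin n) ℝ (E n)} {μ : Fin n → ℝ} {i : Fin n}
    {p : E n} (hp : p = b i ∨ p = -b i) : ‖p‖ = 1 ∧ Lop b μ p = μ i • p := by
  rcases hp with rfl | rfl
  · exact ⟨b.norm_eq_one i, lop_basis b μ i⟩
  · refine ⟨by rw [norm_neg]; exact b.norm_eq_one i, ?_⟩
    rw [map_neg, lop_basis, smul_neg]

private theorem la2_crit {F : E n → ℝ} (hF : Sm 1 F) {b : OrthonormalBasis (Fin n) ℝ (E n)}
    {μ : Fin n → ℝ} (hμ : Function.Injective μ) {c : ℝ}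
    (hobs : ∀ u, ‖u‖ = 1 → c * ‖xi (Lop b μ) u‖ ^ 2 ≤ inner ℝ (gradient F u) (xi (Lop b μ) u))
    (i : Fin n) {p : E n} (hp : p = b i ∨ p = -b i) : gradient F p = 0 := by
  obtain ⟨hp1, hpL⟩ := la2_p (μ := μ) hp
  have hp0 : p ≠ 0 := by
    rw [← norm_pos_iff, hp1]
    exact one_pos
  have key : ∀ v, inner ℝ p v = 0 → 0 ≤ inner ℝ (gradient F p) (Lop b μ v - μ i • v) := by
    intro v hv
    have hc1 : Filter.Tendsto (fun s : ℝ => inner ℝ (gradient F (p + s • v))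
        (Lop b μ v - μ i • v)) (nhdsWithin 0 (Ioi 0))
        (nhds (inner ℝ (gradient F p) (Lop b μ v - μ i • v))) := by
      have h1 : ContinuousAt (gradient F) p :=
        (grad_cont hF).continuousAt (isOpen_compl_singleton.mem_nhds hp0)
      have h2 : Filter.Tendsto (fun s : ℝ => p + s • v) (nhds 0) (nhds p) := by
        have h3 : Continuous (fun s : ℝ => p + s • v) := by fun_prop
        have h4 := h3.tendsto 0
        simpa using h4
      have h5 := (h1.tendsto.comp h2).inner (𝕜 := ℝ)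
        (tendsto_const_nhds (x := Lop b μ v - μ i • v))
      exact h5.mono_left nhdsWithin_le_nhds
    have hc2 : Filter.Tendsto (fun s : ℝ => c * (s * ‖Lop b μ v - μ i • v‖ ^ 2 /
        (1 + s ^ 2 * ‖v‖ ^ 2) - s ^ 3 * (inner ℝ (Lop b μ v - μ i • v) v) ^ 2 /
          (1 + s ^ 2 * ‖v‖ ^ 2) ^ 2)) (nhdsWithin 0 (Ioi 0)) (nhds 0) := by
      have h3 : Continuous (fun s : ℝ => c * (s * ‖Lop b μ v - μ i • v‖ ^ 2 /
        (1 + s ^ 2 * ‖v‖ ^ 2) - s ^ 3 * (inner ℝ (Lop b μ v - μ i • v) v) ^ 2 /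
          (1 + s ^ 2 * ‖v‖ ^ 2) ^ 2)) := by
        refine continuous_const.mul (Continuous.sub (Continuous.div ?_ ?_ ?_)
          (Continuous.div ?_ ?_ ?_))
        · fun_prop
        · fun_prop
        · intro s
          positivity
        · fun_prop
        · fun_prop
        · intro s
          positivity
      have h4 := h3.tendsto 0
      simp only [zero_mul, ne_eq, OfNat.ofNat_ne_zero, not_false_eq_true, zero_pow, zero_div,
        sub_zero, mul_zero] at h4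
      exact h4.mono_left nhdsWithin_le_nhds
    refine le_of_tendsto_of_tendsto hc2 hc1 ?_
    filter_upwards [self_mem_nhdsWithin] with s hs
    exact la2_key hF hobs i hp1 hpL v hv s hs
  have hperp : ∀ j, j ≠ i → inner ℝ p (b j) = 0 := by
    intro j hj
    have h1 := b.orthonormal.2 hj.symm
    rcases hp with rfl | rfl
    · exact h1
    · rw [inner_neg_left]
      simpa using h1
  have hz : ∀ j, inner ℝ (b j) (gradient F p) = 0 := by
    intro j
    by_cases hj : j = i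
    · subst hj
      have h1 := grad_tan hF hp0
      rw [real_inner_comm] at h1
      rcases hp with rfl | rfl
      · exact h1
      · rw [inner_neg_left] at h1
        linarith
    · have h1 := key (b j) (hperp j hj)
      have h2 := key (-b j) (by rw [inner_neg_right, hperp j hj, neg_zero])
      rw [lop_basis, ← sub_smul, inner_smul_right] at h1
      rw [map_neg, lop_basis, smul_neg, sub_neg_eq_add, ← neg_smul, ← add_smul,
        inner_smul_right] at h2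
      have h3 : (μ j - μ i) * inner ℝ (gradient F p) (b j) = 0 := by
        apply le_antisymm _ h1
        nlinarith
      rcases mul_eq_zero.1 h3 with h4 | h4
      · exact absurd (hμ (sub_eq_zero.1 h4)) hj
      · rw [real_inner_comm]
        exact h4
  rw [← b.sum_repr' (gradient F p)]
  refine Finset.sum_eq_zero fun j _ => ?_
  rw [hz j, zero_smul]

theorem la_crit {F : E n → ℝ} (hF : Sm 2 F) {b : OrthonormalBasis (Fin n) ℝ (E n)}
    {μ : Fin n → ℝ} (hμ : Function.Injective μ) {c : ℝ} (hc : 0 < c)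
    (hobs : ∀ u, ‖u‖ = 1 → c * ‖xi (Lop b μ) u‖ ^ 2 ≤ inner ℝ (gradient F u) (xi (Lop b μ) u))
    (i : Fin n) : gradient F (b i) = 0 ∧ gradient F (-b i) = 0 := by
  exact ⟨la2_crit (sm_one_of_two hF) hμ hobs i (Or.inl rfl),
    la2_crit (sm_one_of_two hF) hμ hobs i (Or.inr rfl)⟩

theorem la_hess {F : E n → ℝ} (hF : Sm 2 F) {b : OrthonormalBasis (Fin n) ℝ (E n)}
    {μ : Fin n → ℝ} (hμ : Function.Injective μ) {c : ℝ} (hc : 0 < c)
    (hobs : ∀ u, ‖u‖ = 1 → c * ‖xi (Lop b μ) u‖ ^ 2 ≤ inner ℝ (gradient F u) (xi (Lop b μ) u))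
    (i : Fin n) {p : E n} (hp : p = b i ∨ p = -b i) (v : E n) (hv : inner ℝ (b i) v = 0) :
    c * ‖Lop b μ v - μ i • v‖ ^ 2 ≤
      inner ℝ (fderiv ℝ (gradient F) p v) (Lop b μ v - μ i • v) := by
  have hF1 := sm_one_of_two hF
  obtain ⟨hp1, hpL⟩ := la2_p (μ := μ) hp
  have hp0 : p ≠ 0 := by
    rw [← norm_pos_iff, hp1]
    exact one_pos
  have hV := la2_crit hF1 hμ hobs i hp
  have hv' : inner ℝ p v = 0 := by
    rcases hp with rfl | rfl
    · exact hv
    · rw [inner_neg_left, hv, neg_zero]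
  set a : E n := Lop b μ v - μ i • v with ha
  have hd : HasFDerivAt (gradient F) (fderiv ℝ (gradient F) p) p := by
    refine DifferentiableAt.hasFDerivAt ?_
    exact ((la_c1 hF).contDiffAt (isOpen_compl_singleton.mem_nhds hp0)).differentiableAt one_ne_zero
  have hd2 : HasDerivAt (fun s : ℝ => gradient F (p + s • v)) (fderiv ℝ (gradient F) p v) 0 := by
    have h1 : HasDerivAt (fun s : ℝ => p + s • v) v 0 := by
      simpa using ((hasDerivAt_id (0 : ℝ)).smul_const v).const_add p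
    have h2 : HasFDerivAt (gradient F) (fderiv ℝ (gradient F) p) (p + (0 : ℝ) • v) := by
      simpa using hd
    exact h2.comp_hasDerivAt (0 : ℝ) h1
  have hd3 : HasDerivAt (fun s : ℝ => inner ℝ (gradient F (p + s • v)) a)
      (inner ℝ (fderiv ℝ (gradient F) p v) a) 0 := by
    have h3 := hd2.inner ℝ (hasDerivAt_const (0 : ℝ) a)
    simpa using h3
  have ht := hd3.tendsto_slope.mono_left
    (nhdsWithin_mono (0 : ℝ) (fun s (hs : s ∈ Ioi (0 : ℝ)) => (ne_of_gt hs : s ∈ ({0}ᶜ : Set ℝ))))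
  have hc2 : Filter.Tendsto (fun s : ℝ => c * (‖a‖ ^ 2 /
      (1 + s ^ 2 * ‖v‖ ^ 2) - s ^ 2 * (inner ℝ a v) ^ 2 /
        (1 + s ^ 2 * ‖v‖ ^ 2) ^ 2)) (nhdsWithin 0 (Ioi 0)) (nhds (c * ‖a‖ ^ 2)) := by
    have h3 : Continuous (fun s : ℝ => c * (‖a‖ ^ 2 /
      (1 + s ^ 2 * ‖v‖ ^ 2) - s ^ 2 * (inner ℝ a v) ^ 2 /
        (1 + s ^ 2 * ‖v‖ ^ 2) ^ 2)) := by
      refine continuous_const.mul (Continuous.sub (Continuous.div ?_ ?_ ?_)
        (Continuous.div ?_ ?_ ?_))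
      · fun_prop
      · fun_prop
      · intro s
        positivity
      · fun_prop
      · fun_prop
      · intro s
        positivity
    have h4 := h3.tendsto 0
    simp only [zero_mul, ne_eq, OfNat.ofNat_ne_zero, not_false_eq_true, zero_pow, zero_div,
      sub_zero, add_zero, div_one] at h4
    exact h4.mono_left nhdsWithin_le_nhds
  refine le_of_tendsto_of_tendsto hc2 ht ?_
  filter_upwards [self_mem_nhdsWithin] with s hs
  have hs' : 0 < s := hs
  have h5 := la2_key hF1 hobs i hp1 hpL v hv' s hs'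
  rw [← ha] at h5
  rw [slope_def_field]
  simp only [zero_smul, add_zero, hV, inner_zero_left, sub_zero]
  rw [le_div_iff₀ hs']
  refine le_trans (le_of_eq ?_) h5
  ring

end Pool.Agent.H88.CN
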