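import Pool.Agent.H88.CN.LA2
import Pool.Agent.H88.CN.GE

/-!
# CN-LA3: monotonicity near the eigenvectors

Proof.  There are finitely many points `p = ± b i`; it is enough to find `κ, d` for each of them
and to take the minimum.  Fix `p`, `A = L - μ_i`, `A p = 0`, `V = gradient F`,
`H = fderiv ℝ V p`.  By `la_hess` and `‖A v‖ ≥ γ ‖v‖` for `v ⊥ b i` (`γ = min_{j ≠ i} |μ_j - μ_i|`,
positive; `γ = 1` if `n = 1`): `⟨H v, A v⟩ ≥ c' ‖v‖²`, `c' = c γ²`, for `v ⊥ b i`.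
`V` is strictly differentiable at `p` (`ContDiffAt.hasStrictFDerivAt`): for every `η > 0` there is
`ρ > 0` with `‖V u - V w - H (u - w)‖ ≤ η ‖u - w‖` for `u, w` within `ρ` of `p`.
Let `w, u` be unit vectors, `‖w - p‖ ≤ d`, `⟨u, w⟩ > 0`, `z = Pj w u`, `k = ‖z‖ ≤ κ`.  Then
`‖u - w‖ ≤ 2 k` (`ge_dist`), `u - w = z + (⟨u,w⟩ - 1) w` with `|⟨u,w⟩ - 1| ≤ k²`
(`1 - ⟨u,w⟩ ≤ 1 - ⟨u,w⟩² = k²`), `‖u - p‖ ≤ d + 2 κ`.  Let `v = z - ⟨z, p⟩ p ⊥ b i`;
`|⟨z, p⟩| = |⟨z, p - w⟩| ≤ k d` (`z ⊥ w`), so `‖v - z‖ ≤ k d`, `‖v‖ ≥ k (1 - d) ≥ k/2`.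
* `V u - V w = H v + e1`, `‖e1‖ ≤ 2 η k + ‖H‖ k² + ‖H‖ k d`.
* `Bop b μ i w u = Pj w (A z)` (`bop_apply`) `= A z - ⟨w, A z⟩ w`, `|⟨w, A z⟩| = |⟨A w, z⟩|
  ≤ ‖A‖ d k` (`A w = A (w - p)`), so `Bop b μ i w u = A v + e2`, `‖e2‖ ≤ ‖A‖ d k` (`A p = 0`).
Hence `⟨V u - V w, Bop u⟩ ≥ ⟨H v, A v⟩ - k² C (η + κ + d) ≥ k² (c'/4 - C (η + κ + d)) ≥ 0` for
`η, κ, d` small (`C` depends on `‖H‖`, `‖A‖` only, `d, κ, η ≤ 1`).
`dd (b i) w ≤ d` means `‖w - b i‖ ≤ d` or `‖w + b i‖ ≤ d`.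
-/

namespace Pool.Agent.H88.CN

open MeasureTheory Metric Set Pool.Agent.H35.CA

variable {n : ℕ}

/-- The final estimate. -/
private theorem la3_fin {k c' N s1 s2 a : ℝ} (hk : 0 ≤ k)
    (hc : s2 * N + s1 * N + s1 * s2 ≤ c' / 4)
    {H v A e1 e2 : E n} (h0 : c' * ‖v‖ ^ 2 ≤ inner ℝ H A) (hc' : 0 < c')
    (hv : k / 2 ≤ ‖v‖)
    (h1 : ‖e1‖ ≤ s1 * k) (h2 : ‖e2‖ ≤ s2 * k) (hH : ‖H‖ ≤ N * k) (hA : ‖A‖ ≤ N * k)
    (ha : a = inner ℝ (H + e1) (A + e2)) : 0 ≤ a := by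
  have e : a = inner ℝ H A + inner ℝ H e2 + inner ℝ e1 A + inner ℝ e1 e2 := by
    rw [ha, inner_add_left, inner_add_right, inner_add_right]; ring
  have n1 : 0 ≤ s1 * k := (norm_nonneg _).trans h1
  have n2 : 0 ≤ s2 * k := (norm_nonneg _).trans h2
  have n3 : 0 ≤ N * k := (norm_nonneg _).trans hH
  have i1 : -(N * k * (s2 * k)) ≤ inner ℝ H e2 := by
    have := abs_real_inner_le_norm H e2
    have h := mul_le_mul hH h2 (norm_nonneg _) n3
    have := neg_abs_le (inner ℝ H e2 : ℝ)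
    linarith
  have i2 : -(s1 * k * (N * k)) ≤ inner ℝ e1 A := by
    have := abs_real_inner_le_norm e1 A
    have h := mul_le_mul h1 hA (norm_nonneg _) n1
    have := neg_abs_le (inner ℝ e1 A : ℝ)
    linarith
  have i3 : -(s1 * k * (s2 * k)) ≤ inner ℝ e1 e2 := by
    have := abs_real_inner_le_norm e1 e2
    have h := mul_le_mul h1 h2 (norm_nonneg _) n1
    have := neg_abs_le (inner ℝ e1 e2 : ℝ)
    linarith
  have i4 : c' * (k / 2) ^ 2 ≤ c' * ‖v‖ ^ 2 := by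
    have : (k / 2) ^ 2 ≤ ‖v‖ ^ 2 := pow_le_pow_left₀ (by positivity) hv 2
    exact mul_le_mul_of_nonneg_left this hc'.le
  have i5 : (s2 * N + s1 * N + s1 * s2) * k ^ 2 ≤ c' / 4 * k ^ 2 :=
    mul_le_mul_of_nonneg_right hc (sq_nonneg k)
  rw [e]
  nlinarith [i1, i2, i3, i4, i5, h0]

/-- The gap of the spectrum at `μ i`. -/
private theorem la3_gap {μ : Fin n → ℝ} (hμ : Function.Injective μ) (i : Fin n) :
    ∃ γ : ℝ, 0 < γ ∧ ∀ j, j ≠ i → γ ≤ |μ j - μ i| := by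
  have h : ∀ᶠ γ in nhdsWithin (0 : ℝ) (Ioi 0), ∀ j, j ≠ i → γ ≤ |μ j - μ i| := by
    rw [Filter.eventually_all]
    intro j
    by_cases hj : j = i
    · exact Filter.Eventually.of_forall fun γ h => absurd hj h
    · have hp : 0 < |μ j - μ i| := abs_pos.2 (sub_ne_zero.2 fun h => hj (hμ h))
      have : ∀ᶠ γ in nhdsWithin (0 : ℝ) (Ioi 0), γ < |μ j - μ i| :=
        nhdsWithin_le_nhds (Iio_mem_nhds hp)
      exact this.mono fun γ h _ => h.le
  obtain ⟨γ, h1, h2⟩ := (h.and self_mem_nhdsWithin).exists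
  exact ⟨γ, h2, h1⟩

private theorem la3_norm_sq (b : OrthonormalBasis (Fin n) ℝ (E n)) (x : E n) :
    ‖x‖ ^ 2 = ∑ j, (inner ℝ (b j) x : ℝ) ^ 2 := by
  have h := b.sum_inner_mul_inner x x
  rw [real_inner_self_eq_norm_sq] at h
  rw [← h]
  refine Finset.sum_congr rfl fun j _ => ?_
  rw [real_inner_comm x (b j)]
  ring

/-- The lower bound for `A` on the orthogonal complement of `b i`. -/
private theorem la3_low {b : OrthonormalBasis (Fin n) ℝ (E n)} {μ : Fin n → ℝ} {i : Fin n}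
    {γ : ℝ} (hγ : 0 < γ) (h : ∀ j, j ≠ i → γ ≤ |μ j - μ i|) {v : E n}
    (hv : inner ℝ (b i) v = 0) : γ ^ 2 * ‖v‖ ^ 2 ≤ ‖Lop b μ v - μ i • v‖ ^ 2 := by
  rw [la3_norm_sq b v, la3_norm_sq b (Lop b μ v - μ i • v), Finset.mul_sum]
  refine Finset.sum_le_sum fun j _ => ?_
  have e : (inner ℝ (b j) (Lop b μ v - μ i • v) : ℝ) = (μ j - μ i) * inner ℝ (b j) v := by
    rw [inner_sub_right, ← lop_symm, lop_basis, inner_smul_left, inner_smul_right]
    simp only [conj_trivial]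
    ring
  rw [e, mul_pow]
  by_cases hj : j = i
  · subst hj
    rw [hv]; simp
  · refine mul_le_mul_of_nonneg_right ?_ (sq_nonneg _)
    rw [← sq_abs (μ j - μ i)]
    exact pow_le_pow_left₀ hγ.le (h j hj) 2

/-- The statement near one of the points `± b i`. -/
private theorem la3_pt {F : E n → ℝ} (hF : Sm 2 F) {b : OrthonormalBasis (Fin n) ℝ (E n)}
    {μ : Fin n → ℝ} (hμ : Function.Injective μ) {c : ℝ} (hc : 0 < c)
    (hobs : ∀ u, ‖u‖ = 1 →
      c * ‖xi (Lop b μ) u‖ ^ 2 ≤ inner ℝ (gradient F u) (xi (Lop b μ) u))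
    (i : Fin n) {p : E n} (hp : p = b i ∨ p = -b i) :
    ∀ᶠ δ in nhdsWithin (0 : ℝ) (Ioi 0), ∀ w u : E n, ‖w‖ = 1 → ‖u‖ = 1 →
      ‖w - p‖ ≤ δ → 0 < inner ℝ u w → ‖Pj w u‖ ≤ δ →
      0 ≤ inner ℝ (gradient F u - gradient F w) (Bop b μ i w u) := by
  obtain ⟨γ, hγ, hγ'⟩ := la3_gap hμ i
  have hpn : ‖p‖ = 1 := by
    rcases hp with rfl | rfl
    · exact b.norm_eq_one i
    · rw [norm_neg]; exact b.norm_eq_one i
  have hp0 : p ≠ 0 := by
    intro h; rw [h, norm_zero] at hpn; exact zero_ne_one hpn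
  set V := gradient F with hV
  set H := fderiv ℝ V p with hH
  set A : E n →L[ℝ] E n := Lop b μ - μ i • ContinuousLinearMap.id ℝ (E n) with hA
  have hAx : ∀ x, A x = Lop b μ x - μ i • x := fun x => by
    rw [hA]; simp
  have hAp : A p = 0 := by
    rw [hAx]
    rcases hp with rfl | rfl
    · rw [lop_basis, sub_self]
    · rw [map_neg, lop_basis, smul_neg, sub_self]
  have hAs : ∀ x y, inner ℝ (A x) y = (inner ℝ x (A y) : ℝ) := fun x y => by
    rw [hAx, hAx, inner_sub_left, inner_sub_right, lop_symm, inner_smul_left, inner_smul_right]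
    simp
  have hst : HasStrictFDerivAt V H p := by
    have h1 : ContDiffAt ℝ 1 V p :=
      (la_c1 hF).contDiffAt (isOpen_compl_singleton.mem_nhds hp0)
    exact h1.hasStrictFDerivAt one_ne_zero
  set N : ℝ := ‖H‖ + ‖A‖ + 1 with hN
  have hN1 : 1 ≤ N := by have := norm_nonneg H; have := norm_nonneg A; rw [hN]; linarith
  have hNH : ‖H‖ ≤ N := by have := norm_nonneg A; rw [hN]; linarith
  have hNA : ‖A‖ ≤ N := by have := norm_nonneg H; rw [hN]; linarith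
  set c' := c * γ ^ 2 with hc'
  have hc'0 : 0 < c' := by positivity
  set η : ℝ := c' / (56 * N ^ 2) with hη
  have hη0 : 0 < η := by positivity
  have hev : ∀ᶠ q : E n × E n in nhds (p, p),
      ‖V q.1 - V q.2 - H (q.1 - q.2)‖ ≤ η * ‖q.1 - q.2‖ :=
    hst.isLittleO.def hη0
  obtain ⟨ρ, hρ, hρ'⟩ := Metric.eventually_nhds_iff.1 hev
  have hd1 : ∀ᶠ δ in nhdsWithin (0 : ℝ) (Ioi 0), δ < ρ / 3 :=
    nhdsWithin_le_nhds (Iio_mem_nhds (by positivity))
  have hd2 : ∀ᶠ δ in nhdsWithin (0 : ℝ) (Ioi 0), δ < 1 / 2 :=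
    nhdsWithin_le_nhds (Iio_mem_nhds (by norm_num))
  have hd3 : ∀ᶠ δ in nhdsWithin (0 : ℝ) (Ioi 0), δ < η :=
    nhdsWithin_le_nhds (Iio_mem_nhds hη0)
  have hd4 : ∀ᶠ δ in nhdsWithin (0 : ℝ) (Ioi 0), 0 < δ := self_mem_nhdsWithin
  filter_upwards [hd1, hd2, hd3, hd4] with δ h1 h2 h3 h4 w u hw hu hwp hin hk
  set z := Pj w u with hz
  set k := ‖z‖ with hkk
  have hk0 : 0 ≤ k := norm_nonneg _
  set s : ℝ := inner ℝ u w with hs
  have hs1 : s ≤ 1 := by
    have := real_inner_le_norm u w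
    rw [hu, hw] at this; linarith
  have hks : k ^ 2 = 1 - s ^ 2 := (ge_pj_sq hw hu).1
  have hws : (inner ℝ w u : ℝ) = s := real_inner_comm u w
  have hzu : u - w = z + (s - 1) • w := by
    rw [hz, pj_apply, hws, sub_smul, one_smul]; abel
  have hduw : ‖u - w‖ ≤ 2 * k := ge_dist hw hu hin.le
  have hs2 : |s - 1| ≤ k ^ 2 := by
    rw [abs_sub_comm, abs_of_nonneg (by linarith), hks]
    nlinarith
  have hzw : (inner ℝ z w : ℝ) = 0 := pj_orth hw u
  -- the vector `v`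
  set r : ℝ := inner ℝ z p with hr
  have hr1 : |r| ≤ k * δ := by
    have e : r = inner ℝ z (p - w) := by rw [inner_sub_right, hzw, sub_zero]
    rw [e]
    refine (abs_real_inner_le_norm _ _).trans ?_
    rw [norm_sub_rev p w]
    exact mul_le_mul_of_nonneg_left hwp hk0
  set v := z - r • p with hv
  have hvz : ‖v - z‖ ≤ k * δ := by
    have e : v - z = -(r • p) := by rw [hv]; abel
    rw [e, norm_neg, norm_smul, hpn, mul_one, Real.norm_eq_abs]
    exact hr1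
  have hvb : (inner ℝ (b i) v : ℝ) = 0 := by
    have hb1 : (inner ℝ (b i) (b i) : ℝ) = 1 := by
      rw [real_inner_self_eq_norm_sq, b.norm_eq_one]; norm_num
    rw [hv, inner_sub_right, inner_smul_right, hr]
    rcases hp with rfl | rfl
    · rw [hb1, mul_one, real_inner_comm, sub_self]
    · rw [inner_neg_right, inner_neg_right, hb1, real_inner_comm]; ring
  have hvk : k / 2 ≤ ‖v‖ := by
    have e : k ≤ ‖v‖ + ‖v - z‖ := by
      have : z = v - (v - z) := by abel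
      calc k = ‖v - (v - z)‖ := by rw [hkk, ← this]
        _ ≤ _ := norm_sub_le _ _
    have : k * δ ≤ k * (1 / 2) := mul_le_mul_of_nonneg_left h2.le hk0
    linarith
  have hvk' : ‖v‖ ≤ k := by
    have hpp : (inner ℝ p p : ℝ) = 1 := by
      rw [real_inner_self_eq_norm_sq, hpn]; norm_num
    have e : ‖v‖ ^ 2 = k ^ 2 - r ^ 2 := by
      rw [← real_inner_self_eq_norm_sq, hv, inner_sub_left, inner_sub_right, inner_sub_right,
        inner_smul_left, inner_smul_right, inner_smul_left, inner_smul_right, hpp,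
        real_inner_comm z p, ← hr, real_inner_self_eq_norm_sq, ← hkk]
      simp only [conj_trivial]
      ring
    have : ‖v‖ ^ 2 ≤ k ^ 2 := by rw [e]; nlinarith [sq_nonneg r]
    exact (sq_le_sq₀ (norm_nonneg _) hk0).1 this
  -- the two errors
  have hwB : ‖w - p‖ < ρ := by linarith
  have huB : ‖u - p‖ < ρ := by
    have : ‖u - p‖ ≤ ‖u - w‖ + ‖w - p‖ := by
      have e : u - p = (u - w) + (w - p) := by abel
      rw [e]; exact norm_add_le _ _
    linarith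
  have hV1 : ‖V u - V w - H (u - w)‖ ≤ η * ‖u - w‖ := by
    have := hρ' (y := (u, w)) (by
      rw [Prod.dist_eq, dist_eq_norm, dist_eq_norm]
      exact max_lt huB hwB)
    exact this
  have he1 : ‖V u - V w - H v‖ ≤ (2 * η + 2 * N * δ) * k := by
    have e : V u - V w - H v = (V u - V w - H (u - w)) + (H (z - v) + (s - 1) • H w) := by
      have : H (u - w) = H v + (H (z - v) + (s - 1) • H w) := by
        rw [hzu, map_add, map_smul, map_sub H z v]; abel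
      rw [this]; abel
    have a1 : ‖H (z - v)‖ ≤ N * (k * δ) := by
      refine (H.le_opNorm _).trans ?_
      rw [norm_sub_rev]
      exact mul_le_mul hNH hvz (norm_nonneg _) (by linarith)
    have a2 : ‖(s - 1) • H w‖ ≤ k * δ * N := by
      rw [norm_smul, Real.norm_eq_abs]
      have : ‖H w‖ ≤ N := by
        refine (H.le_opNorm _).trans ?_
        rw [hw, mul_one]; exact hNH
      have hh : |s - 1| ≤ k * δ := by
        refine hs2.trans ?_
        rw [pow_two]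
        exact mul_le_mul_of_nonneg_left hk hk0
      exact mul_le_mul hh this (norm_nonneg _) (by positivity)
    have a3 : η * ‖u - w‖ ≤ η * (2 * k) := mul_le_mul_of_nonneg_left hduw hη0.le
    rw [e]
    have t1 := norm_add_le (V u - V w - H (u - w)) (H (z - v) + (s - 1) • H w)
    have t2 := norm_add_le (H (z - v)) ((s - 1) • H w)
    nlinarith
  have he2 : ‖Bop b μ i w u - A v‖ ≤ (N * δ) * k := by
    have e : Bop b μ i w u - A v = -((inner ℝ (A w) z : ℝ) • w) := by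
      rw [bop_apply, ← hz, ← hAx, pj_apply, hAs w z, hv, map_sub, map_smul, hAp, smul_zero,
        sub_zero]
      abel
    rw [e, norm_neg, norm_smul, hw, mul_one, Real.norm_eq_abs]
    refine (abs_real_inner_le_norm _ _).trans ?_
    refine mul_le_mul_of_nonneg_right ?_ hk0
    have e2 : A w = A (w - p) := by rw [map_sub, hAp, sub_zero]
    rw [e2]
    refine (A.le_opNorm _).trans ?_
    exact mul_le_mul hNA hwp (norm_nonneg _) (by linarith)
  have hHv : ‖H v‖ ≤ N * k := (H.le_opNorm _).trans (mul_le_mul hNH hvk' (norm_nonneg _)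
    (by linarith))
  have hAv : ‖A v‖ ≤ N * k := (A.le_opNorm _).trans (mul_le_mul hNA hvk' (norm_nonneg _)
    (by linarith))
  have hmain : c' * ‖v‖ ^ 2 ≤ inner ℝ (H v) (A v) := by
    have h5 := la_hess hF hμ hc hobs i hp v hvb
    have h6 := la3_low hγ hγ' hvb
    rw [← hV, ← hH, ← hAx] at h5
    rw [← hAx] at h6
    refine le_trans ?_ h5
    rw [hc', mul_assoc]
    exact mul_le_mul_of_nonneg_left h6 hc.le
  refine la3_fin (n := n) (k := k) (c' := c') (N := N) (s1 := 2 * η + 2 * N * δ) (s2 := N * δ)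
    (H := H v) (v := v) (A := A v) (e1 := V u - V w - H v) (e2 := Bop b μ i w u - A v)
    hk0 ?_ hmain hc'0 hvk he1 he2 hHv hAv ?_
  · -- the numerical inequality
    have q0 : 56 * N ^ 2 * η = c' := by rw [hη]; field_simp
    have q1 : N ^ 2 * δ ≤ N ^ 2 * η := mul_le_mul_of_nonneg_left h3.le (by positivity)
    have q2 : N * η ≤ N ^ 2 * η := by
      have : N ≤ N ^ 2 := by nlinarith
      exact mul_le_mul_of_nonneg_right this hη0.le
    have q3 : N ^ 2 * δ * δ ≤ N ^ 2 * δ * 1 :=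
      mul_le_mul_of_nonneg_left (by linarith) (by positivity)
    have q4 : N * η * δ ≤ N * η * 1 :=
      mul_le_mul_of_nonneg_left (by linarith) (by positivity)
    nlinarith
  · have e1 : H v + (V u - V w - H v) = V u - V w := by abel
    have e2 : A v + (Bop b μ i w u - A v) = Bop b μ i w u := by abel
    rw [e1, e2]

theorem la_mono {F : E n → ℝ} (hF : Sm 2 F) {b : OrthonormalBasis (Fin n) ℝ (E n)}
    {μ : Fin n → ℝ} (hμ : Function.Injective μ) {c : ℝ} (hc : 0 < c)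
    (hobs : ∀ u, ‖u‖ = 1 →
      c * ‖xi (Lop b μ) u‖ ^ 2 ≤ inner ℝ (gradient F u) (xi (Lop b μ) u)) :
    ∃ κ d : ℝ, 0 < κ ∧ κ ≤ 1 / 2 ∧ 0 < d ∧ d ≤ 1 / 2 ∧ ∀ i w u, ‖w‖ = 1 → ‖u‖ = 1 →
      dd (b i) w ≤ d → 0 < inner ℝ u w → ‖Pj w u‖ ≤ κ →
      0 ≤ inner ℝ (gradient F u - gradient F w) (Bop b μ i w u) := by
  have h1 : ∀ᶠ δ in nhdsWithin (0 : ℝ) (Ioi 0), ∀ (i : Fin n) (w u : E n), ‖w‖ = 1 → ‖u‖ = 1 →
      ‖w - b i‖ ≤ δ → 0 < inner ℝ u w → ‖Pj w u‖ ≤ δ →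
      0 ≤ inner ℝ (gradient F u - gradient F w) (Bop b μ i w u) :=
    Filter.eventually_all.2 fun i => la3_pt hF hμ hc hobs i (Or.inl rfl)
  have h2 : ∀ᶠ δ in nhdsWithin (0 : ℝ) (Ioi 0), ∀ (i : Fin n) (w u : E n), ‖w‖ = 1 → ‖u‖ = 1 →
      ‖w - -b i‖ ≤ δ → 0 < inner ℝ u w → ‖Pj w u‖ ≤ δ →
      0 ≤ inner ℝ (gradient F u - gradient F w) (Bop b μ i w u) :=
    Filter.eventually_all.2 fun i => la3_pt hF hμ hc hobs i (Or.inr rfl)
  have h3 : ∀ᶠ δ in nhdsWithin (0 : ℝ) (Ioi 0), δ < 1 / 2 :=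
    nhdsWithin_le_nhds (Iio_mem_nhds (by norm_num))
  have h4 : ∀ᶠ δ in nhdsWithin (0 : ℝ) (Ioi 0), 0 < δ := self_mem_nhdsWithin
  obtain ⟨δ, ⟨⟨e1, e2⟩, e3⟩, e4⟩ := (((h1.and h2).and h3).and h4).exists
  refine ⟨δ, δ, e4, e3.le, e4, e3.le, fun i w u hw hu hd hin hk => ?_⟩
  rcases min_le_iff.1 hd with h | h
  · exact e1 i w u hw hu h hin hk
  · refine e2 i w u hw hu ?_ hin hk
    rw [sub_neg_eq_add]; exact h

end Pool.Agent.H88.CN
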