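import Pool.Agent.H88.CN.PZ
import Pool.Agent.H88.CN.OP

/-!
# CN-LB1: a lower bound for the integral of `‖xi‖²` over arcs

The unit vector `un (s w + v)` is within `η` of a given unit vector `p` only for `s` in an interval
of length `12 η`; outside these intervals `‖xi‖ ≥ c0 η` by `pz`.
-/

namespace Pool.Agent.H88.CN

open MeasureTheory Metric Set Pool.Agent.H35.CA

variable {n : ℕ}

private theorem lb1_norm {w v : E n} (hw : ‖w‖ = 1) (hv : ‖v‖ = 1) (hwv : inner ℝ w v = 0)
    (s : ℝ) : ‖s • w + v‖ = Real.sqrt (1 + s ^ 2) := by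
  have h1 : ‖s • w + v‖ ^ 2 = 1 + s ^ 2 := by
    rw [norm_add_sq_real, norm_smul, hw, hv, inner_smul_left, hwv]
    simp
    ring
  rw [← h1, Real.sqrt_sq (norm_nonneg _)]

private theorem lb1_rt {s : ℝ} (hs : |s| ≤ 1) :
    1 ≤ Real.sqrt (1 + s ^ 2) ∧ Real.sqrt (1 + s ^ 2) ≤ 3 / 2 := by
  have h1 : s ^ 2 ≤ 1 := by
    rw [← sq_abs]
    nlinarith [abs_nonneg s]
  constructor
  · rw [Real.one_le_sqrt]
    nlinarith [sq_nonneg s]
  · rw [Real.sqrt_le_left (by norm_num)]
    nlinarith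

private theorem lb1_in {w v : E n} (hw : ‖w‖ = 1) (hv : ‖v‖ = 1) (hwv : inner ℝ w v = 0)
    (s : ℝ) : inner ℝ (un (s • w + v)) w = s / Real.sqrt (1 + s ^ 2) ∧
      inner ℝ (un (s • w + v)) v = 1 / Real.sqrt (1 + s ^ 2) ∧ ‖un (s • w + v)‖ = 1 := by
  have hvw : inner ℝ v w = 0 := by rw [real_inner_comm]; exact hwv
  have h0 : 0 < Real.sqrt (1 + s ^ 2) := Real.sqrt_pos.2 (by positivity)
  refine ⟨?_, ?_, ?_⟩
  · unfold un
    rw [lb1_norm hw hv hwv, inner_smul_left, inner_add_left, inner_smul_left, hvw,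
      real_inner_self_eq_norm_sq, hw]
    simp
    field_simp
  · unfold un
    rw [lb1_norm hw hv hwv, inner_smul_left, inner_add_left, inner_smul_left, hwv,
      real_inner_self_eq_norm_sq, hv]
    simp
  · unfold un
    rw [norm_smul, norm_inv, norm_norm, inv_mul_cancel₀]
    rw [lb1_norm hw hv hwv]
    exact h0.ne'

private theorem lb1_bad {w v p : E n} (hw : ‖w‖ = 1) (hv : ‖v‖ = 1) (hwv : inner ℝ w v = 0)
    (hp : ‖p‖ = 1) {s η : ℝ} (hs : |s| ≤ 1) (hη0 : 0 ≤ η) (hη : η ≤ 1 / 10)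
    (h : ‖un (s • w + v) - p‖ ≤ η) :
    |s - inner ℝ p w / inner ℝ p v| ≤ 6 * η := by
  obtain ⟨i1, i2, i3⟩ := lb1_in hw hv hwv s
  obtain ⟨r1, r2⟩ := lb1_rt hs
  set u := un (s • w + v) with hu
  set r := Real.sqrt (1 + s ^ 2) with hr
  have a1 : |(inner ℝ u w : ℝ) - inner ℝ p w| ≤ η := by
    rw [← inner_sub_left]
    calc |(inner ℝ (u - p) w : ℝ)| ≤ ‖u - p‖ * ‖w‖ := abs_real_inner_le_norm _ _
      _ ≤ η := by rw [hw, mul_one]; exact h
  have a2 : |(inner ℝ u v : ℝ) - inner ℝ p v| ≤ η := by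
    rw [← inner_sub_left]
    calc |(inner ℝ (u - p) v : ℝ)| ≤ ‖u - p‖ * ‖v‖ := abs_real_inner_le_norm _ _
      _ ≤ η := by rw [hv, mul_one]; exact h
  have a3 : (2 : ℝ) / 3 ≤ inner ℝ u v := by
    rw [i2, div_le_div_iff₀ (by norm_num) (by linarith)]
    linarith
  have a4 : (1 : ℝ) / 2 ≤ inner ℝ p v := by
    have := (abs_le.1 a2).2
    linarith
  have a5 : s * inner ℝ u v = inner ℝ u w := by
    rw [i1, i2]; ring
  have a6 : s - inner ℝ p w / inner ℝ p v =
      ((inner ℝ u w - inner ℝ p w) - s * (inner ℝ u v - inner ℝ p v)) / inner ℝ p v := by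
    have : (inner ℝ p v : ℝ) ≠ 0 := by
      intro h0; rw [h0] at a4; norm_num at a4
    field_simp
    rw [← a5]
    ring
  rw [a6, abs_div, abs_of_pos (by linarith : (0 : ℝ) < inner ℝ p v), div_le_iff₀ (by linarith)]
  have a7 : |(inner ℝ u w - inner ℝ p w) - s * ((inner ℝ u v : ℝ) - inner ℝ p v)| ≤ 2 * η := by
    refine (abs_sub _ _).trans ?_
    rw [abs_mul]
    have : |s| * |(inner ℝ u v : ℝ) - inner ℝ p v| ≤ 1 * η :=
      mul_le_mul hs a2 (abs_nonneg _) (by norm_num)
    linarith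
  refine a7.trans ?_
  nlinarith

theorem lb1 (b : OrthonormalBasis (Fin n) ℝ (E n)) {μ : Fin n → ℝ}
    (hμ : Function.Injective μ) : ∃ c : ℝ, 0 < c ∧ ∀ w v : E n, ‖w‖ = 1 → ‖v‖ = 1 →
      inner ℝ w v = 0 →
      c ≤ ∫ s in (-1 : ℝ)..1, ‖xi (Lop b μ) (un (s • w + v))‖ ^ 2 := by
  obtain ⟨c0, hc0, hpz⟩ := pz b hμ
  set η : ℝ := 1 / (24 * ((n : ℝ) + 1)) with hη
  have hn0 : (0 : ℝ) ≤ n := Nat.cast_nonneg n
  have hη0 : 0 < η := by positivity
  have hη1 : η ≤ 1 / 10 := by
    rw [hη]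
    apply one_div_le_one_div_of_le (by norm_num)
    linarith
  refine ⟨c0 ^ 2 * η ^ 2, by positivity, ?_⟩
  intro w v hw hv hwv
  set f : ℝ → ℝ := fun s => ‖xi (Lop b μ) (un (s • w + v))‖ ^ 2 with hf
  have hcont : Continuous f := by
    have h1 : Continuous (fun s : ℝ => un (s • w + v)) := by
      have h3 : Continuous (fun s : ℝ => s • w + v) := by fun_prop
      have h4 : Continuous (fun s : ℝ => ‖s • w + v‖⁻¹) := by
        refine Continuous.inv₀ h3.norm ?_
        intro s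
        rw [lb1_norm hw hv hwv]
        exact (Real.sqrt_pos.2 (by positivity)).ne'
      exact h4.smul h3
    have h2 : Continuous (fun x : E n => xi (Lop b μ) x) := by
      unfold xi
      fun_prop
    exact ((h2.comp h1).norm).pow 2
  set bad : Set ℝ := ⋃ i : Fin n, (closedBall (inner ℝ (b i) w / inner ℝ (b i) v : ℝ) (6 * η) ∪
    closedBall (inner ℝ (-b i) w / inner ℝ (-b i) v : ℝ) (6 * η)) with hbad
  have hbm : MeasurableSet bad := by
    rw [hbad]
    exact MeasurableSet.iUnion fun i => (isClosed_closedBall.measurableSet).union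
      isClosed_closedBall.measurableSet
  have hvol : volume bad ≤ ENNReal.ofReal 1 := by
    calc volume bad ≤ ∑' i : Fin n, volume
          (closedBall (inner ℝ (b i) w / inner ℝ (b i) v : ℝ) (6 * η) ∪
          closedBall (inner ℝ (-b i) w / inner ℝ (-b i) v : ℝ) (6 * η)) := measure_iUnion_le _
      _ ≤ ∑' i : Fin n, ENNReal.ofReal (24 * η) := by
          refine ENNReal.tsum_le_tsum fun i => (measure_union_le _ _).trans ?_
          rw [Real.volume_closedBall, Real.volume_closedBall, ← ENNReal.ofReal_add (by positivity)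
            (by positivity)]
          apply ENNReal.ofReal_le_ofReal
          linarith
      _ = ENNReal.ofReal (n * (24 * η)) := by
          rw [tsum_fintype, Finset.sum_const, Finset.card_univ, Fintype.card_fin, nsmul_eq_mul,
            ENNReal.ofReal_mul hn0, ENNReal.ofReal_natCast]
      _ ≤ ENNReal.ofReal 1 := by
          apply ENNReal.ofReal_le_ofReal
          rw [hη]
          have : (n : ℝ) * (24 * (1 / (24 * ((n : ℝ) + 1)))) = n / (n + 1) := by
            field_simp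
          rw [this, div_le_one (by positivity)]
          linarith
  have hgood : ∀ s ∈ Icc (-1 : ℝ) 1 \ bad, c0 ^ 2 * η ^ 2 ≤ f s := by
    rintro s ⟨hs, hsb⟩
    have hs1 : |s| ≤ 1 := abs_le.2 hs
    obtain ⟨_, _, i3⟩ := lb1_in hw hv hwv s
    obtain ⟨i, hi⟩ := hpz _ i3
    have h1 : η ≤ dd (b i) (un (s • w + v)) := by
      by_contra hcon
      push_neg at hcon
      apply hsb
      rw [hbad, mem_iUnion]
      refine ⟨i, ?_⟩
      unfold dd at hcon
      rcases min_lt_iff.1 hcon with h | h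
      · left
        rw [mem_closedBall, Real.dist_eq]
        exact lb1_bad hw hv hwv (b.norm_eq_one i) hs1 hη0.le hη1 h.le
      · right
        rw [mem_closedBall, Real.dist_eq]
        refine lb1_bad hw hv hwv (by rw [norm_neg]; exact b.norm_eq_one i) hs1 hη0.le hη1 ?_
        rw [sub_neg_eq_add]
        exact h.le
    have h2 : c0 * η ≤ ‖xi (Lop b μ) (un (s • w + v))‖ :=
      (mul_le_mul_of_nonneg_left h1 hc0.le).trans hi
    have h3 : (c0 * η) ^ 2 ≤ ‖xi (Lop b μ) (un (s • w + v))‖ ^ 2 :=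
      pow_le_pow_left₀ (by positivity) h2 2
    rw [mul_pow] at h3
    exact h3
  rw [intervalIntegral.integral_of_le (by norm_num), ← integral_Icc_eq_integral_Ioc]
  have hint : IntegrableOn f (Icc (-1 : ℝ) 1) := hcont.integrableOn_Icc
  have hms : MeasurableSet (Icc (-1 : ℝ) 1 \ bad) := measurableSet_Icc.diff hbm
  have hvol2 : (1 : ℝ) ≤ (volume (Icc (-1 : ℝ) 1 \ bad)).toReal := by
    have h1 : volume (Icc (-1 : ℝ) 1) ≤ volume (Icc (-1 : ℝ) 1 \ bad) + volume bad := by
      refine (measure_mono ?_).trans (measure_union_le _ _)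
      intro x hx
      by_cases hxb : x ∈ bad
      · exact Or.inr hxb
      · exact Or.inl ⟨hx, hxb⟩
    have hfin : volume (Icc (-1 : ℝ) 1 \ bad) ≠ ⊤ :=
      ((measure_mono diff_subset).trans_lt measure_Icc_lt_top).ne
    rw [Real.volume_Icc] at h1
    have h2 : ENNReal.ofReal (1 - -1) ≤
        volume (Icc (-1 : ℝ) 1 \ bad) + ENNReal.ofReal 1 := h1.trans (by gcongr)
    have h3 := ENNReal.toReal_mono (by
      exact ENNReal.add_ne_top.2 ⟨hfin, ENNReal.ofReal_ne_top⟩) h2
    rw [ENNReal.toReal_add hfin ENNReal.ofReal_ne_top, ENNReal.toReal_ofReal (by norm_num),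
      ENNReal.toReal_ofReal (by norm_num)] at h3
    linarith
  calc c0 ^ 2 * η ^ 2 ≤ c0 ^ 2 * η ^ 2 * (volume (Icc (-1 : ℝ) 1 \ bad)).toReal :=
        le_mul_of_one_le_right (by positivity) hvol2
    _ = ∫ s in Icc (-1 : ℝ) 1 \ bad, c0 ^ 2 * η ^ 2 := by
        rw [setIntegral_const, smul_eq_mul, mul_comm]
        rfl
    _ ≤ ∫ s in Icc (-1 : ℝ) 1 \ bad, f s := by
        refine setIntegral_mono_on ?_ (hint.mono_set diff_subset) hms hgood
        exact integrableOn_const ((measure_mono diff_subset).trans_lt measure_Icc_lt_top).ne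
          (by finiteness)
    _ ≤ ∫ s in Icc (-1 : ℝ) 1, f s := by
        refine setIntegral_mono_set hint ?_ (Filter.Eventually.of_forall diff_subset)
        exact Filter.Eventually.of_forall fun s => by
          change 0 ≤ ‖xi (Lop b μ) (un (s • w + v))‖ ^ 2
          positivity

end Pool.Agent.H88.CN
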