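import Pool.Agent.H88.CN.Defs

/-!
# CN-LB2: `∫ ‖D y‖ dy` over the annulus is comparable to `‖D‖`

Proof.  `Rg m` is compact, so it has finite volume and `N D = ∫_{Rg m} ‖D y‖ dy` satisfies
`|N D - N D'| ≤ 2 vol(Rg m) ‖D - D'‖`; so `N` is continuous on the finite dimensional space of
linear maps `E m →L[ℝ] E (m + 1)`, and its unit sphere is compact.  If `‖D‖ = 1` then `N D > 0`:
otherwise the continuous function `‖D y‖ ≥ 0` vanishes on the nonempty open set
`1 < ‖y‖ < 2` (`m ≥ 1`), hence (by homogeneity, any `y ≠ 0` has a multiple in this set) `D = 0`.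
Let `c` be the minimum of `N` on the unit sphere and use homogeneity.
(Alternative without compactness: for a standard basis vector `e_j` and the reflection
`σ_j` in the coordinate `j`, `‖D y‖ + ‖D (σ_j y)‖ ≥ ‖D (y - σ_j y)‖ = 2 |y_j| ‖D e_j‖`, so
`N D ≥ ‖D e_j‖ ∫ |y_j|`, and `‖D‖ ≤ ∑ ‖D e_j‖`.)
-/

namespace Pool.Agent.H88.CN

open MeasureTheory Metric Set Pool.Agent.H35.CA

variable {m : ℕ}

private theorem lb2_compact (m : ℕ) : IsCompact (Rg m) := by
  have h : Rg m = closedBall (0 : E m) 2 ∩ {y | 1 ≤ ‖y‖} := by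
    ext y
    simp only [Rg, mem_ofPred_eq, mem_inter_iff, mem_closedBall, dist_zero_right]
    tauto
  rw [h]
  exact (isCompact_closedBall 0 2).inter_right (isClosed_le continuous_const continuous_norm)

private theorem lb2_int (m : ℕ) (D : E m →L[ℝ] E (m + 1)) :
    IntegrableOn (fun y => ‖D y‖) (Rg m) :=
  (D.continuous.norm.continuousOn).integrableOn_compact (lb2_compact m)

private theorem lb2_cont (m : ℕ) :
    Continuous (fun D : E m →L[ℝ] E (m + 1) => ∫ y in Rg m, ‖D y‖) := by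
  have hfin : (volume (Rg m)) < ⊤ := (lb2_compact m).measure_lt_top
  have hL : LipschitzWith (Real.toNNReal (2 * (volume (Rg m)).toReal))
      (fun D : E m →L[ℝ] E (m + 1) => ∫ y in Rg m, ‖D y‖) := by
    refine LipschitzWith.of_dist_le_mul fun D D' => ?_
    rw [Real.coe_toNNReal _ (by positivity), Real.dist_eq, dist_eq_norm,
      ← integral_sub (lb2_int m D) (lb2_int m D'), ← Real.norm_eq_abs]
    have h1 : ‖∫ y in Rg m, (‖D y‖ - ‖D' y‖)‖ ≤ (2 * ‖D - D'‖) * (volume.real (Rg m)) := by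
      refine norm_setIntegral_le_of_norm_le_const hfin ?_
      intro y hy
      rw [Real.norm_eq_abs]
      refine (abs_norm_sub_norm_le _ _).trans ?_
      have h2 := (D - D').le_opNorm y
      rw [ContinuousLinearMap.sub_apply] at h2
      refine h2.trans ?_
      have h3 : ‖y‖ ≤ 2 := hy.2
      have h4 := norm_nonneg (D - D')
      nlinarith
    refine h1.trans (le_of_eq ?_)
    rw [Measure.real]
    ring
  exact hL.continuous

private theorem lb2_pos (m : ℕ) (D : E m →L[ℝ] E (m + 1)) (hD : D ≠ 0) :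
    0 < ∫ y in Rg m, ‖D y‖ := by
  obtain ⟨y0, hy0⟩ : ∃ y, D y ≠ 0 := by
    by_contra h
    push Not at h
    exact hD (ContinuousLinearMap.ext h)
  have hy0' : y0 ≠ 0 := by
    rintro rfl
    exact hy0 (map_zero D)
  have hn : 0 < ‖y0‖ := norm_pos_iff.2 hy0'
  rw [setIntegral_pos_iff_support_of_nonneg_ae]
  · set U : Set (E m) := {y | 1 < ‖y‖} ∩ {y | ‖y‖ < 2} ∩ {y | D y ≠ 0} with hU
    have hUo : IsOpen U := by
      refine ((isOpen_lt continuous_const continuous_norm).inter
        (isOpen_lt continuous_norm continuous_const)).inter ?_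
      exact isOpen_ne_fun D.continuous continuous_const
    have hUn : U.Nonempty := by
      refine ⟨(3 / 2 * ‖y0‖⁻¹) • y0, ⟨?_, ?_⟩, ?_⟩
      · simp only [mem_ofPred_eq]
        rw [norm_smul, Real.norm_of_nonneg (by positivity), mul_assoc, inv_mul_cancel₀ hn.ne']
        norm_num
      · simp only [mem_ofPred_eq]
        rw [norm_smul, Real.norm_of_nonneg (by positivity), mul_assoc, inv_mul_cancel₀ hn.ne']
        norm_num
      · simp only [mem_ofPred_eq]
        rw [map_smul]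
        exact smul_ne_zero (by positivity) hy0
    refine (hUo.measure_pos volume hUn).trans_le (measure_mono ?_)
    rintro y ⟨⟨h1, h2⟩, h3⟩
    refine ⟨?_, ⟨le_of_lt h1, le_of_lt h2⟩⟩
    simpa [Function.mem_support] using h3
  · filter_upwards with y using norm_nonneg _
  · exact lb2_int m D

theorem lb2 (hm : 1 ≤ m) : ∃ c : ℝ, 0 < c ∧ ∀ D : E m →L[ℝ] E (m + 1),
    c * ‖D‖ ≤ ∫ y in Rg m, ‖D y‖ := by
  have : ProperSpace (E m →L[ℝ] E (m + 1)) := FiniteDimensional.proper ℝ _
  rcases (sphere (0 : E m →L[ℝ] E (m + 1)) 1).eq_empty_or_nonempty with he | hne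
  · refine ⟨1, one_pos, fun D => ?_⟩
    have hD : D = 0 := by
      by_contra h
      have h1 : ‖D‖⁻¹ • D ∈ sphere (0 : E m →L[ℝ] E (m + 1)) 1 := by
        rw [mem_sphere_zero_iff_norm, norm_smul, norm_inv, norm_norm,
          inv_mul_cancel₀ (norm_ne_zero_iff.2 h)]
      rw [he] at h1
      exact h1
    rw [hD]
    simp
  · obtain ⟨D0, hD0, hmin⟩ := (isCompact_sphere (0 : E m →L[ℝ] E (m + 1)) 1).exists_isMinOn hne
      (lb2_cont m).continuousOn
    have hD0n : D0 ≠ 0 := by
      rintro rfl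
      simp at hD0
    refine ⟨_, lb2_pos m D0 hD0n, fun D => ?_⟩
    by_cases hD : D = 0
    · rw [hD]
      simp
    · have hn : 0 < ‖D‖ := norm_pos_iff.2 hD
      have h1 : ‖D‖⁻¹ • D ∈ sphere (0 : E m →L[ℝ] E (m + 1)) 1 := by
        rw [mem_sphere_zero_iff_norm, norm_smul, norm_inv, norm_norm, inv_mul_cancel₀ hn.ne']
      have h2 : (∫ y in Rg m, ‖D0 y‖) ≤ ∫ y in Rg m, ‖(‖D‖⁻¹ • D) y‖ := hmin h1
      have h3 : ∫ y in Rg m, ‖(‖D‖⁻¹ • D) y‖ = ‖D‖⁻¹ * ∫ y in Rg m, ‖D y‖ := by
        rw [← integral_const_mul]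
        refine integral_congr_ae ?_
        filter_upwards with y
        rw [ContinuousLinearMap.smul_apply, norm_smul, norm_inv, norm_norm]
      rw [h3] at h2
      calc (∫ y in Rg m, ‖D0 y‖) * ‖D‖ ≤ (‖D‖⁻¹ * ∫ y in Rg m, ‖D y‖) * ‖D‖ := by gcongr
        _ = ∫ y in Rg m, ‖D y‖ := by field_simp

end Pool.Agent.H88.CN
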