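import Pool.Agent.H88.CN.INT
import Pool.Agent.H88.CN.LB1
import Pool.Agent.H88.CN.LB2

/-!
# CN-LB3: the lower bound for the main term

Proof.  The factor `if ... then ‖xi L (un X)‖² else 0` is bounded by `‖L‖²` (`xi_sq`) and
measurable (`{(t, y) : |t| ≤ ‖D y‖}` is closed; `xi L` is continuous; `int_field`), so the
integrand is integrable (`int_q`).
For fixed `y ∈ Rg m` put `ρ = ‖D y‖ ∈ (0, 2]`, `v = ρ⁻¹ D y` (a unit vector orthogonal to `w`).
For `|t| ≤ ρ ≤ 2` we have `q (t, y) ≥ cq`, so the integral over `t` is at least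
`cq ∫_{-ρ}^ρ ‖xi L (un (t w + ρ v))‖² dt = cq ρ ∫_{-1}^1 ‖xi L (un (s w + v))‖² ds ≥ cq c1 ρ`
(substitution `t = ρ s`, `un (ρ x) = un x`; `c1` from `lb1`).  Now `int_fiber_lb` with
`g y = cq c1 ‖D y‖` and `lb2`: `∫_{Rg m} ‖D y‖ dy ≥ c2 ‖D‖`.
-/

namespace Pool.Agent.H88.CN

open MeasureTheory Metric Set Pool.Agent.H35.CA

variable {m : ℕ}

private theorem lb3_un_smul {n : ℕ} {r : ℝ} (hr : 0 < r) (x : E n) : un (r • x) = un x := by
  unfold un
  rw [norm_smul, Real.norm_of_nonneg hr.le, mul_inv, smul_smul, mul_comm r⁻¹, mul_assoc,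
    inv_mul_cancel₀ hr.ne', mul_one]

private theorem lb3_xi_cont {n : ℕ} (L : E n →L[ℝ] E n) : Continuous (xi L) := by
  unfold xi
  fun_prop

/-- the fibre estimate -/
theorem lb3_fiber {c1 cq Lq : ℝ} (hcq : 0 < cq) (L : E (m + 1) →L[ℝ] E (m + 1))
    (h1 : ∀ w v : E (m + 1), ‖w‖ = 1 → ‖v‖ = 1 → inner ℝ w v = 0 →
      c1 ≤ ∫ s in (-1 : ℝ)..1, ‖xi L (un (s • w + v))‖ ^ 2)
    {w : E (m + 1)} {D : E m →L[ℝ] E (m + 1)} {q : ℝ × E m → ℝ} (hF : Fr w D)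
    (hq : Dn cq Lq q) {y : E m} (hy : y ∈ Rg m) :
    cq * c1 * ‖D y‖ ≤ ∫ t : ℝ, (if |t| ≤ ‖D y‖ then ‖xi L (un (X w D (t, y)))‖ ^ 2 else 0) *
      q (t, y) := by
  obtain ⟨hρ, -, hρ2, -⟩ := ge_rho_le hF hy
  set ρ := ‖D y‖ with hρdef
  set f : ℝ → ℝ := fun t => ‖xi L (un (X w D (t, y)))‖ ^ 2 with hf
  have hfc : Continuous f := by
    have h2 : Continuous fun t : ℝ => un (X w D (t, y)) := by
      have h3 := (ge_cont hF).1
      exact h3.comp_continuous (by fun_prop) fun t => ⟨mem_univ _, hy⟩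
    exact ((lb3_xi_cont L).comp h2).norm.pow 2
  have hqc : Continuous fun t : ℝ => q (t, y) :=
    hq.cont.comp_continuous (by fun_prop) fun t => ⟨mem_univ _, hy⟩
  have hind : (fun t : ℝ => (if |t| ≤ ρ then f t else 0) * q (t, y)) =
      (Icc (-ρ) ρ).indicator fun t => f t * q (t, y) := by
    funext t
    by_cases ht : |t| ≤ ρ
    · rw [if_pos ht, indicator_of_mem (s := Icc (-ρ) ρ) (abs_le.1 ht)]
    · rw [if_neg ht, indicator_of_notMem (s := Icc (-ρ) ρ) (fun h => ht (abs_le.2 h)), zero_mul]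
  have hint : IntegrableOn (fun t => f t * q (t, y)) (Icc (-ρ) ρ) :=
    (hfc.mul hqc).continuousOn.integrableOn_compact isCompact_Icc
  have e1 : ∫ t : ℝ, (if |t| ≤ ρ then f t else 0) * q (t, y) =
      ∫ t in Icc (-ρ) ρ, f t * q (t, y) := by
    rw [hind, integral_indicator measurableSet_Icc]
  have e2 : ∫ t in Icc (-ρ) ρ, f t * cq ≤ ∫ t in Icc (-ρ) ρ, f t * q (t, y) := by
    refine setIntegral_mono_on
      ((hfc.mul continuous_const).continuousOn.integrableOn_compact isCompact_Icc) hint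
      measurableSet_Icc fun t ht => ?_
    exact mul_le_mul_of_nonneg_left
      (hq.lower t ((abs_le.2 ⟨ht.1, ht.2⟩).trans hρ2) y hy) (sq_nonneg _)
  have e3 : ∫ t in Icc (-ρ) ρ, f t * cq = (∫ t in (-ρ)..ρ, f t) * cq := by
    rw [integral_Icc_eq_integral_Ioc, ← intervalIntegral.integral_of_le (by linarith),
      intervalIntegral.integral_mul_const]
  have e4 : c1 ≤ ∫ s in (-1 : ℝ)..1, f (ρ * s) := by
    have h5 := h1 w (ρ⁻¹ • D y) hF.nw (by
      rw [norm_smul, norm_inv, Real.norm_of_nonneg hρ.le, ← hρdef, inv_mul_cancel₀ hρ.ne']) (by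
      rw [inner_smul_right, hF.orth y, mul_zero])
    refine h5.trans (le_of_eq ?_)
    refine intervalIntegral.integral_congr fun s _ => ?_
    have h6 : X w D (ρ * s, y) = ρ • (s • w + ρ⁻¹ • D y) := by
      show (ρ * s) • w + D y = _
      rw [smul_add, smul_smul, smul_smul, mul_inv_cancel₀ hρ.ne', one_smul]
    simp only [hf]
    rw [h6, lb3_un_smul hρ]
  have e5 : ∫ s in (-1 : ℝ)..1, f (ρ * s) = ρ⁻¹ * ∫ t in (-ρ)..ρ, f t := by
    rw [intervalIntegral.integral_comp_mul_left _ hρ.ne', smul_eq_mul, mul_one, mul_neg_one]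
  have e6 : c1 * ρ ≤ ∫ t in (-ρ)..ρ, f t := by
    rw [e5] at e4
    have h7 := mul_le_mul_of_nonneg_right e4 hρ.le
    refine h7.trans (le_of_eq ?_)
    rw [mul_comm ρ⁻¹, mul_assoc, inv_mul_cancel₀ hρ.ne', mul_one]
  calc cq * c1 * ρ = (c1 * ρ) * cq := by ring
    _ ≤ (∫ t in (-ρ)..ρ, f t) * cq := mul_le_mul_of_nonneg_right e6 hcq.le
    _ = ∫ t in Icc (-ρ) ρ, f t * cq := e3.symm
    _ ≤ _ := e2
    _ = _ := e1.symm

theorem lb3 (hm : 1 ≤ m) (b : OrthonormalBasis (Fin (m + 1)) ℝ (E (m + 1)))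
    {μ : Fin (m + 1) → ℝ} (hμ : Function.Injective μ) {cq : ℝ} (hcq : 0 < cq) :
    ∃ c : ℝ, 0 < c ∧ ∀ (Lq : ℝ) (w : E (m + 1)) (D : E m →L[ℝ] E (m + 1)) (q : ℝ × E m → ℝ),
    Fr w D → Dn cq Lq q →
    Integrable (fun p : ℝ × E m =>
      (if |p.1| ≤ ‖D p.2‖ then ‖xi (Lop b μ) (un (X w D p))‖ ^ 2 else 0) * q p) (nu m) ∧
    c * ‖D‖ ≤ ∫ p : ℝ × E m,
      (if |p.1| ≤ ‖D p.2‖ then ‖xi (Lop b μ) (un (X w D p))‖ ^ 2 else 0) * q p ∂(nu m) := by
  obtain ⟨c1, hc1, h1⟩ := lb1 b hμ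
  obtain ⟨c2, hc2, h2⟩ := lb2 hm
  obtain ⟨C, -, hC⟩ := int_q m
  refine ⟨cq * c1 * c2, by positivity, fun Lq w D q hF hq => ?_⟩
  have hmeas : AEStronglyMeasurable (fun p : ℝ × E m =>
      (if |p.1| ≤ ‖D p.2‖ then ‖xi (Lop b μ) (un (X w D p))‖ ^ 2 else 0)) (nu m) := by
    have h3 := (int_field hF (V := xi (Lop b μ)) (lb3_xi_cont _).continuousOn).2
    have h4 : AEStronglyMeasurable (fun p : ℝ × E m => ‖xi (Lop b μ) (un (X w D p))‖ ^ 2)
        (nu m) := h3.norm.pow 2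
    have h5 : MeasurableSet {p : ℝ × E m | |p.1| ≤ ‖D p.2‖} :=
      (isClosed_le (by fun_prop) (by fun_prop)).measurableSet
    have h6 := h4.indicator h5
    refine h6.congr (Filter.Eventually.of_forall fun p => ?_)
    by_cases hp : |p.1| ≤ ‖D p.2‖
    · rw [indicator_of_mem (show p ∈ {p : ℝ × E m | |p.1| ≤ ‖D p.2‖} from hp)]
      exact (if_pos hp).symm
    · rw [indicator_of_notMem (show p ∉ {p : ℝ × E m | |p.1| ≤ ‖D p.2‖} from hp)]
      exact (if_neg hp).symm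
  have hint := (hC cq Lq q hq _ (‖Lop b μ‖ ^ 2) hmeas (sq_nonneg _) (fun t y hy => by
    dsimp only
    split_ifs
    · rw [abs_of_nonneg (sq_nonneg _)]
      exact pow_le_pow_left₀ (norm_nonneg _) (xi_sq _ (ge_pos hF t hy).2.2).2 2
    · rw [abs_zero]
      exact sq_nonneg _)).1
  refine ⟨hint, ?_⟩
  have h7 := int_fiber_lb (g := fun y => cq * c1 * ‖D y‖) hint
    ((by fun_prop : Continuous fun y => cq * c1 * ‖D y‖).continuousOn.integrableOn_compact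
      (rg_compact m)) (fun y hy => lb3_fiber hcq _ h1 hF hq hy)
  refine le_trans ?_ h7
  rw [integral_const_mul, mul_assoc]
  exact mul_le_mul_of_nonneg_left (h2 D) (by positivity)

end Pool.Agent.H88.CN
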