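import Pool.Agent.H88.CN.Defs

/-!
# CN-PZ: the field `xi` vanishes linearly at the eigenvectors

Proof.  If `n = 0` there is no unit vector.  Let `u` be a unit vector, `u_j = ⟨b j, u⟩`,
`∑ u_j² = 1`, `a = ⟨L u, u⟩ = ∑ μ_j u_j²`.  Then `xi u = ∑ (μ_j - a) u_j b_j`, so
`‖xi u‖² = ∑ (μ_j - a)² u_j²`.  Let `γ > 0` be such that `|μ_i - μ_j| ≥ γ` for `i ≠ j` (finitely
many pairs, `μ` injective; `γ = 1` if there is no pair).  Choose `i` minimising `|μ_i - a|`.  For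
`j ≠ i`, `γ ≤ |μ_i - μ_j| ≤ |μ_i - a| + |μ_j - a| ≤ 2 |μ_j - a|`.  So
`‖xi u‖² ≥ (γ²/4) ∑_{j ≠ i} u_j² = (γ²/4) (1 - u_i²)`, and
`dd (b i) u ² = min (2 - 2 u_i) (2 + 2 u_i) = 2 (1 - |u_i|) ≤ 2 (1 - u_i²)`.
Hence `c = γ/4` works (`γ²/16 * dd² ≤ γ²/8 (1 - u_i²)`).
-/

namespace Pool.Agent.H88.CN

open MeasureTheory Metric Set Pool.Agent.H35.CA

variable {n : ℕ}

private theorem pz_gap {μ : Fin n → ℝ} (hμ : Function.Injective μ) :
    ∃ γ : ℝ, 0 < γ ∧ ∀ i j, i ≠ j → γ ≤ |μ i - μ j| := by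
  rcases isEmpty_or_nonempty {p : Fin n × Fin n // p.1 ≠ p.2} with h | h
  · exact ⟨1, one_pos, fun i j hij => (h.false ⟨(i, j), hij⟩).elim⟩
  · obtain ⟨p, hp⟩ := Finite.exists_min
      (fun p : {p : Fin n × Fin n // p.1 ≠ p.2} => |μ p.1.1 - μ p.1.2|)
    refine ⟨|μ p.1.1 - μ p.1.2|, ?_, fun i j hij => hp ⟨(i, j), hij⟩⟩
    rw [abs_pos, sub_ne_zero]
    exact fun h => p.2 (hμ h)

private theorem pz_inner (b : OrthonormalBasis (Fin n) ℝ (E n)) (μ : Fin n → ℝ) (u : E n)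
    (j : Fin n) : (inner ℝ (b j) (Lop b μ u) : ℝ) = μ j * inner ℝ (b j) u := by
  have hL : Lop b μ u = ∑ i, (μ i * inner ℝ (b i) u) • b i := by
    simp only [Lop, ContinuousLinearMap.sum_apply, ContinuousLinearMap.smul_apply,
      ContinuousLinearMap.smulRight_apply, innerSL_apply_apply, smul_smul]
  rw [hL, inner_sum, Finset.sum_eq_single j]
  · rw [inner_smul_right, real_inner_self_eq_norm_sq, b.norm_eq_one]
    ring
  · intro i _ hij
    rw [inner_smul_right, b.orthonormal.2 (Ne.symm hij), mul_zero]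
  · intro h
    exact (h (Finset.mem_univ j)).elim

private theorem le_of_sq_le_sq {x y : ℝ} (h : x ^ 2 ≤ y ^ 2) (hy : 0 ≤ y) : x ≤ y :=
  abs_le_of_sq_le_sq' h hy |>.2

theorem pz (b : OrthonormalBasis (Fin n) ℝ (E n)) {μ : Fin n → ℝ}
    (hμ : Function.Injective μ) : ∃ c : ℝ, 0 < c ∧ ∀ u : E n, ‖u‖ = 1 →
      ∃ i, c * dd (b i) u ≤ ‖xi (Lop b μ) u‖ := by
  obtain ⟨γ, hγ, hgap⟩ := pz_gap hμ
  refine ⟨γ / 4, by positivity, fun u hu => ?_⟩
  have hne : Nonempty (Fin n) := by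
    by_contra hcon
    rw [not_nonempty_iff] at hcon
    have : u = 0 := by
      ext i
      exact (hcon.false i).elim
    rw [this, norm_zero] at hu
    exact zero_ne_one hu
  set a : ℝ := inner ℝ (Lop b μ u) u with ha
  obtain ⟨i, hi⟩ := Finite.exists_min (fun j => |μ j - a|)
  refine ⟨i, ?_⟩
  have hsum : ∑ j, (inner ℝ (b j) u : ℝ) ^ 2 = 1 := by
    have h := b.sum_sq_norm_inner_right u
    rw [hu] at h
    simp only [Real.norm_eq_abs, sq_abs, one_pow] at h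
    exact h
  have hxi : ‖xi (Lop b μ) u‖ ^ 2 = ∑ j, ((μ j - a) * inner ℝ (b j) u) ^ 2 := by
    have h := b.sum_sq_norm_inner_right (xi (Lop b μ) u)
    simp only [Real.norm_eq_abs, sq_abs] at h
    rw [← h]
    refine Finset.sum_congr rfl fun j _ => ?_
    rw [xi, inner_sub_right, inner_smul_right, pz_inner, ← ha]
    ring
  have hlow : γ ^ 2 / 4 * (1 - (inner ℝ (b i) u : ℝ) ^ 2) ≤ ‖xi (Lop b μ) u‖ ^ 2 := by
    rw [hxi, ← hsum, ← Finset.add_sum_erase _ _ (Finset.mem_univ i), add_sub_cancel_left,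
      Finset.mul_sum, ← Finset.add_sum_erase _ _ (Finset.mem_univ i)]
    refine le_add_of_nonneg_of_le (sq_nonneg _) (Finset.sum_le_sum fun j hj => ?_)
    have hji : i ≠ j := fun h => by simp [h] at hj
    have h1 := hgap i j hji
    have h2 : |μ i - a| ≤ |μ j - a| := hi j
    have h3 : |μ i - μ j| ≤ |μ i - a| + |μ j - a| := by
      have := abs_sub (μ i - a) (μ j - a)
      simpa using this
    have h4 : γ / 2 ≤ |μ j - a| := by linarith
    have h5 : (γ / 2) ^ 2 ≤ (μ j - a) ^ 2 := by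
      rw [← sq_abs (μ j - a)]
      exact pow_le_pow_left₀ (by positivity) h4 2
    rw [mul_pow]
    have h6 := mul_le_mul_of_nonneg_right h5 (sq_nonneg (inner ℝ (b j) u : ℝ))
    nlinarith
  have hbi : ‖b i‖ = 1 := b.norm_eq_one i
  have hU : |(inner ℝ (b i) u : ℝ)| ≤ 1 := by
    have := abs_real_inner_le_norm (b i) u
    rw [hbi, hu] at this
    simpa using this
  have hm : ‖u - b i‖ ^ 2 = 2 - 2 * inner ℝ (b i) u := by
    rw [norm_sub_sq_real, hu, hbi, real_inner_comm]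
    ring
  have hp : ‖u + b i‖ ^ 2 = 2 + 2 * inner ℝ (b i) u := by
    rw [norm_add_sq_real, hu, hbi, real_inner_comm]
    ring
  have hdd0 : 0 ≤ dd (b i) u := le_min (norm_nonneg _) (norm_nonneg _)
  have hdd : dd (b i) u ^ 2 ≤ 2 * (1 - (inner ℝ (b i) u : ℝ) ^ 2) := by
    have hU' := abs_le.mp hU
    rcases le_total 0 (inner ℝ (b i) u : ℝ) with h0 | h0
    · have h1 : dd (b i) u ^ 2 ≤ ‖u - b i‖ ^ 2 :=
        pow_le_pow_left₀ hdd0 (min_le_left _ _) 2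
      rw [hm] at h1
      nlinarith [hU'.2]
    · have h1 : dd (b i) u ^ 2 ≤ ‖u + b i‖ ^ 2 :=
        pow_le_pow_left₀ hdd0 (min_le_right _ _) 2
      rw [hp] at h1
      nlinarith [hU'.1]
  have hfin : (γ / 4 * dd (b i) u) ^ 2 ≤ ‖xi (Lop b μ) u‖ ^ 2 := by
    have h1 := mul_le_mul_of_nonneg_left hdd (by positivity : 0 ≤ γ ^ 2 / 16)
    have h2 : 0 ≤ γ ^ 2 / 8 * (1 - (inner ℝ (b i) u : ℝ) ^ 2) := by
      have : 0 ≤ 1 - (inner ℝ (b i) u : ℝ) ^ 2 := by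
        have := (sq_le_one_iff_abs_le_one _).mpr hU
        linarith
      positivity
    nlinarith
  exact le_of_sq_le_sq hfin (norm_nonneg _)

end Pool.Agent.H88.CN
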