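import Pool.Agent.H88.CN.HH4
import Pool.Agent.H35.CA.Top

/-!
# CN-RES: from functions on the sphere to their extensions (done by helper88)
-/

namespace Pool.Agent.H88.CN

open MeasureTheory Metric Set Pool.Agent.H35.CA

variable {n : ℕ}

theorem res_hom (f : Sph n → ℝ) (t : ℝ) (ht : 0 < t) (x : E n) :
    extS f (t • x) = extS f x := by
  by_cases hx : x = 0
  · simp [hx]
  · have htx : t • x ≠ 0 := smul_ne_zero ht.ne' hx
    rw [extS_of_ne _ htx, extS_of_ne _ hx]
    congr 1
    apply Subtype.ext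
    change un (t • x) = un x
    unfold un
    rw [norm_smul, Real.norm_of_nonneg ht.le, smul_smul]
    congr 1
    rw [mul_inv]
    field_simp

theorem res_sm {k : ℕ} {f : Sph n → ℝ} (h : ContDiffOn ℝ k (extS f) {0}ᶜ) : Sm k (extS f) :=
  ⟨res_hom f, h⟩

theorem res_ne {u : E n} (hu : ‖u‖ = 1) : u ≠ 0 := by
  intro h
  rw [h, norm_zero] at hu
  exact zero_ne_one hu

theorem res_norm (u : Sph n) : ‖(u : E n)‖ = 1 := by
  have := u.2
  rwa [mem_sphere_zero_iff_norm] at this

/-- Two functions which agree off the origin have the same gradient off the origin. -/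
theorem res_grad {F G : E n → ℝ} (h : ∀ x, x ≠ 0 → F x = G x) {x : E n} (hx : x ≠ 0) :
    gradient F x = gradient G x := by
  have h1 : F =ᶠ[nhds x] G := by
    filter_upwards [isOpen_compl_singleton.mem_nhds hx] with y hy
    exact h y hy
  unfold gradient
  rw [h1.fderiv_eq]

/-- Two functions which are homogeneous of degree 0 and agree on the sphere agree off the
origin. -/
theorem res_eq {F G : E n → ℝ} (hF : ∀ t : ℝ, 0 < t → ∀ x, F (t • x) = F x)
    (hG : ∀ t : ℝ, 0 < t → ∀ x, G (t • x) = G x) (h : ∀ u, ‖u‖ = 1 → F u = G u) (x : E n)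
    (hx : x ≠ 0) : F x = G x := by
  have h1 : (0 : ℝ) < ‖x‖⁻¹ := inv_pos.2 (norm_pos_iff.2 hx)
  rw [← hF _ h1 x, ← hG _ h1 x]
  apply h
  rw [norm_smul, norm_inv, norm_norm, inv_mul_cancel₀ (norm_ne_zero_iff.2 hx)]

end Pool.Agent.H88.CN
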