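import Pool.Agent.H88.CN.LB3
import Pool.Agent.H88.CN.PZ

/-!
# CN-S1: location of the long axis and smallness of the short ones

Proof.  Write `L = Lop b μ`, `x = un (X w D p)`, `ξ = xi L`, `G = V - V0`; all fields are
continuous on the sphere (`V0` Lipschitz, `G` Hölder with `α > 0`), use `int_field`, `int_q`.
(1) `KW` with `B = L`: `0 = ∫ ⟨V x, L x⟩ q`.  `V x` is orthogonal to `x` (`Ob.tan`, `Pt.tan`), so
`⟨V x, L x⟩ = ⟨V x, ξ x⟩` (`xi_inner`) `= ⟨V0 x, ξ x⟩ + ⟨G x, ξ x⟩ ≥ c ‖ξ x‖² - ε ‖ξ x‖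
≥ (c/2) ‖ξ x‖² - ε²/(2c)`.  So `J := ∫ ‖ξ x‖² q ≤ (ε²/c²) ∫ q ≤ C ε²` (`int_q` with `Φ = 1`).
(2) `lb3`: `c3 ‖D‖ ≤ ∫ (if ..) q ≤ J`, hence `‖D‖ ≤ C ε²`.
(3) For `1 ≤ t ≤ 2`, `y ∈ Rg m`: `‖X‖ ≥ t ≥ 1` and `sg t = 1`, so by `ge_dist_sg`
`‖x - w‖ ≤ 2 ‖D y‖ ≤ 4 ‖D‖`, and by `xi_lip` `‖ξ w‖ ≤ ‖ξ x‖ + 16 ‖L‖ ‖D‖`,
`‖ξ w‖² ≤ 2 ‖ξ x‖² + 512 ‖L‖² ‖D‖²`.  Multiply by `q ≥ cq` on `[1,2] × Rg m` and integrate:
`cq vol(Rg m) ‖ξ w‖² ≤ 2 J + 512 ‖L‖² ‖D‖² ∫ q ≤ C ε²` (as `‖D‖² ≤ C² ε⁴ ≤ C² ε²`), with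
`vol (Rg m) > 0` because `m ≥ 1`.  Hence `‖ξ w‖ ≤ C ε`, and `pz` gives `i` with
`dd (b i) w ≤ C ε`.
-/

namespace Pool.Agent.H88.CN

open MeasureTheory Metric Set Pool.Agent.H35.CA

variable {m : ℕ}

private theorem s1_vol (hm : 1 ≤ m) : 0 < (volume (Rg m)).toReal := by
  refine ENNReal.toReal_pos ?_ (rg_meas m).2
  have hopen : IsOpen {y : E m | 1 < ‖y‖ ∧ ‖y‖ < 2} :=
    (isOpen_lt continuous_const continuous_norm).inter
      (isOpen_lt continuous_norm continuous_const)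
  have hne : {y : E m | 1 < ‖y‖ ∧ ‖y‖ < 2}.Nonempty := by
    refine ⟨EuclideanSpace.single (⟨0, hm⟩ : Fin m) (3 / 2 : ℝ), ?_⟩
    simp only [mem_setOf_eq, PiLp.norm_single]
    norm_num
  have h1 := hopen.measure_pos volume hne
  have h2 : {y : E m | 1 < ‖y‖ ∧ ‖y‖ < 2} ⊆ Rg m := fun y hy => ⟨hy.1.le, hy.2.le⟩
  exact (h1.trans_le (measure_mono h2)).ne'

private theorem s1_slab (m : ℕ) :
    (nu m).real (Icc (1 : ℝ) 2 ×ˢ (univ : Set (E m))) = (volume (Rg m)).toReal := by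
  unfold nu
  rw [Measure.real, Measure.prod_prod, Measure.restrict_apply_univ, Real.volume_Icc]
  norm_num

private theorem s1_hold {n : ℕ} {F : E n → E n} {ε α : ℝ} (hα : 0 < α)
    (h : ∀ u v, ‖u‖ = 1 → ‖v‖ = 1 → ‖F u - F v‖ ≤ ε * ‖u - v‖ ^ α) :
    ContinuousOn F (sphere 0 1) := by
  intro u hu
  have hu1 : ‖u‖ = 1 := mem_sphere_zero_iff_norm.mp hu
  have hc : Continuous fun v : E n => ε * ‖v - u‖ ^ α :=
    continuous_const.mul ((continuous_id.sub continuous_const).norm.rpow_const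
      (fun _ => Or.inr hα.le))
  have ht := hc.tendsto u
  simp only [sub_self, norm_zero, Real.zero_rpow hα.ne', mul_zero] at ht
  refine tendsto_iff_norm_sub_tendsto_zero.mpr ?_
  refine squeeze_zero' (Filter.Eventually.of_forall fun _ => norm_nonneg _) ?_
    (ht.mono_left nhdsWithin_le_nhds)
  filter_upwards [self_mem_nhdsWithin] with v hv
  exact h v u (mem_sphere_zero_iff_norm.mp hv) hu1

private theorem s1_sq {c ε z a : ℝ} (hc : 0 < c) (h1 : c * z ^ 2 - ε * z ≤ a) :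
    c / 2 * z ^ 2 - ε ^ 2 / (2 * c) ≤ a := by
  have h2 : c * z ^ 2 - ε * z - (c / 2 * z ^ 2 - ε ^ 2 / (2 * c)) =
      (c * z - ε) ^ 2 / (2 * c) := by
    field_simp
    ring
  have h3 : 0 ≤ (c * z - ε) ^ 2 / (2 * c) := by positivity
  linarith

theorem s1 (hm : 1 ≤ m) {b : OrthonormalBasis (Fin (m + 1)) ℝ (E (m + 1))}
    {μ : Fin (m + 1) → ℝ} (hμ : Function.Injective μ) {c M κ d : ℝ}
    {V0 : E (m + 1) → E (m + 1)} (hO : Ob b μ c M κ d V0) {cq Lq : ℝ} (hcq : 0 < cq)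
    {α : ℝ} (hα : 0 < α) :
    ∃ C : ℝ, 0 < C ∧ ∀ ε : ℝ, 0 < ε → ε ≤ 1 → ∀ V : E (m + 1) → E (m + 1),
    Pt ε α (fun u => V u - V0 u) → ∀ (w : E (m + 1)) (D : E m →L[ℝ] E (m + 1))
    (q : ℝ × E m → ℝ), Fr w D → Dn cq Lq q → KW V w D q →
    ‖D‖ ≤ C * ε ^ 2 ∧ ∃ i, dd (b i) w ≤ C * ε := by
  obtain ⟨c3, hc3, h3⟩ := lb3 hm b hμ hcq
  obtain ⟨C1, hC1, h1⟩ := int_q m
  obtain ⟨cp, hcp, hp⟩ := pz b hμ
  have hv := s1_vol hm
  set v := (volume (Rg m)).toReal with hvdef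
  set L := Lop b μ with hL
  have hc := hO.cpos
  set K := C1 / c ^ 2 / c3 with hK
  set K2 := 2 * (C1 / c ^ 2) / (cq * v) + 512 * ‖L‖ ^ 2 * K ^ 2 with hK2
  have hKpos : 0 < K := by positivity
  have hK2nn : 0 ≤ K2 := by positivity
  refine ⟨K + Real.sqrt K2 / cp, by positivity, ?_⟩
  intro ε hε hε1 V hV w D q hF hq hKW
  have hV0c : ContinuousOn V0 (sphere 0 1) := by
    refine s1_hold (ε := M) one_pos fun u v hu hv => ?_
    rw [Real.rpow_one]
    exact hO.lip u v hu hv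
  have hGc : ContinuousOn (fun u => V u - V0 u) (sphere 0 1) := s1_hold hα hV.hol
  have hVc : ContinuousOn V (sphere 0 1) := by
    refine (hV0c.add hGc).congr fun u _ => ?_
    simp
  have hxic : Continuous (fun u => xi L u) := by
    unfold xi
    fun_prop
  have hmV := (int_field hF hVc).2
  have hmL := (int_field hF L.continuous.continuousOn).2
  have hmx := (int_field hF hxic.continuousOn).2
  have hae := int_ae m
  -- pointwise bounds
  have hpt : ∀ t, ∀ y ∈ Rg m, c / 2 * ‖xi L (un (X w D (t, y)))‖ ^ 2 - ε ^ 2 / (2 * c) ≤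
      inner ℝ (V (un (X w D (t, y)))) (L (un (X w D (t, y)))) := by
    intro t y hy
    have hx := (ge_pos hF t hy).2.2
    set x := un (X w D (t, y))
    have e1 : inner ℝ (V x) x = 0 := by
      have e2 := hO.tan x hx
      have e3 := hV.tan x hx
      rw [inner_sub_left] at e3
      linarith
    rw [(xi_inner L e1 0).2]
    refine s1_sq hc ?_
    have e4 := hO.obs x hx
    have e5 : |inner ℝ (V x - V0 x) (xi L x)| ≤ ε * ‖xi L x‖ :=
      (abs_real_inner_le_norm _ _).trans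
        (mul_le_mul_of_nonneg_right (hV.bd x hx) (norm_nonneg _))
    have e6 := (abs_le.mp e5).1
    rw [inner_sub_left] at e6
    linarith
  have hbV : ∀ t, ∀ y ∈ Rg m, |inner ℝ (V (un (X w D (t, y)))) (L (un (X w D (t, y))))| ≤
      (M + 1) * ‖L‖ := by
    intro t y hy
    have hx := (ge_pos hF t hy).2.2
    set x := un (X w D (t, y))
    refine (abs_real_inner_le_norm _ _).trans ?_
    have e1 : ‖V x‖ ≤ M + 1 := by
      have e2 : V x = V0 x + (V x - V0 x) := by abel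
      rw [e2]
      refine (norm_add_le _ _).trans (add_le_add (hO.bd x hx) ((hV.bd x hx).trans hε1))
    have e3 : ‖L x‖ ≤ ‖L‖ := by
      have := L.le_opNorm x
      rwa [hx, mul_one] at this
    exact mul_le_mul e1 e3 (norm_nonneg _) (by linarith [hO.mpos])
  have hbx : ∀ t, ∀ y ∈ Rg m, |‖xi L (un (X w D (t, y)))‖ ^ 2| ≤ ‖L‖ ^ 2 := by
    intro t y hy
    have hx := (ge_pos hF t hy).2.2
    rw [abs_of_nonneg (sq_nonneg _)]
    exact pow_le_pow_left₀ (norm_nonneg _) (xi_sq L hx).2 2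
  -- integrability
  obtain ⟨hI1, -⟩ := h1 cq Lq q hq
    (fun p => inner ℝ (V (un (X w D p))) (L (un (X w D p)))) ((M + 1) * ‖L‖)
    (hmV.inner hmL) (by have := hO.mpos; positivity) hbV
  obtain ⟨hI2, -⟩ := h1 cq Lq q hq
    (fun p => ‖xi L (un (X w D p))‖ ^ 2) (‖L‖ ^ 2) (hmx.norm.pow 2) (by positivity) hbx
  obtain ⟨hI3, hQ⟩ := h1 cq Lq q hq (fun _ => (1 : ℝ)) 1 aestronglyMeasurable_const
    zero_le_one (fun _ _ _ => by rw [abs_one])
  set J := ∫ p, ‖xi L (un (X w D p))‖ ^ 2 * q p ∂(nu m) with hJ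
  set Q := ∫ p, 1 * q p ∂(nu m) with hQd
  have hJQ : c / 2 * J - ε ^ 2 / (2 * c) * Q ≤ 0 := by
    have e1 := hKW L
    have e2 : ∫ p, (c / 2 * (‖xi L (un (X w D p))‖ ^ 2 * q p) - ε ^ 2 / (2 * c) * (1 * q p))
        ∂(nu m) ≤ ∫ p, inner ℝ (V (un (X w D p))) (L (un (X w D p))) * q p ∂(nu m) := by
      refine integral_mono_ae ((hI2.const_mul _).sub (hI3.const_mul _)) hI1 ?_
      filter_upwards [hae] with p hp
      have e3 := mul_le_mul_of_nonneg_right (hpt p.1 p.2 hp.1) (hq.nonneg p.1 p.2 hp.1)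
      have e4 : c / 2 * (‖xi L (un (X w D p))‖ ^ 2 * q p) - ε ^ 2 / (2 * c) * (1 * q p) =
          (c / 2 * ‖xi L (un (X w D (p.1, p.2)))‖ ^ 2 - ε ^ 2 / (2 * c)) * q (p.1, p.2) := by
        ring
      rw [e4]
      exact e3
    rw [integral_sub (hI2.const_mul _) (hI3.const_mul _), integral_const_mul,
      integral_const_mul, e1] at e2
    exact e2
  have hQ1 : Q ≤ C1 := by
    have := (abs_le.mp hQ).2
    rwa [mul_one] at this
  have hJb : J ≤ C1 / c ^ 2 * ε ^ 2 := by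
    have e1 : c / 2 * J ≤ ε ^ 2 / (2 * c) * C1 := by
      have e2 : ε ^ 2 / (2 * c) * Q ≤ ε ^ 2 / (2 * c) * C1 :=
        mul_le_mul_of_nonneg_left hQ1 (by positivity)
      linarith
    have e3 : C1 / c ^ 2 * ε ^ 2 = 2 / c * (ε ^ 2 / (2 * c) * C1) := by
      field_simp
    have e4 : J = 2 / c * (c / 2 * J) := by
      field_simp
    rw [e3, e4]
    exact mul_le_mul_of_nonneg_left e1 (by positivity)
  have hJ0 : 0 ≤ J := by
    refine integral_nonneg_of_ae ?_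
    filter_upwards [hae] with p hp
    exact mul_nonneg (sq_nonneg _) (hq.nonneg p.1 p.2 hp.1)
  -- the size of D
  have hD : ‖D‖ ≤ K * ε ^ 2 := by
    obtain ⟨hI4, h4⟩ := h3 Lq w D q hF hq
    have e1 : ∫ p : ℝ × E m,
        (if |p.1| ≤ ‖D p.2‖ then ‖xi (Lop b μ) (un (X w D p))‖ ^ 2 else 0) * q p ∂(nu m) ≤ J := by
      refine integral_mono_ae hI4 hI2 ?_
      filter_upwards [hae] with p hp
      refine mul_le_mul_of_nonneg_right ?_ (hq.nonneg p.1 p.2 hp.1)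
      split_ifs
      · exact le_rfl
      · exact sq_nonneg _
    have e2 : c3 * ‖D‖ ≤ C1 / c ^ 2 * ε ^ 2 := (h4.trans e1).trans hJb
    have e3 : K * ε ^ 2 = (C1 / c ^ 2 * ε ^ 2) / c3 := by
      rw [hK]
      ring
    rw [e3, le_div_iff₀ hc3]
    linarith
  -- the field at w
  have hw : (‖xi L w‖ ^ 2 - 512 * ‖L‖ ^ 2 * ‖D‖ ^ 2) * (cq * v) ≤ 2 * J := by
    set e0 := ‖xi L w‖ ^ 2 - 512 * ‖L‖ ^ 2 * ‖D‖ ^ 2 with he0
    by_cases hneg : e0 ≤ 0
    · have : e0 * (cq * v) ≤ 0 := mul_nonpos_of_nonpos_of_nonneg hneg (by positivity)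
      linarith
    have hpos : 0 < e0 := not_le.mp hneg
    have e1 : ∫ p, (Icc (1 : ℝ) 2 ×ˢ (univ : Set (E m))).indicator (fun _ => e0 * cq) p ∂(nu m) ≤
        ∫ p, 2 * (‖xi L (un (X w D p))‖ ^ 2 * q p) ∂(nu m) := by
      refine integral_mono_ae ?_ (hI2.const_mul _) ?_
      · refine (integrable_indicator_iff (measurableSet_Icc.prod MeasurableSet.univ)).mpr ?_
        refine integrableOn_const ?_
        unfold nu
        rw [Measure.prod_prod, Measure.restrict_apply_univ, Real.volume_Icc]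
        exact ENNReal.mul_ne_top ENNReal.ofReal_ne_top (rg_meas m).2
      · filter_upwards [hae] with p hp
        have hq0 := hq.nonneg p.1 p.2 hp.1
        by_cases hp1 : p ∈ Icc (1 : ℝ) 2 ×ˢ (univ : Set (E m))
        · rw [indicator_of_mem hp1]
          have ht : p.1 ∈ Icc (1 : ℝ) 2 := hp1.1
          have hx := (ge_pos hF p.1 hp.1).2.2
          have hXp := (ge_pos hF p.1 hp.1).1
          have hd := ge_dist_sg hF p.1 hp.1
          have hsg : sg p.1 = 1 := by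
            unfold sg
            rw [if_pos (by linarith [ht.1])]
          rw [hsg, one_smul] at hd
          have hX1 : 1 ≤ ‖X w D (p.1, p.2)‖ := by
            have e2 := (ge_norm hF p.1 p.2).1
            have e3 : (1 : ℝ) ≤ p.1 ^ 2 := by nlinarith [ht.1]
            nlinarith [sq_nonneg ‖D p.2‖]
          have hd2 : ‖un (X w D (p.1, p.2)) - w‖ ≤ 4 * ‖D‖ := by
            refine hd.trans ?_
            have e2 : ‖D p.2‖ / ‖X w D (p.1, p.2)‖ ≤ ‖D p.2‖ :=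
              div_le_self (norm_nonneg _) hX1
            have e3 := (ge_rho_le hF hp.1).2.1
            linarith
          have hl := xi_lip L hF.nw hx
          have hl2 : ‖xi L w‖ ≤ ‖xi L (un (X w D (p.1, p.2)))‖ + 16 * ‖L‖ * ‖D‖ := by
            have e2 : ‖xi L w‖ ≤ ‖xi L (un (X w D (p.1, p.2)))‖ +
                ‖xi L w - xi L (un (X w D (p.1, p.2)))‖ := by
              have := norm_add_le (xi L (un (X w D (p.1, p.2))))
                (xi L w - xi L (un (X w D (p.1, p.2))))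
              rwa [add_sub_cancel] at this
            have e3 : 4 * ‖L‖ * ‖w - un (X w D (p.1, p.2))‖ ≤ 4 * ‖L‖ * (4 * ‖D‖) := by
              rw [norm_sub_rev]
              exact mul_le_mul_of_nonneg_left hd2 (by positivity)
            linarith
          have hsq : e0 ≤ 2 * ‖xi L (un (X w D (p.1, p.2)))‖ ^ 2 := by
            have e2 : ‖xi L w‖ ^ 2 ≤
                (‖xi L (un (X w D (p.1, p.2)))‖ + 16 * ‖L‖ * ‖D‖) ^ 2 :=
              pow_le_pow_left₀ (norm_nonneg _) hl2 2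
            rw [he0]
            nlinarith [sq_nonneg (‖xi L (un (X w D (p.1, p.2)))‖ - 16 * ‖L‖ * ‖D‖)]
          have hlow := hq.lower p.1 (by rw [abs_of_pos (by linarith [ht.1])]; exact ht.2)
            p.2 hp.1
          calc e0 * cq ≤ (2 * ‖xi L (un (X w D (p.1, p.2)))‖ ^ 2) * q (p.1, p.2) :=
                mul_le_mul hsq hlow hcq.le (by positivity)
            _ = 2 * (‖xi L (un (X w D p))‖ ^ 2 * q p) := by ring
        · rw [indicator_of_notMem hp1]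
          have : 0 ≤ ‖xi L (un (X w D p))‖ ^ 2 * q p := mul_nonneg (sq_nonneg _) hq0
          linarith
    rw [integral_indicator_const _ (measurableSet_Icc.prod MeasurableSet.univ), s1_slab,
      integral_const_mul, smul_eq_mul] at e1
    calc e0 * (cq * v) = v * (e0 * cq) := by ring
      _ ≤ 2 * J := e1
  have hD2 : ‖D‖ ^ 2 ≤ K ^ 2 * ε ^ 2 := by
    have e1 : ‖D‖ ≤ K * ε := by
      refine hD.trans ?_
      have : ε ^ 2 ≤ ε := by nlinarith
      exact mul_le_mul_of_nonneg_left this hKpos.le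
    calc ‖D‖ ^ 2 ≤ (K * ε) ^ 2 := pow_le_pow_left₀ (norm_nonneg _) e1 2
      _ = K ^ 2 * ε ^ 2 := by ring
  have hxw2 : ‖xi L w‖ ^ 2 ≤ K2 * ε ^ 2 := by
    have hcv : 0 < cq * v := by positivity
    have e1 : ‖xi L w‖ ^ 2 - 512 * ‖L‖ ^ 2 * ‖D‖ ^ 2 ≤ 2 * (C1 / c ^ 2 * ε ^ 2) / (cq * v) := by
      rw [le_div_iff₀ hcv]
      linarith
    have e2 : 512 * ‖L‖ ^ 2 * ‖D‖ ^ 2 ≤ 512 * ‖L‖ ^ 2 * (K ^ 2 * ε ^ 2) :=
      mul_le_mul_of_nonneg_left hD2 (by positivity)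
    have e3 : K2 * ε ^ 2 = 2 * (C1 / c ^ 2 * ε ^ 2) / (cq * v) +
        512 * ‖L‖ ^ 2 * (K ^ 2 * ε ^ 2) := by
      rw [hK2]
      ring
    rw [e3]
    linarith
  have hxw : ‖xi L w‖ ≤ Real.sqrt K2 * ε := by
    have e1 : Real.sqrt (K2 * ε ^ 2) = Real.sqrt K2 * ε := by
      rw [Real.sqrt_mul hK2nn, Real.sqrt_sq hε.le]
    rw [← e1]
    exact Real.le_sqrt_of_sq_le hxw2
  constructor
  · refine hD.trans (mul_le_mul_of_nonneg_right ?_ (by positivity))
    have : 0 ≤ Real.sqrt K2 / cp := by positivity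
    linarith
  · obtain ⟨i, hi⟩ := hp w hF.nw
    refine ⟨i, ?_⟩
    have e1 : cp * dd (b i) w ≤ Real.sqrt K2 * ε := hi.trans hxw
    have e2 : dd (b i) w ≤ Real.sqrt K2 / cp * ε := by
      rw [div_mul_eq_mul_div, le_div_iff₀ hcp]
      linarith
    refine e2.trans (mul_le_mul_of_nonneg_right ?_ hε.le)
    linarith

end Pool.Agent.H88.CN
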