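import Pool.Agent.H88.CN.KI
import Pool.Agent.H88.CN.LB3

/-!
# CN-S2A: the positive term

Proof.  Write `x = un (X w D p)`, `p = (t, y)`, `w' = sg t • w`, `k = ‖Pj w x‖ = ‖D y‖/‖X‖`
(`ge_pj`), `C0` from `op_near`, `L = Lop b μ`.  `Pj w' = Pj w`, `Bop b μ i w' = Bop b μ i w`,
`dd (b i) w' = dd (b i) w ≤ d`, `‖w'‖ = 1`.  Almost every `p` has `t ≠ 0`, `y ∈ Rg m`
(`int_ae`), and then `⟨x, w'⟩ > 0` (`ge_sg_pos`).  Claim: the integrand `I` satisfies
`I ≥ c (if |t| ≤ ‖D y‖ then ‖xi L x‖² else 0) - (2 M C0 / κ²) dd (b i) w k²`.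
* If `k ≤ κ`: then `I ≥ 0` by `Ob.mono` (with `w'`); and `|t| > ‖D y‖`, since `|t| ≤ ‖D y‖`
  would give `k ≥ 1/√2 > 1/2 ≥ κ`.  So the right side is `≤ 0`.
* If `k > κ`: `⟨V0 x, Bop x⟩ ≥ ⟨V0 x, L x - μ_i x⟩ - M C0 dd` (`op_near`)
  `= ⟨V0 x, xi L x⟩ - M C0 dd ≥ c ‖xi L x‖² - M C0 dd` and
  `|⟨V0 w', Bop x⟩| ≤ ‖V0 w'‖ C0 ≤ M dd C0` (`V0 (± b i) = 0` and `Ob.lip`), and `k²/κ² ≥ 1`.
Integrate (`k² = (‖D y‖/‖X‖)^2`, `ki` with `β = 2`; `lb3`):
`∫ I q ≥ c c3 ‖D‖ - (2 M C0 / κ²) dd C ‖D‖`.  Integrability of `I q`: bounded and measurable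
(`int_field`, `V0` continuous on the sphere, `sg` measurable; `int_q`).
-/

namespace Pool.Agent.H88.CN

open MeasureTheory Metric Set Pool.Agent.H35.CA

variable {m : ℕ}

theorem s2a_sg (t : ℝ) : sg t = 1 ∨ sg t = -1 := by
  unfold sg
  split_ifs
  · exact Or.inl rfl
  · exact Or.inr rfl

theorem s2a_cont {n : ℕ} {V : E n → E n} {M : ℝ} (hM : 0 < M)
    (h : ∀ u v, ‖u‖ = 1 → ‖v‖ = 1 → ‖V u - V v‖ ≤ M * ‖u - v‖) :
    ContinuousOn V (sphere 0 1) := by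
  have hl : LipschitzOnWith ⟨M, hM.le⟩ V (sphere 0 1) := by
    refine LipschitzOnWith.of_dist_le_mul ?_
    intro x hx y hy
    rw [dist_eq_norm, dist_eq_norm]
    exact h x y (by simpa using hx) (by simpa using hy)
  exact hl.continuousOn

/-- The value at `± w` is small when `w` is close to `± b i`. -/
theorem s2a_small {n : ℕ} {b : OrthonormalBasis (Fin n) ℝ (E n)}
    {μ : Fin n → ℝ} {c M κ d : ℝ}
    {V0 : E n → E n} (hO : Ob b μ c M κ d V0) (i : Fin n) {w : E n}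
    (hw : ‖w‖ = 1) : ‖V0 w‖ ≤ M * dd (b i) w := by
  unfold dd
  have hb : ‖b i‖ = 1 := b.orthonormal.1 i
  have hb' : ‖-b i‖ = 1 := by rw [norm_neg]; exact hb
  have h1 := hO.lip w (b i) hw hb
  have h2 := hO.lip w (-b i) hw hb'
  rw [(hO.crit i).1, sub_zero] at h1
  rw [(hO.crit i).2, sub_zero, sub_neg_eq_add] at h2
  rcases min_choice ‖w - b i‖ ‖w + b i‖ with h | h
  · rw [h]; exact h1
  · rw [h]; exact h2

theorem s2a_point {b : OrthonormalBasis (Fin (m + 1)) ℝ (E (m + 1))}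
    {μ : Fin (m + 1) → ℝ} {c M κ d : ℝ}
    {V0 : E (m + 1) → E (m + 1)} (hO : Ob b μ c M κ d V0) {C0 : ℝ} (hC0 : 1 ≤ C0)
    (hnear : ∀ (i : Fin (m + 1)) (w : E (m + 1)), ‖w‖ = 1 → ∀ x : E (m + 1),
      ‖Bop b μ i w x‖ ≤ C0 * ‖Pj w x‖ ∧
      ‖Bop b μ i w x - (Lop b μ x - μ i • x)‖ ≤ C0 * dd (b i) w * ‖x‖)
    {w : E (m + 1)} {D : E m →L[ℝ] E (m + 1)} (h : Fr w D) (i : Fin (m + 1))
    (hdd : dd (b i) w ≤ d) {t : ℝ} (ht : t ≠ 0) {y : E m} (hy : y ∈ Rg m) :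
    c * (if |t| ≤ ‖D y‖ then ‖xi (Lop b μ) (un (X w D (t, y)))‖ ^ 2 else 0) -
      (2 * M * C0 / κ ^ 2) * dd (b i) w * (‖D y‖ / ‖X w D (t, y)‖) ^ 2 ≤
      inner ℝ (V0 (un (X w D (t, y))) - V0 (sg t • w))
        (Bop b μ i w (un (X w D (t, y)))) := by
  set x := un (X w D (t, y)) with hxdef
  have hx1 : ‖x‖ = 1 := (ge_pos h t hy).2.2
  have hXpos : 0 < ‖X w D (t, y)‖ := (ge_pos h t hy).1
  have hk : ‖Pj w x‖ = ‖D y‖ / ‖X w D (t, y)‖ := (ge_pj h t y).2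
  have hρ : 0 < ‖D y‖ := (ge_rho_le h hy).1
  have hdn : 0 ≤ dd (b i) w := dd_nonneg _ _
  have hM := hO.mpos
  have hκ := hO.kpos
  have hC0' : 0 < C0 := lt_of_lt_of_le one_pos hC0
  set w' := sg t • w with hw'def
  have hw'n : ‖w'‖ = 1 := by
    rw [hw'def]
    rcases s2a_sg t with e | e
    · rw [e, one_smul]; exact h.nw
    · rw [e, neg_one_smul, norm_neg]; exact h.nw
  have hPj : Pj w' = Pj w := by
    rw [hw'def]
    rcases s2a_sg t with e | e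
    · rw [e, one_smul]
    · rw [e, neg_one_smul]; exact pj_neg w
  have hB : Bop b μ i w' = Bop b μ i w := by
    rw [hw'def]
    rcases s2a_sg t with e | e
    · rw [e, one_smul]
    · rw [e, neg_one_smul]; exact bop_neg b μ i w
  have hdd' : dd (b i) w' = dd (b i) w := by
    rw [hw'def]
    rcases s2a_sg t with e | e
    · rw [e, one_smul]
    · rw [e, neg_one_smul]; exact dd_neg (b i) w
  have hcoef : 0 ≤ (2 * M * C0 / κ ^ 2) := by positivity
  have hkn : 0 ≤ ‖D y‖ / ‖X w D (t, y)‖ := by positivity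
  by_cases hkk : ‖D y‖ / ‖X w D (t, y)‖ ≤ κ
  · -- close to the axis
    have h0 : 0 ≤ inner ℝ (V0 x - V0 w') (Bop b μ i w x) := by
      rw [← hB]
      refine hO.mono i w' x hw'n hx1 (by rw [hdd']; exact hdd) ?_ ?_
      · exact ge_sg_pos h ht hy
      · rw [hPj, hk]; exact hkk
    have hif : ¬ |t| ≤ ‖D y‖ := by
      intro hle
      have h1 : ‖X w D (t, y)‖ ^ 2 ≤ 2 * ‖D y‖ ^ 2 := by
        rw [(ge_norm h t y).1]
        have : t ^ 2 ≤ ‖D y‖ ^ 2 := by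
          rw [← sq_abs t]
          exact pow_le_pow_left₀ (abs_nonneg t) hle 2
        linarith
      have h2 : ‖D y‖ ≤ κ * ‖X w D (t, y)‖ := by
        rw [div_le_iff₀ hXpos] at hkk
        exact hkk
      have h3 : ‖D y‖ ≤ 1 / 2 * ‖X w D (t, y)‖ :=
        h2.trans (mul_le_mul_of_nonneg_right hO.kle hXpos.le)
      have h4 : ‖D y‖ ^ 2 ≤ (1 / 2 * ‖X w D (t, y)‖) ^ 2 := pow_le_pow_left₀ hρ.le h3 2
      have h5 : 0 < ‖D y‖ ^ 2 := by positivity
      nlinarith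
    rw [if_neg hif, mul_zero, zero_sub]
    have h6 : 0 ≤ (2 * M * C0 / κ ^ 2) * dd (b i) w * (‖D y‖ / ‖X w D (t, y)‖) ^ 2 := by
      positivity
    linarith
  · push Not at hkk
    have hnx := hnear i w h.nw x
    have hVx : ‖V0 x‖ ≤ M := hO.bd x hx1
    -- first term
    have ha : c * ‖xi (Lop b μ) x‖ ^ 2 - M * (C0 * dd (b i) w) ≤
        inner ℝ (V0 x) (Bop b μ i w x) := by
      have e1 : inner ℝ (V0 x) (Bop b μ i w x) =
          inner ℝ (V0 x) (Lop b μ x - μ i • x) +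
            inner ℝ (V0 x) (Bop b μ i w x - (Lop b μ x - μ i • x)) := by
        rw [← inner_add_right]
        congr 1
        abel
      have e2 : inner ℝ (V0 x) (Lop b μ x - μ i • x) = inner ℝ (V0 x) (xi (Lop b μ) x) :=
        (xi_inner (Lop b μ) (hO.tan x hx1) (μ i)).1
      have e3 := hO.obs x hx1
      have e4 : |inner ℝ (V0 x) (Bop b μ i w x - (Lop b μ x - μ i • x))| ≤
          M * (C0 * dd (b i) w) := by
        refine (abs_real_inner_le_norm _ _).trans ?_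
        have e5 := hnx.2
        rw [hx1, mul_one] at e5
        exact mul_le_mul hVx e5 (norm_nonneg _) hM.le
      have e6 := (abs_le.mp e4).1
      rw [e1, e2]
      linarith
    have hb : |inner ℝ (V0 w') (Bop b μ i w x)| ≤ M * (C0 * dd (b i) w) := by
      refine (abs_real_inner_le_norm _ _).trans ?_
      have e1 : ‖V0 w'‖ ≤ M * dd (b i) w := by
        rw [← hdd']
        exact s2a_small hO i hw'n
      have e2 : ‖Bop b μ i w x‖ ≤ C0 := by
        refine hnx.1.trans ?_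
        have := (ge_pj_sq h.nw hx1).2
        calc C0 * ‖Pj w x‖ ≤ C0 * 1 := mul_le_mul_of_nonneg_left this hC0'.le
          _ = C0 := mul_one _
      calc ‖V0 w'‖ * ‖Bop b μ i w x‖ ≤ (M * dd (b i) w) * C0 :=
            mul_le_mul e1 e2 (norm_nonneg _) (by positivity)
        _ = M * (C0 * dd (b i) w) := by ring
    have hc : c * (if |t| ≤ ‖D y‖ then ‖xi (Lop b μ) x‖ ^ 2 else 0) ≤
        c * ‖xi (Lop b μ) x‖ ^ 2 := by
      refine mul_le_mul_of_nonneg_left ?_ hO.cpos.le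
      split_ifs
      · exact le_rfl
      · positivity
    have hd : 2 * M * C0 * dd (b i) w ≤
        (2 * M * C0 / κ ^ 2) * dd (b i) w * (‖D y‖ / ‖X w D (t, y)‖) ^ 2 := by
      have e1 : κ ^ 2 ≤ (‖D y‖ / ‖X w D (t, y)‖) ^ 2 := pow_le_pow_left₀ hκ.le hkk.le 2
      have e2 : (2 * M * C0 / κ ^ 2) * dd (b i) w * κ ^ 2 = 2 * M * C0 * dd (b i) w := by
        field_simp
      rw [← e2]
      exact mul_le_mul_of_nonneg_left e1 (by positivity)
    rw [inner_sub_left]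
    have hb' := (abs_le.mp hb).2
    nlinarith

theorem s2a (hm : 1 ≤ m) {b : OrthonormalBasis (Fin (m + 1)) ℝ (E (m + 1))}
    {μ : Fin (m + 1) → ℝ} (hμ : Function.Injective μ) {c M κ d : ℝ}
    {V0 : E (m + 1) → E (m + 1)} (hO : Ob b μ c M κ d V0) {cq : ℝ} (hcq : 0 < cq) :
    ∃ c2 C : ℝ, 0 < c2 ∧ 0 < C ∧ ∀ (Lq : ℝ) (w : E (m + 1)) (D : E m →L[ℝ] E (m + 1))
    (q : ℝ × E m → ℝ), Fr w D → Dn cq Lq q → ∀ i, dd (b i) w ≤ d →
    Integrable (fun p : ℝ × E m => inner ℝ (V0 (un (X w D p)) - V0 (sg p.1 • w))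
      (Bop b μ i w (un (X w D p))) * q p) (nu m) ∧
    c2 * ‖D‖ - C * dd (b i) w * ‖D‖ ≤ ∫ p : ℝ × E m,
      inner ℝ (V0 (un (X w D p)) - V0 (sg p.1 • w)) (Bop b μ i w (un (X w D p))) * q p
        ∂(nu m) := by
  obtain ⟨C0, hC0, hnear⟩ := op_near b μ
  obtain ⟨C1, hC1, hki⟩ := ki m (β := 2) (by norm_num)
  obtain ⟨c3, hc3, hlb⟩ := lb3 hm b hμ hcq
  obtain ⟨Cq, hCq, hint⟩ := int_q m
  have hM := hO.mpos
  have hκ := hO.kpos
  have hcp := hO.cpos
  have hC0' : 0 < C0 := lt_of_lt_of_le one_pos hC0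
  refine ⟨c * c3, (2 * M * C0 / κ ^ 2) * C1, by positivity, by positivity, ?_⟩
  intro Lq w D q hF hD i hdd
  have hdn : 0 ≤ dd (b i) w := dd_nonneg _ _
  -- integrability
  have hV0c : ContinuousOn V0 (sphere 0 1) := s2a_cont hM hO.lip
  have m1 : AEStronglyMeasurable (fun p : ℝ × E m => V0 (un (X w D p))) (nu m) :=
    (int_field hF hV0c).2
  have m2 : AEStronglyMeasurable (fun p : ℝ × E m => Bop b μ i w (un (X w D p))) (nu m) :=
    (int_field hF (V := fun v => Bop b μ i w v) (Bop b μ i w).continuous.continuousOn).2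
  have m3 : AEStronglyMeasurable (fun p : ℝ × E m => V0 (sg p.1 • w)) (nu m) := by
    have e : (fun p : ℝ × E m => V0 (sg p.1 • w)) =
        fun p : ℝ × E m => if 0 < p.1 then V0 w else V0 (-w) := by
      funext p
      unfold sg
      split_ifs
      · rw [one_smul]
      · rw [neg_one_smul]
    rw [e]
    exact (StronglyMeasurable.ite (measurableSet_lt measurable_const measurable_fst)
      stronglyMeasurable_const stronglyMeasurable_const).aestronglyMeasurable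
  have hmeas : AEStronglyMeasurable (fun p : ℝ × E m =>
      (inner ℝ (V0 (un (X w D p)) - V0 (sg p.1 • w)) (Bop b μ i w (un (X w D p))) : ℝ))
      (nu m) := (m1.sub m3).inner m2
  have hbd : ∀ t, ∀ y ∈ Rg m, |(fun p : ℝ × E m =>
      (inner ℝ (V0 (un (X w D p)) - V0 (sg p.1 • w)) (Bop b μ i w (un (X w D p))) : ℝ)) (t, y)|
      ≤ 2 * M * C0 := by
    intro t y hy
    have hx1 : ‖un (X w D (t, y))‖ = 1 := (ge_pos hF t hy).2.2
    have hw1 : ‖sg t • w‖ = 1 := by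
      rcases s2a_sg t with e | e
      · rw [e, one_smul]; exact hF.nw
      · rw [e, neg_one_smul, norm_neg]; exact hF.nw
    refine (abs_real_inner_le_norm _ _).trans ?_
    refine mul_le_mul ?_ ?_ (norm_nonneg _) (by positivity)
    · refine (norm_sub_le _ _).trans ?_
      have e1 := hO.bd _ hx1
      have e2 := hO.bd _ hw1
      linarith
    · refine (hnear i w hF.nw _).1.trans ?_
      have := (ge_pj_sq hF.nw hx1).2
      calc C0 * ‖Pj w (un (X w D (t, y)))‖ ≤ C0 * 1 := mul_le_mul_of_nonneg_left this hC0'.le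
        _ = C0 := mul_one _
  have hI := (hint cq Lq q hD _ (2 * M * C0) hmeas (by positivity) hbd).1
  refine ⟨hI, ?_⟩
  obtain ⟨hl1, hl2⟩ := hlb Lq w D q hF hD
  obtain ⟨hk1, hk2⟩ := hki cq Lq w D q hF hD
  -- the lower function
  have hLI : Integrable (fun p : ℝ × E m =>
      c * ((if |p.1| ≤ ‖D p.2‖ then ‖xi (Lop b μ) (un (X w D p))‖ ^ 2 else 0) * q p) -
      ((2 * M * C0 / κ ^ 2) * dd (b i) w) * ((‖D p.2‖ / ‖X w D p‖) ^ (2 : ℝ) * q p)) (nu m) :=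
    (hl1.const_mul c).sub (hk1.const_mul ((2 * M * C0 / κ ^ 2) * dd (b i) w))
  have hmono := integral_mono_ae hLI hI (by
    filter_upwards [int_ae m] with p hp
    obtain ⟨t, y⟩ := p
    have hpt := s2a_point hO hC0 hnear hF i hdd (t := t) hp.2 (y := y) hp.1
    have hq : 0 ≤ q (t, y) := hD.nonneg t y hp.1
    have := mul_le_mul_of_nonneg_right hpt hq
    have e2 : ((‖D y‖ / ‖X w D (t, y)‖) ^ (2 : ℝ) : ℝ) = (‖D y‖ / ‖X w D (t, y)‖) ^ 2 := by
      rw [show (2 : ℝ) = ((2 : ℕ) : ℝ) by norm_num, Real.rpow_natCast]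
    simp only [e2]
    refine le_trans (le_of_eq ?_) this
    ring)
  rw [integral_sub (hl1.const_mul c) (hk1.const_mul ((2 * M * C0 / κ ^ 2) * dd (b i) w)),
    integral_const_mul, integral_const_mul] at hmono
  refine le_trans ?_ hmono
  have hA : c * (c3 * ‖D‖) ≤ c * ∫ p : ℝ × E m,
      (if |p.1| ≤ ‖D p.2‖ then ‖xi (Lop b μ) (un (X w D p))‖ ^ 2 else 0) * q p ∂(nu m) :=
    mul_le_mul_of_nonneg_left hl2 hcp.le
  have hB : ((2 * M * C0 / κ ^ 2) * dd (b i) w) *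
      (∫ p : ℝ × E m, (‖D p.2‖ / ‖X w D p‖) ^ (2 : ℝ) * q p ∂(nu m)) ≤
      ((2 * M * C0 / κ ^ 2) * dd (b i) w) * (C1 * ‖D‖) :=
    mul_le_mul_of_nonneg_left hk2 (by positivity)
  have e3 : c * c3 * ‖D‖ = c * (c3 * ‖D‖) := by ring
  have e4 : (2 * M * C0 / κ ^ 2) * C1 * dd (b i) w * ‖D‖ =
      ((2 * M * C0 / κ ^ 2) * dd (b i) w) * (C1 * ‖D‖) := by ring
  rw [e3, e4]
  linarith

end Pool.Agent.H88.CN
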